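import Pool.Agent.MP_ca1109_lc.Mon.Defs

/-!
# Small sets are not stable under noise
-/

namespace Pool.Agent.MP_ca1109_lc.Mon

open Pool.Agent.MP_ca1109_lc.Mpg Pool.Agent.MP_ca1109_lc.Hyb Finset

variable {n : ℕ}

/-- The level inequality. -/
theorem level {f : (Fin n → Bool) → ℝ} (hf : ∀ x, f x * f x = f x) (k : ℕ) :
    (∑ S : Finset (Fin n), if S.card ≤ k then wc f S ^ 2 else 0) ^ 2 ≤ 9 ^ k * avg f ^ 3 := by
  classical
  set c : Finset (Fin n) → ℝ := fun S => if S.card ≤ k then wc f S else 0 with hc
  set g : (Fin n → Bool) → ℝ := fun x => ∑ S, c S * ch S x with hg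
  set G : ℝ := ∑ S, c S ^ 2 with hG
  have hGG : (∑ S : Finset (Fin n), if S.card ≤ k then wc f S ^ 2 else 0) = G := by
    refine Finset.sum_congr rfl fun S _ => ?_
    simp only [hc]
    split_ifs <;> simp
  have h1 : avg (fun x => g x ^ 2) = G := avg_sq_walsh c
  have h2 : avg (fun x => f x * g x) = G := by
    have e : (fun x => f x * g x) = fun x => ∑ S, c S * (f x * ch S x) := by
      funext x
      simp only [hg]
      rw [Finset.mul_sum]
      exact Finset.sum_congr rfl fun S _ => by ring
    rw [e, avg_sum]
    refine Finset.sum_congr rfl fun S _ => ?_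
    have e2 : avg (fun x => c S * (f x * ch S x)) = c S * avg (fun x => f x * ch S x) :=
      avg_mul_left _ _
    rw [show avg ((fun S x => c S * (f x * ch S x)) S) = _ from e2]
    have e3 : avg (fun x => f x * ch S x) = wc f S := rfl
    rw [e3]
    simp only [hc]
    split_ifs
    · ring
    · ring
  have hlow : g ∈ lowDeg (Fin n) Bool ℝ k := by
    refine walsh_mem fun S hS => ?_
    simp only [hc]
    rw [if_neg (by omega)]
  have h3 : avg (fun x => g x ^ 4) ≤ 9 ^ k * G ^ 2 := by
    rw [← h1]
    exact hyper hlow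
  have h4 : G ^ 2 ≤ avg f * avg (fun x => f x * g x ^ 2) := by
    have := b1_cs f (fun x => f x * g x)
    have e1 : (fun a => f a * (f a * g a)) = fun a => f a * g a := by
      funext a; rw [← mul_assoc, hf]
    have e2 : (fun a => f a ^ 2) = f := by
      funext a; rw [sq, hf]
    have e3 : (fun a => (f a * g a) ^ 2) = fun a => f a * g a ^ 2 := by
      funext a; rw [mul_pow, sq (f a), hf]
    rw [e1, e2, e3, h2] at this
    exact this
  have h5 : avg (fun x => f x * g x ^ 2) ^ 2 ≤ avg f * (9 ^ k * G ^ 2) := by
    have := b1_cs f (fun x => g x ^ 2)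
    have e2 : (fun a => f a ^ 2) = f := by
      funext a; rw [sq, hf]
    have e3 : (fun a => (g a ^ 2) ^ 2) = fun a => g a ^ 4 := by
      funext a; ring
    have h0 : 0 ≤ avg f := avg_nonneg fun x => by rw [← hf]; exact mul_self_nonneg _
    rw [e2, e3] at this
    exact this.trans (mul_le_mul_of_nonneg_left h3 h0)
  have h0 : 0 ≤ avg f := avg_nonneg fun x => by rw [← hf]; exact mul_self_nonneg _
  have h6 : 0 ≤ avg (fun x => f x * g x ^ 2) := avg_nonneg fun x =>
    mul_nonneg (by rw [← hf]; exact mul_self_nonneg _) (sq_nonneg _)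
  rw [hGG]
  have hG0 : 0 ≤ G := Finset.sum_nonneg fun S _ => sq_nonneg _
  rcases hG0.eq_or_lt with h | h
  · rw [← h]
    simp only [ne_eq, OfNat.ofNat_ne_zero, not_false_eq_true, zero_pow]
    positivity
  · have h7 : (G ^ 2) ^ 2 ≤ (avg f) ^ 2 * (avg f * (9 ^ k * G ^ 2)) := by
      calc (G ^ 2) ^ 2 ≤ (avg f * avg (fun x => f x * g x ^ 2)) ^ 2 :=
            pow_le_pow_left₀ (sq_nonneg _) h4 2
        _ = (avg f) ^ 2 * (avg (fun x => f x * g x ^ 2)) ^ 2 := by ring
        _ ≤ _ := mul_le_mul_of_nonneg_left h5 (sq_nonneg _)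
    have h8 : G ^ 2 * G ^ 2 ≤ (9 ^ k * avg f ^ 3) * G ^ 2 := by nlinarith
    exact le_of_mul_le_mul_right h8 (by positivity)

/-- The average of a Walsh function over the coordinates in `W`. -/
theorem avA_ch (W S : Finset (Fin n)) (x : Fin n → Bool) :
    avA W (ch S) x = if Disjoint S W then ch S x else 0 := by
  classical
  split_ifs with h
  · unfold avA
    have : ∀ u : Fin n → Bool, ch S (fun i => if i ∈ W then u i else x i) = ch S x := by
      intro u
      unfold ch
      refine Finset.prod_congr rfl fun i hi => ?_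
      show sg (if i ∈ W then u i else x i) = sg (x i)
      rw [if_neg (Finset.disjoint_left.1 h hi)]
    simp only [this]
    exact avg_const _
  · obtain ⟨i0, hS, hW⟩ := Finset.not_disjoint_iff.1 h
    have hinv : Function.Involutive (fun u : Fin n → Bool => Function.update u i0 (!u i0)) := by
      intro u
      funext i
      by_cases hi : i = i0
      · subst hi; simp
      · simp [hi]
    have h1 := avg_equiv hinv.toPerm (fun u : Fin n → Bool =>
      ch S (fun i => if i ∈ W then u i else x i))
    have h2 : ∀ u : Fin n → Bool, ch S (fun i => if i ∈ W then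
        (Function.update u i0 (!u i0)) i else x i) = - ch S (fun i => if i ∈ W then u i else x i) := by
      intro u
      show ∏ i ∈ S, sg (if i ∈ W then (Function.update u i0 (!u i0)) i else x i) =
        - ∏ i ∈ S, sg (if i ∈ W then u i else x i)
      rw [← Finset.mul_prod_erase S _ hS, ← Finset.mul_prod_erase S _ hS]
      have h3 : ∏ i ∈ S.erase i0, sg (if i ∈ W then (Function.update u i0 (!u i0)) i else x i) =
          ∏ i ∈ S.erase i0, sg (if i ∈ W then u i else x i) := by
        refine Finset.prod_congr rfl fun i hi => ?_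
        rw [Function.update_of_ne (Finset.ne_of_mem_erase hi)]
      rw [h3, if_pos hW, if_pos hW, Function.update_self]
      cases u i0 <;> simp [sg]
    have h3 : avg (fun u : Fin n → Bool => ch S (fun i => if i ∈ W then u i else x i)) =
        -1 * avg (fun u : Fin n → Bool => ch S (fun i => if i ∈ W then u i else x i)) := by
      rw [← avg_mul_left]
      refine h1.symm.trans ?_
      congr 1
      funext u
      show ch S (fun i => if i ∈ W then (Function.update u i0 (!u i0)) i else x i) = _
      rw [h2 u]; ring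
    unfold avA
    linarith

/-- The probability that both points of a pair are in a set. -/
theorem pair_walsh (W : Finset (Fin n)) (f : (Fin n → Bool) → ℝ) :
    avg (fun x => f x * avA W f x) = ∑ S, if Disjoint S W then wc f S ^ 2 else 0 := by
  classical
  have h1 : ∀ x, avA W f x = ∑ S, wc f S * (if Disjoint S W then ch S x else 0) := by
    intro x
    have e : avA W f x = avg (fun u : Fin n → Bool =>
        ∑ S, wc f S * ch S (fun i => if i ∈ W then u i else x i)) := by
      unfold avA
      congr 1
      funext u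
      exact walsh_expand f _
    rw [e, avg_sum]
    refine Finset.sum_congr rfl fun S _ => ?_
    rw [← avA_ch W S x]
    exact avg_mul_left _ _
  have h2 : (fun x => f x * avA W f x) =
      fun x => ∑ S, (if Disjoint S W then wc f S else 0) * (f x * ch S x) := by
    funext x
    rw [h1 x, Finset.mul_sum]
    refine Finset.sum_congr rfl fun S _ => ?_
    split_ifs <;> ring
  rw [h2, avg_sum]
  refine Finset.sum_congr rfl fun S _ => ?_
  have e2 : avg (fun x => (if Disjoint S W then wc f S else 0) * (f x * ch S x)) =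
      (if Disjoint S W then wc f S else 0) * avg (fun x => f x * ch S x) := avg_mul_left _ _
  refine e2.trans ?_
  have e3 : avg (fun x => f x * ch S x) = wc f S := rfl
  rw [e3]
  split_ifs <;> ring

/-- The probability that a random block does not meet a set. -/
theorem avoid {D : ℕ} (hD : 0 < D) (t : Fin D) (S : Finset (Fin n)) :
    avg (fun b : Fin n → Fin D => if ∀ i ∈ S, b i ≠ t then (1 : ℝ) else 0) =
      (1 - 1 / (D : ℝ)) ^ S.card := by
  classical
  have hD' : (D : ℝ) ≠ 0 := by exact_mod_cast hD.ne'
  have h1 : ∀ b : Fin n → Fin D, (if ∀ i ∈ S, b i ≠ t then (1 : ℝ) else 0) =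
      ∏ i, (if i ∈ S ∧ b i = t then (0 : ℝ) else 1) := by
    intro b
    split_ifs with h
    · symm
      refine Finset.prod_eq_one fun i _ => ?_
      rw [if_neg]
      rintro ⟨h2, h3⟩
      exact h i h2 h3
    · push Not at h
      obtain ⟨i, hi, hb⟩ := h
      symm
      exact Finset.prod_eq_zero (Finset.mem_univ i) (if_pos ⟨hi, hb⟩)
  have h2 : ∑ b : Fin n → Fin D, (if ∀ i ∈ S, b i ≠ t then (1 : ℝ) else 0) =
      ∏ i : Fin n, ∑ c : Fin D, (if i ∈ S ∧ c = t then (0 : ℝ) else 1) := by
    rw [Finset.prod_univ_sum, Fintype.piFinset_univ]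
    exact Finset.sum_congr rfl fun b _ => h1 b
  have h3 : ∀ i : Fin n, ∑ c : Fin D, (if i ∈ S ∧ c = t then (0 : ℝ) else 1) =
      (D : ℝ) * (if i ∈ S then (1 - 1 / (D : ℝ)) else 1) := by
    intro i
    by_cases hi : i ∈ S
    · simp only [hi, true_and, if_true]
      have h4 : ∀ c : Fin D, (if c = t then (0 : ℝ) else 1) = 1 - if c = t then 1 else 0 := by
        intro c; split_ifs <;> ring
      simp only [h4, Finset.sum_sub_distrib, Finset.sum_ite_eq', Finset.mem_univ, if_true,
        Finset.sum_const, Finset.card_univ, Fintype.card_fin, nsmul_eq_mul, mul_one]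
      field_simp
    · simp [hi]
  unfold avg
  rw [h2]
  simp only [h3]
  rw [Finset.prod_mul_distrib, Finset.prod_const, Finset.prod_ite_mem, Finset.univ_inter,
    Finset.prod_const]
  simp only [Finset.card_univ, Fintype.card_fin, Fintype.card_pi, Finset.prod_const, Nat.cast_pow]
  field_simp

end Pool.Agent.MP_ca1109_lc.Mon
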