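import Pool.Agent.MP_ca1109_lc.Mon.A1

/-!
# Boxes
-/

namespace Pool.Agent.MP_ca1109_lc.Mon

open Pool.Agent.MP_ca1109_lc.Mpg Pool.Agent.MP_ca1109_lc.Hyb Finset

variable {n D : ℕ}

/-- The vertex `ω` of the box with the corners `x` and `y`. -/
def vx (b : Fin n → Fin D) (ω : Fin D → Bool) (x y : Fin n → Bool) : Fin n → Bool :=
  fun i => if ω (b i) then y i else x i

/-- The alternating sum over the vertices of a box vanishes. -/
theorem box_identity {Γ : Type*} [AddCommGroup Γ] {d : ℕ} {P : (Fin n → Bool) → Γ}
    (hP : P ∈ lowDeg (Fin n) Bool Γ d) (hD : d < D) (b : Fin n → Fin D) (x y : Fin n → Bool) :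
    ∑ ω : Fin D → Bool, (∏ t, (if ω t then (-1 : ℤ) else 1)) • P (vx b ω x y) = 0 := by
  classical
  refine lowDeg_induction (p := fun P =>
    ∑ ω : Fin D → Bool, (∏ t, (if ω t then (-1 : ℤ) else 1)) • P (vx b ω x y) = 0) hP ?_ ?_ ?_ ?_
  · intro g T hT hg
    have h1 : ∃ t : Fin D, ∀ i ∈ T, b i ≠ t := by
      by_contra hcon
      push Not at hcon
      have h2 : (univ : Finset (Fin D)) ⊆ T.image b := by
        intro t _
        obtain ⟨i, hi, hb⟩ := hcon t
        exact Finset.mem_image.2 ⟨i, hi, hb⟩
      have h3 := (Finset.card_le_card h2).trans Finset.card_image_le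
      rw [Finset.card_univ, Fintype.card_fin] at h3
      omega
    obtain ⟨t, ht⟩ := h1
    refine Finset.sum_involution (fun ω _ => Function.update ω t (!ω t)) ?_ ?_ ?_ ?_
    · intro ω _
      have h4 : g (vx b (Function.update ω t (!ω t)) x y) = g (vx b ω x y) := by
        refine hg fun i hi => ?_
        show (if (Function.update ω t (!ω t)) (b i) then y i else x i) = if ω (b i) then y i else x i
        rw [Function.update_of_ne (ht i hi)]
      have h5 : (∏ s, (if (Function.update ω t (!ω t)) s then (-1 : ℤ) else 1)) =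
          - ∏ s, (if ω s then (-1 : ℤ) else 1) := by
        rw [← Finset.mul_prod_erase univ _ (Finset.mem_univ t),
          ← Finset.mul_prod_erase univ (fun s => if ω s then (-1 : ℤ) else 1) (Finset.mem_univ t)]
        have h6 : ∏ s ∈ univ.erase t, (if (Function.update ω t (!ω t)) s then (-1 : ℤ) else 1) =
            ∏ s ∈ univ.erase t, (if ω s then (-1 : ℤ) else 1) := by
          refine Finset.prod_congr rfl fun s hs => ?_
          rw [Function.update_of_ne (Finset.ne_of_mem_erase hs)]
        rw [h6, Function.update_self]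
        cases ω t <;> simp
      rw [h4, h5, neg_smul, add_neg_cancel]
    · intro ω _ _ hcon
      have := congrFun hcon t
      rw [Function.update_self] at this
      cases h : ω t <;> simp [h] at this
    · intro ω _
      exact Finset.mem_univ _
    · intro ω _
      funext s
      by_cases hs : s = t
      · subst hs; simp
      · simp [hs]
  · simp
  · intro f g hf hg
    simp only [Pi.add_apply, smul_add, Finset.sum_add_distrib, hf, hg, add_zero]
  · intro f hf
    simp only [Pi.neg_apply, smul_neg, Finset.sum_neg_distrib, hf, neg_zero]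

/-- If `P` vanishes at all vertices but one then it vanishes at this vertex, too. -/
theorem box_unique {Γ : Type*} [AddCommGroup Γ] {d : ℕ} {P : (Fin n → Bool) → Γ}
    (hP : P ∈ lowDeg (Fin n) Bool Γ d) (hD : d < D) (b : Fin n → Fin D) (x y : Fin n → Bool)
    (ω₀ : Fin D → Bool) (h : ∀ ω, ω ≠ ω₀ → P (vx b ω x y) = 0) : P (vx b ω₀ x y) = 0 := by
  classical
  have h1 := box_identity hP hD b x y
  rw [Finset.sum_eq_single_of_mem ω₀ (Finset.mem_univ _)] at h1
  · have h2 : (∏ t, (if ω₀ t then (-1 : ℤ) else 1)) = 1 ∨
        (∏ t, (if ω₀ t then (-1 : ℤ) else 1)) = -1 := by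
      refine Finset.prod_induction _ (fun z => z = 1 ∨ z = -1) ?_ (Or.inl rfl) ?_
      · rintro a c (rfl | rfl) (rfl | rfl) <;> simp
      · intro t _
        split_ifs
        · exact Or.inr rfl
        · exact Or.inl rfl
    rcases h2 with h2 | h2
    · rwa [h2, one_smul] at h1
    · rwa [h2, neg_smul, one_smul, neg_eq_zero] at h1
  · intro ω _ hω
    rw [h ω hω, smul_zero]

theorem avg_comm {A B : Type*} [Fintype A] [Fintype B] (f : A → B → ℝ) :
    avg (fun a => avg fun b => f a b) = avg (fun b => avg fun a => f a b) := by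
  rw [← avg_prod f, ← avg_prod (fun b a => f a b)]
  exact avg_equiv (Equiv.prodComm A B) (fun p : B × A => f p.2 p.1)

/-- Cauchy-Schwarz for a pair of points. -/
theorem sq_le_pair (W : Finset (Fin n)) (f : (Fin n → Bool) → ℝ) :
    avg f ^ 2 ≤ avg (fun x => f x * avA W f x) := by
  have h1 := dev_orth W f (avA W f) (avA_indep W)
  have h2 : avg (fun x => f x * avA W f x) = avg (fun x => avA W f x ^ 2) := by
    have e : (fun x => (f x - avA W f x) * avA W f x) =
        fun x => f x * avA W f x - avA W f x ^ 2 := by
      funext x; ring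
    rw [e, avg_sub (fun x => f x * avA W f x) (fun x => avA W f x ^ 2)] at h1
    linarith
  rw [h2, ← avA_avg W f]
  exact b2b_cs _

section count

variable (b : Fin n → Fin D) (L : (Fin n → Bool) → Prop)

/-- All vertices with support in the first `j` blocks are in `L`. -/
def EE (j : ℕ) (x y : Fin n → Bool) : Prop :=
  ∀ ω : Fin D → Bool, (∀ t : Fin D, j ≤ t → ω t = false) → L (vx b ω x y)

theorem EE_zero (x y : Fin n → Bool) : EE b L 0 x y ↔ L x := by
  constructor
  · intro h
    have := h (fun _ => false) (fun _ _ => rfl)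
    exact this
  · intro h ω hω
    have : vx b ω x y = x := by
      funext i
      show (if ω (b i) then y i else x i) = x i
      rw [hω _ (Nat.zero_le _)]
      rfl
    rwa [this]

theorem EE_last (x y : Fin n → Bool) : EE b L D x y ↔ ∀ ω, L (vx b ω x y) := by
  constructor
  · intro h ω
    exact h ω fun t ht => absurd t.2 (by omega)
  · intro h ω _
    exact h ω

/-- replace the coordinates in the block `t` -/
def rp (t : Fin D) (x y : Fin n → Bool) : Fin n → Bool :=
  fun i => if i ∈ univ.filter (fun i => b i = t) then y i else x i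

theorem EE_succ {j : ℕ} (hj : j < D) (x y : Fin n → Bool) :
    EE b L (j + 1) x y ↔ EE b L j x y ∧ EE b L j (rp b ⟨j, hj⟩ x y) y := by
  classical
  constructor
  · intro h
    refine ⟨fun ω hω => h ω fun t ht => hω t (by omega), fun ω hω => ?_⟩
    have h1 := h (Function.update ω ⟨j, hj⟩ true) (fun t ht => by
      rw [Function.update_of_ne]
      · exact hω t (by omega)
      · intro hcon
        rw [hcon] at ht
        simp at ht)
    have h2 : vx b (Function.update ω ⟨j, hj⟩ true) x y = vx b ω (rp b ⟨j, hj⟩ x y) y := by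
      funext i
      show (if (Function.update ω ⟨j, hj⟩ true) (b i) then y i else x i) =
        if ω (b i) then y i else (if i ∈ univ.filter (fun i => b i = ⟨j, hj⟩) then y i else x i)
      by_cases hb : b i = ⟨j, hj⟩
      · rw [hb, Function.update_self, if_pos rfl]
        simp [hb]
      · rw [Function.update_of_ne hb]
        simp [hb]
    rwa [h2] at h1
  · rintro ⟨h1, h2⟩ ω hω
    by_cases hj' : ω ⟨j, hj⟩ = true
    · have h3 := h2 (Function.update ω ⟨j, hj⟩ false) (fun t ht => by
        by_cases ht' : t = ⟨j, hj⟩
        · rw [ht', Function.update_self]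
        · rw [Function.update_of_ne ht']
          refine hω t ?_
          have : (t : ℕ) ≠ j := fun h => ht' (Fin.ext h)
          omega)
      have h4 : vx b (Function.update ω ⟨j, hj⟩ false) (rp b ⟨j, hj⟩ x y) y = vx b ω x y := by
        funext i
        show (if (Function.update ω ⟨j, hj⟩ false) (b i) then y i else
          (if i ∈ univ.filter (fun i => b i = ⟨j, hj⟩) then y i else x i)) =
            if ω (b i) then y i else x i
        by_cases hb : b i = ⟨j, hj⟩
        · rw [hb, Function.update_self, hj']
          simp [hb]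
        · rw [Function.update_of_ne hb]
          simp [hb]
      rwa [h4] at h3
    · refine h1 ω fun t ht => ?_
      by_cases ht' : t = ⟨j, hj⟩
      · rw [ht']
        simpa using hj'
      · refine hω t ?_
        have : (t : ℕ) ≠ j := fun h => ht' (Fin.ext h)
        omega

theorem EE_indep {j : ℕ} (hj : j < D) (x y u : Fin n → Bool) :
    EE b L j x (rp b ⟨j, hj⟩ y u) ↔ EE b L j x y := by
  have h : ∀ ω : Fin D → Bool, (∀ t : Fin D, j ≤ t → ω t = false) →
      vx b ω x (rp b ⟨j, hj⟩ y u) = vx b ω x y := by
    intro ω hω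
    funext i
    show (if ω (b i) then (if i ∈ univ.filter (fun i => b i = ⟨j, hj⟩) then u i else y i)
      else x i) = if ω (b i) then y i else x i
    by_cases hb : b i = ⟨j, hj⟩
    · rw [hb, hω _ (le_refl _)]
      rfl
    · simp [hb]
  constructor
  · intro h1 ω hω
    rw [← h ω hω]
    exact h1 ω hω
  · intro h1 ω hω
    rw [h ω hω]
    exact h1 ω hω

open Classical in
/-- the indicator function -/
noncomputable def gg (j : ℕ) (y x : Fin n → Bool) : ℝ := if EE b L j x y then 1 else 0

theorem count_step {j : ℕ} (hj : j < D) :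
    avg (fun y => avg fun x => gg b L j y x) ^ 2 ≤ avg (fun y => avg fun x => gg b L (j + 1) y x) := by
  classical
  set t : Fin D := ⟨j, hj⟩ with ht
  set W : Finset (Fin n) := univ.filter (fun i => b i = t) with hW
  have h1 : ∀ y x, gg b L (j + 1) y x = gg b L j y x * gg b L j y (rp b t x y) := by
    intro y x
    unfold gg
    rw [EE_succ b L hj]
    by_cases h2 : EE b L j x y
    · by_cases h3 : EE b L j (rp b ⟨j, hj⟩ x y) y
      · rw [if_pos ⟨h2, h3⟩, if_pos h2, if_pos h3, mul_one]
      · rw [if_neg (fun h => h3 h.2), if_neg h3, mul_zero]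
    · rw [if_neg (fun h => h2 h.1), if_neg h2, zero_mul]
  set H : (Fin n → Bool) → ℝ := fun y => avg fun x => gg b L (j + 1) y x with hH
  have h2 : avg H = avg (fun y => avg fun x => gg b L j y x * avA W (gg b L j y) x) := by
    rw [← avA_avg W H]
    congr 1
    funext y
    show avg (fun u : Fin n → Bool => H (rp b t y u)) = _
    have h3 : ∀ u : Fin n → Bool, H (rp b t y u) =
        avg fun x => gg b L j y x * gg b L j y (rp b t x u) := by
      intro u
      simp only [hH, h1]
      congr 1
      funext x
      have e1 : ∀ z, gg b L j (rp b t y u) z = gg b L j y z := by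
        intro z
        unfold gg
        rw [EE_indep b L hj]
      have e2 : rp b t x (rp b t y u) = rp b t x u := by
        funext i
        show (if i ∈ W then (if i ∈ W then u i else y i) else x i) = if i ∈ W then u i else x i
        split_ifs <;> rfl
      rw [e1, e1, e2]
    simp only [h3]
    rw [avg_comm]
    congr 1
    funext x
    exact avg_mul_left _ _
  rw [h2]
  calc avg (fun y => avg fun x => gg b L j y x) ^ 2
      ≤ avg (fun y => (avg fun x => gg b L j y x) ^ 2) := b2b_cs _
    _ ≤ _ := avg_mono fun y => sq_le_pair W _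

/-- Counting boxes. -/
theorem count : pr L ^ (2 ^ D) ≤ pr (fun p : (Fin n → Bool) × (Fin n → Bool) =>
    ∀ ω, L (vx b ω p.2 p.1)) := by
  classical
  have h0 : ∀ j y x, 0 ≤ gg b L j y x := by
    intro j y x
    unfold gg
    split_ifs <;> norm_num
  have h1 : ∀ j ≤ D, pr L ^ (2 ^ j) ≤ avg (fun y => avg fun x => gg b L j y x) := by
    intro j hj
    induction j with
    | zero =>
      have : ∀ y : Fin n → Bool, (avg fun x => gg b L 0 y x) = pr L := by
        intro y
        unfold pr gg
        congr 1
        funext x
        simp only [EE_zero]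
      simp only [this, avg_const, pow_zero, pow_one, le_refl]
    | succ j ih =>
      have h2 := ih (by omega)
      rw [pow_succ, pow_mul]
      exact (pow_le_pow_left₀ (pow_nonneg (pr_nonneg _) _) h2 2).trans (count_step b L (by omega))
  have h2 := h1 D le_rfl
  refine h2.trans (le_of_eq ?_)
  unfold pr
  rw [← avg_prod]
  congr 1
  funext p
  show (if EE b L D p.2 p.1 then (1 : ℝ) else 0) = _
  by_cases h3 : ∀ ω, L (vx b ω p.2 p.1)
  · rw [if_pos ((EE_last b L _ _).2 h3), if_pos h3]
  · rw [if_neg (fun h => h3 ((EE_last b L _ _).1 h)), if_neg h3]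

end count

/-- The joint law of two vertices. -/
theorem two_vertices (b : Fin n → Fin D) (ω ω' : Fin D → Bool) (f : (Fin n → Bool) → ℝ) :
    avg (fun p : (Fin n → Bool) × (Fin n → Bool) => f (vx b ω p.2 p.1) * f (vx b ω' p.2 p.1)) =
      avg (fun x => f x * avA (univ.filter fun i => ω (b i) ≠ ω' (b i)) f x) := by
  classical
  set W : Finset (Fin n) := univ.filter fun i => ω (b i) ≠ ω' (b i) with hW
  let sw : (Fin n → Bool) × (Fin n → Bool) → (Fin n → Bool) × (Fin n → Bool) := fun p =>
    (fun i => if ω (b i) then p.2 i else p.1 i, fun i => if ω (b i) then p.1 i else p.2 i)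
  have hinv : Function.Involutive sw := by
    intro p
    refine Prod.ext ?_ ?_
    · funext i
      simp only [sw]
      split_ifs <;> rfl
    · funext i
      simp only [sw]
      split_ifs <;> rfl
  have h1 := avg_equiv hinv.toPerm (fun p : (Fin n → Bool) × (Fin n → Bool) =>
    f p.2 * f (fun i => if i ∈ W then p.1 i else p.2 i))
  have h2 : avg (fun p : (Fin n → Bool) × (Fin n → Bool) =>
      f p.2 * f (fun i => if i ∈ W then p.1 i else p.2 i)) = avg (fun x => f x * avA W f x) := by
    rw [avg_prod (fun y x : Fin n → Bool => f x * f (fun i => if i ∈ W then y i else x i)),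
      avg_comm]
    congr 1
    funext x
    exact avg_mul_left _ _
  rw [← h2, ← h1]
  congr 1
  funext p
  show f (vx b ω p.2 p.1) * f (vx b ω' p.2 p.1) =
    f (fun i => if ω (b i) then p.1 i else p.2 i) *
      f (fun i => if i ∈ W then (if ω (b i) then p.2 i else p.1 i)
        else (if ω (b i) then p.1 i else p.2 i))
  congr 2
  funext i
  show (if ω' (b i) then p.1 i else p.2 i) = _
  by_cases hi : ω (b i) = ω' (b i)
  · have : i ∉ W := by simp [hW, hi]
    rw [if_neg this, hi]
  · have : i ∈ W := by simp [hW, hi]
    rw [if_pos this]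
    revert hi
    cases ω (b i) <;> cases ω' (b i) <;> simp

end Pool.Agent.MP_ca1109_lc.Mon
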