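import Pool.Agent.MP_ca1109_lc.Mon.A2

/-!
# The first exit is concentrated
-/

namespace Pool.Agent.MP_ca1109_lc.Mon

open Pool.Agent.MP_ca1109_lc.Mpg Pool.Agent.MP_ca1109_lc.Hyb Finset

variable {n D N : ℕ}

theorem pr_eq_zero {X : Type*} [Fintype X] {A : X → Prop} (h : ∀ x, ¬ A x) : pr A = 0 := by
  unfold pr avg
  rw [Finset.sum_eq_zero, zero_div]
  intro x _
  rw [if_neg (h x)]

/-- `i` is the first question with the answer yes. -/
def Ex (E : Fin N → (Fin n → Bool) → Prop) (i : Fin N) (x : Fin n → Bool) : Prop :=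
  E i x ∧ ∀ j < i, ¬ E j x

/-- There is no box with exactly one vertex in `E`. -/
def NoOne (D : ℕ) (E : (Fin n → Bool) → Prop) : Prop :=
  ∀ (b : Fin n → Fin D) (x y : Fin n → Bool) (ω₀ : Fin D → Bool), E (vx b ω₀ x y) →
    ∃ ω, ω ≠ ω₀ ∧ E (vx b ω x y)

theorem EqQ.noOne {d : ℕ} {E : (Fin n → Bool) → Prop} (h : EqQ d E) (hD : d < D) : NoOne D E := by
  obtain ⟨Γ, inst, P, hP, hE⟩ := h
  intro b x y ω₀ hω
  by_contra hcon
  push Not at hcon
  refine (hE _).1 hω (box_unique hP hD b x y ω₀ fun ω h1 => ?_)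
  by_contra h2
  exact hcon ω h1 ((hE _).2 h2)

section ex

variable {E : Fin N → (Fin n → Bool) → Prop}

theorem Ex.unique {i j : Fin N} {x : Fin n → Bool} (hi : Ex E i x) (hj : Ex E j x) : i = j := by
  rcases lt_trichotomy i j with h | h | h
  · exact absurd hi.1 (hj.2 i h)
  · exact h
  · exact absurd hj.1 (hi.2 j h)

theorem Ex.exists' {x : Fin n → Bool} {i : Fin N} (h : E i x) : ∃ j, j ≤ i ∧ Ex E j x := by
  classical
  have h1 : (univ.filter fun i => E i x).Nonempty := ⟨i, by simp [h]⟩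
  refine ⟨(univ.filter fun i => E i x).min' h1, Finset.min'_le _ _ (by simp [h]), ?_,
    fun j hj => ?_⟩
  · have := Finset.min'_mem _ h1
    simpa using this
  · intro hcon
    have h2 : j ∈ univ.filter fun i => E i x := by simp [hcon]
    exact absurd (Finset.min'_le _ _ h2) (not_le.2 hj)

theorem sum_pr_ex : ∑ i, pr (Ex E i) ≤ 1 := by
  classical
  have h1 : ∑ i, pr (Ex E i) = avg (fun x => ∑ i, if Ex E i x then (1 : ℝ) else 0) := by
    unfold pr
    rw [avg_sum]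
  rw [h1]
  refine (avg_mono (g := fun _ => 1) fun x => ?_).trans (avg_const 1).le
  by_cases h : ∃ i, Ex E i x
  · obtain ⟨i, hi⟩ := h
    rw [Finset.sum_eq_single_of_mem i (Finset.mem_univ _)]
    · rw [if_pos hi]
    · intro j _ hj
      rw [if_neg fun h => hj (h.unique hi)]
  · push Not at h
    rw [Finset.sum_eq_zero]
    · exact zero_le_one
    · intro i _
      rw [if_neg (h i)]

/-- If all vertices of a box exit then two vertices exit at the same place. -/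
theorem box_exit (hE : ∀ i, NoOne D (E i)) (b : Fin n → Fin D) (x y : Fin n → Bool)
    (i : (Fin D → Bool) → Fin N) (hi : ∀ ω, Ex E (i ω) (vx b ω x y)) :
    ∃ ω ω', ω ≠ ω' ∧ i ω = i ω' := by
  obtain ⟨ω₀, -, hmin⟩ := Finset.exists_min_image (univ : Finset (Fin D → Bool)) i
    ⟨fun _ => false, Finset.mem_univ _⟩
  obtain ⟨ω, hω, h1⟩ := hE (i ω₀) b x y ω₀ (hi ω₀).1
  refine ⟨ω, ω₀, hω, le_antisymm ?_ (hmin ω (Finset.mem_univ _))⟩
  by_contra h2
  exact (hi ω).2 _ (not_le.1 h2) h1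

end ex

/-- The probability that two vertices are in a small set. -/
theorem two_small (hD : 0 < D) {ω ω' : Fin D → Bool} (hω : ω ≠ ω') (A : (Fin n → Bool) → Prop)
    (k : ℕ) :
    avg (fun b : Fin n → Fin D => pr (fun p : (Fin n → Bool) × (Fin n → Bool) =>
      A (vx b ω p.2 p.1) ∧ A (vx b ω' p.2 p.1))) ≤
      pr A * (3 ^ k * Real.sqrt (pr A) + (1 - 1 / (D : ℝ)) ^ (k + 1)) := by
  classical
  obtain ⟨t, ht⟩ : ∃ t, ω t ≠ ω' t := by
    by_contra hcon
    push Not at hcon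
    exact hω (funext hcon)
  set f : (Fin n → Bool) → ℝ := fun x => if A x then 1 else 0 with hf
  have hff : ∀ x, f x * f x = f x := by
    intro x
    simp only [hf]
    split_ifs <;> norm_num
  have hμ : avg f = pr A := by
    unfold pr
    congr 1
  have hρ0 : 0 ≤ 1 - 1 / (D : ℝ) := by
    have : (1 : ℝ) ≤ D := by exact_mod_cast hD
    rw [sub_nonneg, div_le_one (by positivity)]
    exact this
  have hρ1 : 1 - 1 / (D : ℝ) ≤ 1 := by
    have : 0 ≤ 1 / (D : ℝ) := by positivity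
    linarith
  have h1 : ∀ b : Fin n → Fin D, pr (fun p : (Fin n → Bool) × (Fin n → Bool) =>
      A (vx b ω p.2 p.1) ∧ A (vx b ω' p.2 p.1)) ≤
      ∑ S : Finset (Fin n), (if ∀ i ∈ S, b i ≠ t then (1 : ℝ) else 0) * wc f S ^ 2 := by
    intro b
    have h2 : pr (fun p : (Fin n → Bool) × (Fin n → Bool) =>
        A (vx b ω p.2 p.1) ∧ A (vx b ω' p.2 p.1)) =
        avg (fun p : (Fin n → Bool) × (Fin n → Bool) =>
          f (vx b ω p.2 p.1) * f (vx b ω' p.2 p.1)) := by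
      unfold pr
      congr 1
      funext p
      simp only [hf]
      by_cases h3 : A (vx b ω p.2 p.1)
      · by_cases h4 : A (vx b ω' p.2 p.1)
        · rw [if_pos ⟨h3, h4⟩, if_pos h3, if_pos h4, mul_one]
        · rw [if_neg (fun h => h4 h.2), if_neg h4, mul_zero]
      · rw [if_neg (fun h => h3 h.1), if_neg h3, zero_mul]
    rw [h2, two_vertices, pair_walsh]
    refine Finset.sum_le_sum fun S _ => ?_
    split_ifs with h3 h4 h4
    · rw [one_mul]
    · exfalso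
      apply h4
      intro i hi hb
      refine Finset.disjoint_left.1 h3 hi ?_
      simp [hb, ht]
    · rw [one_mul]; exact sq_nonneg _
    · rw [zero_mul]
  have h2 : avg (fun b : Fin n → Fin D =>
      ∑ S : Finset (Fin n), (if ∀ i ∈ S, b i ≠ t then (1 : ℝ) else 0) * wc f S ^ 2) =
      ∑ S : Finset (Fin n), (1 - 1 / (D : ℝ)) ^ S.card * wc f S ^ 2 := by
    rw [avg_sum]
    refine Finset.sum_congr rfl fun S _ => ?_
    have e : avg (fun b : Fin n → Fin D => wc f S ^ 2 * (if ∀ i ∈ S, b i ≠ t then (1 : ℝ) else 0)) =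
        wc f S ^ 2 * (1 - 1 / (D : ℝ)) ^ S.card := by
      rw [avg_mul_left, avoid hD t S]
    rw [mul_comm, ← e]
    congr 1
    funext b
    exact mul_comm _ _
  refine (avg_mono h1).trans (h2.le.trans ?_)
  have h3 : ∑ S : Finset (Fin n), wc f S ^ 2 = pr A := by
    rw [← avg_sq_walsh (wc f), ← hμ]
    congr 1
    funext x
    rw [← walsh_expand f x, sq, hff]
  have h4 : ∑ S : Finset (Fin n), (1 - 1 / (D : ℝ)) ^ S.card * wc f S ^ 2 ≤
      (∑ S : Finset (Fin n), if S.card ≤ k then wc f S ^ 2 else 0) +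
        (1 - 1 / (D : ℝ)) ^ (k + 1) * ∑ S : Finset (Fin n), wc f S ^ 2 := by
    rw [Finset.mul_sum, ← Finset.sum_add_distrib]
    refine Finset.sum_le_sum fun S _ => ?_
    split_ifs with hS
    · have h5 : (1 - 1 / (D : ℝ)) ^ S.card ≤ 1 := pow_le_one₀ hρ0 hρ1
      have h6 : 0 ≤ (1 - 1 / (D : ℝ)) ^ (k + 1) * wc f S ^ 2 := by positivity
      nlinarith [sq_nonneg (wc f S)]
    · rw [zero_add]
      exact mul_le_mul_of_nonneg_right (pow_le_pow_of_le_one hρ0 hρ1 (by omega)) (sq_nonneg _)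
  rw [h3] at h4
  refine h4.trans ?_
  have h5 : (∑ S : Finset (Fin n), if S.card ≤ k then wc f S ^ 2 else 0) ≤
      3 ^ k * (pr A * Real.sqrt (pr A)) := by
    have h6 := level hff k
    rw [hμ] at h6
    have hA := pr_nonneg A
    have h7 : (3 ^ k * (pr A * Real.sqrt (pr A))) ^ 2 = 9 ^ k * pr A ^ 3 := by
      have h8 : Real.sqrt (pr A) ^ 2 = pr A := Real.sq_sqrt hA
      have h9 : ((3 : ℝ) ^ k) ^ 2 = 9 ^ k := by
        rw [← pow_mul, mul_comm, pow_mul]; norm_num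
      rw [mul_pow, mul_pow, h8, h9]
      ring
    rw [← h7] at h6
    have h10 : 0 ≤ ∑ S : Finset (Fin n), if S.card ≤ k then wc f S ^ 2 else 0 :=
      Finset.sum_nonneg fun S _ => by split_ifs <;> positivity
    exact (pow_le_pow_iff_left₀ h10 (by positivity) two_ne_zero).1 h6
  nlinarith [h5]

theorem light_bound {E : Fin N → (Fin n → Bool) → Prop} (hE : ∀ i, NoOne D (E i)) {η : ℝ}
    (k : ℕ) (hD0 : 0 < D) :
    pr (fun x => ∃ i, Ex E i x ∧ pr (Ex E i) < η) ^ (2 ^ D) ≤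
      4 ^ D * (3 ^ k * Real.sqrt η + (1 - 1 / (D : ℝ)) ^ (k + 1)) := by
  classical
  set L : (Fin n → Bool) → Prop := fun x => ∃ i, Ex E i x ∧ pr (Ex E i) < η with hL
  let J := ((Fin D → Bool) × (Fin D → Bool)) × Fin N
  set κ : ℝ := 3 ^ k * Real.sqrt η + (1 - 1 / (D : ℝ)) ^ (k + 1) with hκ
  have hρ0 : 0 ≤ 1 - 1 / (D : ℝ) := by
    have : (1 : ℝ) ≤ D := by exact_mod_cast hD0
    rw [sub_nonneg, div_le_one (by positivity)]
    exact this
  have hκ0 : 0 ≤ κ := by positivity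
  have h1 : ∀ b : Fin n → Fin D, pr L ^ (2 ^ D) ≤ ∑ j : J,
      pr (fun p : (Fin n → Bool) × (Fin n → Bool) => (j.1.1 ≠ j.1.2 ∧ pr (Ex E j.2) < η) ∧
        Ex E j.2 (vx b j.1.1 p.2 p.1) ∧ Ex E j.2 (vx b j.1.2 p.2 p.1)) := by
    intro b
    refine (count b L).trans ((pr_mono fun p hp => ?_).trans (pr_exists _))
    choose i hi using hp
    obtain ⟨ω, ω', h2, h3⟩ := box_exit hE b p.2 p.1 i fun ω => (hi ω).1
    refine ⟨((ω, ω'), i ω), ⟨h2, (hi ω).2⟩, (hi ω).1, ?_⟩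
    show Ex E (i ω) (vx b ω' p.2 p.1)
    rw [h3]
    exact (hi ω').1
  have h2 : ∀ j : J, avg (fun b : Fin n → Fin D =>
      pr (fun p : (Fin n → Bool) × (Fin n → Bool) => (j.1.1 ≠ j.1.2 ∧ pr (Ex E j.2) < η) ∧
        Ex E j.2 (vx b j.1.1 p.2 p.1) ∧ Ex E j.2 (vx b j.1.2 p.2 p.1))) ≤
      κ * pr (Ex E j.2) := by
    intro j
    by_cases hj : j.1.1 ≠ j.1.2 ∧ pr (Ex E j.2) < η
    · have h3 := two_small (n := n) hD0 hj.1 (Ex E j.2) k
      have h4 : avg (fun b : Fin n → Fin D =>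
          pr (fun p : (Fin n → Bool) × (Fin n → Bool) => (j.1.1 ≠ j.1.2 ∧ pr (Ex E j.2) < η) ∧
          Ex E j.2 (vx b j.1.1 p.2 p.1) ∧ Ex E j.2 (vx b j.1.2 p.2 p.1))) ≤
          avg (fun b : Fin n → Fin D => pr (fun p : (Fin n → Bool) × (Fin n → Bool) =>
          Ex E j.2 (vx b j.1.1 p.2 p.1) ∧ Ex E j.2 (vx b j.1.2 p.2 p.1))) :=
        avg_mono fun b => pr_mono fun p hp => hp.2
      refine h4.trans (h3.trans ?_)
      rw [mul_comm κ]
      refine mul_le_mul_of_nonneg_left ?_ (pr_nonneg _)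
      have h5 : Real.sqrt (pr (Ex E j.2)) ≤ Real.sqrt η := Real.sqrt_le_sqrt hj.2.le
      have h6 : (0 : ℝ) ≤ 3 ^ k := by positivity
      rw [hκ]
      have := mul_le_mul_of_nonneg_left h5 h6
      linarith
    · have h3 : ∀ b : Fin n → Fin D, pr (fun p : (Fin n → Bool) × (Fin n → Bool) =>
          (j.1.1 ≠ j.1.2 ∧ pr (Ex E j.2) < η) ∧
          Ex E j.2 (vx b j.1.1 p.2 p.1) ∧ Ex E j.2 (vx b j.1.2 p.2 p.1)) = 0 := by
        intro b
        exact pr_eq_zero fun p h => hj h.1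
      have h4 : avg (fun _ : Fin n → Fin D => (0 : ℝ)) = 0 := by
        unfold avg
        simp
      simp only [h3, h4]
      exact mul_nonneg hκ0 (pr_nonneg _)
  have h3 : pr L ^ (2 ^ D) ≤ ∑ j : J, κ * pr (Ex E j.2) := by
    have : Nonempty (Fin n → Fin D) := ⟨fun _ => ⟨0, hD0⟩⟩
    rw [← avg_const (A := Fin n → Fin D) (pr L ^ (2 ^ D))]
    refine (avg_mono h1).trans ?_
    rw [avg_sum]
    exact Finset.sum_le_sum fun j _ => h2 j
  refine h3.trans ?_
  rw [← Finset.mul_sum, Fintype.sum_prod_type]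
  have h4 : ∑ _q : (Fin D → Bool) × (Fin D → Bool), ∑ i : Fin N, pr (Ex E i) ≤ 4 ^ D := by
    have h5 : ∑ _q : (Fin D → Bool) × (Fin D → Bool), ∑ i : Fin N, pr (Ex E i) ≤
        ∑ _q : (Fin D → Bool) × (Fin D → Bool), (1 : ℝ) := Finset.sum_le_sum fun _ _ => sum_pr_ex
    refine h5.trans (le_of_eq ?_)
    rw [Finset.sum_const, Finset.card_univ, Fintype.card_prod, Fintype.card_pi]
    simp only [Fintype.card_bool, Finset.prod_const, Finset.card_univ, Fintype.card_fin,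
      nsmul_eq_mul, mul_one, Nat.cast_mul, Nat.cast_pow]
    rw [← mul_pow]
    norm_num
  rw [mul_comm]
  exact mul_le_mul_of_nonneg_right h4 hκ0

/-- **The first exit is concentrated.**  If no question is answered yes at exactly one vertex of a
box then the exits of small probability have small total probability. -/
theorem light_small (D : ℕ) {ε : ℝ} (hε : 0 < ε) : ∃ η > 0, ∀ (n N : ℕ)
    (E : Fin N → (Fin n → Bool) → Prop), (∀ i, NoOne (D + 1) (E i)) →
      pr (fun x => ∃ i, Ex E i x ∧ pr (Ex E i) < η) ≤ ε := by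
  have hD1 : 0 < D + 1 := Nat.succ_pos D
  generalize D + 1 = D at hD1
  have hρ0 : 0 ≤ 1 - 1 / (D : ℝ) := by
    have : (1 : ℝ) ≤ D := by exact_mod_cast (by omega : 1 ≤ D)
    rw [sub_nonneg, div_le_one (by positivity)]
    exact this
  have hρ1 : 1 - 1 / (D : ℝ) < 1 := by
    have : 0 < 1 / (D : ℝ) := by positivity
    linarith
  have hδ : 0 < ε ^ (2 ^ D) / (2 * 4 ^ D) := by positivity
  obtain ⟨k, hk⟩ := exists_pow_lt_of_lt_one hδ hρ1
  set η : ℝ := (ε ^ (2 ^ D) / (2 * 4 ^ D) / 3 ^ k) ^ 2 with hη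
  have hη0 : 0 < ε ^ (2 ^ D) / (2 * 4 ^ D) / 3 ^ k := by positivity
  refine ⟨η, by positivity, fun n N E hE => ?_⟩
  have h1 := light_bound (D := D) hE (η := η) k hD1
  have h2 : Real.sqrt η = ε ^ (2 ^ D) / (2 * 4 ^ D) / 3 ^ k := by
    rw [hη, Real.sqrt_sq hη0.le]
  have h3 : (1 - 1 / (D : ℝ)) ^ (k + 1) ≤ ε ^ (2 ^ D) / (2 * 4 ^ D) :=
    (pow_le_pow_of_le_one hρ0 hρ1.le (Nat.le_succ k)).trans hk.le
  have h4 : 4 ^ D * (3 ^ k * Real.sqrt η + (1 - 1 / (D : ℝ)) ^ (k + 1)) ≤ ε ^ (2 ^ D) := by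
    rw [h2]
    have h5 : (3 : ℝ) ^ k * (ε ^ (2 ^ D) / (2 * 4 ^ D) / 3 ^ k) = ε ^ (2 ^ D) / (2 * 4 ^ D) := by
      field_simp
    rw [h5]
    have h6 : (4 : ℝ) ^ D * (ε ^ (2 ^ D) / (2 * 4 ^ D) + ε ^ (2 ^ D) / (2 * 4 ^ D)) =
        ε ^ (2 ^ D) := by
      field_simp
      ring
    refine le_trans ?_ h6.le
    exact mul_le_mul_of_nonneg_left (by linarith) (by positivity)
  exact (pow_le_pow_iff_left₀ (pr_nonneg _) hε.le (by positivity)).1 (h1.trans h4)

end Pool.Agent.MP_ca1109_lc.Mon
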