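import Pool.Agent.MP_ca1109_lc.Mon.F6

/-!
# Nested decision lists are close to functions of boundedly many conditions
-/

namespace Pool.Agent.MP_ca1109_lc.Mon

open Pool.Agent.MP_ca1109_lc.Mpg Pool.Agent.MP_ca1109_lc.Hyb Pool.Agent.MP_ca1109_lc.Agp Finset

variable {n d : ℕ}

/-- `T` is a function of `K` conditions up to an error `δ`. -/
def Apx (d K : ℕ) (δ : ℝ) (T : (Fin n → Bool) → Bool) : Prop :=
  ∃ (T' B : (Fin n → Bool) → Bool), LT d K T' ∧ LT d K B ∧ (∀ x, B x = false → T x = T' x) ∧
    pr (fun x => B x = true) ≤ δ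

theorem Apx.mono {d' K K' : ℕ} {δ δ' : ℝ} (hd : d ≤ d') (hK : K ≤ K') (hδ : δ ≤ δ')
    {T : (Fin n → Bool) → Bool} (h : Apx d K δ T) : Apx d' K' δ' T := by
  obtain ⟨T', B, h1, h2, h3, h4⟩ := h
  exact ⟨T', B, h1.mono hd hK, h2.mono hd hK, h3, h4.trans hδ⟩

theorem Apx.of {K : ℕ} {δ : ℝ} (hδ : 0 ≤ δ) {T : (Fin n → Bool) → Bool} (h : LT d K T) :
    Apx d K δ T := by
  refine ⟨T, fun _ => false, h, LT.const false, fun _ _ => rfl, ?_⟩
  rw [pr_eq_zero]
  · exact hδ
  · simp

theorem Apx.comb {k K : ℕ} {δ : ℝ} {T : Fin k → (Fin n → Bool) → Bool}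
    (h : ∀ i, Apx d K δ (T i)) (F : (Fin k → Bool) → Bool) :
    Apx d (k * K) (k * δ) (fun x => F (fun i => T i x)) := by
  classical
  choose T' B hT' hB hTB hpr using h
  have e : Fintype.card (Fin k) * K = k * K := by rw [Fintype.card_fin]
  refine ⟨fun x => F fun i => T' i x, fun x => decide (∃ i, B i x = true), ?_, ?_,
    fun x hx => ?_, ?_⟩
  · rw [← e]
    refine LT.fn hT' fun x y hxy => ?_
    show F (fun i => T' i x) = F fun i => T' i y
    congr 1
    funext i
    exact hxy i
  · rw [← e]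
    refine LT.fn hB fun x y hxy => ?_
    simp only [hxy]
  · have h1 : ∀ i, B i x = false := by
      intro i
      have := of_decide_eq_false hx
      push Not at this
      simpa using this i
    show F (fun i => T i x) = F fun i => T' i x
    congr 1
    funext i
    exact hTB i x (h1 i)
  · have h1 : pr (fun x => decide (∃ i, B i x = true) = true) ≤
        ∑ i, pr (fun x => B i x = true) := by
      refine (pr_mono fun x hx => ?_).trans (pr_exists _)
      exact of_decide_eq_true hx
    refine h1.trans ((Finset.sum_le_sum fun i _ => hpr i).trans (le_of_eq ?_))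
    simp

/-- The index `i` comes before `o`. -/
def Bef {N : ℕ} {I : Finset (Fin N)} (o : Option I) (i : Fin N) : Prop :=
  ∀ t ∈ o, i < t.1

theorem Apx.list {k K K₁ m N : ℕ} {δ δ' η ε : ℝ} (hd : 1 ≤ d) (hη : 0 < η) (hδ' : 0 ≤ δ')
    (hε : 0 ≤ ε) (hm : 1 / η ≤ m) {E : Fin N → (Fin n → Bool) → Prop}
    (hE : ∀ i, EqQ d (E i) ∨ LinQ k (E i))
    (hlight : pr (fun x => ∃ i, Ex E i x ∧ pr (Ex E i) < η) ≤ δ)
    (hinner : ∀ E' : Fin N → (Fin n → Bool) → Prop, (∀ i, LinQ (k + 1) (E' i)) →
      ∃ Z : (Fin n → Bool) → Bool, LT 1 K₁ Z ∧ (∀ x, Z x = true → ∀ i, ¬ E' i x) ∧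
        pr (fun x => (∀ i, ¬ E' i x) ∧ Z x = false) ≤ ε)
    {T : Fin N → (Fin n → Bool) → Bool} (hT : ∀ i, Apx d K δ' (T i))
    {T' : (Fin n → Bool) → Bool} (hT' : Apx d K δ' T') {U : (Fin n → Bool) → Bool}
    (hU : ∀ x i, E i x → (∀ j < i, ¬ E j x) → U x = T i x)
    (hU' : ∀ x, (∀ i, ¬ E i x) → U x = T' x) :
    Apx d ((m + 1) * 5 * (K + K₁ + k + 1)) ((m + 1) * δ' + δ + (m + 1) * ε) U := by
  classical
  choose V B hV hB hVB hpr using hT
  obtain ⟨V0, B0, hV0, hB0, hVB0, hpr0⟩ := hT'
  set I : Finset (Fin N) := univ.filter fun i => η ≤ pr (Ex E i) with hI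
  have hIcard : I.card ≤ m := card_heavy hη hm I fun i hi => by simpa [hI] using hi
  let J := Option I
  have hJcard : Fintype.card J ≤ m + 1 := by
    rw [Fintype.card_option, Fintype.card_coe]
    omega
  -- the linear part
  have hfalse : LinQ (k + 1) (fun _ : Fin n → Bool => False) :=
    ⟨ZMod 1, inferInstance, inferInstance, fun _ => 0, ∅, by simp, lowDeg_const 0, fun x => by simp⟩
  have hlin : ∀ o : J, ∃ Z : (Fin n → Bool) → Bool, LT 1 K₁ Z ∧
      (∀ x, Z x = true → ∀ i, Bef o i → LinQ k (E i) → ¬ E i x) ∧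
      pr (fun x => (∀ i, Bef o i → ¬ E i x) ∧ Z x = false) ≤ ε := by
    intro o
    obtain ⟨Z, h1, h2, h3⟩ := hinner
      (fun i x => if Bef o i ∧ LinQ k (E i) then E i x else False) (fun i => by
        by_cases h : Bef o i ∧ LinQ k (E i)
        · have e : (fun x => if Bef o i ∧ LinQ k (E i) then E i x else False) = E i := by
            funext x
            exact if_pos h
          rw [e]
          obtain ⟨G, iG, fG, L, A, hG, hL, hEL⟩ := h.2
          exact ⟨G, iG, fG, L, A, hG.trans (Nat.le_succ k), hL, hEL⟩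
        · have e : (fun x => if Bef o i ∧ LinQ k (E i) then E i x else False) =
              fun _ => False := by
            funext x
            exact if_neg h
          rw [e]
          exact hfalse)
    refine ⟨Z, h1, fun x hx i hi hi' => ?_, (pr_mono fun x hx => ⟨fun i => ?_, hx.2⟩).trans h3⟩
    · have := h2 x hx i
      rwa [if_pos ⟨hi, hi'⟩] at this
    · split_ifs with h
      · exact hx.1 i h.1
      · exact id
  choose Z hZ1 hZ2 hZ3 using hlin
  let Q : J → (Fin n → Bool) → Prop := fun o x => ∀ i, Bef o i ∧ EqQ d (E i) → ¬ E i x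
  have hQ : ∀ o, Cond d (Q o) := by
    intro o
    refine Cond.all fun i => ?_
    by_cases h : Bef o i ∧ EqQ d (E i)
    · obtain ⟨Γ, inst, P, hP, hEP⟩ := h.2
      refine ⟨Γ, inst, P, hP, fun x => ?_⟩
      show (Bef o i ∧ EqQ d (E i) → ¬ E i x) ↔ P x = 0
      rw [hEP]
      exact ⟨fun h' => not_not.1 (h' h), fun h' _ => not_not.2 h'⟩
    · have : (fun x => Bef o i ∧ EqQ d (E i) → ¬ E i x) = fun _ => True := by
        funext x
        exact propext ⟨fun _ => trivial, fun _ h' => absurd h' h⟩
      rw [this]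
      exact cond_true
  let Hd : J → (Fin n → Bool) → Prop := fun o x => ∀ i ∈ I, Bef o i → ¬ E i x
  -- the tests
  let te : J → (Fin n → Bool) → Bool := fun o => match o with
    | some t => fun x => decide (E t.1 x)
    | none => fun _ => false
  let tv : J → (Fin n → Bool) → Bool := fun o => match o with
    | some t => V t.1
    | none => V0
  let tb : J → (Fin n → Bool) → Bool := fun o => match o with
    | some t => B t.1
    | none => B0
  let tt : J × Fin 5 → (Fin n → Bool) → Bool := fun p =>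
    if p.2 = 0 then te p.1 else if p.2 = 1 then fun x => decide (Q p.1 x) else
      if p.2 = 2 then Z p.1 else if p.2 = 3 then tv p.1 else tb p.1
  set K₂ : ℕ := K + K₁ + k + 1 with hK₂
  have htt : ∀ p, LT d K₂ (tt p) := by
    rintro ⟨o, c⟩
    show LT d K₂ (if c = 0 then te o else if c = 1 then fun x => decide (Q o x) else
      if c = 2 then Z o else if c = 3 then tv o else tb o)
    split_ifs
    · rcases o with _ | t
      · exact LT.const false
      · have h1 : ∀ x, te (some t) x = true ↔ E t.1 x := fun x => decide_eq_true_iff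
        rcases hE t.1 with h2 | h2
        · exact (h2.lt h1).mono le_rfl (by omega)
        · exact (h2.lt h1).mono hd (by omega)
    · exact (LT.cond (Or.inl (hQ o)) fun x => by simp).mono le_rfl (by omega)
    · exact (hZ1 o).mono hd (by omega)
    · rcases o with _ | t
      · exact hV0.mono le_rfl (by omega)
      · exact (hV t.1).mono le_rfl (by omega)
    · rcases o with _ | t
      · exact hB0.mono le_rfl (by omega)
      · exact (hB t.1).mono le_rfl (by omega)
  have hsep : ∀ x y, (∀ p, tt p x = tt p y) → (∀ i ∈ I, (E i x ↔ E i y)) ∧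
      (∀ o, (Q o x ↔ Q o y)) ∧ (∀ o, Z o x = Z o y) ∧ (∀ o, tv o x = tv o y) ∧
      ∀ o, tb o x = tb o y := by
    intro x y hxy
    refine ⟨fun i hi => ?_, fun o => ?_, fun o => ?_, fun o => ?_, fun o => ?_⟩
    · have h1 : te (some ⟨i, hi⟩) x = te (some ⟨i, hi⟩) y := hxy (some ⟨i, hi⟩, 0)
      have h2 : ∀ z, te (some ⟨i, hi⟩) z = true ↔ E i z := fun z => decide_eq_true_iff
      rw [← h2, ← h2, h1]
    · have h1 : decide (Q o x) = decide (Q o y) := hxy (o, 1)
      exact decide_eq_decide.1 h1
    · exact hxy (o, 2)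
    · exact hxy (o, 3)
    · exact hxy (o, 4)
  have hHd : ∀ x y, (∀ i ∈ I, (E i x ↔ E i y)) → ∀ o, (Hd o x ↔ Hd o y) := by
    intro x y hxy o
    refine forall_congr' fun i => forall_congr' fun hi => ?_
    rw [hxy i hi]
  let W : (Fin n → Bool) → Bool := fun x =>
    decide (∃ o : J, Hd o x ∧ (∀ t ∈ o, E t.1 x) ∧ tv o x = true)
  let C : (Fin n → Bool) → Bool := fun x =>
    decide (∃ o : J, tb o x = true ∨ (Hd o x ∧ ¬ (Q o x ∧ Z o x = true)))
  have hcard : Fintype.card (J × Fin 5) * K₂ ≤ (m + 1) * 5 * K₂ := by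
    rw [Fintype.card_prod, Fintype.card_fin]
    exact Nat.mul_le_mul_right _ (Nat.mul_le_mul_right _ hJcard)
  -- no exit before `o`
  have hno : ∀ o x, Q o x → Z o x = true → ∀ i, Bef o i → ¬ E i x := by
    intro o x hq hz i hi
    rcases hE i with h | h
    · exact hq i ⟨hi, h⟩
    · exact hZ2 o x hz i hi h
  refine ⟨W, C, (LT.fn htt fun x y hxy => ?_).mono le_rfl hcard,
    (LT.fn htt fun x y hxy => ?_).mono le_rfl hcard, fun x hx => ?_, ?_⟩
  · obtain ⟨h1, -, -, h4, -⟩ := hsep x y hxy
    refine decide_eq_decide.2 (exists_congr fun o => ?_)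
    rw [hHd x y h1 o, h4 o]
    refine and_congr_right fun _ => and_congr_left fun _ => ?_
    exact forall_congr' fun t => forall_congr' fun _ => h1 t.1 t.2
  · obtain ⟨h1, h2, h3, -, h5⟩ := hsep x y hxy
    refine decide_eq_decide.2 (exists_congr fun o => ?_)
    rw [hHd x y h1 o, h2 o, h3 o, h5 o]
  · have h1 := of_decide_eq_false hx
    push Not at h1
    have h2 : ∀ o, Hd o x → ∀ i, Bef o i → ¬ E i x := fun o ho => by
      have h3 := (h1 o).2 ho
      exact hno o x h3.1 h3.2
    have h3 : ∀ o, tb o x = false := fun o => by simpa using (h1 o).1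
    -- the first heavy exit
    obtain ⟨o, ho1, ho2⟩ : ∃ o : J, Hd o x ∧ ∀ t ∈ o, E t.1 x := by
      by_cases hex : ∃ i ∈ I, E i x
      · have h4 : (I.filter fun i => E i x).Nonempty := by
          obtain ⟨i, hi, hi'⟩ := hex
          exact ⟨i, Finset.mem_filter.2 ⟨hi, hi'⟩⟩
        have h5 := Finset.mem_filter.1 (Finset.min'_mem _ h4)
        refine ⟨some ⟨_, h5.1⟩, fun i hi hb hEi => ?_, fun t ht => ?_⟩
        · have h6 : i < (I.filter fun i => E i x).min' h4 := hb _ rfl
          exact absurd (Finset.min'_le _ i (Finset.mem_filter.2 ⟨hi, hEi⟩)) (not_le.2 h6)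
        · have : t = ⟨_, h5.1⟩ := by
            simpa using ht.symm
          rw [this]
          exact h5.2
      · push Not at hex
        exact ⟨none, fun i hi _ => hex i hi, fun t ht => (Option.not_mem_none _ ht).elim⟩
    have h4 : U x = tv o x := by
      rcases o with _ | t
      · have h5 : ∀ i, ¬ E i x := fun i => h2 none ho1 i (fun t ht => (Option.not_mem_none _ ht).elim)
        rw [hU' x h5]
        exact hVB0 x (h3 none)
      · have h5 : ∀ j < t.1, ¬ E j x := fun j hj => h2 (some t) ho1 j (fun t' ht' => by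
          have : t' = t := by simpa using ht'.symm
          rw [this]; exact hj)
        rw [hU x t.1 (ho2 t rfl) h5]
        exact hVB t.1 x (h3 (some t))
    rw [h4, Bool.eq_iff_iff]
    show tv o x = true ↔ decide (∃ o : J, Hd o x ∧ (∀ t ∈ o, E t.1 x) ∧ tv o x = true) = true
    rw [decide_eq_true_iff]
    constructor
    · intro h
      exact ⟨o, ho1, ho2, h⟩
    · rintro ⟨o', ho1', ho2', h⟩
      have h5 : o = o' := by
        rcases o with _ | t
        · rcases o' with _ | t'
          · rfl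
          · exact absurd (ho2' t' rfl) (ho1 t'.1 t'.2 (fun t ht => (Option.not_mem_none _ ht).elim))
        · rcases o' with _ | t'
          · exact absurd (ho2 t rfl) (ho1' t.1 t.2 (fun t ht => (Option.not_mem_none _ ht).elim))
          · rcases lt_trichotomy t.1 t'.1 with h6 | h6 | h6
            · exact absurd (ho2 t rfl) (ho1' t.1 t.2 (fun s hs => by
                have : s = t' := by simpa using hs.symm
                rw [this]; exact h6))
            · rw [Subtype.ext h6]
            · exact absurd (ho2' t' rfl) (ho1 t'.1 t'.2 (fun s hs => by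
                have : s = t := by simpa using hs.symm
                rw [this]; exact h6))
      rw [h5]; exact h
  · have h1 : ∀ x, C x = true → (∃ o : J, tb o x = true) ∨
        ((∃ i, Ex E i x ∧ pr (Ex E i) < η) ∨
          ∃ o : J, (∀ i, Bef o i → ¬ E i x) ∧ Z o x = false) := by
      intro x hx
      obtain ⟨o, h | ⟨h2, h3⟩⟩ := of_decide_eq_true hx
      · exact Or.inl ⟨o, h⟩
      · right
        by_cases h4 : ∀ i, Bef o i → ¬ E i x
        · refine Or.inr ⟨o, h4, ?_⟩
          by_contra h5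
          exact h3 ⟨fun i hi => h4 i hi.1, by simpa using h5⟩
        · push Not at h4
          obtain ⟨i, hi, hEi⟩ := h4
          obtain ⟨j, hji, hj⟩ := Ex.exists' hEi
          refine Or.inl ⟨j, hj, ?_⟩
          by_contra hcon
          have hjI : j ∈ I := by simp [hI, not_lt.1 hcon]
          exact h2 j hjI (fun t ht => lt_of_le_of_lt hji (hi t ht)) hj.1
    have h2 : pr (fun x => ∃ o : J, tb o x = true) ≤ (m + 1) * δ' := by
      refine (pr_exists _).trans ?_
      have h3 : ∀ o : J, pr (fun x => tb o x = true) ≤ δ' := by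
        rintro (_ | t)
        · exact hpr0
        · exact hpr t.1
      refine (Finset.sum_le_sum fun o _ => h3 o).trans ?_
      rw [Finset.sum_const, nsmul_eq_mul, Finset.card_univ]
      refine mul_le_mul_of_nonneg_right ?_ hδ'
      exact_mod_cast hJcard
    have h3 : pr (fun x => ∃ o : J, (∀ i, Bef o i → ¬ E i x) ∧ Z o x = false) ≤ (m + 1) * ε := by
      refine (pr_exists _).trans ?_
      refine (Finset.sum_le_sum fun o _ => hZ3 o).trans ?_
      rw [Finset.sum_const, nsmul_eq_mul, Finset.card_univ]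
      refine mul_le_mul_of_nonneg_right ?_ hε
      exact_mod_cast hJcard
    refine (pr_mono h1).trans ((pr_or _ _).trans ?_)
    have h4 := pr_or (fun x => ∃ i, Ex E i x ∧ pr (Ex E i) < η)
      (fun x => ∃ o : J, (∀ i, Bef o i → ¬ E i x) ∧ Z o x = false)
    linarith

/-- Nested decision lists are close to functions of boundedly many conditions. -/
theorem tree_apx (d k k₀ r : ℕ) {δ : ℝ} (hδ : 0 < δ) : ∃ K, ∀ (n : ℕ) (T : (Fin n → Bool) → Bool),
    Tree (MixedTest d k₀ n) d k r T → Apx (d + 1) K δ T := by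
  induction r generalizing δ with
  | zero =>
    refine ⟨2 * k₀, fun n T hT => ?_⟩
    cases hT with
    | base h => exact (Apx.of hδ.le (LT.of h)).mono (Nat.le_succ d) le_rfl le_rfl
  | succ r ih =>
    obtain ⟨η, hη, hlight⟩ := light_small (d + k) (half_pos hδ)
    obtain ⟨m, hm⟩ := exists_nat_ge (1 / η)
    have h1 : 0 < δ / (4 * (m + 1)) := by positivity
    have h2 : 0 < δ / (k + 1) := by positivity
    obtain ⟨K₁, hK₁⟩ := inner (k + 1) h1
    obtain ⟨K₂, hK₂⟩ := ih h1
    obtain ⟨K₃, hK₃⟩ := ih h2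
    refine ⟨max ((m + 1) * 5 * (K₂ + K₁ + k + 1)) (k * K₃), fun n T hT => ?_⟩
    cases hT with
    | comb T hT F =>
      refine (Apx.comb (fun i => hK₃ n _ (hT i)) F).mono le_rfl (le_max_right _ _) ?_
      rw [mul_div_assoc', div_le_iff₀ (by positivity)]
      nlinarith
    | list E hE T hT T' hT' U hU hU' =>
      refine (Apx.list (d := d + 1) (k := k) (Nat.succ_pos d) hη h1.le h1.le hm (fun i => ?_)
        (hlight n _ E fun i => ?_) (fun E' hE' => hK₁ n _ E' hE') (fun i => hK₂ n _ (hT i))
        (hK₂ n _ hT') hU hU').mono le_rfl (le_max_left _ _) ?_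
      · rcases hE i with ⟨Γ, inst, P, hP, h⟩ | h
        · exact Or.inl ⟨Γ, inst, P, lowDeg_mono (Nat.le_succ d) hP, h⟩
        · exact Or.inr h
      · rcases hE i with h | h
        · exact h.noOne (by omega)
        · exact h.noOne (by omega)
      · have h7 : ((m : ℝ) + 1) * (δ / (4 * (m + 1))) = δ / 4 := by
          field_simp
        rw [h7]
        linarith

end Pool.Agent.MP_ca1109_lc.Mon
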