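import Pool.Agent.MP_ca1109_lc.Mon.A4
import Pool.Agent.MP_ca1109_lc.Hyb.F2

/-!
# Generators for nested decision lists
-/

namespace Pool.Agent.MP_ca1109_lc.Mon

open Pool.Agent.H66 Pool.Agent.MP_ca1109_lc.Mpg Pool.Agent.MP_ca1109_lc.Hyb Pool.Agent.MP_ca1109_lc.Agp Finset

theorem pr_prob {A : Type*} [Fintype A] (f : A → Bool) : pr (fun a => f a = true) = prob f := by
  rw [prob_eq_avg]
  unfold pr
  congr 1
  funext a
  unfold ind
  by_cases h : f a = true
  · rw [if_pos h, if_pos h]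
  · rw [if_neg h, if_neg h]

theorem prob_diff {A : Type*} [Fintype A] {f f' B : A → Bool} (h : ∀ a, B a = false → f a = f' a) :
    |prob f - prob f'| ≤ prob B := by
  rw [prob_eq_avg, prob_eq_avg, prob_eq_avg, ← avg_sub, abs_le]
  have h1 : ∀ a, |ind (f a) - ind (f' a)| ≤ ind (B a) := by
    intro a
    cases hB : B a
    · rw [h a hB]; simp [ind]
    · cases f a <;> cases f' a <;> simp [ind]
  constructor
  · have h2 : avg (fun a => -1 * ind (B a)) ≤ avg fun a => ind (f a) - ind (f' a) :=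
      avg_mono fun a => by
        have := (abs_le.1 (h1 a)).1
        linarith
    rw [avg_mul_left] at h2
    linarith
  · exact avg_mono fun a => (abs_le.1 (h1 a)).2

theorem LogGen.of_apx {𝒯 : ∀ n : ℕ, ((Fin n → Bool) → Bool) → Prop} {ε : ℝ} (hε : 0 < ε)
    (h : ∃ d K, ∀ n T, 𝒯 n T → Apx d K (ε / 4) T) : LogGen 𝒯 ε := by
  obtain ⟨d, K, hK⟩ := h
  obtain ⟨D, G, hD, hG, hl, c, hc⟩ := logGen_mixed d K (show 0 < ε / 4 by positivity)
  refine ⟨D, G, hD, hG, hl, c, ?_⟩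
  filter_upwards [hc] with n hn
  refine ⟨hn.1, hn.2.1, fun T hT => ?_⟩
  obtain ⟨T', B, hT', hB, hTB, hpr⟩ := hK n T hT
  have h1 := hn.2.2 T' hT'.toMixed
  have h2 := hn.2.2 B hB.toMixed
  have h3 : |prob (fun s : Fin (D n) → Bool => T (bits n (G n (List.ofFn s)))) -
      prob (fun s : Fin (D n) → Bool => T' (bits n (G n (List.ofFn s))))| ≤
      prob (fun s : Fin (D n) → Bool => B (bits n (G n (List.ofFn s)))) :=
    prob_diff fun s hs => hTB _ hs
  have h4 : |prob T - prob T'| ≤ prob B := prob_diff hTB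
  rw [pr_prob] at hpr
  rw [abs_le] at h1 h2 h3 h4 ⊢
  constructor <;> linarith [h1.1, h1.2, h2.1, h2.2, h3.1, h3.2, h4.1, h4.2]

/-- Generators for nested decision lists of arbitrary length. -/
theorem logGen_tree (d k k₀ r : ℕ) {ε : ℝ} (hε : 0 < ε) :
    LogGen (fun n => Tree (MixedTest d k₀ n) d k r) ε := by
  obtain ⟨K, hK⟩ := tree_apx d k k₀ r (show 0 < ε / 4 by positivity)
  exact LogGen.of_apx hε ⟨d + 1, K, hK⟩

end Pool.Agent.MP_ca1109_lc.Mon
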