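import Pool.Agent.MP_ca1109_lc.Mon.Defs

/-!
# Finite monoids in DO
-/

namespace Pool.Agent.MP_ca1109_lc.Mon

variable {M : Type*} [Monoid M]

theorem JEq.symm {e f : M} (h : JEq e f) : JEq f e := ⟨h.2, h.1⟩

/-- Every element of a finite monoid has an idempotent power. -/
theorem exists_idem [Finite M] (a : M) : ∃ k, 0 < k ∧ IsIdempotentElem (a ^ k) := by
  obtain ⟨i, j, hij, h⟩ : ∃ i j : ℕ, i < j ∧ a ^ i = a ^ j := by
    obtain ⟨i, j, hij, h⟩ := Finite.exists_ne_map_eq_of_infinite (fun n : ℕ => a ^ n)
    rcases lt_or_gt_of_ne hij with h1 | h1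
    · exact ⟨i, j, h1, h⟩
    · exact ⟨j, i, h1, h.symm⟩
  obtain ⟨q, hq⟩ : ∃ q, j = i + q := ⟨j - i, by omega⟩
  have hq0 : 0 < q := by omega
  have h1 : ∀ m, a ^ (i + m * q) = a ^ i := by
    intro m
    induction m with
    | zero => simp
    | succ m ih =>
      have e : i + (m + 1) * q = (i + q) + m * q := by ring
      rw [e, pow_add, ← hq, ← h, ← pow_add, ih]
  have h2 : ∀ t m, i ≤ t → a ^ (t + m * q) = a ^ t := by
    intro t m ht
    obtain ⟨s, rfl⟩ : ∃ s, t = i + s := ⟨t - i, by omega⟩
    have e : i + s + m * q = (i + m * q) + s := by ring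
    rw [e, pow_add, h1, ← pow_add]
  refine ⟨(i + 1) * q, by positivity, ?_⟩
  show a ^ ((i + 1) * q) * a ^ ((i + 1) * q) = a ^ ((i + 1) * q)
  rw [← pow_add]
  exact h2 _ _ (by nlinarith)

theorem DO.right (hM : DO M) {g x m y : M} (hg : IsIdempotentElem g) (h : g = x * m * y) :
    ∃ w, g = g * m * w := by
  have hgg : g * g = g := hg
  have hk : IsIdempotentElem (m * y * g * x) := by
    show m * y * g * x * (m * y * g * x) = m * y * g * x
    calc m * y * g * x * (m * y * g * x) = m * y * g * (x * m * y) * g * x := by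
          simp only [mul_assoc]
      _ = m * y * g * x := by rw [← h]; simp only [mul_assoc]; rw [← mul_assoc g g, hgg,
            ← mul_assoc g g, hgg]
  have hJ : JEq g (m * y * g * x) := by
    refine ⟨⟨m * y, x, rfl⟩, ⟨x, m * y, ?_⟩⟩
    calc x * (m * y * g * x) * (m * y) = (x * m * y) * g * (x * m * y) := by
          simp only [mul_assoc]
      _ = g := by rw [← h, hgg, hgg]
  have h1 := hM g _ hg hk hJ
  refine ⟨y * g * x * g, ?_⟩
  calc g = g * (m * y * g * x) * g := h1.symm
    _ = g * m * (y * g * x * g) := by simp only [mul_assoc]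

theorem DO.left (hM : DO M) {g x m y : M} (hg : IsIdempotentElem g) (h : g = x * m * y) :
    ∃ w, g = w * m * g := by
  have hgg : g * g = g := hg
  have hk : IsIdempotentElem (y * g * x * m) := by
    show y * g * x * m * (y * g * x * m) = y * g * x * m
    calc y * g * x * m * (y * g * x * m) = y * g * (x * m * y) * g * x * m := by
          simp only [mul_assoc]
      _ = y * g * x * m := by rw [← h]; simp only [mul_assoc]; rw [← mul_assoc g g, hgg,
            ← mul_assoc g g, hgg]
  have hJ : JEq g (y * g * x * m) := by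
    refine ⟨⟨y, x * m, by simp only [mul_assoc]⟩, ⟨x * m, y, ?_⟩⟩
    calc x * m * (y * g * x * m) * y = (x * m * y) * g * (x * m * y) := by
          simp only [mul_assoc]
      _ = g := by rw [← h, hgg, hgg]
  have h1 := hM g _ hg hk hJ
  refine ⟨g * y * g * x, ?_⟩
  calc g = g * (y * g * x * m) * g := h1.symm
    _ = g * y * g * x * m * g := by simp only [mul_assoc]

theorem DO.mul (hM : DO M) {g a b x y x' y' : M} (hg : IsIdempotentElem g) (ha : g = x * a * y)
    (hb : g = x' * b * y') : ∃ w, g = g * (a * b) * w := by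
  obtain ⟨α, hα⟩ := hM.right hg ha
  obtain ⟨β, hβ⟩ := hM.left hg hb
  have hgg : g * g = g := hg
  have hh : IsIdempotentElem (α * g * a) := by
    show α * g * a * (α * g * a) = α * g * a
    calc α * g * a * (α * g * a) = α * (g * a * α) * g * a := by simp only [mul_assoc]
      _ = α * g * a := by rw [← hα]; simp only [mul_assoc]; rw [← mul_assoc g g, hgg]
  have hk : IsIdempotentElem (b * g * β) := by
    show b * g * β * (b * g * β) = b * g * β
    calc b * g * β * (b * g * β) = b * g * (β * b * g) * β := by simp only [mul_assoc]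
      _ = b * g * β := by rw [← hβ]; simp only [mul_assoc]; rw [← mul_assoc g g, hgg]
  have hgh : g = g * a * (α * g * a) * α := by
    calc g = g * g := hgg.symm
      _ = (g * a * α) * (g * a * α) := by rw [← hα]
      _ = g * a * (α * g * a) * α := by simp only [mul_assoc]
  have hgk : g = β * (b * g * β) * (b * g) := by
    calc g = g * g := hgg.symm
      _ = (β * b * g) * (β * b * g) := by rw [← hβ]
      _ = β * (b * g * β) * (b * g) := by simp only [mul_assoc]
  have hJ : JEq (α * g * a) (b * g * β) := by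
    refine ⟨⟨b * (g * a), α * β, ?_⟩, ⟨α * β, b * g * a, ?_⟩⟩
    · calc b * (g * a) * (α * g * a) * (α * β) = b * (g * a * (α * g * a) * α) * β := by
            simp only [mul_assoc]
        _ = b * g * β := by rw [← hgh]
    · calc α * β * (b * g * β) * (b * g * a) = α * (β * (b * g * β) * (b * g)) * a := by
            simp only [mul_assoc]
        _ = α * g * a := by rw [← hgk]
  have h1 := hM _ _ hh hk hJ
  have h2 : g = (g * a * (α * g)) * (a * b) * (g * β * (α * g * a) * α) := by
    calc g = g * a * (α * g * a) * α := hgh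
      _ = g * a * (α * g * a * (b * g * β) * (α * g * a)) * α := by rw [h1]
      _ = (g * a * (α * g)) * (a * b) * (g * β * (α * g * a) * α) := by simp only [mul_assoc]
  exact hM.right hg h2

/-- `p * a` generates the same right ideal as `p`. -/
def St (p a : M) : Prop := ∃ z, p = p * a * z

/-- `a * s` generates the same left ideal as `s`. -/
def St' (s a : M) : Prop := ∃ z, s = z * a * s

theorem St.one (p : M) : St p 1 := ⟨1, by simp⟩

theorem pow_fix {p y : M} (h : p = p * y) (k : ℕ) : p * y ^ k = p := by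
  induction k with
  | zero => simp
  | succ k ih => rw [pow_succ, ← mul_assoc, ih, ← h]

section finite

variable [Finite M]

theorem St.of_mul (hM : DO M) {p m c z : M} (h : p = p * m * c * z) : St p c := by
  obtain ⟨k, hk, hg⟩ := exists_idem (m * c * z)
  obtain ⟨k, rfl⟩ : ∃ j, k = j + 1 := ⟨k - 1, by omega⟩
  have h1 : p = p * (m * c * z) := by
    calc p = p * m * c * z := h
      _ = _ := by simp only [mul_assoc]
  have h2 := pow_fix h1 (k + 1)
  obtain ⟨w, hw⟩ := hM.right (g := (m * c * z) ^ (k + 1)) (x := m) (m := c)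
    (y := z * (m * c * z) ^ k) hg (by rw [pow_succ']; simp only [mul_assoc])
  refine ⟨w, ?_⟩
  calc p = p * (m * c * z) ^ (k + 1) := h2.symm
    _ = p * ((m * c * z) ^ (k + 1) * c * w) := by rw [← hw]
    _ = p * (m * c * z) ^ (k + 1) * c * w := by simp only [mul_assoc]
    _ = p * c * w := by rw [h2]

theorem St.mul (hM : DO M) {p a b : M} (ha : St p a) (hb : St p b) : St p (a * b) := by
  obtain ⟨z, hz⟩ := ha
  obtain ⟨z', hz'⟩ := hb
  have h1 : p = p * (a * z * (b * z')) := by
    calc p = p * b * z' := hz'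
      _ = (p * a * z) * b * z' := by rw [← hz]
      _ = _ := by simp only [mul_assoc]
  obtain ⟨k, hk, hg⟩ := exists_idem (a * z * (b * z'))
  obtain ⟨k, rfl⟩ : ∃ j, k = j + 1 := ⟨k - 1, by omega⟩
  have h2 := pow_fix h1 (k + 1)
  obtain ⟨w, hw⟩ := hM.mul (g := (a * z * (b * z')) ^ (k + 1)) (a := a) (b := b) (x := 1)
    (y := z * (b * z') * (a * z * (b * z')) ^ k)
    (x' := (a * z * (b * z')) ^ k * (a * z)) (y' := z') hg
    (by rw [pow_succ']; simp only [mul_assoc, one_mul]) (by rw [pow_succ]; simp only [mul_assoc])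
  refine ⟨w, ?_⟩
  calc p = p * (a * z * (b * z')) ^ (k + 1) := h2.symm
    _ = p * ((a * z * (b * z')) ^ (k + 1) * (a * b) * w) := by rw [← hw]
    _ = p * (a * z * (b * z')) ^ (k + 1) * (a * b) * w := by simp only [mul_assoc]
    _ = p * (a * b) * w := by rw [h2]

/-! ### The rank -/

/-- The size of the right ideal generated by `p`. -/
noncomputable def rk (p : M) : ℕ := Nat.card {q : M // ∃ z, q = p * z}

theorem rk_lt {p u : M} (h : ¬ St p u) : rk (p * u) < rk p := by
  unfold rk
  have : Finite {q : M // ∃ z, q = p * z} := inferInstance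
  let φ : {q : M // ∃ z, q = p * u * z} → {q : M // ∃ z, q = p * z} := fun q =>
    ⟨q.1, by
      obtain ⟨z, hz⟩ := q.2
      exact ⟨u * z, by rw [hz, mul_assoc]⟩⟩
  have hφ : Function.Injective φ := by
    intro a b hab
    exact Subtype.ext (congrArg (fun q : {q : M // ∃ z, q = p * z} => q.1) hab)
  refine lt_of_le_of_ne (Nat.card_le_card_of_injective φ hφ) fun hcon => ?_
  have h1 : Function.Surjective φ := by
    exact ((Nat.bijective_iff_injective_and_card φ).2 ⟨hφ, hcon⟩).2
  obtain ⟨q, hq⟩ := h1 ⟨p, 1, by simp⟩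
  obtain ⟨z, hz⟩ := q.2
  have h2 : q.1 = p := congrArg (fun q : {q : M // ∃ z, q = p * z} => q.1) hq
  exact h ⟨z, by rw [← hz, h2]⟩

end finite

end Pool.Agent.MP_ca1109_lc.Mon
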