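import Pool.Agent.MP_ca1109_lc.Mon.B1

/-!
# Finite monoids in DO: the group image
-/

namespace Pool.Agent.MP_ca1109_lc.Mon

variable {M : Type*} [Monoid M]

theorem fix_pow {s z : M} (h : s = z * s) (k : ℕ) : z ^ k * s = s := by
  induction k with
  | zero => simp
  | succ k ih => rw [pow_succ, mul_assoc, ← h, ih]

/-- If `p ∈ p p M` then `p` is a group element. -/
theorem group_elem [Finite M] {p z : M} (h : p = p * p * z) :
    ∃ k, 0 < k ∧ IsIdempotentElem (p ^ k) ∧ p ^ k * p = p ∧ p * p ^ k = p := by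
  obtain ⟨k, hk, he⟩ := exists_idem p
  have h1 : ∀ j, p = p ^ (j + 1) * z ^ j := by
    intro j
    induction j with
    | zero => simp
    | succ j ih =>
      calc p = p ^ (j + 1) * z ^ j := ih
        _ = p ^ j * p * z ^ j := by rw [pow_succ]
        _ = p ^ j * (p * p * z) * z ^ j := by rw [← h]
        _ = p ^ (j + 1 + 1) * z ^ (j + 1) := by
            rw [pow_succ p (j + 1), pow_succ p j, pow_succ' z j]; simp only [mul_assoc]
  have h2 : p ^ k * p = p := by
    calc p ^ k * p = p ^ k * (p ^ (k + 1) * z ^ k) := by rw [← h1 k]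
      _ = (p ^ k * p ^ k) * p * z ^ k := by rw [pow_succ]; simp only [mul_assoc]
      _ = p ^ k * p * z ^ k := by rw [show p ^ k * p ^ k = p ^ k from he]
      _ = p := by rw [← pow_succ, ← h1 k]
  exact ⟨k, hk, he, h2, by rw [← pow_succ', pow_succ, h2]⟩

section image

variable [Finite M]

/-- The main identity. -/
theorem mid (hM : DO M) {S : Submonoid M} {e : M} (heS : e ∈ S) (he : IsIdempotentElem e)
    (hS : ∀ y ∈ S, ∃ w, e = e * y * w) {y f : M} (hy : y ∈ S) (hf : f ∈ S)
    (hff : IsIdempotentElem f) (hfe : ∃ a b, a * e * b = f) : e * y * f = e * y * e * f := by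
  have hee : e * e = e := he
  have hff' : f * f = f := hff
  obtain ⟨w, hw⟩ := hS (y * e * y) (S.mul_mem (S.mul_mem hy heS) hy)
  -- `z = e y`
  have hz1 : e = e * y * (e * y) * w := by
    calc e = e * (y * e * y) * w := hw
      _ = _ := by simp only [mul_assoc]
  have hz2 : e * y = e * y * (e * y) * (w * y) := by
    calc e * y = (e * y * (e * y) * w) * y := by rw [← hz1]
      _ = _ := by simp only [mul_assoc]
  obtain ⟨k, hk, hg, hgz, hzg⟩ := group_elem hz2
  set z := e * y with hz
  set g := z ^ k with hgdef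
  obtain ⟨k, rfl⟩ : ∃ j, k = j + 1 := ⟨k - 1, by omega⟩
  have hez : e * z = z := by rw [hz, ← mul_assoc, hee]
  have heg : e * g = g := by rw [hgdef, pow_succ', ← mul_assoc, hez]
  have hge : g * e = e := by
    calc g * e = g * (z * z * w) := by rw [← hz1]
      _ = (g * z) * z * w := by simp only [mul_assoc]
      _ = z * z * w := by rw [hgz]
      _ = e := hz1.symm
  have hgg : g * g = g := hg
  obtain ⟨a, b, hab⟩ := hfe
  obtain ⟨w', hw'⟩ := hS f hf
  have hgf : g * f * g = g := by
    refine hM g f hg hff ⟨⟨a, e * b, ?_⟩, ⟨e, w' * g, ?_⟩⟩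
    · calc a * g * (e * b) = a * (g * e) * b := by simp only [mul_assoc]
        _ = f := by rw [hge, hab]
    · calc e * f * (w' * g) = (e * f * w') * g := by simp only [mul_assoc]
        _ = g := by rw [← hw', heg]
  have hfef : f * e * f = f := hM f e hff he ⟨⟨e, w', by rw [← hw']⟩, ⟨a, b, hab⟩⟩
  have hgfi : IsIdempotentElem (g * f) := by
    show g * f * (g * f) = g * f
    rw [← mul_assoc, hgf]
  have hegfe : e * (g * f) * e = e := by
    refine hM e (g * f) he hgfi ⟨⟨1, g * f, ?_⟩, ⟨1, g * e, ?_⟩⟩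
    · rw [one_mul, ← mul_assoc, heg]
    · calc 1 * (g * f) * (g * e) = (g * f * g) * e := by simp only [mul_assoc, one_mul]
        _ = e := by rw [hgf, hge]
  have hgf2 : g * f = e * f := by
    calc g * f = e * g * (f * e * f) := by rw [hfef, heg]
      _ = (e * (g * f) * e) * f := by simp only [mul_assoc]
      _ = e * f := by rw [hegfe]
  calc z * f = (z * g) * f := by rw [hzg]
    _ = z * (g * f) := by rw [mul_assoc]
    _ = z * (e * f) := by rw [hgf2]
    _ = z * e * f := (mul_assoc _ _ _).symm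

/-- `y ↦ e y e` is multiplicative. -/
theorem mid_mul (hM : DO M) {S : Submonoid M} {e : M} (heS : e ∈ S) (he : IsIdempotentElem e)
    (hS : ∀ y ∈ S, ∃ w, e = e * y * w) {y y' : M} (hy : y ∈ S) (hy' : y' ∈ S) :
    e * (y * y') * e = e * y * e * (e * y' * e) := by
  have hee : e * e = e := he
  obtain ⟨w, hw⟩ := hS (y' * e) (S.mul_mem hy' heS)
  have h1 : y' * e = y' * e * (y' * e) * w := by
    calc y' * e = y' * (e * (y' * e) * w) := by rw [← hw]
      _ = _ := by simp only [mul_assoc]
  obtain ⟨k, hk, hf, hfs, hsf⟩ := group_elem h1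
  have hfS : (y' * e) ^ k ∈ S := S.pow_mem (S.mul_mem hy' heS) k
  have hfe : ∃ a b, a * e * b = (y' * e) ^ k := by
    obtain ⟨k, rfl⟩ : ∃ j, k = j + 1 := ⟨k - 1, by omega⟩
    exact ⟨(y' * e) ^ k * y', 1, by rw [pow_succ]; simp only [mul_assoc, mul_one]⟩
  have h2 := mid hM heS he hS hy hfS hf hfe
  calc e * (y * y') * e = e * y * (y' * e) := by simp only [mul_assoc]
    _ = e * y * ((y' * e) ^ k * (y' * e)) := by rw [hfs]
    _ = (e * y * (y' * e) ^ k) * (y' * e) := by simp only [mul_assoc]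
    _ = (e * y * e * (y' * e) ^ k) * (y' * e) := by rw [h2]
    _ = e * y * e * ((y' * e) ^ k * (y' * e)) := by simp only [mul_assoc]
    _ = e * y * e * (y' * e) := by rw [hfs]
    _ = e * y * (e * e) * (y' * e) := by rw [hee]
    _ = e * y * e * (e * y' * e) := by simp only [mul_assoc]

end image

/-! ### The corner monoid -/

/-- The elements of `e M e`. -/
def Cor (e : M) : Type _ := {m : M // e * m = m ∧ m * e = m}

/-- The monoid `e M e`. -/
@[reducible] def corMonoid {e : M} (he : IsIdempotentElem e) : Monoid (Cor e) where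
  mul a b := ⟨a.1 * b.1, by rw [← mul_assoc, a.2.1], by rw [mul_assoc, b.2.2]⟩
  one := ⟨e, he, he⟩
  mul_assoc a b c := Subtype.ext (mul_assoc _ _ _)
  one_mul a := Subtype.ext a.2.1
  mul_one a := Subtype.ext a.2.2

theorem unit_of_right [Finite M] {a b : M} (h : a * b = 1) : IsUnit a := by
  obtain ⟨k, hk, hg⟩ := exists_idem a
  obtain ⟨k, rfl⟩ : ∃ j, k = j + 1 := ⟨k - 1, by omega⟩
  have h1 : ∀ j, a ^ j * b ^ j = 1 := by
    intro j
    induction j with
    | zero => simp
    | succ j ih =>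
      rw [pow_succ a, pow_succ' b, mul_assoc, ← mul_assoc a b, h, one_mul, ih]
  have h2 : a ^ (k + 1) = 1 := by
    calc a ^ (k + 1) = a ^ (k + 1) * (a ^ (k + 1) * b ^ (k + 1)) := by rw [h1, mul_one]
      _ = a ^ (k + 1) * a ^ (k + 1) * b ^ (k + 1) := by rw [mul_assoc]
      _ = a ^ (k + 1) * b ^ (k + 1) := by rw [show a ^ (k + 1) * a ^ (k + 1) = a ^ (k + 1) from hg]
      _ = 1 := h1 _
  exact ⟨⟨a, a ^ k, by rw [← pow_succ', h2], by rw [← pow_succ, h2]⟩, rfl⟩

theorem group_elem' [Finite M] {s z : M} (h : s = z * s * s) :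
    ∃ k, 0 < k ∧ IsIdempotentElem (s ^ k) ∧ s ^ k * s = s ∧ s * s ^ k = s := by
  obtain ⟨k, hk, he⟩ := exists_idem s
  have h1 : ∀ j, s = z ^ j * s ^ (j + 1) := by
    intro j
    induction j with
    | zero => simp
    | succ j ih =>
      calc s = z ^ j * s ^ (j + 1) := ih
        _ = z ^ j * (s * s ^ j) := by rw [pow_succ']
        _ = z ^ j * (z * s * s * s ^ j) := by rw [← h]
        _ = z ^ (j + 1) * s ^ (j + 1 + 1) := by
            rw [pow_succ' s (j + 1), pow_succ' s j, pow_succ z j]; simp only [mul_assoc]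
  have h2 : s * s ^ k = s := by
    calc s * s ^ k = (z ^ k * s ^ (k + 1)) * s ^ k := by rw [← h1 k]
      _ = z ^ k * s * (s ^ k * s ^ k) := by rw [pow_succ']; simp only [mul_assoc]
      _ = z ^ k * (s * s ^ k) := by rw [show s ^ k * s ^ k = s ^ k from he, mul_assoc]
      _ = s := by rw [← pow_succ', ← h1 k]
  exact ⟨k, hk, he, by rw [← pow_succ, pow_succ', h2], h2⟩

/-- In the last case the product is a function of an image in a nilpotent group. -/
theorem final_case {M : Type} [Monoid M] [Finite M] (hM : DO M) (hN : NilSub M) {S : Submonoid M}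
    {p s : M} (hp : p ∈ S) (hs : s ∈ S) (h1 : ∀ y ∈ S, St p y) (h2 : ∀ y ∈ S, St' s y) :
    ∃ (G : Type) (_ : Group G) (_ : Finite G), Group.IsNilpotent G ∧
      ∃ (θ : S →* G) (Φ : G → M), ∀ y : S, p * y * s = Φ (θ y) := by
  obtain ⟨z, hz⟩ := h1 p hp
  obtain ⟨k, hk, he, hep, hpe⟩ := group_elem hz
  obtain ⟨z', hz'⟩ := h2 s hs
  obtain ⟨k', hk', hf, hfs, hsf⟩ := group_elem' hz'
  set e := p ^ k with hedef
  set f := s ^ k' with hfdef
  have heS : e ∈ S := S.pow_mem hp k
  have hfS : f ∈ S := S.pow_mem hs k'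
  have hee : e * e = e := he
  have hS : ∀ y ∈ S, ∃ w, e = e * y * w := by
    intro y hy
    obtain ⟨w, hw⟩ := h1 y hy
    obtain ⟨j, rfl⟩ : ∃ j, k = j + 1 := ⟨k - 1, by omega⟩
    refine ⟨w, ?_⟩
    calc e = p ^ j * p := by rw [hedef, pow_succ]
      _ = p ^ j * (p * y * w) := by rw [← hw]
      _ = p ^ (j + 1) * y * w := by rw [pow_succ]; simp only [mul_assoc]
      _ = e * y * w := by rw [hedef]
  have hfe : ∃ a b, a * e * b = f := by
    obtain ⟨w, hw⟩ := h2 e heS
    obtain ⟨j, rfl⟩ : ∃ j, k' = j + 1 := ⟨k' - 1, by omega⟩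
    refine ⟨w, f, ?_⟩
    calc w * e * f = w * e * (s * s ^ j) := by rw [hfdef, pow_succ']
      _ = (w * e * s) * s ^ j := by simp only [mul_assoc]
      _ = s * s ^ j := by rw [← hw]
      _ = f := by rw [hfdef, pow_succ']
  have hpys : ∀ y ∈ S, p * y * s = p * (e * y * e) * s := by
    intro y hy
    have h3 := mid hM heS he hS hy hfS hf hfe
    calc p * y * s = (p * e) * y * (f * s) := by rw [hpe, hfs]
      _ = p * (e * y * f) * s := by simp only [mul_assoc]
      _ = p * (e * y * e * f) * s := by rw [h3]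
      _ = p * (e * y * e) * (f * s) := by simp only [mul_assoc]
      _ = p * (e * y * e) * s := by rw [hfs]
  letI := corMonoid he
  have : Finite (Cor e) := Subtype.finite
  let θ0 : S →* Cor e :=
    { toFun := fun y => ⟨e * y * e, by simp only [← mul_assoc, hee], by rw [mul_assoc, hee]⟩
      map_one' := Subtype.ext (by
        show e * 1 * e = e
        rw [mul_one, hee])
      map_mul' := fun y y' => Subtype.ext (mid_mul hM heS he hS y.2 y'.2) }
  have hunit : ∀ y, IsUnit (θ0 y) := by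
    intro y
    obtain ⟨w, hw⟩ := hS (y * e) (S.mul_mem y.2 heS)
    refine unit_of_right (b := ⟨e * w * e, by simp only [← mul_assoc, hee],
      by rw [mul_assoc, hee]⟩) (Subtype.ext ?_)
    show e * y * e * (e * w * e) = e
    calc e * y * e * (e * w * e) = e * y * (e * e) * w * e := by simp only [mul_assoc]
      _ = e * (y * e) * w * e := by rw [hee]; simp only [mul_assoc]
      _ = e := by rw [← hw, hee]
  refine ⟨(Cor e)ˣ, inferInstance, inferInstance, ?_, IsUnit.liftRight θ0 hunit,
    fun h => p * h.1.1 * s, fun y => ?_⟩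
  · refine hN (Cor e)ˣ ⟨fun u => u.1.1, fun u v => rfl⟩ fun u v huv => ?_
    exact Units.ext (Subtype.ext huv)
  · rw [hpys y y.2]
    rfl

end Pool.Agent.MP_ca1109_lc.Mon
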