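import Pool.Agent.MP_ca1109_lc.Mon.A5
import Pool.Agent.MP_ca1109_lc.Mon.B2

/-!
# Programs over finite monoids in DO are nested decision lists
-/

namespace Pool.Agent.MP_ca1109_lc.Mon

open Pool.Agent.MP_ca1109_lc.Mpg Pool.Agent.MP_ca1109_lc.Hyb Pool.Agent.MP_ca1109_lc.Agp Finset

/-! ## Trees -/

section tree

variable {n d k : ℕ} {𝒯 : ((Fin n → Bool) → Bool) → Prop}

theorem Tree.up {r : ℕ} {T : (Fin n → Bool) → Bool} (h : Tree 𝒯 d k r T) :
    Tree 𝒯 d k (r + 1) T :=
  Tree.list (N := 0) (fun i => i.elim0) (fun i => i.elim0) (fun i => i.elim0)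
    (fun i => i.elim0) T h T (fun _ i => i.elim0) (fun _ _ => rfl)

theorem Tree.mono {r r' : ℕ} (hr : r ≤ r') {T : (Fin n → Bool) → Bool} (h : Tree 𝒯 d k r T) :
    Tree 𝒯 d k r' T := by
  induction r', hr using Nat.le_induction with
  | base => exact h
  | succ r' _ ih => exact ih.up

theorem Tree.fn {r : ℕ} {J : Type*} [Fintype J] [Nonempty J] (hJ : Fintype.card J ≤ k)
    {T : J → (Fin n → Bool) → Bool} (hT : ∀ j, Tree 𝒯 d k r (T j)) {U : (Fin n → Bool) → Bool}
    (hU : ∀ x y, (∀ j, T j x = T j y) → U x = U y) : Tree 𝒯 d k (r + 1) U := by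
  classical
  obtain ⟨e, he⟩ : ∃ e : Fin k → J, Function.Surjective e := by
    refine ⟨fun i => if h : (i : ℕ) < Fintype.card J then (Fintype.equivFin J).symm ⟨i, h⟩
      else Classical.arbitrary J, fun j => ?_⟩
    refine ⟨⟨(Fintype.equivFin J j : ℕ), (Fin.is_lt _).trans_le hJ⟩, ?_⟩
    simp
  let F : (Fin k → Bool) → Bool := fun b => decide (∃ y, U y = true ∧ ∀ i, T (e i) y = b i)
  have h := Tree.comb (𝒯 := 𝒯) (d := d) (fun i => T (e i)) (fun i => hT (e i)) F
  have h1 : (fun x => F fun i => T (e i) x) = U := by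
    funext x
    rw [Bool.eq_iff_iff]
    simp only [F, decide_eq_true_eq]
    constructor
    · rintro ⟨y, hy, h2⟩
      rw [← hy]
      refine hU x y fun j => ?_
      obtain ⟨i, rfl⟩ := he j
      exact (h2 i).symm
    · intro hx
      exact ⟨x, hx, fun _ => rfl⟩
  rw [← h1]
  exact h

theorem groupTest_of {k₀ : ℕ} {Γ : Type} [AddCommGroup Γ] {P : (Fin n → Bool) → Γ}
    (hP : P ∈ lowDeg (Fin n) Bool Γ d) (hk : 1 ≤ k₀) {T : (Fin n → Bool) → Bool}
    (hT : ∀ x, T x = true ↔ P x = 0) : GroupTest d k₀ n T := by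
  refine ⟨fun _ => Γ, fun _ => inferInstance, fun _ => P, fun b => b ⟨0, hk⟩, fun _ => hP,
    fun x => hT x⟩

theorem groupTest_bit {k₀ : ℕ} (hd : 1 ≤ d) (hk : 1 ≤ k₀) (i : Fin n) :
    GroupTest d k₀ n (fun x => x i) := by
  refine groupTest_of (Γ := ZMod 2) (P := fun x => if x i = true then 0 else 1) ?_ hk fun x => ?_
  · refine junta_mem {i} (by simpa using hd) fun x y hxy => ?_
    rw [hxy i (by simp)]
  · by_cases h : x i = true <;> simp [h]

theorem groupTest_const {k₀ : ℕ} (c : Bool) : GroupTest d k₀ n (fun _ => c) :=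
  ⟨fun _ => ℤ, fun _ => inferInstance, fun _ _ => 0, fun _ => c = true, fun _ => lowDeg_const 0,
    fun _ => Iff.rfl⟩

end tree

theorem GroupTest.mono' {d d' k k' n : ℕ} (hd : d ≤ d') (hk : k ≤ k') {T : (Fin n → Bool) → Bool}
    (h : GroupTest d k n T) : GroupTest d' k' n T := by
  obtain ⟨Γ, inst, P, F, hP, hT⟩ := h
  have h1 : ∀ i : Fin k', ∃ (Γ' : Type) (_ : AddCommGroup Γ') (P' : (Fin n → Bool) → Γ'),
      P' ∈ lowDeg (Fin n) Bool Γ' d' ∧
        ∀ (hi : (i : ℕ) < k) x, (P' x = 0 ↔ P ⟨i, hi⟩ x = 0) := by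
    intro i
    by_cases hi : (i : ℕ) < k
    · exact ⟨Γ ⟨i, hi⟩, inst _, P ⟨i, hi⟩, lowDeg_mono hd (hP _), fun _ _ => Iff.rfl⟩
    · exact ⟨ℤ, inferInstance, fun _ => 0, lowDeg_const 0, fun h => absurd h hi⟩
  choose Γ' inst' P' hP' hc using h1
  refine ⟨Γ', inst', P', fun b => F fun i => b ⟨i, i.2.trans_le hk⟩, hP', fun x => ?_⟩
  rw [hT x]
  have h2 : (fun i => P i x = 0) = fun i : Fin k => P' ⟨i, i.2.trans_le hk⟩ x = 0 := by
    funext i
    exact propext (hc ⟨i, i.2.trans_le hk⟩ i.2 x).symm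
  rw [h2]

/-! ## Programs -/

section prog

variable {M : Type} [Monoid M] {n : ℕ}

theorem monVal_append (l l' : List (Fin n × M × M)) (x : Fin n → Bool) :
    monVal (l ++ l') x = monVal l x * monVal l' x := by
  unfold monVal
  rw [List.map_append, List.prod_append]

theorem monVal_cons (t : Fin n × M × M) (l : List (Fin n × M × M)) (x : Fin n → Bool) :
    monVal (t :: l) x = (if x t.1 then t.2.2 else t.2.1) * monVal l x := by
  unfold monVal
  rw [List.map_cons, List.prod_cons]

theorem monVal_mem {S : Submonoid M} {l : List (Fin n × M × M)}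
    (hl : ∀ t ∈ l, t.2.1 ∈ S ∧ t.2.2 ∈ S) (x : Fin n → Bool) : monVal l x ∈ S := by
  unfold monVal
  refine S.list_prod_mem fun a ha => ?_
  obtain ⟨t, ht, rfl⟩ := List.mem_map.1 ha
  show (if x t.1 then t.2.2 else t.2.1) ∈ S
  split_ifs
  · exact (hl t ht).2
  · exact (hl t ht).1

open Classical in
/-- letters outside `S` are replaced by `1` -/
noncomputable def clean (S : Submonoid M) (l : List (Fin n × M × M)) : List (Fin n × M × M) :=
  l.map fun t => (t.1, (if t.2.1 ∈ S then t.2.1 else 1), (if t.2.2 ∈ S then t.2.2 else 1))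

open Classical in
theorem clean_mem (S : Submonoid M) (l : List (Fin n × M × M)) :
    ∀ t ∈ clean S l, t.2.1 ∈ S ∧ t.2.2 ∈ S := by
  intro t ht
  obtain ⟨u, -, rfl⟩ := List.mem_map.1 ht
  refine ⟨?_, ?_⟩
  · show (if u.2.1 ∈ S then u.2.1 else 1) ∈ S
    split_ifs with h
    · exact h
    · exact S.one_mem
  · show (if u.2.2 ∈ S then u.2.2 else 1) ∈ S
    split_ifs with h
    · exact h
    · exact S.one_mem

open Classical in
theorem clean_val (S : Submonoid M) (l : List (Fin n × M × M)) (x : Fin n → Bool)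
    (h : ∀ t ∈ l, (if x t.1 then t.2.2 else t.2.1) ∈ S) : monVal (clean S l) x = monVal l x := by
  induction l with
  | nil => rfl
  | cons t l ih =>
    have h1 : clean S (t :: l) =
        (t.1, (if t.2.1 ∈ S then t.2.1 else 1), (if t.2.2 ∈ S then t.2.2 else 1)) ::
          clean S l := rfl
    rw [h1, monVal_cons, monVal_cons, ih fun u hu => h u (List.mem_cons_of_mem _ hu)]
    congr 1
    have h2 := h t List.mem_cons_self
    show (if x t.1 then (if t.2.2 ∈ S then t.2.2 else 1) else (if t.2.1 ∈ S then t.2.1 else 1)) = _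
    by_cases hx : x t.1 = true
    · rw [if_pos hx] at h2 ⊢
      rw [if_pos h2, if_pos hx]
    · rw [if_neg hx] at h2 ⊢
      rw [if_pos h2, if_neg hx]

end prog

/-- All programs with letters in `S` between `p` and `s` are nested decision lists. -/
def Claim {M : Type} [Monoid M] (d k k₀ : ℕ) (S : Submonoid M) (p s : M) : Prop :=
  ∃ r, ∀ (n : ℕ) (l : List (Fin n × M × M)), (∀ t ∈ l, t.2.1 ∈ S ∧ t.2.2 ∈ S) → ∀ A : M → Bool,
    Tree (GroupTest d k₀ n) d k r (fun x => A (p * monVal l x * s))

/-- The submonoid of the elements which do not lead to a smaller right ideal. -/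
def Sub {M : Type} [Monoid M] [Finite M] (hM : DO M) (S : Submonoid M) (p : M) : Submonoid M where
  carrier := {y | y ∈ S ∧ St p y}
  one_mem' := ⟨S.one_mem, St.one p⟩
  mul_mem' := fun ha hb => ⟨S.mul_mem ha.1 hb.1, St.mul hM ha.2 hb.2⟩

theorem claim_step {M : Type} [Monoid M] [Finite M] (hM : DO M) {d k k₀ : ℕ} (hd : 1 ≤ d)
    (hk : 2 * Nat.card M + 1 ≤ k) (hk₀ : 1 ≤ k₀) {S : Submonoid M} {p s : M} (hp : p ∈ S)
    (ih1 : Claim d k k₀ (Sub hM S p) 1 1) (ih2 : ∀ q ∈ S, rk q < rk p → Claim d k k₀ S q s) :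
    Claim d k k₀ S p s := by
  classical
  have : Fintype M := Fintype.ofFinite M
  obtain ⟨r1, h1⟩ := ih1
  have h2 : ∀ q : M, ∃ r, (q ∈ S ∧ rk q < rk p) → ∀ (n : ℕ) (l : List (Fin n × M × M)),
      (∀ t ∈ l, t.2.1 ∈ S ∧ t.2.2 ∈ S) → ∀ A : M → Bool,
      Tree (GroupTest d k₀ n) d k r (fun x => A (q * monVal l x * s)) := by
    intro q
    by_cases hq : q ∈ S ∧ rk q < rk p
    · obtain ⟨r, hr⟩ := ih2 q hq.1 hq.2
      exact ⟨r, fun _ => hr⟩
    · exact ⟨0, fun h => absurd h hq⟩
  choose r2 h2 using h2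
  set R : ℕ := r1 + ∑ q, r2 q with hR
  have hr1 : r1 ≤ R := Nat.le_add_right _ _
  have hr2 : ∀ q, r2 q ≤ R := fun q =>
    (Finset.single_le_sum (f := r2) (fun _ _ => Nat.zero_le _) (Finset.mem_univ q)).trans
      (Nat.le_add_left _ _)
  set S' := Sub hM S p with hS'
  have hcard : Fintype.card M = Nat.card M := (Nat.card_eq_fintype_card).symm
  refine ⟨R + 2, fun n l hl A => ?_⟩
  -- the questions
  let lt : Fin l.length → (Fin n → Bool) → M := fun t x =>
    if x (l[(t : ℕ)]).1 then (l[(t : ℕ)]).2.2 else (l[(t : ℕ)]).2.1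
  let P : Fin l.length → (Fin n → Bool) → ZMod 2 := fun t x => if lt t x ∈ S' then 0 else 1
  have hP : ∀ t, P t ∈ lowDeg (Fin n) Bool (ZMod 2) d := by
    intro t
    refine junta_mem {(l[(t : ℕ)]).1} (by simpa using hd) fun x y hxy => ?_
    have : lt t x = lt t y := by
      show (if x (l[(t : ℕ)]).1 then _ else _) = if y (l[(t : ℕ)]).1 then _ else _
      rw [hxy (l[(t : ℕ)]).1 (by simp)]
    show (if lt t x ∈ S' then (0 : ZMod 2) else 1) = if lt t y ∈ S' then 0 else 1
    rw [this]
  have hP0 : ∀ t x, P t x = 0 ↔ lt t x ∈ S' := by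
    intro t x
    show (if lt t x ∈ S' then (0 : ZMod 2) else 1) = 0 ↔ _
    by_cases h : lt t x ∈ S' <;> simp [h]
  -- the values of clean programs
  have hX : ∀ (l' : List (Fin n × M × M)) (m : M), Tree (GroupTest d k₀ n) d k R
      (fun x => decide (monVal (clean S' l') x = m)) := by
    intro l' m
    have := (h1 n (clean S' l') (clean_mem S' l') fun a => decide (a = m)).mono hr1
    simpa using this
  have hc0 : ∀ c : Bool, Tree (GroupTest d k₀ n) d k R (fun _ => c) := fun c =>
    (Tree.base (groupTest_const c)).mono (Nat.zero_le _)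
  -- the leaves
  let Y : Fin l.length → M → (Fin n → Bool) → Bool := fun t q x =>
    if q ∈ S ∧ rk q < rk p then A (q * monVal (l.drop (t + 1)) x * s) else false
  have hY : ∀ t q, Tree (GroupTest d k₀ n) d k R (Y t q) := by
    intro t q
    by_cases hq : q ∈ S ∧ rk q < rk p
    · have h3 := (h2 q hq n (l.drop (t + 1)) (fun u hu => hl u (List.mem_of_mem_drop hu)) A).mono
        (hr2 q)
      have h4 : Y t q = fun x => A (q * monVal (l.drop (t + 1)) x * s) := by
        funext x
        exact if_pos hq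
      rw [h4]
      exact h3
    · have h4 : Y t q = fun _ => false := by
        funext x
        exact if_neg hq
      rw [h4]
      exact hc0 false
  let V : Fin l.length → (Fin n → Bool) → Bool := fun t x =>
    Y t (p * monVal (clean S' (l.take t)) x * lt t x) x
  have hV : ∀ t, Tree (GroupTest d k₀ n) d k (R + 1) (V t) := by
    intro t
    let J := Option (M ⊕ M)
    have hJ : Fintype.card J ≤ k := by
      rw [Fintype.card_option, Fintype.card_sum, hcard]
      omega
    let W : J → (Fin n → Bool) → Bool := fun j => match j with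
      | none => fun x => x (l[(t : ℕ)]).1
      | some (Sum.inl m) => fun x => decide (monVal (clean S' (l.take t)) x = m)
      | some (Sum.inr q) => Y t q
    refine Tree.fn (J := J) hJ (T := W) ?_ ?_
    · rintro (_ | m | q)
      · exact (Tree.base (groupTest_bit hd hk₀ _)).mono (Nat.zero_le _)
      · exact hX _ m
      · exact hY t q
    · intro x y hxy
      have e1 : monVal (clean S' (l.take t)) x = monVal (clean S' (l.take t)) y := by
        have := hxy (some (Sum.inl (monVal (clean S' (l.take t)) y)))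
        simpa [W] using this
      have e2 : lt t x = lt t y := by
        have h5 : x (l[(t : ℕ)]).1 = y (l[(t : ℕ)]).1 := hxy none
        show (if x (l[(t : ℕ)]).1 then _ else _) = if y (l[(t : ℕ)]).1 then _ else _
        rw [h5]
      show Y t _ x = Y t _ y
      rw [e1, e2]
      exact hxy (some (Sum.inr _))
  have hV' : Tree (GroupTest d k₀ n) d k (R + 1)
      (fun x => A (p * monVal (clean S' l) x * s)) := by
    have : Nonempty M := ⟨1⟩
    refine Tree.fn (J := M) (by rw [hcard]; omega) (T := fun m x =>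
      decide (monVal (clean S' l) x = m)) (fun m => hX l m) fun x y hxy => ?_
    have e1 : monVal (clean S' l) x = monVal (clean S' l) y := by
      have := hxy (monVal (clean S' l) y)
      simpa using this
    rw [e1]
  refine Tree.list (fun t x => lt t x ∉ S') (fun t => Or.inl ⟨ZMod 2, inferInstance, P t, hP t,
    fun x => not_congr (hP0 t x).symm⟩) V hV _ hV' _ (fun x t ht hj => ?_) fun x h => ?_
  · have h5 : lt t x ∉ S' := ht
    have h6 : ∀ u ∈ l.take t, (if x u.1 then u.2.2 else u.2.1) ∈ S' := by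
      intro u hu
      obtain ⟨j, hj1, rfl⟩ := List.getElem_of_mem hu
      rw [List.length_take] at hj1
      have hj2 : j < l.length := by omega
      have hj3 : (⟨j, hj2⟩ : Fin l.length) < t := by
        rw [Fin.lt_def]
        show j < (t : ℕ)
        omega
      have := not_not.1 (hj _ hj3)
      rw [List.getElem_take]
      exact this
    have h7 := clean_val S' (l.take t) x h6
    have h8 : monVal l x = monVal (l.take t) x * (lt t x * monVal (l.drop (t + 1)) x) := by
      conv_lhs => rw [← List.take_append_drop (t : ℕ) l]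
      rw [monVal_append, List.drop_eq_getElem_cons t.2, monVal_cons]
    have h9 : monVal (l.take t) x ∈ S' := by
      rw [← h7]
      exact monVal_mem (clean_mem S' _) x
    have hltS : lt t x ∈ S := by
      show (if x (l[(t : ℕ)]).1 then _ else _) ∈ S
      have := hl _ (List.getElem_mem t.2)
      split_ifs
      · exact this.2
      · exact this.1
    have h10 : p * monVal (l.take t) x * lt t x ∈ S ∧
        rk (p * monVal (l.take t) x * lt t x) < rk p := by
      refine ⟨S.mul_mem (S.mul_mem hp h9.1) hltS, ?_⟩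
      rw [mul_assoc]
      refine rk_lt fun ⟨z, hz⟩ => h5 ⟨hltS, ?_⟩
      refine St.of_mul hM (m := monVal (l.take t) x) (z := z) ?_
      simp only [mul_assoc] at hz ⊢
      exact hz
    show A (p * monVal l x * s) = Y t (p * monVal (clean S' (l.take t)) x * lt t x) x
    rw [h7]
    show _ = if p * monVal (l.take t) x * lt t x ∈ S ∧
      rk (p * monVal (l.take t) x * lt t x) < rk p then
        A (p * monVal (l.take t) x * lt t x * monVal (l.drop (t + 1)) x * s) else false
    rw [if_pos h10, h8]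
    simp only [mul_assoc]
  · show A (p * monVal l x * s) = A (p * monVal (clean S' l) x * s)
    rw [clean_val S' l x]
    intro u hu
    obtain ⟨j, hj1, rfl⟩ := List.getElem_of_mem hu
    exact not_not.1 (h ⟨j, hj1⟩)

end Pool.Agent.MP_ca1109_lc.Mon
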