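import Pool.Agent.MP_ca1109_lc.Mon.B3

/-!
# Programs over finite monoids in DO with nilpotent subgroups
-/

namespace Pool.Agent.MP_ca1109_lc.Mon

open Pool.Agent.MP_ca1109_lc.Mpg Pool.Agent.MP_ca1109_lc.Hyb Pool.Agent.MP_ca1109_lc.Agp Finset
  MulOpposite

variable {M : Type} [Monoid M] {d k k₀ : ℕ}

theorem claim_op {S : Submonoid M} {p s : M} (h : Claim d k k₀ S.op (op s) (op p)) :
    Claim d k k₀ S p s := by
  obtain ⟨r, hr⟩ := h
  refine ⟨r, fun n l hl A => ?_⟩
  have h1 := hr n ((l.reverse).map fun t => (t.1, op t.2.1, op t.2.2)) (fun t ht => by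
    obtain ⟨u, hu, rfl⟩ := List.mem_map.1 ht
    exact hl u (List.mem_reverse.1 hu)) (fun a => A a.unop)
  have h2 : ∀ x, monVal ((l.reverse).map fun t => (t.1, op t.2.1, op t.2.2)) x =
      op (monVal l x) := by
    intro x
    clear hl h1
    induction l with
    | nil => rfl
    | cons t l ih =>
      rw [List.reverse_cons, List.map_append, monVal_append, ih, monVal_cons, op_mul]
      congr 1
      rw [List.map_singleton, monVal_cons]
      show (if x t.1 then op t.2.2 else op t.2.1) * 1 = _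
      rw [mul_one]
      split_ifs <;> rfl
  have h3 : (fun x => A (p * monVal l x * s)) = fun x => A (op s *
      monVal ((l.reverse).map fun t => (t.1, op t.2.1, op t.2.2)) x * op p).unop := by
    funext x
    rw [h2]
    simp only [unop_mul, unop_op, mul_assoc]
  rw [h3]
  exact h1

theorem claim_unop {S : Submonoid M} {p s : M} (h : Claim d k k₀ S p s) :
    Claim d k k₀ S.op (op s) (op p) := by
  obtain ⟨r, hr⟩ := h
  refine ⟨r, fun n l hl A => ?_⟩
  have h1 := hr n ((l.reverse).map fun t => (t.1, unop t.2.1, unop t.2.2)) (fun t ht => by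
    obtain ⟨u, hu, rfl⟩ := List.mem_map.1 ht
    exact hl u (List.mem_reverse.1 hu)) (fun a => A (op a))
  have h2 : ∀ x, monVal ((l.reverse).map fun t => (t.1, unop t.2.1, unop t.2.2)) x =
      unop (monVal l x) := by
    intro x
    clear hl h1
    induction l with
    | nil => rfl
    | cons t l ih =>
      rw [List.reverse_cons, List.map_append, monVal_append, ih, monVal_cons, unop_mul]
      congr 1
      rw [List.map_singleton, monVal_cons]
      show (if x t.1 then unop t.2.2 else unop t.2.1) * 1 = _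
      rw [mul_one]
      split_ifs <;> rfl
  have h3 : (fun x => A (op s * monVal l x * op p)) = fun x => A (op (p *
      monVal ((l.reverse).map fun t => (t.1, unop t.2.1, unop t.2.2)) x * s)) := by
    funext x
    rw [h2]
    simp only [op_mul, op_unop, mul_assoc]
  rw [h3]
  exact h1

theorem DO.op (hM : DO M) : DO Mᵐᵒᵖ := by
  intro e f he hf hef
  obtain ⟨⟨a, b, hab⟩, c, g, hcg⟩ := hef
  have h1 := hM e.unop f.unop (by
    show e.unop * e.unop = e.unop
    rw [← unop_mul, show e * e = e from he]) (by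
    show f.unop * f.unop = f.unop
    rw [← unop_mul, show f * f = f from hf])
    ⟨⟨b.unop, a.unop, by rw [← hab]; simp only [unop_mul, mul_assoc]⟩,
      ⟨g.unop, c.unop, by rw [← hcg]; simp only [unop_mul, mul_assoc]⟩⟩
  apply unop_injective
  rw [unop_mul, unop_mul, ← mul_assoc]
  exact h1

theorem St_op {s y : M} : St (op s) (op y) ↔ St' s y := by
  constructor
  · rintro ⟨z, hz⟩
    refine ⟨z.unop, ?_⟩
    have := congrArg unop hz
    simpa only [unop_mul, unop_op, mul_assoc] using this
  · rintro ⟨z, hz⟩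
    refine ⟨op z, ?_⟩
    rw [← op_mul, ← op_mul, ← mul_assoc, ← hz]

theorem card_lt [Finite M] {S S' : Submonoid M} (h : S' ≤ S) {y : M} (hy : y ∈ S) (hy' : y ∉ S') :
    Nat.card S' < Nat.card S := by
  refine lt_of_le_of_ne (Nat.card_le_card_of_injective (Submonoid.inclusion h)
    (Submonoid.inclusion_injective h)) fun hcon => ?_
  have h1 := ((Nat.bijective_iff_injective_and_card (Submonoid.inclusion h)).2
    ⟨Submonoid.inclusion_injective h, hcon⟩).2
  obtain ⟨z, hz⟩ := h1 ⟨y, hy⟩
  exact hy' (by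
    have : z.1 = y := congrArg Subtype.val hz
    rw [← this]; exact z.2)

theorem claim_all [Finite M] (hM : DO M) (hd : 1 ≤ d) (hk : 2 * Nat.card M + 1 ≤ k) (hk₀ : 1 ≤ k₀)
    (hfin : ∀ (S : Submonoid M) (p s : M), p ∈ S → s ∈ S → (∀ y ∈ S, St p y) →
      (∀ y ∈ S, St' s y) → ∀ (n : ℕ) (l : List (Fin n × M × M)),
      (∀ t ∈ l, t.2.1 ∈ S ∧ t.2.2 ∈ S) → ∀ A : M → Bool,
      GroupTest d k₀ n (fun x => A (p * monVal l x * s))) :
    ∀ (c : ℕ) (S : Submonoid M), Nat.card S ≤ c → ∀ (m : ℕ) (p s : M), p ∈ S → s ∈ S →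
      rk p + rk (op s) ≤ m → Claim d k k₀ S p s := by
  intro c
  induction c with
  | zero =>
    intro S hS
    have : 0 < Nat.card S := Nat.card_pos
    omega
  | succ c ihc =>
    intro S hS m
    induction m with
    | zero =>
      intro p s hp hs hps
      have : 0 < rk p := by
        unfold rk
        have : Nonempty {q : M // ∃ z, q = p * z} := ⟨⟨p, 1, by simp⟩⟩
        exact Nat.card_pos
      omega
    | succ m ihm =>
      intro p s hp hs hps
      by_cases h1 : ∀ y ∈ S, St p y
      · by_cases h2 : ∀ y ∈ S, St' s y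
        · exact ⟨0, fun n l hl A => Tree.base (hfin S p s hp hs h1 h2 n l hl A)⟩
        · push Not at h2
          obtain ⟨y, hy, hy'⟩ := h2
          have : Finite Mᵐᵒᵖ := Finite.of_equiv M opEquiv
          refine claim_op (claim_step hM.op hd ?_ hk₀ (show op s ∈ S.op from hs) ?_ ?_)
          · rwa [Nat.card_congr (opEquiv (α := M)).symm]
          · have h3 := ihc (Sub hM.op S.op (op s)).unop (by
              have h4 : (Sub hM.op S.op (op s)).unop ≤ S := by
                intro a ha
                exact ha.1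
              have h5 := card_lt h4 hy (fun h => hy' (St_op.1 h.2))
              omega) (rk (1 : M) + rk (op (1 : M))) 1 1 (Submonoid.one_mem _)
              (Submonoid.one_mem _) le_rfl
            have h6 := claim_unop h3
            rwa [Submonoid.op_unop] at h6
          · intro q hq hq'
            have h3 := ihm p q.unop hp hq (by
              show rk p + rk (op q.unop) ≤ m
              rw [op_unop]
              omega)
            exact claim_unop h3
      · push Not at h1
        obtain ⟨y, hy, hy'⟩ := h1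
        refine claim_step hM hd hk hk₀ hp ?_ ?_
        · refine ihc (Sub hM S p) ?_ (rk (1 : M) + rk (op (1 : M))) 1 1 (Submonoid.one_mem _)
            (Submonoid.one_mem _) le_rfl
          have h4 : Sub hM S p ≤ S := fun a ha => ha.1
          have h5 := card_lt h4 hy (fun h => hy' h.2)
          omega
        · intro q hq hq'
          exact ihm q s hq hs (by omega)

/-- The last case. -/
theorem last_case [Finite M] (hM : DO M) (hN : NilSub M) {S : Submonoid M} {p s : M} (hp : p ∈ S)
    (hs : s ∈ S) (h1 : ∀ y ∈ S, St p y) (h2 : ∀ y ∈ S, St' s y) :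
    ∃ d k₀ : ℕ, ∀ (n : ℕ) (l : List (Fin n × M × M)), (∀ t ∈ l, t.2.1 ∈ S ∧ t.2.2 ∈ S) →
      ∀ A : M → Bool, GroupTest d k₀ n (fun x => A (p * monVal l x * s)) := by
  classical
  obtain ⟨G, hG, hGf, hnil, θ, Φ, hΦ⟩ := final_case hM hN hp hs h1 h2
  obtain ⟨m, d, k', -, H⟩ := prog_sys G hnil 1
  refine ⟨d, k', fun n l hl A => (H n _ ?_).group⟩
  let θ' : M → G := fun a => if h : a ∈ S then θ ⟨a, h⟩ else 1
  let l' : List (Fin n × G × G) := l.map fun t => (t.1, θ' t.2.1, θ' t.2.2)
  have h3 : ∀ x, progVal l' x = θ ⟨monVal l x, monVal_mem hl x⟩ := by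
    intro x
    have h4 : ∀ l : List (Fin n × M × M), (hl : ∀ t ∈ l, t.2.1 ∈ S ∧ t.2.2 ∈ S) →
        progVal (l.map fun t => (t.1, θ' t.2.1, θ' t.2.2)) x =
          θ ⟨monVal l x, monVal_mem hl x⟩ := by
      intro l hl
      induction l with
      | nil =>
        have : (⟨monVal ([] : List (Fin n × M × M)) x, monVal_mem hl x⟩ : S) = 1 := rfl
        rw [this, map_one]
        rfl
      | cons t l ih =>
        have e1 : (⟨monVal (t :: l) x, monVal_mem hl x⟩ : S) =
            ⟨if x t.1 then t.2.2 else t.2.1, by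
              have := hl t List.mem_cons_self
              split_ifs
              · exact this.2
              · exact this.1⟩ * ⟨monVal l x, monVal_mem (fun u hu =>
                hl u (List.mem_cons_of_mem _ hu)) x⟩ := Subtype.ext (monVal_cons t l x)
        rw [e1, map_mul, ← ih fun u hu => hl u (List.mem_cons_of_mem _ hu)]
        unfold progVal
        rw [List.map_cons, List.map_cons, List.prod_cons]
        congr 1
        show (if x t.1 then θ' t.2.2 else θ' t.2.1) = _
        have h5 := hl t List.mem_cons_self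
        by_cases hx : x t.1 = true
        · simp only [hx, if_true]
          exact dif_pos h5.2
        · simp only [hx]
          exact dif_pos h5.1
    exact h4 l hl
  refine ⟨0, fun _ => l', fun _ j => j.elim0, fun _ j => j.elim0, fun _ _ => true,
    fun g _ => A (Φ (g 0)), fun x i => ⟨fun _ j => j.elim0, fun _ => rfl⟩, fun x => ?_⟩
  show A (p * monVal l x * s) = A (Φ (progVal l' x))
  rw [h3, ← hΦ]

theorem EqQ.mono {n d d' : ℕ} (hd : d ≤ d') {E : (Fin n → Bool) → Prop} (h : EqQ d E) :
    EqQ d' E := by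
  obtain ⟨Γ, inst, P, hP, hE⟩ := h
  exact ⟨Γ, inst, P, lowDeg_mono hd hP, hE⟩

theorem LinQ.mono {n k k' : ℕ} (hk : k ≤ k') {E : (Fin n → Bool) → Prop} (h : LinQ k E) :
    LinQ k' E := by
  obtain ⟨G, iG, fG, L, A, hG, hL, hE⟩ := h
  exact ⟨G, iG, fG, L, A, hG.trans hk, hL, hE⟩

/-- Composition of nested decision lists. -/
theorem Tree.bind {n d d' k k' r r' : ℕ} (hd : d ≤ d') (hk : k ≤ k')
    {𝒯 𝒯' : ((Fin n → Bool) → Bool) → Prop} (hc : ∀ c : Bool, Tree 𝒯' d' k' r' fun _ => c)
    (h𝒯 : ∀ T, 𝒯 T → Tree 𝒯' d' k' r' T) {T : (Fin n → Bool) → Bool} (h : Tree 𝒯 d k r T) :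
    Tree 𝒯' d' k' (r' + r) T := by
  induction h with
  | base h => exact h𝒯 _ h
  | @comb r T hT F ih =>
    rcases Nat.eq_zero_or_pos k with h0 | h0
    · subst h0
      have h1 : (fun x => F fun i => T i x) = fun _ => F fun i => i.elim0 := by
        funext x
        congr 1
        funext i
        exact i.elim0
      rw [h1]
      exact (hc _).mono (by omega)
    · have : Nonempty (Fin k) := ⟨⟨0, h0⟩⟩
      rw [show r' + (r + 1) = (r' + r) + 1 by omega]
      refine Tree.fn (J := Fin k) (by simpa using hk) ih fun x y hxy => ?_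
      show F (fun i => T i x) = F fun i => T i y
      congr 1
      funext i
      exact hxy i
  | @list r N E hE T hT T' hT' U hU hU' ih ih' =>
    rw [show r' + (r + 1) = (r' + r) + 1 by omega]
    exact Tree.list E (fun i => (hE i).imp (EqQ.mono hd) (LinQ.mono hk)) T ih T' ih' U hU hU'

theorem mixed_of_group {d k n : ℕ} {T : (Fin n → Bool) → Bool} (h : GroupTest d k n T) :
    MixedTest d k n T := by
  obtain ⟨Γ, inst, P, F, hP, hT⟩ := h
  exact ⟨fun _ _ => 0, Γ, inst, P, fun _ => F, fun _ => lowDeg_const 0, hP, hT⟩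

/-- Programs over finite monoids in DO with nilpotent subgroups are nested decision lists. -/
theorem mon_tree [Finite M] (hM : DO M) (hN : NilSub M) : ∃ d k r : ℕ,
    ∀ (n : ℕ) (T : (Fin n → Bool) → Bool), MonTest M n T → Tree (GroupTest d k n) d k r T := by
  classical
  have : Finite (Submonoid M) := Finite.of_injective (fun S => (S : Set M)) SetLike.coe_injective
  have : Fintype (Submonoid M) := Fintype.ofFinite _
  have : Fintype M := Fintype.ofFinite _
  have h1 : ∀ q : Submonoid M × M × M, ∃ dk : ℕ × ℕ, q.2.1 ∈ q.1 → q.2.2 ∈ q.1 →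
      (∀ y ∈ q.1, St q.2.1 y) → (∀ y ∈ q.1, St' q.2.2 y) →
      ∀ (n : ℕ) (l : List (Fin n × M × M)), (∀ t ∈ l, t.2.1 ∈ q.1 ∧ t.2.2 ∈ q.1) →
      ∀ A : M → Bool, GroupTest dk.1 dk.2 n (fun x => A (q.2.1 * monVal l x * q.2.2)) := by
    rintro ⟨S, p, s⟩
    by_cases h : p ∈ S ∧ s ∈ S ∧ (∀ y ∈ S, St p y) ∧ ∀ y ∈ S, St' s y
    · obtain ⟨d, k₀, h2⟩ := last_case hM hN h.1 h.2.1 h.2.2.1 h.2.2.2
      exact ⟨(d, k₀), fun _ _ _ _ => h2⟩
    · exact ⟨(0, 0), fun ha hb hc hd => absurd ⟨ha, hb, hc, hd⟩ h⟩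
  choose dk h1 using h1
  set d : ℕ := 1 + ∑ q, (dk q).1 with hd
  set k : ℕ := (2 * Nat.card M + 1) + ∑ q, (dk q).2 with hk
  have hdk : ∀ q, (dk q).1 ≤ d ∧ (dk q).2 ≤ k := fun q =>
    ⟨(Finset.single_le_sum (f := fun q => (dk q).1) (fun _ _ => Nat.zero_le _)
      (Finset.mem_univ q)).trans (Nat.le_add_left _ _),
    (Finset.single_le_sum (f := fun q => (dk q).2) (fun _ _ => Nat.zero_le _)
      (Finset.mem_univ q)).trans (Nat.le_add_left _ _)⟩
  have h2 : Claim d k k (⊤ : Submonoid M) 1 1 := by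
    refine claim_all hM (by omega) (by omega) (by omega) ?_ _ ⊤ le_rfl _ 1 1 trivial trivial le_rfl
    intro S p s hp hs h3 h4 n l hl A
    exact Mon.GroupTest.mono' (hdk _).1 (hdk _).2 (h1 (S, p, s) hp hs h3 h4 n l hl A)
  obtain ⟨r, hr⟩ := h2
  refine ⟨d, k, r, fun n T hT => ?_⟩
  obtain ⟨l, A, hA⟩ := hT
  have h3 := hr n l (fun _ _ => ⟨trivial, trivial⟩) A
  have h4 : T = fun x => A (1 * monVal l x * 1) := by
    funext x
    rw [one_mul, mul_one, hA]
  rw [h4]
  exact h3

end Pool.Agent.MP_ca1109_lc.Mon
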