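import Pool.Agent.MP_ca1109_lc.Mon.B3

/-!
# Universal monoids
-/

namespace Pool.Agent.MP_ca1109_lc.Mon

open Pool.Agent.MP_ca1109_lc.Mpg Finset

theorem JEq.trans {M : Type*} [Monoid M] {e f g : M} (h : JEq e f) (h' : JEq f g) : JEq e g := by
  obtain ⟨⟨a, b, hab⟩, c, d, hcd⟩ := h
  obtain ⟨⟨a', b', hab'⟩, c', d', hcd'⟩ := h'
  refine ⟨⟨a' * a, b * b', ?_⟩, ⟨c * c', d' * d, ?_⟩⟩
  · rw [← hab', ← hab]; simp only [mul_assoc]
  · rw [← hcd, ← hcd']; simp only [mul_assoc]

/-- Stability. -/
theorem stab_right {M : Type*} [Monoid M] [Finite M] {x y a b : M} (h : a * (x * y) * b = x) :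
    ∃ z, x = x * y * z := by
  obtain ⟨k, hk, hg⟩ := exists_idem (y * b)
  obtain ⟨k, rfl⟩ : ∃ j, k = j + 1 := ⟨k - 1, by omega⟩
  have h1 : ∀ j, a ^ j * x * (y * b) ^ j = x := by
    intro j
    induction j with
    | zero => simp
    | succ j ih =>
      calc a ^ (j + 1) * x * (y * b) ^ (j + 1) = a ^ j * (a * (x * y) * b) * (y * b) ^ j := by
            rw [pow_succ a, pow_succ' (y * b)]; simp only [mul_assoc]
        _ = x := by rw [h, ih]
  have h2 : x * (y * b) ^ (k + 1) = x := by
    calc x * (y * b) ^ (k + 1) = (a ^ (k + 1) * x * (y * b) ^ (k + 1)) * (y * b) ^ (k + 1) := by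
          rw [h1]
      _ = a ^ (k + 1) * x * ((y * b) ^ (k + 1) * (y * b) ^ (k + 1)) := by simp only [mul_assoc]
      _ = x := by rw [show (y * b) ^ (k + 1) * (y * b) ^ (k + 1) = (y * b) ^ (k + 1) from hg, h1]
  refine ⟨b * (y * b) ^ k, ?_⟩
  calc x = x * (y * b) ^ (k + 1) := h2.symm
    _ = _ := by rw [pow_succ']; simp only [mul_assoc]

theorem stab_left {M : Type*} [Monoid M] [Finite M] {x y a b : M} (h : a * (y * x) * b = x) :
    ∃ z, x = z * (y * x) := by
  obtain ⟨k, hk, hg⟩ := exists_idem (a * y)
  obtain ⟨k, rfl⟩ : ∃ j, k = j + 1 := ⟨k - 1, by omega⟩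
  have h1 : ∀ j, (a * y) ^ j * x * b ^ j = x := by
    intro j
    induction j with
    | zero => simp
    | succ j ih =>
      calc (a * y) ^ (j + 1) * x * b ^ (j + 1) = (a * y) ^ j * (a * (y * x) * b) * b ^ j := by
            rw [pow_succ (a * y), pow_succ' b]; simp only [mul_assoc]
        _ = x := by rw [h, ih]
  have h2 : (a * y) ^ (k + 1) * x = x := by
    calc (a * y) ^ (k + 1) * x = (a * y) ^ (k + 1) * ((a * y) ^ (k + 1) * x * b ^ (k + 1)) := by
          rw [h1]
      _ = ((a * y) ^ (k + 1) * (a * y) ^ (k + 1)) * x * b ^ (k + 1) := by simp only [mul_assoc]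
      _ = x := by rw [show (a * y) ^ (k + 1) * (a * y) ^ (k + 1) = (a * y) ^ (k + 1) from hg, h1]
  refine ⟨(a * y) ^ k * a, ?_⟩
  calc x = (a * y) ^ (k + 1) * x := h2.symm
    _ = _ := by rw [pow_succ]; simp only [mul_assoc]

section gadgets

variable {M : Type} [Monoid M] {n : ℕ}

/-- an instruction with a constant letter -/
def cst (i : Fin n) (a : M) : Fin n × M × M := (i, a, a)

theorem monVal_cst (i : Fin n) (a : M) (l : List (Fin n × M × M)) (x : Fin n → Bool) :
    monVal (cst i a :: l) x = a * monVal l x := by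
  rw [monVal_cons]
  show (if x i then a else a) * _ = _
  rw [ite_self]

/-- the letter is `a` if `x i = α i` and `b` otherwise -/
def lit (α : Fin n → Bool) (a b : M) (i : Fin n) : Fin n × M × M :=
  (i, if α i then b else a, if α i then a else b)

theorem monVal_lit (α : Fin n → Bool) (a b : M) (i : Fin n) (l : List (Fin n × M × M))
    (x : Fin n → Bool) :
    monVal (lit α a b i :: l) x = (if x i = α i then a else b) * monVal l x := by
  rw [monVal_cons]
  congr 1
  show (if x i then (if α i then a else b) else (if α i then b else a)) = _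
  cases x i <;> cases α i <;> simp

/-- The value of the literals is `1`, or a power of `a` with positive exponent. -/
theorem monVal_lits_one (α : Fin n → Bool) (a : M) (l : List (Fin n)) (x : Fin n → Bool)
    (h : ∀ i ∈ l, x i = α i) : monVal (l.map (lit α 1 a)) x = 1 := by
  induction l with
  | nil => rfl
  | cons i l ih =>
    rw [List.map_cons, monVal_lit, if_pos (h i List.mem_cons_self), one_mul]
    exact ih fun j hj => h j (List.mem_cons_of_mem _ hj)

theorem monVal_lits_pow (α : Fin n → Bool) {a : M} (ha : a * a = a) (l : List (Fin n))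
    (x : Fin n → Bool) : monVal (l.map (lit α 1 a)) x = 1 ∨ monVal (l.map (lit α 1 a)) x = a := by
  induction l with
  | nil => exact Or.inl rfl
  | cons i l ih =>
    rw [List.map_cons, monVal_lit]
    split_ifs
    · rwa [one_mul]
    · rcases ih with h | h
      · rw [h, mul_one]; exact Or.inr rfl
      · rw [h, ha]; exact Or.inr rfl

theorem monVal_lits_a (α : Fin n → Bool) {a : M} (ha : a * a = a) (l : List (Fin n))
    (x : Fin n → Bool) (h : ¬ ∀ i ∈ l, x i = α i) : monVal (l.map (lit α 1 a)) x = a := by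
  induction l with
  | nil => simp at h
  | cons i l ih =>
    rw [List.map_cons, monVal_lit]
    by_cases hi : x i = α i
    · rw [if_pos hi, one_mul]
      refine ih fun h2 => h fun j hj => ?_
      rcases List.mem_cons.1 hj with rfl | hj
      · exact hi
      · exact h2 j hj
    · rw [if_neg hi]
      rcases monVal_lits_pow α ha l x with h3 | h3
      · rw [h3, mul_one]
      · rw [h3, ha]

theorem monTest_of_points {e u : M} (hee : e * e = e) (heu : e * u = u) (hue : u * e = u)
    (hne : u ≠ e)
    (h : 0 < n → ∀ α : Fin n → Bool, ∃ l : List (Fin n × M × M), ∀ x,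
      monVal l x = if x = α then u else e)
    (T : (Fin n → Bool) → Bool) : MonTest M n T := by
  classical
  rcases Nat.eq_zero_or_pos n with h0 | h0
  · subst h0
    exact ⟨[], fun _ => T default, fun x => by rw [Subsingleton.elim x default]⟩
  · choose l hl using h h0
    have h1 : ∀ (L : List (Fin n → Bool)), L.Nodup → ∀ x,
        e * monVal (L.flatMap l) x = if x ∈ L then u else e := by
      intro L
      induction L with
      | nil =>
        intro _ x
        rw [if_neg List.not_mem_nil]
        show e * 1 = e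
        rw [mul_one]
      | cons α L ih =>
        intro hL x
        rw [List.flatMap_cons, monVal_append, hl]
        have h2 := ih (List.nodup_cons.1 hL).2 x
        by_cases hx : x = α
        · have h3 : x ∉ L := by rw [hx]; exact (List.nodup_cons.1 hL).1
          rw [if_neg h3] at h2
          rw [if_pos hx, if_pos (by rw [hx]; exact List.mem_cons_self), ← mul_assoc, heu]
          calc u * monVal (L.flatMap l) x = u * (e * monVal (L.flatMap l) x) := by
                rw [← mul_assoc, hue]
            _ = u := by rw [h2, hue]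
        · rw [if_neg hx, ← mul_assoc, hee, h2]
          simp only [List.mem_cons, hx, false_or]
    refine ⟨cst ⟨0, h0⟩ e :: (univ.filter fun α => T α = true).toList.flatMap l,
      fun m => decide (m = u), fun x => ?_⟩
    rw [monVal_cst, h1 _ (Finset.nodup_toList _), Bool.eq_iff_iff, decide_eq_true_eq]
    simp only [Finset.mem_toList, Finset.mem_filter, Finset.mem_univ, true_and]
    by_cases hT : T x = true
    · rw [if_pos hT]
      simp [hT]
    · rw [if_neg hT]
      simp [hT, hne.symm]

end gadgets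

/-! ## Non-nilpotent groups -/

section group

variable {G : Type} [Group G] {n : ℕ}

theorem inv_prog (l : List (Fin n × G × G)) : ∃ l' : List (Fin n × G × G),
    ∀ x, monVal l' x = (monVal l x)⁻¹ := by
  induction l with
  | nil => exact ⟨[], fun x => by show (1 : G) = 1⁻¹; rw [inv_one]⟩
  | cons t l ih =>
    obtain ⟨l', hl'⟩ := ih
    refine ⟨l' ++ [(t.1, t.2.1⁻¹, t.2.2⁻¹)], fun x => ?_⟩
    rw [monVal_append, monVal_cons, monVal_cons, hl', mul_inv_rev]
    congr 1
    show (if x t.1 then t.2.2⁻¹ else t.2.1⁻¹) * 1 = _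
    rw [mul_one]
    split_ifs <;> rfl

theorem comm_prog (h0 : 0 < n) (α : Fin n → Bool) : ∀ j ≤ n,
    ∀ g ∈ Subgroup.lowerCentralSeries (⊤ : Subgroup G) j, ∃ l : List (Fin n × G × G),
      ∀ x, monVal l x = if (∀ i : Fin n, (i : ℕ) < j → x i = α i) then g else 1 := by
  intro j
  induction j with
  | zero =>
    intro _ g _
    refine ⟨[cst ⟨0, h0⟩ g], fun x => ?_⟩
    rw [monVal_cst, if_pos (fun i hi => absurd hi (Nat.not_lt_zero _))]
    exact mul_one g
  | succ j ih =>
    intro hj g hg
    rw [Subgroup.mem_lowerCentralSeries_succ_iff] at hg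
    refine Subgroup.closure_induction (p := fun g _ => ∃ l : List (Fin n × G × G),
      ∀ x, monVal l x = if (∀ i : Fin n, (i : ℕ) < j + 1 → x i = α i) then g else 1) ?_ ?_ ?_ ?_ hg
    · rintro g ⟨p, hp, q, -, rfl⟩
      obtain ⟨l, hl⟩ := ih (by omega) p hp
      obtain ⟨l', hl'⟩ := inv_prog l
      have hjn : j < n := hj
      refine ⟨l ++ (lit α q 1 ⟨j, hjn⟩ :: (l' ++ [lit α q⁻¹ 1 ⟨j, hjn⟩])), fun x => ?_⟩
      rw [monVal_append, monVal_lit, monVal_append, monVal_lit, hl, hl', hl]
      have h1 : monVal ([] : List (Fin n × G × G)) x = 1 := rfl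
      rw [h1, mul_one]
      by_cases hx : x ⟨j, hjn⟩ = α ⟨j, hjn⟩
      · by_cases h2 : ∀ i : Fin n, (i : ℕ) < j → x i = α i
        · have h3 : ∀ i : Fin n, (i : ℕ) < j + 1 → x i = α i := by
            intro i hi
            rcases Nat.lt_succ_iff_lt_or_eq.1 hi with h4 | h4
            · exact h2 i h4
            · have : i = ⟨j, hjn⟩ := Fin.ext h4
              rw [this]; exact hx
          rw [if_pos h2, if_pos hx, if_pos hx, if_pos h3, commutatorElement_def]
          group
        · have h3 : ¬ ∀ i : Fin n, (i : ℕ) < j + 1 → x i = α i := fun h =>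
            h2 fun i hi => h i (by omega)
          rw [if_neg h2, if_pos hx, if_pos hx, if_neg h3]
          group
      · have h3 : ¬ ∀ i : Fin n, (i : ℕ) < j + 1 → x i = α i := fun h =>
          hx (h _ (Nat.lt_succ_self j))
        rw [if_neg hx, if_neg hx, if_neg h3]
        group
    · exact ⟨[], fun x => by rw [ite_self]; rfl⟩
    · rintro a b - - ⟨l, hl⟩ ⟨l', hl'⟩
      refine ⟨l ++ l', fun x => ?_⟩
      rw [monVal_append, hl, hl']
      split_ifs
      · rfl
      · exact mul_one 1
    · rintro a - ⟨l, hl⟩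
      obtain ⟨l', hl'⟩ := inv_prog l
      refine ⟨l', fun x => ?_⟩
      rw [hl', hl]
      split_ifs
      · rfl
      · exact inv_one

theorem group_points (hG : ¬ Group.IsNilpotent G) (h0 : 0 < n) : ∃ g : G, g ≠ 1 ∧
    ∀ α : Fin n → Bool, ∃ l : List (Fin n × G × G), ∀ x, monVal l x = if x = α then g else 1 := by
  have h1 : Subgroup.lowerCentralSeries (⊤ : Subgroup G) n ≠ ⊥ := fun h =>
    hG (Subgroup.nilpotent_iff_lowerCentralSeries.2 ⟨n, h⟩)
  obtain ⟨g, hg⟩ := Subgroup.ne_bot_iff_exists_ne_one.1 h1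
  refine ⟨g.1, fun h => hg (Subtype.ext h), fun α => ?_⟩
  obtain ⟨l, hl⟩ := comm_prog h0 α n le_rfl g.1 g.2
  refine ⟨l, fun x => ?_⟩
  rw [hl]
  by_cases hx : x = α
  · rw [if_pos hx, if_pos fun i _ => by rw [hx]]
  · rw [if_neg hx, if_neg fun h => hx (funext fun i => h i i.2)]

end group

/-! ## The three sources of universality -/

theorem univ_group {M : Type} [Monoid M] {G : Type} [Group G] (hG : ¬ Group.IsNilpotent G)
    (φ : G →ₙ* M) (hφ : Function.Injective φ) (n : ℕ) (T : (Fin n → Bool) → Bool) :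
    MonTest M n T := by
  rcases Nat.eq_zero_or_pos n with h0 | h0
  · subst h0
    exact ⟨[], fun _ => T default, fun x => by rw [Subsingleton.elim x default]⟩
  · obtain ⟨g, hg, h1⟩ := group_points hG h0
    have h2 : ∀ (l : List (Fin n × G × G)) (x : Fin n → Bool),
        φ 1 * monVal (l.map fun t => (t.1, φ t.2.1, φ t.2.2)) x = φ (monVal l x) := by
      intro l x
      induction l using List.reverseRecOn with
      | nil => exact mul_one _
      | append_singleton l t ih =>
        rw [List.map_append, monVal_append, ← mul_assoc, ih, monVal_append, map_mul]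
        congr 1
        rw [List.map_singleton, monVal_cons, monVal_cons]
        show (if x t.1 then φ t.2.2 else φ t.2.1) * 1 = φ ((if x t.1 then t.2.2 else t.2.1) * 1)
        rw [mul_one, mul_one]
        split_ifs <;> rfl
    refine monTest_of_points (e := φ 1) (u := φ g) (by rw [← map_mul, one_mul])
      (by rw [← map_mul, one_mul]) (by rw [← map_mul, mul_one]) (fun h => hg (hφ h))
      (fun _ α => ?_) T
    obtain ⟨l, hl⟩ := h1 α
    refine ⟨cst ⟨0, h0⟩ (φ 1) :: l.map fun t => (t.1, φ t.2.1, φ t.2.2), fun x => ?_⟩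
    rw [monVal_cst, h2, hl]
    split_ifs <;> rfl

theorem univ_square {M : Type} [Monoid M] [Finite M] {e f : M} (he : e * e = e) (hf : f * f = f)
    (hef : JEq e f) (h1 : JEq (e * f) e) (h2 : JEq (f * e) e) (hne : e * f * e ≠ e) (n : ℕ)
    (T : (Fin n → Bool) → Bool) : MonTest M n T := by
  obtain ⟨⟨a, b, hab⟩, -⟩ := h1
  obtain ⟨z, hz⟩ := stab_right (x := e) (y := f) (a := a) (b := b) hab
  obtain ⟨⟨a', b', hab'⟩, -⟩ := h2.trans hef
  obtain ⟨z', hz'⟩ := stab_right (x := f) (y := e) (a := a') (b := b') hab'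
  set g := e * f * e with hg
  have hw : e = g * (z' * z) := by
    calc e = e * f * z := hz
      _ = e * (f * e * z') * z := by rw [← hz']
      _ = g * (z' * z) := by rw [hg]; simp only [mul_assoc]
  have hge : g * e = g := by rw [hg, mul_assoc, he]
  have heg : e * g = g := by rw [hg, ← mul_assoc, ← mul_assoc, he]
  have hgg : g = g * g * (z' * z) := by
    calc g = g * e := hge.symm
      _ = g * (g * (z' * z)) := by rw [← hw]
      _ = _ := by simp only [mul_assoc]
  obtain ⟨k, hk, hi, hi1, hi2⟩ := group_elem hgg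
  obtain ⟨k, rfl⟩ : ∃ j, k = j + 1 := ⟨k - 1, by omega⟩
  have hge1 : g ^ (k + 1) = e := by
    calc g ^ (k + 1) = g ^ k * (g * e) := by rw [hge, pow_succ]
      _ = g ^ (k + 1) * e := by rw [pow_succ]; simp only [mul_assoc]
      _ = g ^ (k + 1) * (g * (z' * z)) := by rw [← hw]
      _ = (g ^ (k + 1) * g) * (z' * z) := by simp only [mul_assoc]
      _ = e := by rw [hi1, ← hw]
  have hk0 : k ≠ 0 := by
    rintro rfl
    rw [zero_add, pow_one] at hge1
    exact hne hge1
  obtain ⟨k, rfl⟩ : ∃ j, k = j + 1 := ⟨k - 1, by omega⟩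
  set u := g ^ (k + 1) with hu
  have hgu : g * u = e := by rw [hu, ← pow_succ', hge1]
  have hug : u * g = e := by rw [hu, ← pow_succ, hge1]
  have hue : u * e = u := by rw [hu, pow_succ, mul_assoc, hge]
  have heu : e * u = u := by rw [hu, pow_succ', ← mul_assoc, heg]
  have hune : u ≠ e := by
    intro h
    apply hne
    calc g = g * e := hge.symm
      _ = g * u := by rw [h]
      _ = e := hgu
  refine monTest_of_points he heu hue hune (fun h0 α => ?_) T
  refine ⟨cst ⟨0, h0⟩ (e * f) :: ((List.finRange n).map (lit α 1 e) ++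
    [cst ⟨0, h0⟩ (f * e * (u * u))]), fun x => ?_⟩
  rw [monVal_cst, monVal_append, monVal_cst]
  have h3 : monVal ([] : List (Fin n × M × M)) x = 1 := rfl
  rw [h3, mul_one]
  by_cases hx : x = α
  · rw [if_pos hx, monVal_lits_one α e _ x (fun i _ => by rw [hx]), one_mul]
    calc e * f * (f * e * (u * u)) = e * (f * f) * e * u * u := by simp only [mul_assoc]
      _ = (g * u) * u := by rw [hf, ← hg]
      _ = u := by rw [hgu, heu]
  · rw [if_neg hx, monVal_lits_a α he _ x (fun h => hx (funext fun i => h i (List.mem_finRange i)))]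
    calc e * f * (e * (f * e * (u * u))) = (e * f * e) * (f * e) * (u * u) := by
          simp only [mul_assoc]
      _ = (g * e) * (f * e) * (u * u) := by rw [hge]
      _ = g * (g * u) * u := by rw [hg]; simp only [mul_assoc]
      _ = e := by rw [hgu, hge, hgu]

theorem univ_half {M : Type} [Monoid M] [Finite M] {e f : M} (he : e * e = e) (hf : f * f = f)
    (hef : JEq e f) (h1 : ¬ JEq (e * f) e) (h2 : JEq (f * e) e) (n : ℕ)
    (T : (Fin n → Bool) → Bool) : MonTest M n T := by
  obtain ⟨⟨a', b', hab'⟩, -⟩ := h2.trans hef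
  obtain ⟨z, hz⟩ := stab_right (x := f) (y := e) (a := a') (b := b') hab'
  obtain ⟨⟨c, d, hcd⟩, -⟩ := h2
  obtain ⟨z', hz'⟩ := stab_left (x := e) (y := f) (a := c) (b := d) hcd
  set a := e * z * f with ha
  have hezfe : e * z * f * e = e := by
    calc e * z * f * e = z' * (f * e) * z * f * e := by rw [← hz']
      _ = z' * (f * e * z) * f * e := by simp only [mul_assoc]
      _ = z' * (f * f * e) := by rw [← hz]; simp only [mul_assoc]
      _ = e := by rw [hf, ← hz']
  have haa : a * a = a := by
    calc a * a = e * z * (f * e * z) * f := by rw [ha]; simp only [mul_assoc]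
      _ = e * z * (f * f) := by rw [← hz]; simp only [mul_assoc]
      _ = a := by rw [hf, ha]
  have hea : e * a = a := by rw [ha, ← mul_assoc, ← mul_assoc, he]
  have hab : a * (f * e) = e := by
    calc a * (f * e) = e * z * (f * f) * e := by rw [ha]; simp only [mul_assoc]
      _ = e := by rw [hf, hezfe]
  have hne : e * f * e ≠ e := by
    intro h
    exact h1 ⟨⟨1, e, by rw [one_mul, h]⟩, ⟨1, f, by rw [one_mul]⟩⟩
  refine monTest_of_points (e := e) (u := e * f * e) he (by rw [← mul_assoc, ← mul_assoc, he])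
    (by rw [mul_assoc, he]) hne (fun h0 α => ?_) T
  refine ⟨cst ⟨0, h0⟩ e :: ((List.finRange n).map (lit α 1 a) ++
    [cst ⟨0, h0⟩ (f * e)]), fun x => ?_⟩
  rw [monVal_cst, monVal_append, monVal_cst]
  have h3 : monVal ([] : List (Fin n × M × M)) x = 1 := rfl
  rw [h3, mul_one]
  by_cases hx : x = α
  · rw [if_pos hx, monVal_lits_one α a _ x (fun i _ => by rw [hx]), one_mul, mul_assoc]
  · rw [if_neg hx, monVal_lits_a α haa _ x
      (fun h => hx (funext fun i => h i (List.mem_finRange i))), hab, he]

/-- **Universality.** -/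
theorem univ_of {M : Type} [Monoid M] [Finite M] (hB : NoBrandt M) (h : ¬ (DO M ∧ NilSub M))
    (n : ℕ) (T : (Fin n → Bool) → Bool) : MonTest M n T := by
  by_cases hM : DO M
  · have hN : ¬ NilSub M := fun hN => h ⟨hM, hN⟩
    unfold NilSub at hN
    push Not at hN
    obtain ⟨G, hG, hGf, φ, hφ, hnil⟩ := hN
    exact univ_group hnil φ hφ n T
  · unfold DO at hM
    push Not at hM
    obtain ⟨e, f, he, hf, hJ, hne⟩ := hM
    by_cases h1 : JEq (e * f) e
    · by_cases h2 : JEq (f * e) e
      · exact univ_square he hf hJ h1 h2 hne n T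
      · exact univ_half hf he hJ.symm (fun h3 => h2 (h3.trans hJ.symm)) (h1.trans hJ) n T
    · have h2 : JEq (f * e) e := by
        rcases hB e f he hf hJ with h2 | h2
        · exact absurd h2 h1
        · exact h2
      exact univ_half he hf hJ h1 h2 n T

/-- Monoids in DO satisfy the assumption of the dichotomy. -/
theorem DO.noBrandt {M : Type*} [Monoid M] (hM : DO M) : NoBrandt M := by
  intro e f he hf hJ
  exact Or.inl ⟨⟨1, e, by rw [one_mul, hM e f he hf hJ]⟩, ⟨1, f, by rw [one_mul]⟩⟩

end Pool.Agent.MP_ca1109_lc.Mon
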