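import Pool.Agent.MP_ca1109_lc.Mon.C1
import Pool.Agent.MP_ca1109_lc.Mon.B4
import Pool.Agent.MP_ca1109_lc.MonoThreshold

/-!
# The dichotomy for programs over monoids
-/

namespace Pool.Agent.MP_ca1109_lc.Mon

open Pool.Agent.H66 Pool.Agent.MP_ca1109_lc.Mpg Pool.Agent.MP_ca1109_lc.Hyb Pool.Agent.MP_ca1109_lc.Agp Finset

/-- No generator fools all functions. -/
theorem not_logGen {𝒯 : ∀ n : ℕ, ((Fin n → Bool) → Bool) → Prop} (h : ∀ n T, 𝒯 n T) {ε : ℝ}
    (hε : ε < 1) : ¬ LogGen 𝒯 ε := by
  classical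
  rintro ⟨D, G, -, -, -, c, hc⟩
  -- `n - D n` tends to infinity
  have hlog : Filter.Tendsto (fun n : ℕ => Real.logb 2 n / n) Filter.atTop (nhds 0) := by
    have h1 : Filter.Tendsto (fun x : ℝ => Real.log x / x) Filter.atTop (nhds 0) := by
      have := Real.isLittleO_log_id_atTop.tendsto_div_nhds_zero
      simpa using this
    have h2 := (h1.comp tendsto_natCast_atTop_atTop).div_const (Real.log 2)
    rw [zero_div] at h2
    refine h2.congr fun n => ?_
    show Real.log n / n / Real.log 2 = Real.logb 2 n / n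
    rw [Real.logb, div_right_comm]
  have h2 : ∀ᶠ n : ℕ in Filter.atTop, |c| * (Real.logb 2 n / n) < 1 / 2 := by
    have h3 : Filter.Tendsto (fun n : ℕ => |c| * (Real.logb 2 n / n)) Filter.atTop (nhds 0) := by
      have := hlog.const_mul |c|
      rwa [mul_zero] at this
    exact h3.eventually (gt_mem_nhds (by norm_num))
  have h3 : Filter.Tendsto (fun n : ℕ => (1 / 2 : ℝ) ^ (n / 2)) Filter.atTop (nhds 0) := by
    refine (tendsto_pow_atTop_nhds_zero_of_lt_one (by norm_num) (by norm_num)).comp ?_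
    exact Filter.tendsto_atTop_atTop.2 fun b => ⟨2 * b, fun n hn => by omega⟩
  have h4 : ∀ᶠ n : ℕ in Filter.atTop, (1 / 2 : ℝ) ^ (n / 2) < 1 - ε :=
    h3.eventually (gt_mem_nhds (by linarith))
  obtain ⟨n, ⟨hn1, hn2, hn3⟩, hn4, hn5, hn6⟩ :=
    (hc.and (h2.and (h4.and (Filter.eventually_ge_atTop 1)))).exists
  have hn0 : (0 : ℝ) < n := by exact_mod_cast hn6
  have hDn : D n ≤ n / 2 := by
    have h5 : (D n : ℝ) ≤ n / 2 := by
      have h6 : (D n : ℝ) ≤ |c| * Real.logb 2 n := by
        refine hn1.trans (mul_le_mul_of_nonneg_right (le_abs_self c) ?_)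
        exact Real.logb_nonneg (by norm_num) (by exact_mod_cast hn6)
      have h7 : |c| * Real.logb 2 n < n / 2 := by
        have h8 := mul_lt_mul_of_pos_right hn4 hn0
        rw [mul_assoc, div_mul_cancel₀ _ hn0.ne'] at h8
        linarith
      linarith
    rw [Nat.le_div_iff_mul_le (by norm_num)]
    have h6 : (D n : ℝ) * 2 ≤ n := by linarith
    exact_mod_cast h6
  let R : Finset (Fin n → Bool) := univ.image fun s : Fin (D n) → Bool => bits n (G n (List.ofFn s))
  have hR : R.card ≤ 2 ^ D n := by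
    refine Finset.card_image_le.trans ?_
    rw [Finset.card_univ, Fintype.card_fun, Fintype.card_bool, Fintype.card_fin]
  let T : (Fin n → Bool) → Bool := fun x => decide (x ∉ R)
  have h5 := hn3 T (h n T)
  have h6 : prob (fun s : Fin (D n) → Bool => T (bits n (G n (List.ofFn s)))) = 0 := by
    unfold prob
    rw [Finset.filter_false_of_mem, Finset.card_empty, Nat.cast_zero, zero_div]
    intro s _
    have : bits n (G n (List.ofFn s)) ∈ R := Finset.mem_image.2 ⟨s, Finset.mem_univ _, rfl⟩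
    simp [T, this]
  have h7 : 1 - (1 / 2 : ℝ) ^ (n / 2) ≤ prob T := by
    unfold prob
    have h8 : (univ.filter fun x => T x = true) = Rᶜ := by
      ext x
      simp [T]
    rw [h8, Finset.card_compl, Fintype.card_fun, Fintype.card_bool, Fintype.card_fin]
    have h9 : R.card ≤ 2 ^ n := hR.trans (Nat.pow_le_pow_right (by norm_num) hn2.le)
    rw [Nat.cast_sub h9, sub_div]
    push_cast
    rw [div_self (by positivity)]
    have h10 : (R.card : ℝ) ≤ 2 ^ (n / 2) := by
      have : R.card ≤ 2 ^ (n / 2) := hR.trans (Nat.pow_le_pow_right (by norm_num) hDn)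
      exact_mod_cast this
    have h11 : (R.card : ℝ) / 2 ^ n ≤ (1 / 2) ^ (n / 2) := by
      rw [div_le_iff₀ (by positivity)]
      calc (R.card : ℝ) ≤ 2 ^ (n / 2) := h10
        _ = (1 / 2) ^ (n / 2) * 2 ^ (n / 2 + n / 2) := by
            rw [pow_add, ← mul_assoc, ← mul_pow]; norm_num
        _ ≤ (1 / 2) ^ (n / 2) * 2 ^ n := by
            refine mul_le_mul_of_nonneg_left ?_ (by positivity)
            exact pow_le_pow_right₀ (by norm_num) (by omega)
    linarith
  rw [h6, zero_sub, abs_neg, abs_le] at h5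
  linarith [h5.2]

/-- Generators for programs over monoids in DO with nilpotent subgroups. -/
theorem logGen_monoid {M : Type} [Monoid M] [Finite M] (hM : DO M) (hN : NilSub M) {ε : ℝ}
    (hε : 0 < ε) : LogGen (MonTest M) ε := by
  obtain ⟨d, k, r, h⟩ := mon_tree hM hN
  refine (logGen_tree d k k r hε).mono fun n T hT => ?_
  have h1 := Tree.bind (𝒯' := MixedTest d k n) (r' := 0) le_rfl le_rfl
    (fun c => (Tree.base (mixed_of_group (groupTest_const c))).mono le_rfl)
    (fun T hT => Tree.base (mixed_of_group hT)) (h n T hT)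
  rwa [zero_add] at h1

/-- **The dichotomy for programs over monoids.** -/
theorem monoid_dichotomy (M : Type) [Monoid M] [Finite M] (hB : NoBrandt M) :
    (DO M ∧ NilSub M → ∀ ε > 0, LogGen (MonTest M) ε ∧
      GenExists (fun n C => MonTest M n C.eval) ε) ∧
    (¬ (DO M ∧ NilSub M) → (∀ n T, MonTest M n T) ∧ (∀ ε < 1, ¬ LogGen (MonTest M) ε) ∧
      ∀ ε δ : ℝ, 0 < ε → ε < 1 → 0 < δ → δ < 1 →
        (GenExists (fun n C => MonTest M n C.eval) ε ↔ GenExists (fun _ _ => True) δ)) := by
  refine ⟨fun h ε hε => ?_, fun h => ?_⟩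
  · have h1 := logGen_monoid h.1 h.2 hε
    exact ⟨h1, h1.toCircuits⟩
  · have h1 := univ_of hB h
    refine ⟨h1, fun ε hε => not_logGen h1 hε, fun ε δ hε hε' hδ hδ' => ?_⟩
    have h2 := threshold.1
    have h3 : GenExists (fun n C => MonTest M n C.eval) ε ↔ GenExists (fun _ _ => True) ε :=
      ⟨fun h => h.weaken (fun n C _ => h1 n C.eval) le_rfl,
        fun h => h.weaken (fun _ _ _ => trivial) le_rfl⟩
    rw [h3, ← h2 ε ε hε hε' hε hε', h2 ε δ hε hε' hδ hδ']

end Pool.Agent.MP_ca1109_lc.Mon
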