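import Pool.Agent.MP_ca1109_lc.Mon.B4
import Pool.Agent.MP_ca1109_lc.Hyb.F3

/-!
# Generators for nested decision lists: the final theorem
-/

namespace Pool.Agent.MP_ca1109_lc.Mon

open Pool.Agent.H66 Pool.Agent.MP_ca1109_lc.Mpg Pool.Agent.MP_ca1109_lc.Hyb Pool.Agent.MP_ca1109_lc.Agp Finset

theorem mixed_const {d k n : ℕ} (c : Bool) : MixedTest d k n (fun _ => c) :=
  mixed_of_group (groupTest_const c)

theorem Tree.const {n d k r d' k' : ℕ} (c : Bool) : Tree (MixedTest d' k' n) d k r fun _ => c :=
  (Tree.base (mixed_const c)).mono (Nat.zero_le _)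

/-- Increasing the parameters. -/
theorem Tree.mono3 {n d d' k k' r r' : ℕ} (hd : d ≤ d') (hk : k ≤ k') (hr : r ≤ r')
    {T : (Fin n → Bool) → Bool} (h : Tree (MixedTest d k n) d k r T) :
    Tree (MixedTest d' k' n) d' k' r' T := by
  have h1 := Tree.bind (𝒯' := MixedTest d' k' n) (r' := 0) hd hk (fun c => Tree.const c)
    (fun T hT => Tree.base (MixedTest.mono hd hk hT)) h
  exact h1.mono (by omega)

/-- A class of tests whose members are functions of thresholds and equations. -/
theorem logGen_tree_of {𝒯 : ∀ n : ℕ, ((Fin n → Bool) → Bool) → Prop} {d' k' : ℕ}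
    (h : ∀ n T, 𝒯 n T → MixedTest d' k' n T) (d k r : ℕ) {ε : ℝ} (hε : 0 < ε) :
    LogGen (fun n => Tree (𝒯 n) d k r) ε :=
  (logGen_tree (max d d') (max k k') (max k k') r hε).mono fun n T hT => by
    have h1 := Tree.bind (𝒯' := MixedTest (max d d') (max k k') n) (r' := 0) (le_max_left d d')
      (le_max_left k k') (fun c => Tree.const c)
      (fun T hT => Tree.base (MixedTest.mono (le_max_right d d') (le_max_right k k') (h n T hT))) hT
    rwa [zero_add] at h1

/-- Circuits AND ∘ ANY ∘ MOD are decision lists. -/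
theorem AndAnyMod.tree {m k n : ℕ} (hm : 0 < m) {T : (Fin n → Bool) → Bool}
    (h : AndAnyMod m k n T) (d : ℕ) : Tree (MixedTest d (m ^ k) n) d (m ^ k) 1 T := by
  obtain ⟨N, a, A, hT⟩ := h
  have : NeZero m := ⟨hm.ne'⟩
  refine Tree.list (fun i x => (fun j => ∑ l, if x l then a i j l else 0) ∉ A i) (fun i => Or.inr ?_)
    (fun _ _ => false) (fun _ => Tree.const false) (fun _ => true) (Tree.const true) T
    (fun x i hi _ => ?_) fun x hx => ?_
  · refine ⟨Fin k → ZMod m, inferInstance, inferInstance,
      fun x j => ∑ l, if x l then a i j l else 0, (A i)ᶜ, ?_, ?_, fun x => Iff.rfl⟩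
    · rw [Nat.card_fun, Nat.card_zmod, Nat.card_eq_fintype_card, Fintype.card_fin]
    · refine prod_low' (Γ := fun _ : Fin k => ZMod m)
        (P := fun j x => ∑ l, if x l then a i j l else 0) fun j => ?_
      have h1 : (fun x : Fin n → Bool => ∑ l, if x l then a i j l else 0) =
          ∑ l, fun x : Fin n → Bool => if x l = true then a i j l else 0 := by
        funext x
        rw [Finset.sum_apply]
      rw [h1]
      refine AddSubgroup.sum_mem _ fun l _ => junta_mem {l} (by simp) ?_
      intro x y hxy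
      have h2 : x l = y l := hxy l (by simp)
      simp only [h2]
  · by_contra hcon
    exact hi ((hT x).1 (by simpa using hcon) i)
  · exact (hT x).2 fun i => not_not.1 (hx i)

/-- Functions of thresholds and of such circuits. -/
theorem logGen_andAnyMod (d k : ℕ) {m : ℕ} (hm : 0 < m) {ε : ℝ} (hε : 0 < ε) :
    LogGen (WithThr (AndAnyMod m k) d k) ε := by
  classical
  set K := max (2 * k + 1) (m ^ k) with hK
  refine (logGen_tree (max d 1) K K 2 hε).mono fun n T hT => ?_
  obtain ⟨p, U, F, hp, hU, hT⟩ := hT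
  have h1 : ∀ j : Fin k ⊕ Fin k, Tree (MixedTest (max d 1) K n) (max d 1) K 1
      ((match j with
        | Sum.inl i => fun x => decide (0 < p i x)
        | Sum.inr i => U i : (Fin n → Bool) → Bool)) := by
    rintro (i | i)
    · refine (Tree.base (LT.toMixed (LT.mono le_rfl (?_ : 1 ≤ K)
        (LT.cond (Or.inr ⟨p i, lowDeg_mono (le_max_left d 1) (hp i), fun _ => Iff.rfl⟩)
          fun x => decide_eq_true_iff)))).mono (Nat.zero_le _)
      omega
    · exact ((hU i).tree hm (max d 1)).mono3 le_rfl (le_max_right _ _) le_rfl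
  by_cases hk : k = 0
  · subst hk
    have h2 : T = fun _ => decide (F (fun i => i.elim0) (fun i => i.elim0)) := by
      funext x
      rw [Bool.eq_iff_iff, hT, decide_eq_true_iff]
      have e1 : (fun i : Fin 0 => 0 < p i x) = fun i => i.elim0 := funext fun i => i.elim0
      have e2 : (fun i : Fin 0 => U i x) = fun i => i.elim0 := funext fun i => i.elim0
      rw [e1, e2]
    rw [h2]
    exact Tree.const _
  · have : Nonempty (Fin k ⊕ Fin k) := ⟨Sum.inl ⟨0, Nat.pos_of_ne_zero hk⟩⟩
    refine Tree.fn (J := Fin k ⊕ Fin k) ?_ h1 fun x y hxy => ?_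
    · rw [Fintype.card_sum, Fintype.card_fin]
      omega
    · have e1 : (fun i => 0 < p i x) = fun i => 0 < p i y := by
        funext i
        exact propext (decide_eq_decide.1 (hxy (Sum.inl i)))
      have e2 : (fun i => U i x) = fun i => U i y := by
        funext i
        exact hxy (Sum.inr i)
      rw [Bool.eq_iff_iff, hT, hT, e1, e2]

/-! ## Sharpness -/

theorem tree_junta {m : ℕ} (g : ℕ) (T : (Fin m → Bool) → Bool)
    (hT : DependsOn T ((univ.filter fun i : Fin m => (i : ℕ) < g : Finset (Fin m)) : Set (Fin m))) :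
    Tree (MixedTest 0 0 m) 1 0 g T := by
  classical
  induction g generalizing T with
  | zero =>
    have h1 : T = fun _ => T default := by
      funext x
      refine hT fun i hi => ?_
      simp at hi
    rw [h1]
    exact Tree.const _
  | succ g ih =>
    by_cases hg : g < m
    · have hsub : ∀ c : Bool, Tree (MixedTest 0 0 m) 1 0 g
          (fun x => T (Function.update x ⟨g, hg⟩ c)) := by
        intro c
        refine ih _ fun x y hxy => hT fun i hi => ?_
        simp only [Finset.coe_filter, Finset.mem_univ, true_and, Set.mem_setOf_eq] at hi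
        by_cases h1 : i = ⟨g, hg⟩
        · rw [h1, Function.update_self, Function.update_self]
        · rw [Function.update_of_ne h1, Function.update_of_ne h1]
          refine hxy i ?_
          simp only [Finset.coe_filter, Finset.mem_univ, true_and, Set.mem_setOf_eq]
          have : (i : ℕ) ≠ g := fun h => h1 (Fin.ext h)
          omega
      refine Tree.list (N := 1) (fun _ x => x ⟨g, hg⟩ = true) (fun _ => Or.inl ?_)
        (fun _ x => T (Function.update x ⟨g, hg⟩ true)) (fun _ => hsub true)
        (fun x => T (Function.update x ⟨g, hg⟩ false)) (hsub false) T (fun x i hi _ => ?_)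
        fun x hx => ?_
      · refine ⟨ZMod 2, inferInstance, fun x => if x ⟨g, hg⟩ = true then 1 else 0, ?_, fun x => ?_⟩
        · refine junta_mem {⟨g, hg⟩} (by simp) fun x y hxy => ?_
          have h2 : x ⟨g, hg⟩ = y ⟨g, hg⟩ := hxy ⟨g, hg⟩ (by simp)
          simp only [h2]
        · by_cases h : x ⟨g, hg⟩ = true <;> simp [h]
      · show T x = T (Function.update x ⟨g, hg⟩ true)
        congr 1
        rw [← hi, Function.update_eq_self]
      · have h3 : x ⟨g, hg⟩ = false := by simpa using hx 0
        show T x = T (Function.update x ⟨g, hg⟩ false)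
        congr 1
        rw [← h3, Function.update_eq_self]
    · refine (ih T fun x y hxy => hT fun i hi => hxy i ?_).up
      simp only [Finset.coe_filter, Finset.mem_univ, true_and, Set.mem_setOf_eq]
      omega

theorem tree_junta' {m : ℕ} (g : ℕ) (T : (Fin m → Bool) → Bool)
    (hT : DependsOn T ((univ.filter fun i : Fin m => (i : ℕ) < g : Finset (Fin m)) : Set (Fin m))) :
    Tree (MixedTest 0 0 m) 0 (2 ^ g) 1 T := by
  classical
  let L : (Fin m → Bool) → Fin g → ZMod 2 := fun x j =>
    if h : (j : ℕ) < m then (if x ⟨j, h⟩ = true then 1 else 0) else 0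
  have hL : ∀ x y, L x = L y → T x = T y := by
    intro x y hxy
    refine hT fun i hi => ?_
    simp only [Finset.coe_filter, Finset.mem_univ, true_and, Set.mem_setOf_eq] at hi
    have h1 := congrFun hxy ⟨i, hi⟩
    simp only [L, i.2, dif_pos] at h1
    revert h1
    cases x i <;> cases y i <;> simp
  refine Tree.list (N := 1) (fun _ x => T x = true) (fun _ => Or.inr ?_)
    (fun _ _ => true) (fun _ => Tree.const true) (fun _ => false) (Tree.const false) T
    (fun x i hi _ => hi) fun x hx => by simpa using hx 0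
  refine ⟨Fin g → ZMod 2, inferInstance, inferInstance, L, {v | ∃ y, T y = true ∧ L y = v}, ?_, ?_,
    fun x => ⟨fun h => ⟨x, h, rfl⟩, fun ⟨y, hy, h⟩ => by rw [← hy]; exact hL x y h.symm⟩⟩
  · rw [Nat.card_fun, Nat.card_zmod, Nat.card_eq_fintype_card, Fintype.card_fin]
  · refine prod_low' (Γ := fun _ : Fin g => ZMod 2) (P := fun j x => L x j) fun j => ?_
    by_cases h : (j : ℕ) < m
    · refine junta_mem {⟨j, h⟩} (by simp) fun x y hxy => ?_
      show L x j = L y j
      simp only [L, h, dif_pos]
      rw [hxy ⟨j, h⟩ (by simp)]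
    · have : (fun x => L x j) = fun _ => 0 := by
        funext x
        simp only [L, h, dif_neg, not_false_eq_true]
      rw [this]
      exact lowDeg_const 0

/-- **Generators for nested decision lists.** -/
theorem list_generators :
    (∀ d k r : ℕ, ∀ ε > 0, LogGen (fun n => Tree (MixedTest d k n) d k r) ε ∧
      GenExists (fun n C => Tree (MixedTest d k n) d k r C.eval) ε) ∧
    (∀ d k m : ℕ, 0 < m → ∀ ε > 0, LogGen (WithThr (AndAnyMod m k) d k) ε) ∧
    (∀ c d k r : ℕ, ∀ ε > 0, LogGen (fun n => Tree (WithThr (RingTest c k) d k n) d k r) ε) ∧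
    (∀ (d k h r : ℕ) (Q : Finset ℕ), (∀ q ∈ Q, IsPrimePow q) → ∀ ε > 0,
      LogGen (fun n => Tree (WithThr (CircSysTest k h Q) d k n) d k r) ε) ∧
    (∀ (Γ : Type) [Group Γ] [Finite Γ], Group.IsNilpotent Γ → ∀ d k r : ℕ, ∀ ε > 0,
      LogGen (fun n => Tree (WithThr (ProgSysTest Γ k) d k n) d k r) ε) ∧
    ∀ (g : ℕ → ℕ) (δ : ℝ),
      Filter.Tendsto (fun n : ℕ => (g n : ℝ) / Real.logb 2 n) Filter.atTop Filter.atTop → δ < 1 →
        ((GenExists (fun n C => ThrTest (g n) 1 n C.eval) δ ∨
          GenExists (fun n C => ThrTest 1 (g n) n C.eval) δ) ∨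
        (GenExists (fun n C => GroupTest (g n) 1 n C.eval) δ ∨
          GenExists (fun n C => GroupTest 1 (g n) n C.eval) δ)) ∨
        (GenExists (fun n C => Tree (MixedTest 0 0 n) 1 0 (g n) C.eval) δ ∨
          GenExists (fun n C => Tree (MixedTest 0 0 n) 0 (2 ^ g n) 1 C.eval) δ) →
            HardLanguage := by
  refine ⟨fun d k r ε hε => ?_, fun d k m hm ε hε => logGen_andAnyMod d k hm hε,
    fun c d k r ε hε => ?_, fun d k h r Q hQ ε hε => ?_, fun Γ _ _ hΓ d k r ε hε => ?_,
    fun g δ hg hδ h => ?_⟩
  · have h1 := logGen_tree d k k r hε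
    exact ⟨h1, h1.toCircuits⟩
  · exact logGen_tree_of (fun n T hT => mixed_withThr
      (WithThr.imp (fun T hT => hT.group) hT)) d k r hε
  · obtain ⟨m, d', k', -, H⟩ := circ_sys k h Q hQ
    exact logGen_tree_of (fun n T hT => mixed_withThr
      (WithThr.imp (fun T hT => (H n T hT).group) hT)) d k r hε
  · obtain ⟨m, d', k', -, H⟩ := prog_sys Γ hΓ k
    exact logGen_tree_of (fun n T hT => mixed_withThr
      (WithThr.imp (fun T hT => (H n T hT).group) hT)) d k r hε
  · rcases h with (h | h | h) | h | h
    · exact hard_of_thr hg hδ h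
    · exact hard_of_group_degree hg hδ h
    · exact hard_of_group_number hg hδ h
    · exact hard_of_junta hg (fun m T hT => tree_junta _ T hT) hδ h
    · exact hard_of_junta hg (fun m T hT => tree_junta' _ T hT) hδ h

end Pool.Agent.MP_ca1109_lc.Mon
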