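import Pool.Agent.MP_ca1109_lc.Agp.T3
import Pool.Agent.MP_ca1109_lc.Hyb.B2b
import Pool.Agent.MP_ca1109_lc.Hyb.B5a
import Pool.Agent.MP_ca1109_lc.Hyb.B0
import Pool.Agent.MP_ca1109_lc.Hyb.B1

/-!
# Decision lists of arbitrary length and programs over finite monoids: definitions

* `Tree 𝒯 d k r T`: nested decision lists of any length; the questions are `P x ≠ 0` for sums `P` of
  functions of at most `d` bits with values in arbitrary abelian groups, and `L x ∈ A` for affine
  maps `L` to abelian groups with at most `k` elements and arbitrary sets `A`.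
* `AndAnyMod`: conjunctions of arbitrarily many functions of `k` linear forms modulo `m`.
* `monVal`, `MonTest`: programs over a monoid.
* `JEq`, `NoBrandt`, `DO`, `NilSub`: classes of finite monoids.
-/

namespace Pool.Agent.MP_ca1109_lc.Mon

open Pool.Agent.H66 Pool.Agent.MP_ca1109_lc.Mpg Pool.Agent.MP_ca1109_lc.Agp Finset

/-- `E` is of the form `P x ≠ 0`, where `P` is a sum of functions of at most `d` bits with values in
some abelian group. -/
def EqQ {n : ℕ} (d : ℕ) (E : (Fin n → Bool) → Prop) : Prop :=
  ∃ (Γ : Type) (_ : AddCommGroup Γ) (P : (Fin n → Bool) → Γ), P ∈ lowDeg (Fin n) Bool Γ d ∧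
    ∀ x, E x ↔ P x ≠ 0

/-- `E` is of the form `L x ∈ A`, where `L` is an affine map (a sum of functions of one bit) to an
abelian group with at most `k` elements and `A` is an arbitrary set. -/
def LinQ {n : ℕ} (k : ℕ) (E : (Fin n → Bool) → Prop) : Prop :=
  ∃ (G : Type) (_ : AddCommGroup G) (_ : Finite G) (L : (Fin n → Bool) → G) (A : Set G),
    Nat.card G ≤ k ∧ L ∈ lowDeg (Fin n) Bool G 1 ∧ ∀ x, E x ↔ L x ∈ A

/-- Nested decision lists.  `base`: the tests in `𝒯`.  `comb`: arbitrary functions of `k` tests.
`list`: decision lists of arbitrary length `N`; `U x = T i x` for the first `i` for which the answer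
to the question `E i x` is yes, and `U x = T' x` if there is no such `i`. -/
inductive Tree {n : ℕ} (𝒯 : ((Fin n → Bool) → Bool) → Prop) (d k : ℕ) :
    ℕ → ((Fin n → Bool) → Bool) → Prop
  | base {T : (Fin n → Bool) → Bool} (h : 𝒯 T) : Tree 𝒯 d k 0 T
  | comb {r : ℕ} (T : Fin k → (Fin n → Bool) → Bool) (hT : ∀ i, Tree 𝒯 d k r (T i))
      (F : (Fin k → Bool) → Bool) : Tree 𝒯 d k (r + 1) (fun x => F (fun i => T i x))
  | list {r N : ℕ} (E : Fin N → (Fin n → Bool) → Prop) (hE : ∀ i, EqQ d (E i) ∨ LinQ k (E i))
      (T : Fin N → (Fin n → Bool) → Bool) (hT : ∀ i, Tree 𝒯 d k r (T i))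
      (T' : (Fin n → Bool) → Bool) (hT' : Tree 𝒯 d k r T') (U : (Fin n → Bool) → Bool)
      (hU : ∀ x i, E i x → (∀ j < i, ¬ E j x) → U x = T i x)
      (hU' : ∀ x, (∀ i, ¬ E i x) → U x = T' x) : Tree 𝒯 d k (r + 1) U

/-- `T` is a conjunction of arbitrarily many arbitrary functions of `k` linear forms modulo `m`
(a circuit AND ∘ ANY ∘ MOD of any size). -/
def AndAnyMod (m k n : ℕ) (T : (Fin n → Bool) → Bool) : Prop :=
  ∃ (N : ℕ) (a : Fin N → Fin k → Fin n → ZMod m) (A : Fin N → Set (Fin k → ZMod m)),
    ∀ x, T x = true ↔ ∀ i, (fun j => ∑ l, if x l then a i j l else 0) ∈ A i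

/-! ## Monoids -/

section monoid

variable {M : Type*} [Monoid M]

/-- The value of a program over the monoid `M`: the instruction `(i, a, b)` contributes the factor
`b` if the input bit `x i` is `true` and `a` otherwise. -/
def monVal {n : ℕ} (l : List (Fin n × M × M)) (x : Fin n → Bool) : M :=
  (l.map fun t => if x t.1 then t.2.2 else t.2.1).prod

variable (M) in
/-- `T` is computed by a program over `M` of arbitrary length. -/
def MonTest (n : ℕ) (T : (Fin n → Bool) → Bool) : Prop :=
  ∃ (l : List (Fin n × M × M)) (A : M → Bool), ∀ x, T x = A (monVal l x)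

/-- `e` and `f` generate the same two-sided ideal. -/
def JEq (e f : M) : Prop := (∃ a b, a * e * b = f) ∧ ∃ a b, a * f * b = e

variable (M) in
/-- If two idempotents generate the same ideal then `e * f` or `f * e` generates it, too. -/
def NoBrandt : Prop :=
  ∀ e f : M, IsIdempotentElem e → IsIdempotentElem f → JEq e f → JEq (e * f) e ∨ JEq (f * e) e

variable (M) in
/-- The variety DO: if two idempotents generate the same ideal then `e * f * e = e`. -/
def DO : Prop :=
  ∀ e f : M, IsIdempotentElem e → IsIdempotentElem f → JEq e f → e * f * e = e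

variable (M) in
/-- All finite groups contained in `M` (not necessarily with the same unit) are nilpotent. -/
def NilSub : Prop :=
  ∀ (G : Type) [Group G] [Finite G] (φ : G →ₙ* M), Function.Injective φ → Group.IsNilpotent G

end monoid

end Pool.Agent.MP_ca1109_lc.Mon
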