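import Pool.Agent.MP_ca1109_lc.Mon.A3

/-!
# Linear forms with many equal coefficients are nearly uniform
-/

namespace Pool.Agent.MP_ca1109_lc.Mon

open Pool.Agent.MP_ca1109_lc.Mpg Pool.Agent.MP_ca1109_lc.Hyb Pool.Agent.MP_ca1109_lc.Agp Finset

theorem half_lt {ζ : ℂ} (h1 : ‖ζ‖ = 1) (h2 : ζ ≠ 1) : ‖(1 + ζ) / 2‖ < 1 := by
  have h3 : ‖(1 + ζ) / 2‖ = ‖1 + ζ‖ / 2 := by rw [norm_div, Complex.norm_ofNat]
  rw [h3]
  have h4 : ‖1 + ζ‖ < 2 := by
    have h5 : ‖1 + ζ‖ ^ 2 < 2 ^ 2 := by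
      rw [Complex.sq_norm, Complex.normSq_apply]
      have h6 : ‖ζ‖ ^ 2 = 1 := by rw [h1, one_pow]
      rw [Complex.sq_norm, Complex.normSq_apply] at h6
      have h7 : ζ.re < 1 := by
        by_contra hcon
        have h8 : 1 ≤ ζ.re := not_lt.1 hcon
        have h9 : ζ.im = 0 := by nlinarith [mul_self_nonneg ζ.im]
        have h10 : ζ.re = 1 := by nlinarith
        exact h2 (Complex.ext (by simpa using h10) (by simpa using h9))
      simp only [Complex.add_re, Complex.one_re, Complex.add_im, Complex.one_im, zero_add]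
      nlinarith
    exact lt_of_pow_lt_pow_left₀ 2 (by norm_num) h5
  linarith

/-- The averages of `1` and a root of unity of bounded order. -/
theorem root_gap (N : ℕ) : ∃ ρ : ℝ, 0 ≤ ρ ∧ ρ < 1 ∧ ∀ (ζ : ℂ) (j : ℕ), 0 < j → j ≤ N →
    ζ ^ j = 1 → ζ ≠ 1 → ‖(1 + ζ) / 2‖ ≤ ρ := by
  classical
  set S : Finset ℂ := ((range (N + 1)).biUnion fun j => Polynomial.nthRootsFinset j (1 : ℂ)).filter
    fun ζ => ζ ≠ 1 ∧ ‖ζ‖ = 1 with hS
  have hmem : ∀ (ζ : ℂ) (j : ℕ), 0 < j → j ≤ N → ζ ^ j = 1 → ζ ≠ 1 → ζ ∈ S := by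
    intro ζ j hj hjN hζ h1
    rw [hS, Finset.mem_filter, Finset.mem_biUnion]
    refine ⟨⟨j, Finset.mem_range.2 (by omega), ?_⟩, h1, ?_⟩
    · rw [Polynomial.mem_nthRootsFinset hj]
      exact hζ
    · exact Complex.norm_eq_one_of_pow_eq_one hζ hj.ne'
  rcases S.eq_empty_or_nonempty with h0 | h0
  · refine ⟨0, le_rfl, one_pos, fun ζ j hj hjN hζ h1 => ?_⟩
    have := hmem ζ j hj hjN hζ h1
    rw [h0] at this
    exact absurd this (Finset.notMem_empty _)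
  · obtain ⟨ζ₀, hζ₀, hmax⟩ := Finset.exists_max_image S (fun ζ => ‖(1 + ζ) / 2‖) h0
    have h2 := (Finset.mem_filter.1 hζ₀).2
    exact ⟨‖(1 + ζ₀) / 2‖, norm_nonneg _, half_lt h2.2 h2.1, fun ζ j hj hjN hζ h1 =>
      hmax ζ (hmem ζ j hj hjN hζ h1)⟩

theorem pr_complex {X : Type*} [Fintype X] (A : X → Prop) [DecidablePred A] :
    ((pr A : ℝ) : ℂ) = av (fun x => if A x then 1 else 0) := by
  unfold pr avg av
  push_cast
  congr 1
  refine Finset.sum_congr rfl fun x _ => ?_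
  by_cases h : A x <;> simp [h]

/-- The Fourier expansion of the distribution of a linear form. -/
theorem pr_lin {Γ : Type} [AddCommGroup Γ] [Fintype Γ] [DecidableEq Γ] {n : ℕ} (β : Fin n → Γ)
    (s : Γ) : ((pr (fun x => lin β x = s) : ℝ) : ℂ) =
      (∑ χ : AddChar Γ ℂ, χ (-s) * ∏ i, (1 + χ (β i)) / 2) / (Fintype.card Γ : ℂ) := by
  rw [pr_complex]
  have h1 : ∀ x : Fin n → Bool, (if lin β x = s then (1 : ℂ) else 0) =
      (∑ χ : AddChar Γ ℂ, χ (-s) * χ (lin β x)) / (Fintype.card Γ : ℂ) := by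
    intro x
    have h2 : ∀ χ : AddChar Γ ℂ, χ (-s) * χ (lin β x) = χ (lin β x - s) := by
      intro χ
      rw [← AddChar.map_add_eq_mul]
      congr 1
      abel
    simp only [h2]
    rw [ind_zero]
    by_cases h : lin β x = s
    · rw [if_pos h, if_pos (sub_eq_zero.2 h)]
    · rw [if_neg h, if_neg fun h' => h (sub_eq_zero.1 h')]
  simp only [h1]
  unfold av
  rw [← Finset.sum_div, Finset.sum_comm, div_right_comm]
  congr 1
  rw [Finset.sum_div]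
  refine Finset.sum_congr rfl fun χ _ => ?_
  rw [← av_lin, ← Finset.mul_sum, mul_div_assoc]
  rfl

/-- **Near uniformity.** -/
theorem near_unif (q : ℕ) : ∃ W : ℕ, 0 < W ∧ ∀ (n : ℕ) (Γ : Type) [AddCommGroup Γ] [Finite Γ],
    Nat.card Γ ≤ q → ∀ β : Fin n → Γ,
    AddSubgroup.closure {γ : Γ | ∃ J : Finset (Fin n), W ≤ J.card ∧ ∀ i ∈ J, β i = γ} = ⊤ →
    ∀ s : Γ, 1 / (2 * (Nat.card Γ : ℝ)) ≤ pr (fun x => lin β x = s) ∧
      pr (fun x => lin β x = s) ≤ 3 / (2 * (Nat.card Γ : ℝ)) := by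
  classical
  obtain ⟨ρ, hρ0, hρ1, hρ⟩ := root_gap q
  obtain ⟨W, hW⟩ := exists_pow_lt_of_lt_one (show (0 : ℝ) < 1 / (2 * (q + 1)) by positivity) hρ1
  refine ⟨W + 1, Nat.succ_pos _, fun n Γ _ _ hq β hβ s => ?_⟩
  have : Fintype Γ := Fintype.ofFinite Γ
  rw [Nat.card_eq_fintype_card] at hq ⊢
  set N : ℕ := Fintype.card Γ with hN
  have hN0 : 0 < N := Fintype.card_pos
  have hN0' : (0 : ℝ) < N := by exact_mod_cast hN0
  have hterm : ∀ χ : AddChar Γ ℂ, χ ≠ 1 → ‖χ (-s) * ∏ i, (1 + χ (β i)) / 2‖ ≤ 1 / (2 * (q + 1)) := by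
    intro χ hχ
    have h1 : ∃ γ ∈ {γ : Γ | ∃ J : Finset (Fin n), W + 1 ≤ J.card ∧ ∀ i ∈ J, β i = γ},
        χ γ ≠ 1 := by
      by_contra hcon
      push Not at hcon
      apply hχ
      have h2 : ∀ γ : Γ, χ γ = 1 := by
        intro γ
        have h3 : γ ∈ AddSubgroup.closure
            {γ : Γ | ∃ J : Finset (Fin n), W + 1 ≤ J.card ∧ ∀ i ∈ J, β i = γ} := by
          rw [hβ]; trivial
        refine AddSubgroup.closure_induction (p := fun γ _ => χ γ = 1) (fun γ h => hcon γ h)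
          (AddChar.map_zero_eq_one χ) (fun a b _ _ ha hb => ?_) (fun a _ ha => ?_) h3
        · rw [AddChar.map_add_eq_mul, ha, hb, one_mul]
        · rw [AddChar.map_neg_eq_inv, ha, inv_one]
      ext γ
      rw [h2 γ, AddChar.one_apply]
    obtain ⟨γ, ⟨J, hJ, hJγ⟩, hγ⟩ := h1
    rw [norm_mul, AddChar.norm_apply, one_mul, norm_prod]
    have h4 : ∀ i, ‖(1 + χ (β i)) / 2‖ ≤ 1 := fun i => by
      have h5 : ‖(1 + χ (β i)) / 2‖ = ‖1 + χ (β i)‖ / 2 := by rw [norm_div, Complex.norm_ofNat]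
      have h6 : ‖1 + χ (β i)‖ ≤ ‖(1 : ℂ)‖ + ‖χ (β i)‖ := norm_add_le _ _
      rw [norm_one, AddChar.norm_apply] at h6
      linarith
    rw [← Finset.prod_mul_prod_compl J]
    have h6 : ∏ i ∈ Jᶜ, ‖(1 + χ (β i)) / 2‖ ≤ 1 :=
      Finset.prod_le_one (fun i _ => norm_nonneg _) (fun i _ => h4 i)
    have h7 : ∏ i ∈ J, ‖(1 + χ (β i)) / 2‖ ≤ ρ ^ J.card := by
      rw [← Finset.prod_const]
      refine Finset.prod_le_prod (fun i _ => norm_nonneg _) fun i hi => ?_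
      rw [hJγ i hi]
      refine hρ _ N hN0 hq ?_ hγ
      rw [← AddChar.map_nsmul_eq_pow, hN, card_nsmul_eq_zero, AddChar.map_zero_eq_one]
    have h8 : 0 ≤ ∏ i ∈ J, ‖(1 + χ (β i)) / 2‖ := Finset.prod_nonneg fun i _ => norm_nonneg _
    calc (∏ i ∈ J, ‖(1 + χ (β i)) / 2‖) * ∏ i ∈ Jᶜ, ‖(1 + χ (β i)) / 2‖
        ≤ (∏ i ∈ J, ‖(1 + χ (β i)) / 2‖) * 1 := mul_le_mul_of_nonneg_left h6 h8
      _ ≤ ρ ^ J.card := by rw [mul_one]; exact h7
      _ ≤ ρ ^ W := pow_le_pow_of_le_one hρ0 hρ1.le (by omega)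
      _ ≤ _ := hW.le
  have hmain : |pr (fun x => lin β x = s) - 1 / (N : ℝ)| ≤ 1 / (2 * N) := by
    have h1 : ((pr (fun x => lin β x = s) - 1 / (N : ℝ) : ℝ) : ℂ) =
        (∑ χ ∈ univ.erase (1 : AddChar Γ ℂ), χ (-s) * ∏ i, (1 + χ (β i)) / 2) / (N : ℂ) := by
      push_cast
      rw [pr_lin, ← Finset.add_sum_erase univ _ (Finset.mem_univ (1 : AddChar Γ ℂ)), add_div,
        ← hN]
      have h2 : (1 : AddChar Γ ℂ) (-s) * ∏ i, (1 + (1 : AddChar Γ ℂ) (β i)) / 2 = 1 := by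
        simp only [AddChar.one_apply, one_mul]
        norm_num
      rw [h2]
      ring
    rw [← Real.norm_eq_abs, ← Complex.norm_real, h1, norm_div, Complex.norm_natCast]
    have h3 : ‖∑ χ ∈ univ.erase (1 : AddChar Γ ℂ), χ (-s) * ∏ i, (1 + χ (β i)) / 2‖ ≤ 1 / 2 := by
      refine (norm_sum_le _ _).trans ?_
      refine (Finset.sum_le_sum fun χ hχ => hterm χ (Finset.ne_of_mem_erase hχ)).trans ?_
      rw [Finset.sum_const, nsmul_eq_mul]
      have h4 : (((univ : Finset (AddChar Γ ℂ)).erase 1).card : ℝ) ≤ q + 1 := by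
        have h5 : ((univ : Finset (AddChar Γ ℂ)).erase 1).card ≤ q := by
          refine (Finset.card_le_card (Finset.erase_subset _ _)).trans ?_
          rw [Finset.card_univ, AddChar.card_eq]
          exact hq
        have : (((univ : Finset (AddChar Γ ℂ)).erase 1).card : ℝ) ≤ q := by exact_mod_cast h5
        linarith
      calc (((univ : Finset (AddChar Γ ℂ)).erase 1).card : ℝ) * (1 / (2 * (q + 1)))
          ≤ (q + 1) * (1 / (2 * (q + 1))) := mul_le_mul_of_nonneg_right h4 (by positivity)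
        _ = 1 / 2 := by field_simp
    rw [div_le_iff₀ hN0']
    refine h3.trans (le_of_eq ?_)
    field_simp
  rw [abs_le] at hmain
  have e1 : (1 : ℝ) / N = 2 * (1 / (2 * N)) := by field_simp
  have e2 : (3 : ℝ) / (2 * N) = 3 * (1 / (2 * N)) := by ring
  constructor
  · linarith [hmain.1]
  · rw [e2]
    linarith [hmain.2]

end Pool.Agent.MP_ca1109_lc.Mon
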