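import Pool.Agent.MP_ca1109_lc.Mon.F1

/-!
# Linear forms with values in small groups: conditional probabilities
-/

namespace Pool.Agent.MP_ca1109_lc.Mon

open Pool.Agent.MP_ca1109_lc.Mpg Pool.Agent.MP_ca1109_lc.Hyb Pool.Agent.MP_ca1109_lc.Agp Finset

variable {n : ℕ}

/-- The part of a linear form in the coordinates in `J`. -/
def plin {Γ : Type*} [AddCommGroup Γ] (J : Finset (Fin n)) (κ : Fin n → Γ) (x : Fin n → Bool) : Γ :=
  ∑ i ∈ J, if x i = true then κ i else 0

theorem plin_congr {Γ : Type*} [AddCommGroup Γ] {J : Finset (Fin n)} {κ : Fin n → Γ}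
    {x y : Fin n → Bool} (h : ∀ i ∈ J, x i = y i) : plin J κ x = plin J κ y := by
  unfold plin
  refine Finset.sum_congr rfl fun i hi => ?_
  rw [h i hi]

theorem plin_insert {Γ : Type*} [AddCommGroup Γ] {J : Finset (Fin n)} {a : Fin n} (ha : a ∉ J)
    (κ : Fin n → Γ) (x : Fin n → Bool) :
    plin (insert a J) κ x = (if x a = true then κ a else 0) + plin J κ x := by
  unfold plin
  rw [Finset.sum_insert ha]

theorem plin_compl {Γ : Type*} [AddCommGroup Γ] (J : Finset (Fin n)) (κ : Fin n → Γ)
    (x : Fin n → Bool) : lin κ x = plin J κ x + plin Jᶜ κ x := by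
  classical
  unfold lin plin
  rw [Finset.sum_add_sum_compl]

theorem avg_bit (a : Fin n) (f : (Fin n → Bool) → ℝ) :
    avg f = (avg (fun x => f (Function.update x a true)) +
      avg (fun x => f (Function.update x a false))) / 2 := by
  rw [← avA_avg {a} f]
  have h1 : ∀ x, avA {a} f x =
      (f (Function.update x a true) + f (Function.update x a false)) / 2 := by
    intro x
    have h2 : ∀ u : Fin n → Bool, (fun i => if i ∈ ({a} : Finset (Fin n)) then u i else x i) =
        Function.update x a (u a) := by
      intro u
      funext i
      by_cases hi : i = a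
      · subst hi; simp
      · simp [hi]
    show avg (fun u : Fin n → Bool => f (fun i => if i ∈ ({a} : Finset (Fin n)) then u i
      else x i)) = _
    simp only [h2]
    exact b2b_bit a (fun c => f (Function.update x a c))
  have h2 : avA {a} f = fun x => 1 / 2 * (f (Function.update x a true) +
      f (Function.update x a false)) := by
    funext x
    rw [h1 x]; ring
  rw [h2, avg_mul_left, avg_add]
  ring

/-- The probability of an attained value of a linear form. -/
theorem pr_plin {Q : Type} [AddCommGroup Q] (κ : Fin n → Q) (G' : Set Q) (hG : G'.Finite)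
    (J : Finset (Fin n)) (hJ : ∀ x, ∀ J' ⊆ J, plin J' κ x ∈ G') :
    ∀ c : Q, (∃ x, plin J κ x = c) →
      (1 / 2 : ℝ) ^ ({c : Q | ∃ x, plin J κ x = c}.ncard - 1) ≤ pr (fun x => plin J κ x = c) := by
  classical
  induction J using Finset.induction_on with
  | empty =>
    intro c hc
    obtain ⟨x, hx⟩ := hc
    have h0 : ∀ y : Fin n → Bool, plin ∅ κ y = c := fun y => by
      rw [← hx]; unfold plin; simp
    have h1 : pr (fun x => plin ∅ κ x = c) = 1 := by
      unfold pr
      simp only [h0, if_true]
      exact avg_const 1
    rw [h1]
    exact pow_le_one₀ (by norm_num) (by norm_num)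
  | insert a J ha ih =>
    have ih := ih fun x J' hJ' => hJ x J' (hJ'.trans (Finset.subset_insert _ _))
    set S : Set Q := {c | ∃ x, plin J κ x = c} with hS
    set S' : Set Q := {c | ∃ x, plin (insert a J) κ x = c} with hS'
    have hSG : S ⊆ G' := by
      rintro c ⟨x, rfl⟩
      exact hJ x J (Finset.subset_insert _ _)
    have hSG' : S' ⊆ G' := by
      rintro c ⟨x, rfl⟩
      exact hJ x _ subset_rfl
    have hfS : S.Finite := hG.subset hSG
    have hfS' : S'.Finite := hG.subset hSG'
    have hne : S.Nonempty := ⟨_, default, rfl⟩
    have hpos : 0 < S.ncard := (Set.ncard_pos hfS).2 hne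
    have hup : ∀ (x : Fin n → Bool) (c : Bool), plin J κ (Function.update x a c) = plin J κ x :=
      fun x c => plin_congr fun i hi => by
        rw [Function.update_of_ne]
        rintro rfl
        exact ha hi
    have hval : ∀ (x : Fin n → Bool) (c : Bool), plin (insert a J) κ (Function.update x a c) =
        (if c = true then κ a else 0) + plin J κ x := by
      intro x c
      rw [plin_insert ha, hup, Function.update_self]
    have hsub : S ⊆ S' := by
      rintro c ⟨x, rfl⟩
      exact ⟨Function.update x a false, by rw [hval]; simp⟩
    have hsub' : ∀ c ∈ S, κ a + c ∈ S' := by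
      rintro c ⟨x, rfl⟩
      exact ⟨Function.update x a true, by rw [hval]; simp⟩
    have hpr : ∀ c, pr (fun x => plin (insert a J) κ x = c) =
        (pr (fun x => plin J κ x = c - κ a) + pr (fun x => plin J κ x = c)) / 2 := by
      intro c
      have h1 := avg_bit a (fun x => if plin (insert a J) κ x = c then (1 : ℝ) else 0)
      have h2 : pr (fun x => plin (insert a J) κ x = c) =
          avg (fun x => if plin (insert a J) κ x = c then (1 : ℝ) else 0) := by
        unfold pr
        congr 1
      rw [h2, h1]
      congr 2
      · unfold pr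
        congr 1
        funext x
        have : (plin (insert a J) κ (Function.update x a true) = c) ↔
            plin J κ x = c - κ a := by
          rw [hval, if_pos rfl, add_comm, eq_sub_iff_add_eq]
        simp only [this]
      · unfold pr
        congr 1
        funext x
        have : (plin (insert a J) κ (Function.update x a false) = c) ↔ plin J κ x = c := by
          rw [hval, if_neg (by simp), zero_add]
        simp only [this]
    intro c hc
    have hcase : c ∈ S ∨ c - κ a ∈ S := by
      obtain ⟨x, hx⟩ := hc
      rw [plin_insert ha] at hx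
      by_cases hxa : x a = true
      · rw [if_pos hxa] at hx
        exact Or.inr ⟨x, by rw [← hx]; abel⟩
      · rw [if_neg hxa, zero_add] at hx
        exact Or.inl ⟨x, hx⟩
    rw [hpr]
    have hle : S.ncard ≤ S'.ncard := Set.ncard_le_ncard hsub hfS'
    by_cases hcard : S'.ncard = S.ncard
    · have hSS : S = S' := Set.eq_of_subset_of_ncard_le hsub hcard.le hfS'
      have hinj : (fun c => κ a + c) '' S = S := by
        refine Set.eq_of_subset_of_ncard_le ?_ ?_ hfS
        · rintro _ ⟨c, hc, rfl⟩
          rw [hSS]
          exact hsub' c hc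
        · rw [Set.ncard_image_of_injective S (add_right_injective (κ a))]
      have hc1 : c ∈ S := by rw [hSS]; exact hc
      have hc2 : c - κ a ∈ S := by
        rw [← hinj] at hc1
        obtain ⟨c', hc', rfl⟩ := hc1
        have : κ a + c' - κ a = c' := by abel
        show κ a + c' - κ a ∈ S
        rw [this]; exact hc'
      have h1 := ih c hc1
      have h2 := ih (c - κ a) hc2
      rw [hcard]
      linarith
    · have h3 : (1 / 2 : ℝ) ^ (S'.ncard - 1) ≤ 1 / 2 * (1 / 2 : ℝ) ^ (S.ncard - 1) := by
        rw [← pow_succ']
        refine pow_le_pow_of_le_one (by norm_num) (by norm_num) ?_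
        omega
      have h4 := pr_nonneg (fun x => plin J κ x = c - κ a)
      have h5 := pr_nonneg (fun x => plin J κ x = c)
      rcases hcase with h | h
      · have := ih c h
        linarith
      · have := ih _ h
        linarith

end Pool.Agent.MP_ca1109_lc.Mon
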