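import Pool.Agent.MP_ca1109_lc.Mon.F2

/-!
# Conditional probabilities are bounded below
-/

namespace Pool.Agent.MP_ca1109_lc.Mon

open Pool.Agent.MP_ca1109_lc.Mpg Pool.Agent.MP_ca1109_lc.Hyb Pool.Agent.MP_ca1109_lc.Agp Finset

variable {n : ℕ}

/-- The constant. -/
noncomputable def cc (k : ℕ) : ℝ := (1 / 2) ^ k / (3 * (k + 1))

theorem cc_pos (k : ℕ) : 0 < cc k := by
  unfold cc
  positivity

/-- Every attained value of the second component has a conditional probability at least `cc k`. -/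
theorem core_bound (k q : ℕ) : ∃ W : ℕ, 0 < W ∧ ∀ (n : ℕ) (H G : Type) [AddCommGroup H] [Finite H]
    [AddCommGroup G] [Finite G], Nat.card H ≤ q → Nat.card G ≤ k → ∀ κ : Fin n → H × G,
    (∀ i, ∃ γ ∈ AddSubgroup.closure {γ : H × G | ∃ J : Finset (Fin n), W ≤ J.card ∧
      ∀ i ∈ J, κ i = γ}, γ.1 = (κ i).1) →
    ∀ (h : H) (g : G), (∃ x, lin κ x = (h, g)) →
      cc k * pr (fun x => (lin κ x).1 = h) ≤ pr (fun x => lin κ x = (h, g)) := by
  classical
  obtain ⟨W, hW0, hW⟩ := near_unif (q * k)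
  refine ⟨W, hW0, fun n H G _ _ _ _ hH hG κ hκ h g hex => ?_⟩
  have : Fintype G := Fintype.ofFinite G
  set Big : Set (H × G) := {γ : H × G | ∃ J : Finset (Fin n), W ≤ J.card ∧ ∀ i ∈ J, κ i = γ}
    with hBig
  set B : AddSubgroup (H × G) := AddSubgroup.closure Big with hB
  have hBcard : Nat.card B ≤ q * k := by
    refine (Nat.card_le_card_of_injective (Subtype.val : B → H × G) Subtype.val_injective).trans ?_
    rw [Nat.card_prod]
    exact Nat.mul_le_mul hH hG
  set J : Finset (Fin n) := univ.filter fun i => κ i ∈ Big with hJ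
  let β : Fin n → B := fun i => if hi : κ i ∈ Big then ⟨κ i, AddSubgroup.subset_closure hi⟩ else 0
  have hβ1 : ∀ x, ((lin β x : B) : H × G) = plin J κ x := by
    intro x
    have e : ((lin β x : B) : H × G) = ∑ i, ((if x i = true then β i else 0 : B) : H × G) := by
      unfold lin
      rw [← B.coe_subtype, map_sum]
    rw [e]
    unfold plin
    rw [hJ, Finset.sum_filter]
    refine Finset.sum_congr rfl fun i _ => ?_
    by_cases hi : κ i ∈ Big
    · rw [if_pos hi]
      by_cases hx : x i = true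
      · rw [if_pos hx, if_pos hx]
        show ((if hi : κ i ∈ Big then (⟨κ i, AddSubgroup.subset_closure hi⟩ : B) else 0 : B) :
          H × G) = κ i
        rw [dif_pos hi]
      · rw [if_neg hx, if_neg hx]; rfl
    · rw [if_neg hi]
      have h0 : β i = 0 := dif_neg hi
      rw [h0, ite_self]
      rfl
  have hβ2 : AddSubgroup.closure {γ : B | ∃ J : Finset (Fin n), W ≤ J.card ∧
      ∀ i ∈ J, β i = γ} = ⊤ := by
    have h1 : AddSubgroup.closure ((Subtype.val : B → H × G) ⁻¹' Big) = ⊤ :=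
      AddSubgroup.closure_closure_coe_preimage
    rw [eq_top_iff, ← h1]
    refine AddSubgroup.closure_mono ?_
    rintro ⟨γ, hγ⟩ hγ'
    obtain ⟨J', hJ', h2⟩ := hγ'
    refine ⟨J', hJ', fun i hi => ?_⟩
    have h3 : κ i = γ := h2 i hi
    have h4 : κ i ∈ Big := by
      rw [h3]
      exact ⟨J', hJ', h2⟩
    apply Subtype.ext
    show ((if hi : κ i ∈ Big then (⟨κ i, AddSubgroup.subset_closure hi⟩ : B) else 0 : B) :
      H × G) = γ
    rw [dif_pos h4]
    exact h3
  have hunif := hW n B hBcard β hβ2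
  set b : ℝ := (Nat.card B : ℝ) with hb
  have hb0 : 0 < b := by
    rw [hb]
    exact_mod_cast Nat.card_pos
  -- the probability of a value
  have hval : ∀ a : H × G, pr (fun x => lin κ x = a) =
      avg (fun x => pr (fun u => ((lin β u : B) : H × G) = a - plin Jᶜ κ x)) := by
    intro a
    have h1 : pr (fun x => lin κ x = a) = avg (avA J fun x => if lin κ x = a then (1 : ℝ) else 0) := by
      rw [avA_avg]
      unfold pr
      congr 1
      funext x
      congr
    rw [h1]
    congr 1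
    funext x
    show avg (fun u : Fin n → Bool =>
      if lin κ (fun i => if i ∈ J then u i else x i) = a then (1 : ℝ) else 0) = _
    unfold pr
    congr 1
    funext u
    have h2 : lin κ (fun i => if i ∈ J then u i else x i) = ((lin β u : B) : H × G) +
        plin Jᶜ κ x := by
      rw [plin_compl J, hβ1]
      congr 1
      · exact plin_congr fun i hi => if_pos hi
      · exact plin_congr fun i hi => if_neg (Finset.mem_compl.1 hi)
    rw [h2]
    have h3 : (((lin β u : B) : H × G) + plin Jᶜ κ x = a) ↔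
        (((lin β u : B) : H × G) = a - plin Jᶜ κ x) := eq_sub_iff_add_eq.symm
    simp only [h3]
    congr
  have hin : ∀ a : H × G, ∀ ha : a ∈ B, pr (fun u => ((lin β u : B) : H × G) = a) =
      pr (fun u => lin β u = ⟨a, ha⟩) := by
    intro a ha
    congr 1
    funext u
    exact propext ⟨fun h => Subtype.ext h, fun h => by rw [h]⟩
  have hout : ∀ a : H × G, a ∉ B → pr (fun u => ((lin β u : B) : H × G) = a) = 0 := by
    intro a ha
    refine pr_eq_zero fun u hu => ha ?_
    rw [← hu]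
    exact (lin β u).2
  have hup : ∀ a : H × G, pr (fun x => lin κ x = a) ≤ 3 / (2 * b) := by
    intro a
    rw [hval]
    refine (avg_mono (g := fun _ => 3 / (2 * b)) fun x => ?_).trans (avg_const _).le
    by_cases ha : a - plin Jᶜ κ x ∈ B
    · rw [hin _ ha]
      exact (hunif _).2
    · rw [hout _ ha]
      positivity
  have hlow : 1 / (2 * b) * pr (fun x => (h, g) - plin Jᶜ κ x ∈ B) ≤
      pr (fun x => lin κ x = (h, g)) := by
    rw [hval]
    unfold pr
    rw [← avg_mul_left]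
    refine avg_mono fun x => ?_
    by_cases ha : (h, g) - plin Jᶜ κ x ∈ B
    · have h1 := (hunif ⟨_, ha⟩).1
      rw [← hin _ ha] at h1
      rw [if_pos ha, mul_one]
      exact h1
    · rw [if_neg ha, mul_zero]
      exact pr_nonneg (fun u => ((lin β u : B) : H × G) = (h, g) - plin Jᶜ κ x)
  have hden : pr (fun x => (lin κ x).1 = h) ≤ k * (3 / (2 * b)) := by
    have h1 : pr (fun x => (lin κ x).1 = h) ≤ ∑ g' : G, pr (fun x => lin κ x = (h, g')) := by
      refine (pr_mono fun x hx => ?_).trans (pr_exists _)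
      exact ⟨(lin κ x).2, Prod.ext hx rfl⟩
    refine h1.trans ((Finset.sum_le_sum fun g' _ => hup (h, g')).trans ?_)
    rw [Finset.sum_const, Finset.card_univ, nsmul_eq_mul]
    refine mul_le_mul_of_nonneg_right ?_ (by positivity)
    rw [Nat.card_eq_fintype_card] at hG
    exact_mod_cast hG
  -- the quotient
  let π : H × G →+ (H × G) ⧸ B := QuotientAddGroup.mk' B
  have hπ0 : ∀ a, π a = 0 ↔ a ∈ B := fun a => QuotientAddGroup.eq_zero_iff a
  have hπlin : ∀ (J' : Finset (Fin n)) x, π (plin J' κ x) = plin J' (fun i => π (κ i)) x := by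
    intro J' x
    unfold plin
    rw [map_sum]
    refine Finset.sum_congr rfl fun i _ => ?_
    split_ifs
    · rfl
    · exact map_zero π
  let G' : AddSubgroup ((H × G) ⧸ B) := (π.comp (AddMonoidHom.inr H G)).range
  have hG'f : (G' : Set ((H × G) ⧸ B)).Finite := Set.finite_range _
  have hG'c : (G' : Set ((H × G) ⧸ B)).ncard ≤ k := by
    have h1 : (G' : Set ((H × G) ⧸ B)) = Set.range (π.comp (AddMonoidHom.inr H G)) := rfl
    rw [h1, ← Set.image_univ]
    refine (Set.ncard_image_le Set.finite_univ).trans ?_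
    rw [Set.ncard_univ]
    exact hG
  have hκG : ∀ i, π (κ i) ∈ G' := by
    intro i
    obtain ⟨γ, hγ, h1⟩ := hκ i
    refine ⟨(κ i).2 - γ.2, ?_⟩
    have h2 : κ i = AddMonoidHom.inr H G ((κ i).2 - γ.2) + γ := by
      refine Prod.ext ?_ ?_
      · show (κ i).1 = 0 + γ.1
        rw [zero_add, h1]
      · show (κ i).2 = (κ i).2 - γ.2 + γ.2
        rw [sub_add_cancel]
    have h3 : π γ = 0 := (hπ0 γ).2 hγ
    show π (AddMonoidHom.inr H G ((κ i).2 - γ.2)) = π (κ i)
    conv_rhs => rw [h2]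
    rw [map_add, h3, add_zero]
  have hsum : ∀ x, ∀ J' ⊆ Jᶜ, plin J' (fun i => π (κ i)) x ∈ (G' : Set ((H × G) ⧸ B)) := by
    intro x J' _
    unfold plin
    refine G'.sum_mem fun i _ => ?_
    split_ifs
    · exact hκG i
    · exact G'.zero_mem
  obtain ⟨x₀, hx₀⟩ := hex
  have h1 := pr_plin (fun i => π (κ i)) (G' : Set ((H × G) ⧸ B)) hG'f Jᶜ hsum (π (h, g)) ⟨x₀, by
    rw [← hπlin, ← sub_eq_zero, ← map_sub, hπ0, ← hx₀, plin_compl J κ x₀, sub_add_cancel_right,
      B.neg_mem_iff, ← hβ1]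
    exact (lin β x₀).2⟩
  have h2 : (1 / 2 : ℝ) ^ k ≤ pr (fun x => (h, g) - plin Jᶜ κ x ∈ B) := by
    have h3 : pr (fun x => plin Jᶜ (fun i => π (κ i)) x = π (h, g)) =
        pr (fun x => (h, g) - plin Jᶜ κ x ∈ B) := by
      congr 1
      funext x
      rw [← hπlin]
      refine propext ⟨fun h => ?_, fun h => ?_⟩
      · rw [← hπ0, map_sub, h, sub_self]
      · rw [← hπ0, map_sub, sub_eq_zero] at h
        exact h.symm
    rw [← h3]
    refine le_trans (pow_le_pow_of_le_one (by norm_num) (by norm_num) ?_) h1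
    have h4 : {c : (H × G) ⧸ B | ∃ x, plin Jᶜ (fun i => π (κ i)) x = c} ⊆
        (G' : Set ((H × G) ⧸ B)) := by
      rintro c ⟨x, rfl⟩
      exact hsum x _ subset_rfl
    have h5 := Set.ncard_le_ncard h4 hG'f
    omega
  unfold cc
  have h6 : (1 / 2 : ℝ) ^ k / (3 * (k + 1)) * (k * (3 / (2 * b))) ≤ 1 / (2 * b) * (1 / 2) ^ k := by
    have h7 : (1 / 2 : ℝ) ^ k / (3 * (k + 1)) * (k * (3 / (2 * b))) =
        (1 / (2 * b) * (1 / 2) ^ k) * (k / (k + 1)) := by
      field_simp
    rw [h7]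
    have h8 : (k : ℝ) / (k + 1) ≤ 1 := by
      rw [div_le_one (by positivity)]
      linarith
    have h9 : 0 ≤ 1 / (2 * b) * (1 / 2 : ℝ) ^ k := by positivity
    calc _ ≤ (1 / (2 * b) * (1 / 2 : ℝ) ^ k) * 1 := mul_le_mul_of_nonneg_left h8 h9
      _ = _ := mul_one _
  calc (1 / 2 : ℝ) ^ k / (3 * (k + 1)) * pr (fun x => (lin κ x).1 = h)
      ≤ (1 / 2 : ℝ) ^ k / (3 * (k + 1)) * (k * (3 / (2 * b))) :=
        mul_le_mul_of_nonneg_left hden (by positivity)
    _ ≤ 1 / (2 * b) * (1 / 2) ^ k := h6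
    _ ≤ 1 / (2 * b) * pr (fun x => (h, g) - plin Jᶜ κ x ∈ B) :=
        mul_le_mul_of_nonneg_left h2 (by positivity)
    _ ≤ _ := hlow

end Pool.Agent.MP_ca1109_lc.Mon
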