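import Pool.Agent.MP_ca1109_lc.Mon.F3

/-!
# Atoms
-/

namespace Pool.Agent.MP_ca1109_lc.Mon

open Pool.Agent.MP_ca1109_lc.Mpg Pool.Agent.MP_ca1109_lc.Hyb Pool.Agent.MP_ca1109_lc.Agp Finset

variable {n : ℕ}

theorem affine_rep {Γ : Type*} [AddCommGroup Γ] {L : (Fin n → Bool) → Γ}
    (hL : L ∈ lowDeg (Fin n) Bool Γ 1) : ∃ (a : Γ) (α : Fin n → Γ), ∀ x, L x = a + lin α x := by
  obtain ⟨c, hc, h⟩ := exists_pol hL
  exact ⟨c ∅, fun i => c {i}, fun x => by rw [h, pol_lin hc]⟩

theorem pr_indep {J : Finset (Fin n)} {A B : (Fin n → Bool) → Prop}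
    (hA : ∀ x y, (∀ i ∈ J, x i = y i) → (A x ↔ A y))
    (hB : ∀ x y, (∀ i, i ∉ J → x i = y i) → (B x ↔ B y)) :
    pr (fun x => A x ∧ B x) = pr A * pr B := by
  classical
  set f : (Fin n → Bool) → ℝ := fun x => if A x then 1 else 0 with hf
  set h : (Fin n → Bool) → ℝ := fun x => if B x then 1 else 0 with hh
  have hi : Indep J h := by
    intro x y hxy
    simp only [hh, hB x y hxy]
  have h1 := dev_orth J f h hi
  have h2 : ∀ x, avA J f x = avg f := by
    intro x
    show avg (fun u : Fin n → Bool => f (fun i => if i ∈ J then u i else x i)) = avg f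
    congr 1
    funext u
    simp only [hf]
    rw [hA (fun i => if i ∈ J then u i else x i) u fun i hi => if_pos hi]
  have e : (fun x => (f x - avA J f x) * h x) = fun x => f x * h x - avg f * h x := by
    funext x
    rw [h2]; ring
  rw [e, avg_sub (fun x => f x * h x) (fun x => avg f * h x), avg_mul_left] at h1
  have h3 : pr (fun x => A x ∧ B x) = avg (fun x => f x * h x) := by
    unfold pr
    congr 1
    funext x
    simp only [hf, hh]
    by_cases h4 : A x <;> by_cases h5 : B x <;> simp [h4, h5]
  have h4 : pr A = avg f := by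
    unfold pr
    congr 1
  have h5 : pr B = avg h := by
    unfold pr
    congr 1
  rw [h3, h4, h5]
  linarith

/-- There are few coordinates after whose restriction the attained values of all affine maps to
small groups have conditional probabilities bounded below. -/
theorem atoms (k q : ℕ) : ∃ C : ℕ, ∀ (n : ℕ) (H : Type) [AddCommGroup H] [Finite H],
    Nat.card H ≤ q → ∀ M ∈ lowDeg (Fin n) Bool H 1, ∃ J : Finset (Fin n), J.card ≤ C ∧
      ∀ (G : Type) [AddCommGroup G] [Finite G], Nat.card G ≤ k → ∀ L ∈ lowDeg (Fin n) Bool G 1,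
      ∀ (u : Fin n → Bool) (h : H) (g : G), (∃ x, ((∀ i ∈ J, x i = u i) ∧ M x = h) ∧ L x = g) →
        cc k * pr (fun x => (∀ i ∈ J, x i = u i) ∧ M x = h) ≤
          pr (fun x => ((∀ i ∈ J, x i = u i) ∧ M x = h) ∧ L x = g) := by
  classical
  obtain ⟨W, hW0, hW⟩ := core_bound k q
  refine ⟨q * (k * W), fun n H _ _ hH M hM => ?_⟩
  have : Fintype H := Fintype.ofFinite H
  obtain ⟨m₀, μ, hμ⟩ := affine_rep hM
  set J : Finset (Fin n) := univ.filter fun i => (univ.filter fun j => μ j = μ i).card < k * W
    with hJ
  refine ⟨J, ?_, fun G _ _ hG L hL u h g hex => ?_⟩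
  · have h1 : J ⊆ (univ : Finset H).biUnion fun η =>
        if (univ.filter fun j => μ j = η).card < k * W then univ.filter fun j => μ j = η else ∅ := by
      intro i hi
      rw [Finset.mem_biUnion]
      refine ⟨μ i, Finset.mem_univ _, ?_⟩
      rw [if_pos (Finset.mem_filter.1 hi).2]
      simp
    refine (Finset.card_le_card h1).trans (Finset.card_biUnion_le.trans ?_)
    refine (Finset.sum_le_card_nsmul _ _ (k * W) fun η _ => ?_).trans ?_
    · split_ifs with h2
      · exact h2.le
      · simp
    · rw [smul_eq_mul, Finset.card_univ]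
      rw [Nat.card_eq_fintype_card] at hH
      exact Nat.mul_le_mul_right _ hH
  · have : Fintype G := Fintype.ofFinite G
    obtain ⟨l₀, l, hl⟩ := affine_rep hL
    let κ : Fin n → H × G := fun i => if i ∈ J then 0 else (μ i, l i)
    -- the constant
    let c₀ : H × G := (m₀, l₀) + plin J (fun i => (μ i, l i)) u
    have hML : ∀ x : Fin n → Bool, (∀ i ∈ J, x i = u i) → (M x, L x) = c₀ + lin κ x := by
      intro x hx
      have h1 : lin (fun i => (μ i, l i)) x = (lin μ x, lin l x) := by
        unfold lin
        refine Prod.ext ?_ ?_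
        · rw [Prod.fst_sum]
          refine Finset.sum_congr rfl fun i _ => ?_
          split_ifs <;> rfl
        · rw [Prod.snd_sum]
          refine Finset.sum_congr rfl fun i _ => ?_
          split_ifs <;> rfl
      have h2 : (M x, L x) = (m₀, l₀) + lin (fun i => (μ i, l i)) x := by
        rw [h1, hμ, hl]; rfl
      rw [h2, plin_compl J, plin_congr hx, ← add_assoc]
      congr 1
      unfold plin lin
      rw [← Finset.sum_subset (Finset.subset_univ Jᶜ)]
      · refine Finset.sum_congr rfl fun i hi => ?_
        show _ = if x i = true then (if i ∈ J then 0 else (μ i, l i)) else 0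
        rw [if_neg (Finset.mem_compl.1 hi)]
      · intro i _ hi
        have hi' : i ∈ J := by simpa using hi
        show (if x i = true then (if i ∈ J then 0 else (μ i, l i)) else 0) = 0
        rw [if_pos hi', ite_self]
    have hκind : ∀ x y : Fin n → Bool, (∀ i, i ∉ J → x i = y i) → lin κ x = lin κ y := by
      intro x y hxy
      unfold lin
      refine Finset.sum_congr rfl fun i _ => ?_
      by_cases hi : i ∈ J
      · have : κ i = 0 := if_pos hi
        rw [this, ite_self, ite_self]
      · rw [hxy i hi]
    have hA : ∀ x y : Fin n → Bool, (∀ i ∈ J, x i = y i) →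
        ((∀ i ∈ J, x i = u i) ↔ ∀ i ∈ J, y i = u i) := by
      intro x y hxy
      exact ⟨fun h i hi => by rw [← hxy i hi, h i hi], fun h i hi => by rw [hxy i hi, h i hi]⟩
    have hnum : pr (fun x => ((∀ i ∈ J, x i = u i) ∧ M x = h) ∧ L x = g) =
        pr (fun x : Fin n → Bool => ∀ i ∈ J, x i = u i) *
          pr (fun x => lin κ x = ((h, g) - c₀ : H × G)) := by
      rw [← pr_indep hA fun x y hxy => by rw [hκind x y hxy]]
      congr 1
      funext x
      refine propext ⟨fun ⟨⟨h1, h2⟩, h3⟩ => ⟨h1, ?_⟩, fun ⟨h1, h2⟩ => ?_⟩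
      · have := hML x h1
        rw [h2, h3] at this
        rw [this]; abel
      · have := hML x h1
        rw [h2, add_sub_cancel] at this
        exact ⟨⟨h1, congrArg Prod.fst this⟩, congrArg Prod.snd this⟩
    have hden : pr (fun x => (∀ i ∈ J, x i = u i) ∧ M x = h) =
        pr (fun x : Fin n → Bool => ∀ i ∈ J, x i = u i) *
          pr (fun x => (lin κ x).1 = ((h, g) - c₀ : H × G).1) := by
      rw [← pr_indep hA fun x y hxy => by rw [hκind x y hxy]]
      congr 1
      funext x
      refine propext ⟨fun ⟨h1, h2⟩ => ⟨h1, ?_⟩, fun ⟨h1, h2⟩ => ⟨h1, ?_⟩⟩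
      · have h3 := congrArg Prod.fst (hML x h1)
        have h4 : M x = c₀.1 + (lin κ x).1 := h3
        show (lin κ x).1 = h - c₀.1
        rw [← h2, h4]; abel
      · have h3 := congrArg Prod.fst (hML x h1)
        have h4 : M x = c₀.1 + (lin κ x).1 := h3
        have h5 : (lin κ x).1 = h - c₀.1 := h2
        rw [h4, h5]; abel
    rw [hnum, hden]
    have hcore := hW n H G hH hG κ ?_ ((h, g) - c₀ : H × G).1 ((h, g) - c₀ : H × G).2 ?_
    · have hp := pr_nonneg (fun x : Fin n → Bool => ∀ i ∈ J, x i = u i)
      calc _ = pr (fun x : Fin n → Bool => ∀ i ∈ J, x i = u i) *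
            (cc k * pr (fun x => (lin κ x).1 = ((h, g) - c₀ : H × G).1)) := by ring
        _ ≤ _ := mul_le_mul_of_nonneg_left hcore hp
    · intro i
      by_cases hi : i ∈ J
      · refine ⟨0, AddSubgroup.zero_mem _, ?_⟩
        have : κ i = 0 := if_pos hi
        rw [this]
      · have h1 : k * W ≤ (univ.filter fun j => μ j = μ i).card := by
          rw [hJ, Finset.mem_filter] at hi
          push Not at hi
          exact hi (Finset.mem_univ _)
        have h2 : ∃ g' : G, W ≤ (univ.filter fun j => μ j = μ i ∧ l j = g').card := by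
          by_contra hcon
          push Not at hcon
          have h3 : (univ.filter fun j => μ j = μ i) =
              (univ : Finset G).biUnion fun g' => univ.filter fun j => μ j = μ i ∧ l j = g' := by
            ext j
            simp
          have hpos : 0 < Fintype.card G := Fintype.card_pos
          have h4 : (univ.filter fun j => μ j = μ i).card < Fintype.card G * W := by
            rw [h3]
            refine lt_of_le_of_lt Finset.card_biUnion_le ?_
            calc ∑ g' : G, (univ.filter fun j => μ j = μ i ∧ l j = g').card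
                < ∑ _g' : G, W := Finset.sum_lt_sum_of_nonempty ⟨0, Finset.mem_univ _⟩
                  fun g' _ => hcon g'
              _ = Fintype.card G * W := by
                  rw [Finset.sum_const, Finset.card_univ, smul_eq_mul]
          rw [Nat.card_eq_fintype_card] at hG
          have := Nat.mul_le_mul_right W hG
          omega
        obtain ⟨g', hg'⟩ := h2
        refine ⟨(μ i, g'), AddSubgroup.subset_closure ⟨_, hg', fun j hj => ?_⟩, ?_⟩
        · have hj' := (Finset.mem_filter.1 hj).2
          have h5 : j ∉ J := by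
            rw [hJ, Finset.mem_filter]
            push Not
            intro _
            rw [hj'.1]
            exact h1
          show (if j ∈ J then 0 else (μ j, l j)) = (μ i, g')
          rw [if_neg h5, hj'.1, hj'.2]
        · have : κ i = (μ i, l i) := if_neg hi
          rw [this]
    · obtain ⟨x, ⟨hx1, hx2⟩, hx3⟩ := hex
      refine ⟨x, ?_⟩
      have := hML x hx1
      rw [hx2, hx3] at this
      rw [this]
      abel

end Pool.Agent.MP_ca1109_lc.Mon
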