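import Pool.Agent.MP_ca1109_lc.Mon.F4

/-!
# Functions of boundedly many conditions
-/

namespace Pool.Agent.MP_ca1109_lc.Mon

open Pool.Agent.MP_ca1109_lc.Mpg Pool.Agent.MP_ca1109_lc.Hyb Pool.Agent.MP_ca1109_lc.Agp Finset

variable {n d : ℕ}

/-- Questions about affine maps to small groups are not answered yes at exactly one vertex. -/
theorem LinQ.noOne {k D : ℕ} {E : (Fin n → Bool) → Prop} (h : LinQ k E) (hD : k ≤ D) :
    NoOne D E := by
  classical
  obtain ⟨G, instG, finG, L, A, hG, hL, hE⟩ := h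
  have : Fintype G := Fintype.ofFinite G
  obtain ⟨a, α, hα⟩ := affine_rep hL
  intro b x y ω₀ hω
  let c : Fin D → G := fun t => ∑ i, if b i = t then
    ((if y i = true then α i else 0) - (if x i = true then α i else 0)) else 0
  let S : (Fin D → Bool) → G := fun ω => ∑ t, if ω t = true then c t else 0
  have hS : ∀ ω, L (vx b ω x y) = a + (lin α x + S ω) := by
    intro ω
    rw [hα]
    congr 1
    have h1 : S ω = ∑ i, if ω (b i) = true then
        ((if y i = true then α i else 0) - (if x i = true then α i else 0)) else 0 := by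
      show (∑ t, if ω t = true then c t else 0) = _
      have h2 : ∀ t, (if ω t = true then c t else 0) = ∑ i, if ω t = true ∧ b i = t then
          ((if y i = true then α i else 0) - (if x i = true then α i else 0)) else 0 := by
        intro t
        by_cases ht : ω t = true
        · rw [if_pos ht]
          refine Finset.sum_congr rfl fun i _ => ?_
          simp only [ht, true_and]
        · rw [if_neg ht]
          symm
          refine Finset.sum_eq_zero fun i _ => ?_
          rw [if_neg fun h => ht h.1]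
      rw [Finset.sum_congr rfl fun t _ => h2 t, Finset.sum_comm]
      refine Finset.sum_congr rfl fun i _ => ?_
      rw [Finset.sum_eq_single (b i)]
      · simp only [and_true]
      · intro t _ ht
        rw [if_neg fun h => ht h.2.symm]
      · intro h
        exact absurd (Finset.mem_univ _) h
    rw [h1]
    unfold lin
    rw [← Finset.sum_add_distrib]
    refine Finset.sum_congr rfl fun i _ => ?_
    show (if (if ω (b i) then y i else x i) = true then α i else 0) = _
    by_cases h2 : ω (b i) = true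
    · simp only [h2, if_true]
      abel
    · simp [h2]
  let ωs : ℕ → Fin D → Bool := fun j t => if (t : ℕ) < j then !ω₀ t else ω₀ t
  obtain ⟨j, j', hjj, hL'⟩ : ∃ j j' : Fin (D + 1), j < j' ∧ S (ωs j) = S (ωs j') := by
    have h1 : Fintype.card G < Fintype.card (Fin (D + 1)) := by
      rw [Nat.card_eq_fintype_card] at hG
      rw [Fintype.card_fin]
      omega
    obtain ⟨j, j', hne, h2⟩ := Fintype.exists_ne_map_eq_of_card_lt
      (fun j : Fin (D + 1) => S (ωs j)) h1
    rcases lt_or_gt_of_ne hne with h3 | h3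
    · exact ⟨j, j', h3, h2⟩
    · exact ⟨j', j, h3, h2.symm⟩
  let ω : Fin D → Bool := fun t => if (j : ℕ) ≤ t ∧ (t : ℕ) < j' then !ω₀ t else ω₀ t
  have hjj' : (j : ℕ) < j' := hjj
  have hj'D : (j' : ℕ) ≤ D := Nat.lt_succ_iff.1 j'.2
  have hsum : S ω + S (ωs j) = S ω₀ + S (ωs j') := by
    show (∑ t, if ω t = true then c t else 0) + (∑ t, if ωs j t = true then c t else 0) =
      (∑ t, if ω₀ t = true then c t else 0) + ∑ t, if ωs j' t = true then c t else 0
    rw [← Finset.sum_add_distrib, ← Finset.sum_add_distrib]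
    refine Finset.sum_congr rfl fun t _ => ?_
    show (if (if (j : ℕ) ≤ t ∧ (t : ℕ) < j' then !ω₀ t else ω₀ t) = true then c t else 0) +
      (if (if (t : ℕ) < (j : ℕ) then !ω₀ t else ω₀ t) = true then c t else 0) =
      (if ω₀ t = true then c t else 0) +
      if (if (t : ℕ) < (j' : ℕ) then !ω₀ t else ω₀ t) = true then c t else 0
    by_cases h1 : (t : ℕ) < j
    · have h2 : ¬ ((j : ℕ) ≤ t ∧ (t : ℕ) < j') := fun h => by omega
      have h3 : (t : ℕ) < j' := by omega
      rw [if_neg h2, if_pos h1, if_pos h3]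
    · by_cases h3 : (t : ℕ) < j'
      · have h2 : (j : ℕ) ≤ t ∧ (t : ℕ) < j' := ⟨by omega, h3⟩
        rw [if_pos h2, if_neg h1, if_pos h3, add_comm]
      · have h2 : ¬ ((j : ℕ) ≤ t ∧ (t : ℕ) < j') := fun h => h3 h.2
        rw [if_neg h2, if_neg h1, if_neg h3]
  have hSω : S ω = S ω₀ := by
    rw [hL'] at hsum
    exact add_right_cancel hsum
  refine ⟨ω, fun hcon => ?_, ?_⟩
  · have h1 := congrFun hcon ⟨j, by omega⟩
    have h2 : ω ⟨j, by omega⟩ = !ω₀ ⟨j, by omega⟩ := if_pos ⟨le_rfl, hjj'⟩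
    rw [h2] at h1
    cases h3 : ω₀ ⟨j, by omega⟩ <;> simp [h3] at h1
  · rw [hE, hS, hSω, ← hS, ← hE]
    exact hω

/-- `A` is the zero set of a function of low degree with values in some abelian group. -/
def Cond (d : ℕ) (A : (Fin n → Bool) → Prop) : Prop :=
  ∃ (Γ : Type) (_ : AddCommGroup Γ) (P : (Fin n → Bool) → Γ), P ∈ lowDeg (Fin n) Bool Γ d ∧
    ∀ x, A x ↔ P x = 0

theorem cond_true : Cond d (fun _ : Fin n → Bool => True) :=
  ⟨ℤ, inferInstance, fun _ => 0, lowDeg_const 0, fun _ => by simp⟩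

theorem Cond.mono {d' : ℕ} (hd : d ≤ d') {A : (Fin n → Bool) → Prop} (h : Cond d A) :
    Cond d' A := by
  obtain ⟨Γ, inst, P, hP, hA⟩ := h
  exact ⟨Γ, inst, P, lowDeg_mono hd hP, hA⟩

theorem prod_low' {ι : Type} [Finite ι] {Γ : ι → Type} [∀ i, AddCommGroup (Γ i)]
    {P : ∀ i, (Fin n → Bool) → Γ i} (hP : ∀ i, P i ∈ lowDeg (Fin n) Bool (Γ i) d) :
    (fun x i => P i x) ∈ lowDeg (Fin n) Bool (∀ i, Γ i) d := by
  classical
  have : Fintype ι := Fintype.ofFinite ι
  have h : (fun x i => P i x) = ∑ i, fun x : Fin n → Bool => (AddMonoidHom.single Γ i) (P i x) := by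
    funext x
    rw [Finset.sum_apply]
    exact (Finset.univ_sum_single (fun i => P i x)).symm
  rw [h]
  exact AddSubgroup.sum_mem _ fun i _ => lowDeg_hom (AddMonoidHom.single Γ i) (hP i)

theorem Cond.all {N : ℕ} {A : Fin N → (Fin n → Bool) → Prop} (h : ∀ i, Cond d (A i)) :
    Cond d (fun x => ∀ i, A i x) := by
  choose Γ inst P hP hA using h
  refine ⟨∀ i, Γ i, inferInstance, fun x i => P i x, prod_low' hP, fun x => ?_⟩
  rw [funext_iff]
  exact forall_congr' fun i => hA i x

theorem Cond.imp {A : (Fin n → Bool) → Prop} (h : Cond d A) (p : Prop) :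
    Cond d (fun x => p → A x) := by
  by_cases hp : p
  · simpa [hp] using h
  · simpa [hp] using cond_true

theorem Cond.val {Γ : Type} [AddCommGroup Γ] {P : (Fin n → Bool) → Γ}
    (hP : P ∈ lowDeg (Fin n) Bool Γ d) (g : Γ) : Cond d (fun x => P x = g) := by
  refine ⟨Γ, inferInstance, fun x => P x - g, ?_, fun x => sub_eq_zero.symm⟩
  exact AddSubgroup.sub_mem _ hP (lowDeg_const g)

theorem Cond.bit (hd : 1 ≤ d) (i : Fin n) : Cond d (fun x => x i = true) := by
  refine ⟨ZMod 2, inferInstance, fun x => if x i = true then 0 else 1, ?_, fun x => ?_⟩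
  · refine junta_mem {i} (by simpa using hd) fun x y hxy => ?_
    rw [hxy i (by simp)]
  · by_cases h : x i = true <;> simp [h]

/-- Equations or thresholds. -/
def MCond (d : ℕ) (A : (Fin n → Bool) → Prop) : Prop :=
  Cond d A ∨ ∃ p : (Fin n → Bool) → ℝ, p ∈ lowDeg (Fin n) Bool ℝ d ∧ ∀ x, A x ↔ 0 < p x

theorem MCond.mono {d' : ℕ} (hd : d ≤ d') {A : (Fin n → Bool) → Prop} (h : MCond d A) :
    MCond d' A := by
  rcases h with h | ⟨p, hp, hA⟩
  · exact Or.inl (h.mono hd)
  · exact Or.inr ⟨p, lowDeg_mono hd hp, hA⟩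

/-- `T` is a function of `K` conditions. -/
def LT (d K : ℕ) (T : (Fin n → Bool) → Bool) : Prop :=
  ∃ l : List ((Fin n → Bool) → Prop), l.length ≤ K ∧ (∀ A ∈ l, MCond d A) ∧
    ∀ x y, (∀ A ∈ l, (A x ↔ A y)) → T x = T y

theorem LT.mono {d' K K' : ℕ} (hd : d ≤ d') (hK : K ≤ K') {T : (Fin n → Bool) → Bool}
    (h : LT d K T) : LT d' K' T := by
  obtain ⟨l, hl, hA, hT⟩ := h
  exact ⟨l, hl.trans hK, fun A h => (hA A h).mono hd, hT⟩

theorem LT.const {K : ℕ} (c : Bool) : LT d K (fun _ : Fin n → Bool => c) :=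
  ⟨[], Nat.zero_le _, by simp, fun _ _ _ => rfl⟩

theorem LT.fn {J : Type*} [Fintype J] {K : ℕ} {T : J → (Fin n → Bool) → Bool}
    (hT : ∀ j, LT d K (T j)) {U : (Fin n → Bool) → Bool}
    (hU : ∀ x y, (∀ j, T j x = T j y) → U x = U y) : LT d (Fintype.card J * K) U := by
  classical
  choose l hl hA hlT using hT
  refine ⟨(univ : Finset J).toList.flatMap l, ?_, fun A h => ?_, fun x y hxy => hU x y fun j =>
    hlT j x y fun A h => hxy A ?_⟩
  · rw [List.length_flatMap]
    refine (List.sum_le_card_nsmul _ K ?_).trans (by simp)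
    intro a ha
    obtain ⟨i, -, rfl⟩ := List.mem_map.1 ha
    exact hl i
  · obtain ⟨i, -, hi⟩ := List.mem_flatMap.1 h
    exact hA i A hi
  · exact List.mem_flatMap.2 ⟨j, by simp, h⟩

open Classical in
theorem LT.cond {A : (Fin n → Bool) → Prop} (h : MCond d A) {T : (Fin n → Bool) → Bool}
    (hT : ∀ x, T x = true ↔ A x) : LT d 1 T := by
  refine ⟨[A], by simp, fun B hB => by rw [List.mem_singleton.1 hB]; exact h, fun x y hxy => ?_⟩
  rw [Bool.eq_iff_iff, hT, hT]
  exact hxy A (by simp)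

theorem EqQ.lt {E : (Fin n → Bool) → Prop} (h : EqQ d E) {T : (Fin n → Bool) → Bool}
    (hT : ∀ x, T x = true ↔ E x) : LT d 1 T := by
  obtain ⟨Γ, inst, P, hP, hE⟩ := h
  refine ⟨[fun x => P x = 0], by simp, fun B hB => ?_, fun x y hxy => ?_⟩
  · rw [List.mem_singleton.1 hB]
    exact Or.inl ⟨Γ, inst, P, hP, fun _ => Iff.rfl⟩
  · rw [Bool.eq_iff_iff, hT, hT, hE, hE]
    exact not_congr (hxy (fun x => P x = 0) (by simp))

theorem LinQ.lt {k : ℕ} {E : (Fin n → Bool) → Prop} (h : LinQ k E) {T : (Fin n → Bool) → Bool}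
    (hT : ∀ x, T x = true ↔ E x) : LT 1 k T := by
  classical
  obtain ⟨G, instG, finG, L, A, hG, hL, hE⟩ := h
  have : Fintype G := Fintype.ofFinite G
  rw [Nat.card_eq_fintype_card] at hG
  have h1 : LT 1 (Fintype.card G * 1) T := by
    refine LT.fn (J := G) (T := fun g x => decide (L x = g)) (fun g => ?_) fun x y hxy => ?_
    · exact LT.cond (Or.inl (Cond.val hL g)) fun x => by simp
    · have h2 : L x = L y := by
        have := hxy (L y)
        simpa using this
      rw [Bool.eq_iff_iff, hT, hT, hE, hE, h2]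
  exact h1.mono le_rfl (by omega)

theorem LT.of {k : ℕ} {T : (Fin n → Bool) → Bool} (h : MixedTest d k n T) : LT d (2 * k) T := by
  obtain ⟨p, Γ, inst, P, F, hp, hP, hT⟩ := h
  refine ⟨(List.ofFn fun i x => 0 < p i x) ++ List.ofFn fun i x => P i x = 0, ?_, fun A hA => ?_,
    fun x y hxy => ?_⟩
  · rw [List.length_append, List.length_ofFn, List.length_ofFn]
    omega
  · rcases List.mem_append.1 hA with h | h
    · obtain ⟨i, rfl⟩ := (List.mem_ofFn' _ _).1 h
      exact Or.inr ⟨p i, hp i, fun _ => Iff.rfl⟩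
    · obtain ⟨i, rfl⟩ := (List.mem_ofFn' _ _).1 h
      exact Or.inl ⟨Γ i, inst i, P i, hP i, fun _ => Iff.rfl⟩
  · have h1 : (fun i => 0 < p i x) = fun i => 0 < p i y := by
      funext i
      exact propext (hxy _ (List.mem_append_left _ ((List.mem_ofFn' _ _).2 ⟨i, rfl⟩)))
    have h2 : (fun i => P i x = 0) = fun i => P i y = 0 := by
      funext i
      exact propext (hxy _ (List.mem_append_right _ ((List.mem_ofFn' _ _).2 ⟨i, rfl⟩)))
    have h3 := hT x
    rw [h1, h2, ← hT y] at h3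
    exact Bool.eq_iff_iff.2 h3

theorem LT.toMixed {K : ℕ} {T : (Fin n → Bool) → Bool} (h : LT d K T) : MixedTest d K n T := by
  classical
  obtain ⟨l, hl, hA, hT⟩ := h
  have h1 : ∀ i : Fin K, ∃ (p : (Fin n → Bool) → ℝ) (Γ : Type) (_ : AddCommGroup Γ)
      (P : (Fin n → Bool) → Γ), p ∈ lowDeg (Fin n) Bool ℝ d ∧ P ∈ lowDeg (Fin n) Bool Γ d ∧
        ∀ (hi : (i : ℕ) < l.length) (x y : Fin n → Bool), (0 < p x ↔ 0 < p y) →
          (P x = 0 ↔ P y = 0) → (l[(i : ℕ)] x ↔ l[(i : ℕ)] y) := by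
    intro i
    by_cases hi : (i : ℕ) < l.length
    · rcases hA _ (List.getElem_mem hi) with ⟨Γ, inst, P, hP, h⟩ | ⟨p, hp, h⟩
      · exact ⟨fun _ => 0, Γ, inst, P, lowDeg_const 0, hP, fun _ x y _ h2 => by
          rw [h x, h y, h2]⟩
      · exact ⟨p, ℤ, inferInstance, fun _ => 0, hp, lowDeg_const 0, fun _ x y h2 _ => by
          rw [h x, h y, h2]⟩
    · exact ⟨fun _ => 0, ℤ, inferInstance, fun _ => 0, lowDeg_const 0, lowDeg_const 0,
        fun h => absurd h hi⟩
  choose p Γ inst P hp hP hc using h1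
  refine ⟨p, Γ, inst, P, fun s t => ∃ y, T y = true ∧ ∀ i, (0 < p i y ↔ s i) ∧ (P i y = 0 ↔ t i),
    hp, hP, fun x => ?_⟩
  constructor
  · intro hx
    exact ⟨x, hx, fun i => ⟨Iff.rfl, Iff.rfl⟩⟩
  · rintro ⟨y, hy, h2⟩
    rw [← hy]
    refine hT x y fun A hA' => ?_
    obtain ⟨j, hj, rfl⟩ := List.getElem_of_mem hA'
    exact hc ⟨j, hj.trans_le hl⟩ hj x y (h2 _).1.symm (h2 _).2.symm

end Pool.Agent.MP_ca1109_lc.Mon
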