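import Pool.Agent.MP_ca1109_lc.Mon.F5

/-!
# Inner approximations of systems of linear conditions
-/

namespace Pool.Agent.MP_ca1109_lc.Mon

open Pool.Agent.MP_ca1109_lc.Mpg Pool.Agent.MP_ca1109_lc.Hyb Pool.Agent.MP_ca1109_lc.Agp Finset

variable {n : ℕ}

theorem pr_fiber {X α : Type*} [Fintype X] [Fintype α] (A : X → Prop) (f : X → α) :
    pr A = ∑ a, pr (fun x => A x ∧ f x = a) := by
  classical
  unfold pr
  rw [← avg_sum]
  congr 1
  funext x
  rw [Finset.sum_eq_single (f x)]
  · by_cases h : A x <;> simp [h]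
  · intro a _ ha
    rw [if_neg fun h => ha h.2.symm]
  · intro h
    exact absurd (Finset.mem_univ _) h

/-- The number of heavy exits is bounded. -/
theorem card_heavy {N : ℕ} {E : Fin N → (Fin n → Bool) → Prop} {η : ℝ} (hη : 0 < η) {m : ℕ}
    (hm : 1 / η ≤ m) (I : Finset (Fin N)) (hI : ∀ i ∈ I, η ≤ pr (Ex E i)) : I.card ≤ m := by
  have h1 : (I.card : ℝ) * η ≤ 1 := by
    calc (I.card : ℝ) * η = ∑ i ∈ I, η := by simp
      _ ≤ ∑ i ∈ I, pr (Ex E i) := Finset.sum_le_sum hI
      _ ≤ ∑ i, pr (Ex E i) :=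
          Finset.sum_le_sum_of_subset_of_nonneg (Finset.subset_univ _) fun _ _ _ => pr_nonneg _
      _ ≤ 1 := sum_pr_ex
  have h2 : (I.card : ℝ) ≤ 1 / η := by rwa [le_div_iff₀ hη]
  exact_mod_cast h2.trans hm

/-- **Inner approximation.**  Every system of conditions `L i x ∉ A i` of any size, `L i` affine
maps to groups with at most `k` elements, contains a set which is described by boundedly many
equations and has almost the same size. -/
theorem inner (k : ℕ) {ε : ℝ} (hε : 0 < ε) : ∃ K, ∀ (n N : ℕ)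
    (E : Fin N → (Fin n → Bool) → Prop), (∀ i, LinQ k (E i)) → ∃ Z : (Fin n → Bool) → Bool,
      LT 1 K Z ∧ (∀ x, Z x = true → ∀ i, ¬ E i x) ∧
        pr (fun x => (∀ i, ¬ E i x) ∧ Z x = false) ≤ ε := by
  classical
  have hc := cc_pos k
  obtain ⟨η, hη, hlight⟩ := light_small k (mul_pos hc hε)
  obtain ⟨m, hm⟩ := exists_nat_ge (1 / η)
  obtain ⟨C, hC⟩ := atoms k ((k + 1) ^ m)
  refine ⟨C + (k + 1) ^ m, fun n N E hE => ?_⟩
  have hΛ := hlight n N E fun i => (hE i).noOne (Nat.le_succ k)
  set I : Finset (Fin N) := univ.filter fun i => η ≤ pr (Ex E i) with hI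
  have hIcard : I.card ≤ m := card_heavy hη hm I fun i hi => by simpa [hI] using hi
  choose G instG finG L A hG hL hEL using hE
  let H : Type := ∀ i : I, G i
  have hHcard : Nat.card H ≤ (k + 1) ^ m := by
    have h1 : Nat.card H = ∏ i : I, Nat.card (G i) := Nat.card_pi
    rw [h1]
    refine (Finset.prod_le_prod' (g := fun _ => k + 1) fun i _ => ?_).trans ?_
    · exact (hG i).trans (Nat.le_succ k)
    · rw [Finset.prod_const, Finset.card_univ, Fintype.card_coe]
      exact Nat.pow_le_pow_right (Nat.succ_pos k) hIcard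
  have finH : Finite H := Pi.finite
  have : Fintype H := Fintype.ofFinite H
  let M : (Fin n → Bool) → H := fun x i => L i x
  have hM : M ∈ lowDeg (Fin n) Bool H 1 := prod_low' (Γ := fun i : I => G i)
    (P := fun i : I => L i) fun i => hL i
  obtain ⟨J, hJ, hatoms⟩ := hC n H hHcard M hM
  let Z : (Fin n → Bool) → Bool := fun x =>
    decide (∀ y : Fin n → Bool, (∀ i ∈ J, y i = x i) → M y = M x → ∀ i, ¬ E i y)
  have hEM : ∀ i ∈ I, ∀ x y, M x = M y → (E i x ↔ E i y) := by
    intro i hi x y hxy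
    have h1 : L i x = L i y := congrFun hxy ⟨i, hi⟩
    rw [hEL, hEL, h1]
  refine ⟨Z, ?_, fun x hx => ?_, ?_⟩
  · have h1 : LT 1 (Fintype.card (J ⊕ H) * 1) Z := by
      refine LT.fn (J := J ⊕ H) (T := fun j x => match j with
        | Sum.inl i => x i
        | Sum.inr h => decide (M x = h)) ?_ fun x y hxy => ?_
      · rintro (i | h)
        · exact LT.cond (Or.inl (Cond.bit le_rfl i.1)) fun x => Iff.rfl
        · exact LT.cond (Or.inl (Cond.val hM h)) fun x => by simp
      · have h2 : ∀ i ∈ J, x i = y i := fun i hi => hxy (Sum.inl ⟨i, hi⟩)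
        have h3 : M x = M y := by
          have := hxy (Sum.inr (M y))
          simpa using this
        refine decide_eq_decide.2 ⟨fun h z hz hMz => h z (fun i hi => ?_) ?_,
          fun h z hz hMz => h z (fun i hi => ?_) ?_⟩
        · rw [hz i hi, h2 i hi]
        · rw [hMz, h3]
        · rw [hz i hi, h2 i hi]
        · rw [hMz, h3]
    refine h1.mono le_rfl ?_
    rw [mul_one, Fintype.card_sum, Fintype.card_coe]
    rw [Nat.card_eq_fintype_card] at hHcard
    omega
  · exact of_decide_eq_true hx x (fun _ _ => rfl) rfl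
  · let at' : (Fin n → Bool) → (J → Bool) × H := fun x => (fun i => x i, M x)
    have hat : ∀ x u : Fin n → Bool, at' x = at' u ↔ ((∀ i ∈ J, x i = u i) ∧ M x = M u) := by
      intro x u
      constructor
      · intro h
        exact ⟨fun i hi => congrFun (congrArg Prod.fst h) ⟨i, hi⟩, congrArg Prod.snd h⟩
      · rintro ⟨h1, h2⟩
        exact Prod.ext (funext fun i => h1 i i.2) h2
    have hfib : ∀ a, pr (fun x => ((∀ i, ¬ E i x) ∧ Z x = false) ∧ at' x = a) ≤
        (cc k)⁻¹ * pr (fun x => (∃ i, Ex E i x ∧ pr (Ex E i) < η) ∧ at' x = a) := by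
      intro a
      by_cases hex : ∃ x, ((∀ i, ¬ E i x) ∧ Z x = false) ∧ at' x = a
      · obtain ⟨u, ⟨hu1, hu2⟩, rfl⟩ := hex
        have hu3 := of_decide_eq_false hu2
        push Not at hu3
        obtain ⟨y, hy1, hy2, i, hi⟩ := hu3
        have h1 := hatoms (G i) (hG i) (L i) (hL i) u (M u) (L i y) ⟨y, ⟨hy1, hy2⟩, rfl⟩
        have h2 : pr (fun x => ((∀ i, ¬ E i x) ∧ Z x = false) ∧ at' x = at' u) ≤
            pr (fun x => (∀ i ∈ J, x i = u i) ∧ M x = M u) :=
          pr_mono fun x hx => (hat x u).1 hx.2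
        have h3 : pr (fun x => ((∀ i ∈ J, x i = u i) ∧ M x = M u) ∧ L i x = L i y) ≤
            pr (fun x => (∃ i, Ex E i x ∧ pr (Ex E i) < η) ∧ at' x = at' u) := by
          refine pr_mono fun x hx => ⟨?_, (hat x u).2 hx.1⟩
          have hxi : E i x := by
            rw [hEL, hx.2, ← hEL]
            exact hi
          obtain ⟨j, -, hj⟩ := Ex.exists' hxi
          refine ⟨j, hj, ?_⟩
          by_contra hcon
          have hjI : j ∈ I := by simp [hI, not_lt.1 hcon]
          exact hu1 j ((hEM j hjI x u hx.1.2).1 hj.1)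
        rw [inv_mul_eq_div, le_div_iff₀ hc]
        calc _ ≤ pr (fun x => (∀ i ∈ J, x i = u i) ∧ M x = M u) * cc k :=
              mul_le_mul_of_nonneg_right h2 hc.le
          _ = cc k * pr (fun x => (∀ i ∈ J, x i = u i) ∧ M x = M u) := mul_comm _ _
          _ ≤ _ := h1.trans h3
      · push Not at hex
        rw [pr_eq_zero fun x hx => hex x hx.1 hx.2]
        exact mul_nonneg (inv_nonneg.2 hc.le) (pr_nonneg _)
    rw [pr_fiber _ at']
    refine (Finset.sum_le_sum fun a _ => hfib a).trans ?_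
    rw [← Finset.mul_sum, ← pr_fiber, inv_mul_le_iff₀ hc]
    exact hΛ

end Pool.Agent.MP_ca1109_lc.Mon
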