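import Pool.Agent.MP_ca1109_lc.Mon.C2

/-!
# Subcubes, densities, forcing
-/

namespace Pool.Agent.MP_ca1109_lc.Mon

open Pool.Agent.MP_ca1109_lc.Mpg Pool.Agent.MP_ca1109_lc.Hyb Finset

variable {n D : ℕ}

/-- A subcube: the coordinates in `J` are fixed. -/
structure Cb (n : ℕ) where
  J : Finset (Fin n)
  z : Fin n → Bool

namespace Cb

/-- `x` is in the cube. -/
def In (C : Cb n) (x : Fin n → Bool) : Prop := ∀ i ∈ C.J, x i = C.z i

/-- The point of the cube with the free coordinates of `x`. -/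
def ov (C : Cb n) (x : Fin n → Bool) : Fin n → Bool := fun i => if i ∈ C.J then C.z i else x i

/-- `C'` is a subcube of `C`, at most `c` more coordinates are fixed. -/
def Le (c : ℕ) (C C' : Cb n) : Prop := C.J ⊆ C'.J ∧ C.In C'.z ∧ C'.J.card ≤ C.J.card + c

theorem in_z (C : Cb n) : C.In C.z := fun _ _ => rfl

theorem in_ov (C : Cb n) (x : Fin n → Bool) : C.In (C.ov x) := fun _ hi => if_pos hi

theorem ov_of_in {C : Cb n} {x : Fin n → Bool} (h : C.In x) : C.ov x = x := by
  funext i
  show (if i ∈ C.J then C.z i else x i) = x i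
  split_ifs with hi
  · exact (h i hi).symm
  · rfl

theorem Le.refl (c : ℕ) (C : Cb n) : C.Le c C := ⟨Subset.rfl, C.in_z, Nat.le_add_right _ _⟩

theorem Le.mem {c : ℕ} {C C' : Cb n} (h : C.Le c C') {x : Fin n → Bool} (hx : C'.In x) : C.In x :=
  fun i hi => (hx i (h.1 hi)).trans (h.2.1 i hi)

theorem Le.trans {a b : ℕ} {C C' C'' : Cb n} (h : C.Le a C') (h' : C'.Le b C'') :
    C.Le (a + b) C'' :=
  ⟨h.1.trans h'.1, h.mem h'.2.1, by have := h.2.2; have := h'.2.2; omega⟩

theorem Le.mono {a b : ℕ} {C C' : Cb n} (h : C.Le a C') (hab : a ≤ b) : C.Le b C' :=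
  ⟨h.1, h.2.1, h.2.2.trans (by omega)⟩

/-- One more coordinate is fixed. -/
def fix (C : Cb n) (i : Fin n) (b : Bool) : Cb n := ⟨insert i C.J, Function.update C.z i b⟩

theorem fix_le {C : Cb n} {i : Fin n} (hi : i ∉ C.J) (b : Bool) : C.Le 1 (C.fix i b) := by
  refine ⟨Finset.subset_insert _ _, fun j hj => ?_, Finset.card_insert_le _ _⟩
  show Function.update C.z i b j = C.z j
  rw [Function.update_of_ne]
  rintro rfl
  exact hi hj

theorem in_fix {C : Cb n} {i : Fin n} (hi : i ∉ C.J) {b : Bool} {x : Fin n → Bool} :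
    (C.fix i b).In x ↔ C.In x ∧ x i = b := by
  constructor
  · intro h
    refine ⟨(fix_le hi b).mem h, ?_⟩
    have h1 := h i (Finset.mem_insert_self _ _)
    rw [h1]
    show Function.update C.z i b i = b
    rw [Function.update_self]
  · rintro ⟨h, hb⟩ j hj
    show x j = Function.update C.z i b j
    rcases Finset.mem_insert.1 hj with rfl | h1
    · rw [hb, Function.update_self]
    · rw [h j h1, Function.update_of_ne fun h2 : j = i => hi (h2 ▸ h1)]

theorem ov_fix {C : Cb n} {i : Fin n} (hi : i ∉ C.J) (b : Bool) (x : Fin n → Bool) :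
    (C.fix i b).ov x = C.ov (Function.update x i b) := by
  funext j
  show (if j ∈ insert i C.J then Function.update C.z i b j else x j) =
    if j ∈ C.J then C.z j else Function.update x i b j
  by_cases hj : j = i
  · subst hj
    rw [if_pos (Finset.mem_insert_self _ _), if_neg hi, Function.update_self, Function.update_self]
  · rw [Function.update_of_ne hj, Function.update_of_ne hj]
    by_cases hJ : j ∈ C.J
    · rw [if_pos (Finset.mem_insert_of_mem hJ), if_pos hJ]
    · rw [if_neg fun h => (Finset.mem_insert.1 h).elim hj hJ, if_neg hJ]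

/-- The density of `Z` in the cube. -/
noncomputable def mu (C : Cb n) (Z : (Fin n → Bool) → Prop) : ℝ := pr fun x => Z (C.ov x)

theorem mu_nonneg (C : Cb n) (Z : (Fin n → Bool) → Prop) : 0 ≤ C.mu Z := pr_nonneg _

theorem mu_le_one (C : Cb n) (Z : (Fin n → Bool) → Prop) : C.mu Z ≤ 1 := pr_le_one _

theorem mu_eq_zero {C : Cb n} {Z : (Fin n → Bool) → Prop} (h : ∀ x, C.In x → ¬ Z x) :
    C.mu Z = 0 := pr_eq_zero fun x => h _ (C.in_ov x)

theorem mu_split {C : Cb n} {i : Fin n} (hi : i ∉ C.J) (Z : (Fin n → Bool) → Prop) (b : Bool) :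
    C.mu Z = ((C.fix i b).mu Z + (C.fix i (!b)).mu Z) / 2 := by
  have h : C.mu Z = ((C.fix i true).mu Z + (C.fix i false).mu Z) / 2 := by
    have e : ∀ b, (fun x => Z ((C.fix i b).ov x)) = fun x => Z (C.ov (Function.update x i b)) :=
      fun b => funext fun x => by rw [ov_fix hi]
    unfold mu
    rw [e true, e false]
    unfold pr
    exact avg_bit i _
  rw [h]
  cases b
  · rw [Bool.not_false]; ring
  · rw [Bool.not_true]

theorem mu_point {C : Cb n} {Z : (Fin n → Bool) → Prop} (h : ∃ x, C.In x ∧ Z x) :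
    (1 / 2 : ℝ) ^ (C.Jᶜ).card ≤ C.mu Z := by
  obtain ⟨x, hx, hZ⟩ := h
  obtain ⟨r, hr⟩ : ∃ r, (C.Jᶜ).card = r := ⟨_, rfl⟩
  rw [hr]
  induction r generalizing C with
  | zero =>
    have h1 : C.J = univ := by
      rwa [Finset.card_eq_zero, Finset.compl_eq_empty_iff] at hr
    have h2 : ∀ y, C.ov y = x := by
      intro y
      funext i
      have hi : i ∈ C.J := by rw [h1]; exact Finset.mem_univ i
      show (if i ∈ C.J then C.z i else y i) = x i
      rw [if_pos hi, hx i hi]
    have h3 : C.mu Z = 1 := by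
      unfold mu pr
      simp only [h2, hZ, if_true]
      exact avg_const 1
    rw [h3, pow_zero]
  | succ r ih =>
    obtain ⟨i, hi⟩ : (C.Jᶜ).Nonempty := by
      rw [← Finset.card_pos, hr]; exact Nat.succ_pos r
    have hi' : i ∉ C.J := Finset.mem_compl.1 hi
    have h1 : ((C.fix i (x i)).Jᶜ).card = r := by
      show ((insert i C.J)ᶜ).card = r
      rw [Finset.compl_insert, Finset.card_erase_of_mem hi, hr]
      rfl
    have h2 := ih ((in_fix hi').2 ⟨hx, rfl⟩) h1
    rw [mu_split hi' Z (x i), pow_succ]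
    have h3 := (C.fix i (!(x i))).mu_nonneg Z
    linarith

/-- A set which has no isolated point in a box of dimension `D` is empty or dense. -/
theorem gap {Z : (Fin n → Bool) → Prop} (hD : 0 < D) (hZ : NoOne D Z) (C : Cb n)
    (h : ∃ x, C.In x ∧ Z x) : (1 / 2 : ℝ) ^ D ≤ C.mu Z := by
  classical
  obtain ⟨r, hr⟩ : ∃ r, (C.Jᶜ).card = r := ⟨_, rfl⟩
  induction r using Nat.strong_induction_on generalizing C with
  | _ r ih =>
    by_cases hu : ∃ x y, (C.In x ∧ Z x) ∧ (C.In y ∧ Z y) ∧ x ≠ y
    · obtain ⟨x, y, hx, hy, hxy⟩ := hu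
      obtain ⟨i, hi⟩ : ∃ i, x i ≠ y i := by
        by_contra hcon
        push Not at hcon
        exact hxy (funext hcon)
      have hi' : i ∉ C.J := fun h => hi ((hx.1 i h).trans (hy.1 i h).symm)
      have hyi : y i = !(x i) := by
        revert hi
        cases x i <;> cases y i <;> simp
      have hcard : ∀ b, ((C.fix i b).Jᶜ).card < r := by
        intro b
        show ((insert i C.J)ᶜ).card < r
        rw [Finset.compl_insert, ← hr]
        exact Finset.card_erase_lt_of_mem (Finset.mem_compl.2 hi')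
      have h1 := ih _ (hcard (x i)) _ ⟨x, (in_fix hi').2 ⟨hx.1, rfl⟩, hx.2⟩ rfl
      have h2 := ih _ (hcard (!(x i))) _ ⟨y, (in_fix hi').2 ⟨hy.1, hyi⟩, hy.2⟩ rfl
      rw [mu_split hi' Z (x i)]
      linarith
    · push Not at hu
      obtain ⟨x, hx, hxZ⟩ := h
      have hrD : r < D := by
        by_contra hcon
        obtain ⟨S, hS, hSc⟩ := Finset.exists_subset_card_eq (s := C.Jᶜ) (n := D) (by omega)
        let e := Finset.equivFinOfCardEq hSc
        let b : Fin n → Fin D := fun i => if h : i ∈ S then e ⟨i, h⟩ else ⟨0, hD⟩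
        let y : Fin n → Bool := fun i => if i ∈ C.J then x i else !(x i)
        have h0 : vx b (fun _ => false) x y = x := rfl
        obtain ⟨ω, hω, h1⟩ := hZ b x y (fun _ => false) (by rw [h0]; exact hxZ)
        obtain ⟨t, ht⟩ : ∃ t, ω t = true := by
          by_contra h2
          push Not at h2
          exact hω (funext fun t => by simpa using h2 t)
        have h3 : C.In (vx b ω x y) := by
          intro i hi
          show (if ω (b i) then (if i ∈ C.J then x i else !(x i)) else x i) = C.z i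
          rw [if_pos hi, ite_self]
          exact hx i hi
        have h4 := hu x (vx b ω x y) ⟨hx, hxZ⟩ ⟨h3, h1⟩
        have h5 := congrFun h4 (e.symm t).1
        have h6 : b (e.symm t).1 = t := by
          show (if h : (e.symm t).1 ∈ S then e ⟨(e.symm t).1, h⟩ else ⟨0, hD⟩) = t
          rw [dif_pos (e.symm t).2]
          exact e.apply_symm_apply t
        have h7 : (e.symm t).1 ∉ C.J := Finset.mem_compl.1 (hS (e.symm t).2)
        have h8 : vx b ω x y (e.symm t).1 = !(x (e.symm t).1) := by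
          show (if ω (b (e.symm t).1) then (if (e.symm t).1 ∈ C.J then x (e.symm t).1
            else !(x (e.symm t).1)) else x (e.symm t).1) = _
          rw [h6, ht, if_neg h7]
          rfl
        rw [h8] at h5
        cases hh : x (e.symm t).1 <;> simp [hh] at h5
      have h1 := mu_point (C := C) ⟨x, hx, hxZ⟩
      rw [hr] at h1
      exact (pow_le_pow_of_le_one (by norm_num) (by norm_num) hrD.le).trans h1

theorem mu_sub {Z : (Fin n → Bool) → Prop} {s : ℝ} : ∀ (r : ℕ) (C C' : Cb n), C.J ⊆ C'.J →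
    C.In C'.z → (C'.J \ C.J).card = r → (∀ C'', C.Le r C'' → C''.mu Z ≤ s) →
      2 ^ r * C.mu Z - (2 ^ r - 1) * s ≤ C'.mu Z := by
  intro r
  induction r with
  | zero =>
    intro C C' h1 h2 h3 _
    have h4 : C'.J = C.J := by
      refine Finset.Subset.antisymm ?_ h1
      rw [Finset.card_eq_zero] at h3
      exact Finset.sdiff_eq_empty_iff_subset.1 h3
    have h5 : ∀ x, C'.ov x = C.ov x := by
      intro x
      funext i
      show (if i ∈ C'.J then C'.z i else x i) = if i ∈ C.J then C.z i else x i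
      rw [h4]
      split_ifs with hi
      · exact h2 i hi
      · rfl
    have h6 : C'.mu Z = C.mu Z := by
      unfold mu
      simp only [h5]
    rw [h6]
    simp
  | succ r ih =>
    intro C C' h1 h2 h3 h4
    obtain ⟨i, hi⟩ : (C'.J \ C.J).Nonempty := by
      rw [← Finset.card_pos, h3]; exact Nat.succ_pos r
    have hi1 : i ∈ C'.J := (Finset.mem_sdiff.1 hi).1
    have hi2 : i ∉ C.J := (Finset.mem_sdiff.1 hi).2
    have h5 : (C'.J \ (C.fix i (C'.z i)).J).card = r := by
      show (C'.J \ insert i C.J).card = r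
      rw [Finset.sdiff_insert, Finset.card_erase_of_mem hi, h3]
      rfl
    have h6 := ih (C.fix i (C'.z i)) C' (Finset.insert_subset hi1 h1)
      ((in_fix hi2).2 ⟨h2, rfl⟩) h5 fun C'' hC'' =>
        h4 C'' (((fix_le hi2 _).trans hC'').mono (by omega))
    have h7 := h4 (C.fix i (!(C'.z i))) ((fix_le hi2 _).mono (by omega))
    have h8 := mu_split hi2 Z (C'.z i)
    have h9 : (0 : ℝ) < 2 ^ r := by positivity
    have h10 : 2 * C.mu Z - s ≤ (C.fix i (C'.z i)).mu Z := by linarith
    have h11 := mul_le_mul_of_nonneg_left h10 h9.le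
    rw [pow_succ]
    nlinarith

/-- **Forcing.**  If `Z` has no isolated points in boxes of dimension `D` and in every subcube
boundedly many coordinates can be fixed such that `P` holds, which decides `Z`, then `Z` can be
forced by fixing boundedly many coordinates. -/
theorem force (D c : ℕ) (hD : 0 < D) : ∃ K, ∀ (n : ℕ) (Z : (Fin n → Bool) → Prop), NoOne D Z →
    ∀ (P : Cb n → Prop) (C : Cb n), (∀ k C₁, C.Le k C₁ → ∃ C₂, C₁.Le c C₂ ∧ P C₂) →
      (∀ k C₁, C.Le k C₁ → P C₁ → (∀ x, C₁.In x → Z x) ∨ ∀ x, C₁.In x → ¬ Z x) →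
      (∃ x, C.In x ∧ Z x) → ∃ C', C.Le K C' ∧ P C' ∧ ∀ x, C'.In x → Z x := by
  have hρ : (1 : ℝ) < 1 + (1 / 2) ^ c := by
    have : (0 : ℝ) < (1 / 2) ^ c := by positivity
    linarith
  obtain ⟨k, hk⟩ := pow_unbounded_of_one_lt ((2 : ℝ) ^ D) hρ
  refine ⟨c * k, fun n Z hZ P C hP hPZ hne => ?_⟩
  have key : ∀ j, (∃ C', C.Le (c * j) C' ∧ P C' ∧ ∀ x, C'.In x → Z x) ∨
      ∃ C', C.Le (c * j) C' ∧ (1 / 2 : ℝ) ^ D * (1 + (1 / 2) ^ c) ^ j ≤ C'.mu Z := by
    intro j
    induction j with
    | zero =>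
      refine Or.inr ⟨C, Le.refl _ C, ?_⟩
      rw [pow_zero, mul_one]
      exact gap hD hZ C hne
    | succ j ih =>
      rcases ih with ⟨C', h1, h2⟩ | ⟨C', h1, h2⟩
      · exact Or.inl ⟨C', h1.mono (Nat.mul_le_mul_left c (Nat.le_succ j)), h2⟩
      · obtain ⟨C₂, h3, h4⟩ := hP _ C' h1
        have h5 : C.Le (c * (j + 1)) C₂ := (h1.trans h3).mono (by rw [Nat.mul_succ])
        rcases hPZ _ C₂ h5 h4 with h6 | h6
        · exact Or.inl ⟨C₂, h5, h4, h6⟩
        · right
          set θ : ℝ := (1 / 2 : ℝ) ^ D * (1 + (1 / 2) ^ c) ^ j with hθ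
          have hθ0 : 0 < θ := by positivity
          by_contra hcon
          push Not at hcon
          have h7 : (C₂.J \ C'.J).card ≤ c := by
            have h8 := Finset.card_sdiff_add_card_eq_card h3.1
            have h9 := h3.2.2
            omega
          have h8 := mu_sub (Z := Z) (s := θ * (1 + (1 / 2) ^ c)) _ C' C₂ h3.1 h3.2.1 rfl
            fun C'' hC'' => by
              have h9 := hcon C'' ((h1.trans hC'').mono (by rw [Nat.mul_succ]; omega))
              rw [pow_succ, ← mul_assoc] at h9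
              exact h9.le
          rw [mu_eq_zero h6] at h8
          generalize (C₂.J \ C'.J).card = r at h7 h8
          have h9 : (0 : ℝ) < 2 ^ r := by positivity
          have h10 : (2 : ℝ) ^ r * (1 / 2) ^ c ≤ 1 := by
            obtain ⟨q, rfl⟩ := Nat.exists_eq_add_of_le h7
            rw [pow_add, ← mul_assoc, ← mul_pow]
            norm_num
            exact pow_le_one₀ (by norm_num) (by norm_num)
          have h11 : (0 : ℝ) < (1 / 2) ^ c := by positivity
          have h12 := mul_le_mul_of_nonneg_left h2 h9.le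
          have h13 : 2 ^ r * θ - (2 ^ r - 1) * (θ * (1 + (1 / 2) ^ c)) =
              θ * (1 - 2 ^ r * (1 / 2) ^ c) + θ * (1 / 2) ^ c := by ring
          have h14 : 0 ≤ θ * (1 - 2 ^ r * (1 / 2) ^ c) :=
            mul_nonneg hθ0.le (by linarith)
          have h15 : 0 < θ * (1 / 2) ^ c := by positivity
          linarith
  rcases key k with h | ⟨C', h1, h2⟩
  · exact h
  · exfalso
    have h3 := C'.mu_le_one Z
    have h4 : (1 : ℝ) < (1 / 2) ^ D * (1 + (1 / 2) ^ c) ^ k := by
      have h5 : (1 / 2 : ℝ) ^ D * 2 ^ D = 1 := by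
        rw [← mul_pow]; norm_num
      calc (1 : ℝ) = (1 / 2) ^ D * 2 ^ D := h5.symm
        _ < _ := mul_lt_mul_of_pos_left hk (by positivity)
    linarith

end Cb

end Pool.Agent.MP_ca1109_lc.Mon
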