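import Pool.Agent.MP_ca1109_lc.Mon.G9
import Pool.Agent.MP_ca1109_lc.Hyb.E3
import Pool.Agent.MP_ca1109_lc.Hyb.E4

/-!
# Decision trees and almost independent bits
-/

namespace Pool.Agent.MP_ca1109_lc.Mon

open Pool.Agent.H66 Pool.Agent.MP_ca1109_lc.Mpg Pool.Agent.MP_ca1109_lc.Hyb
  Pool.Agent.MP_ca1109_lc.Agp Finset

variable {n : ℕ}

/-- Functions computed by decision trees of depth at most `D`. -/
inductive DT {n : ℕ} : ℕ → ((Fin n → Bool) → Bool) → Prop
  | const {D : ℕ} (b : Bool) : DT D (fun _ => b)
  | node {D : ℕ} (i : Fin n) {f g : (Fin n → Bool) → Bool} (hf : DT D f) (hg : DT D g) :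
      DT (D + 1) (fun x => if x i = true then f x else g x)

theorem DT.up {D : ℕ} {f : (Fin n → Bool) → Bool} (h : DT D f) : DT (D + 1) f := by
  induction h with
  | const b => exact DT.const b
  | node i _ _ ihf ihg => exact DT.node i ihf ihg

theorem DT.mono {D D' : ℕ} (hD : D ≤ D') {f : (Fin n → Bool) → Bool} (h : DT D f) : DT D' f := by
  induction hD with
  | refl => exact h
  | step _ ih => exact ih.up

theorem DT.split {D : ℕ} (i : Fin n) (b : Bool) {f g : (Fin n → Bool) → Bool} (hf : DT D f)
    (hg : DT D g) : DT (D + 1) (fun x => if x i = b then f x else g x) := by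
  cases b
  · have e : (fun x : Fin n → Bool => if x i = false then f x else g x) =
        fun x => if x i = true then g x else f x := by
      funext x
      cases x i <;> simp
    rw [e]
    exact DT.node i hg hf
  · exact DT.node i hf hg

/-- `T` is close to decision trees of depth `D` on the cube. -/
def TApx (D : ℕ) (δ : ℝ) (C : Cb n) (T : (Fin n → Bool) → Bool) : Prop :=
  ∃ T' B : (Fin n → Bool) → Bool, DT D T' ∧ DT D B ∧
    (∀ x, C.In x → B x = false → T x = T' x) ∧ C.mu (fun x => B x = true) ≤ δ

theorem TApx.mono {D D' : ℕ} {δ δ' : ℝ} {C : Cb n} {T : (Fin n → Bool) → Bool} (h : TApx D δ C T)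
    (hD : D ≤ D') (hδ : δ ≤ δ') : TApx D' δ' C T := by
  obtain ⟨T', B, h1, h2, h3, h4⟩ := h
  exact ⟨T', B, h1.mono hD, h2.mono hD, h3, h4.trans hδ⟩

theorem TApx.split {D : ℕ} {δ₁ δ₂ : ℝ} {C : Cb n} {T : (Fin n → Bool) → Bool} {i : Fin n}
    (hi : i ∉ C.J) (b : Bool) (h1 : TApx D δ₁ (C.fix i b) T) (h2 : TApx D δ₂ (C.fix i (!b)) T) :
    TApx (D + 1) ((δ₁ + δ₂) / 2) C T := by
  obtain ⟨T₁, B₁, h3, h4, h5, h6⟩ := h1
  obtain ⟨T₂, B₂, h7, h8, h9, h10⟩ := h2
  refine ⟨fun x => if x i = b then T₁ x else T₂ x, fun x => if x i = b then B₁ x else B₂ x,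
    DT.split i b h3 h7, DT.split i b h4 h8, fun x hx hB => ?_, ?_⟩
  · by_cases hxi : x i = b
    · simp only [hxi, if_true] at hB ⊢
      exact h5 x ((Cb.in_fix hi).2 ⟨hx, hxi⟩) hB
    · simp only [hxi, if_false] at hB ⊢
      refine h9 x ((Cb.in_fix hi).2 ⟨hx, ?_⟩) hB
      revert hxi
      cases x i <;> cases b <;> simp
  · rw [Cb.mu_split hi _ b]
    have e1 : (C.fix i b).mu (fun x => (if x i = b then B₁ x else B₂ x) = true) =
        (C.fix i b).mu (fun x => B₁ x = true) := by
      unfold Cb.mu
      congr 1
      funext x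
      have h11 : (C.fix i b).ov x i = b := ((Cb.in_fix hi).1 ((C.fix i b).in_ov x)).2
      simp only [h11, if_true]
    have e2 : (C.fix i (!b)).mu (fun x => (if x i = b then B₁ x else B₂ x) = true) =
        (C.fix i (!b)).mu (fun x => B₂ x = true) := by
      unfold Cb.mu
      congr 1
      funext x
      have h11 : (C.fix i (!b)).ov x i = !b := ((Cb.in_fix hi).1 ((C.fix i (!b)).in_ov x)).2
      have h12 : ¬ ((C.fix i (!b)).ov x i = b) := by
        rw [h11]
        cases b <;> simp
      simp only [h12, if_false]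
    rw [e1, e2]
    linarith

/-- If in every subcube `c` bits can be fixed such that `T` becomes constant then `T` is close to
decision trees of depth `c * k`, with an error which decreases exponentially in `k`. -/
theorem tree_apx_of (c : ℕ) (T : (Fin n → Bool) → Bool)
    (hT : ∀ C : Cb n, ∃ C', C.Le c C' ∧ ∀ x y, C'.In x → C'.In y → T x = T y) :
    ∀ (k : ℕ) (C : Cb n), TApx (c * k) ((1 - (1 / 2) ^ c) ^ k) C T := by
  classical
  have hθ0 : (0 : ℝ) ≤ 1 - (1 / 2) ^ c := by
    have : (1 / 2 : ℝ) ^ c ≤ 1 := pow_le_one₀ (by norm_num) (by norm_num)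
    linarith
  intro k
  induction k with
  | zero =>
    intro C
    refine ⟨fun _ => true, fun _ => true, DT.const true, DT.const true,
      fun x _ h => absurd h (by simp), ?_⟩
    rw [pow_zero]
    exact Cb.mu_le_one _ _
  | succ k ih =>
    intro C
    obtain ⟨C', hC', hc⟩ := hT C
    have key : ∀ r (C : Cb n), C.J ⊆ C'.J → C.In C'.z → (C'.J \ C.J).card = r →
        TApx (c * k + r) ((1 - (1 / 2) ^ r) * (1 - (1 / 2) ^ c) ^ k) C T := by
      intro r
      induction r with
      | zero =>
        intro C h1 h2 h3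
        have h4 : C'.J = C.J := by
          refine Finset.Subset.antisymm ?_ h1
          rw [Finset.card_eq_zero] at h3
          exact Finset.sdiff_eq_empty_iff_subset.1 h3
        have h5 : ∀ x, C.In x → C'.In x := fun x hx i hi => by
          rw [h4] at hi
          rw [hx i hi, h2 i hi]
        refine ⟨fun _ => T C'.z, fun _ => false, DT.const _, DT.const _,
          fun x hx _ => hc x C'.z (h5 x hx) C'.in_z, ?_⟩
        rw [Cb.mu_eq_zero]
        · simp
        · simp
      | succ r ihr =>
        intro C h1 h2 h3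
        obtain ⟨i, hi⟩ : (C'.J \ C.J).Nonempty := by
          rw [← Finset.card_pos, h3]; exact Nat.succ_pos r
        have hi1 : i ∈ C'.J := (Finset.mem_sdiff.1 hi).1
        have hi2 : i ∉ C.J := (Finset.mem_sdiff.1 hi).2
        have h5 : (C'.J \ (C.fix i (C'.z i)).J).card = r := by
          show (C'.J \ insert i C.J).card = r
          rw [Finset.sdiff_insert, Finset.card_erase_of_mem hi, h3]
          rfl
        have h6 := ihr (C.fix i (C'.z i)) (Finset.insert_subset hi1 h1)
          ((Cb.in_fix hi2).2 ⟨h2, rfl⟩) h5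
        refine (h6.split hi2 _ ((ih (C.fix i (!(C'.z i)))).mono (Nat.le_add_right _ _) le_rfl)).mono
          le_rfl (le_of_eq ?_)
        rw [pow_succ (1 / 2 : ℝ) r]; ring
    have hr : (C'.J \ C.J).card ≤ c := by
      have h8 := Finset.card_sdiff_add_card_eq_card hC'.1
      have h9 := hC'.2.2
      omega
    refine (key _ C hC'.1 hC'.2.1 rfl).mono (by rw [Nat.mul_succ]; omega) ?_
    rw [pow_succ, mul_comm]
    refine mul_le_mul_of_nonneg_left ?_ (pow_nonneg hθ0 k)
    have : (1 / 2 : ℝ) ^ c ≤ (1 / 2) ^ (C'.J \ C.J).card :=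
      pow_le_pow_of_le_one (by norm_num) (by norm_num) hr
    linarith

/-! ## Linear functionals -/

open Classical in
/-- The indicator of a subcube. -/
noncomputable def cy (S : Finset (Fin n)) (z : Fin n → Bool) (x : Fin n → Bool) : ℝ :=
  if ∀ i ∈ S, x i = z i then 1 else 0

theorem cy_insert {S : Finset (Fin n)} {i : Fin n} (hi : i ∉ S) (z : Fin n → Bool) (b : Bool)
    (x : Fin n → Bool) : cy (insert i S) (Function.update z i b) x =
      cy S z x * (if x i = b then 1 else 0) := by
  classical
  unfold cy
  have h : (∀ j ∈ insert i S, x j = Function.update z i b j) ↔ (∀ j ∈ S, x j = z j) ∧ x i = b := by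
    constructor
    · intro h
      refine ⟨fun j hj => ?_, ?_⟩
      · rw [h j (Finset.mem_insert_of_mem hj), Function.update_of_ne]
        rintro rfl
        exact hi hj
      · rw [h i (Finset.mem_insert_self _ _), Function.update_self]
    · rintro ⟨h1, h2⟩ j hj
      rcases Finset.mem_insert.1 hj with rfl | hj'
      · rw [h2, Function.update_self]
      · rw [h1 j hj', Function.update_of_ne fun h3 : j = i => hi (by rw [← h3]; exact hj')]
  by_cases h1 : ∀ j ∈ S, x j = z j
  · by_cases h2 : x i = b
    · rw [if_pos (h.2 ⟨h1, h2⟩), if_pos h1, if_pos h2, mul_one]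
    · rw [if_neg fun h3 => h2 (h.1 h3).2, if_neg h2, mul_zero]
  · rw [if_neg fun h3 => h1 (h.1 h3).1, if_neg h1, zero_mul]

/-- Decision trees and functionals which are small on subcubes. -/
theorem DT.bound {Δ : ((Fin n → Bool) → ℝ) →ₗ[ℝ] ℝ} {K : ℕ} {β : ℝ} (hβ : 0 ≤ β)
    (h : ∀ (S : Finset (Fin n)) z, S.card ≤ K → |Δ (cy S z)| ≤ β) {D : ℕ}
    {f : (Fin n → Bool) → Bool} (hf : DT D f) : ∀ (S : Finset (Fin n)) z, S.card + D ≤ K →
      |Δ (fun x => cy S z x * ind (f x))| ≤ 2 ^ D * β := by
  classical
  induction hf with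
  | const b =>
    rename_i D
    intro S z hS
    have h1 : (1 : ℝ) ≤ 2 ^ D := one_le_pow₀ (by norm_num)
    cases b
    · have e : (fun x : Fin n → Bool => cy S z x * ind false) = 0 := by
        funext x
        simp [ind]
      rw [e, map_zero, abs_zero]
      positivity
    · have e : (fun x : Fin n → Bool => cy S z x * ind true) = cy S z := by
        funext x
        simp [ind]
      rw [e]
      refine (h S z (by omega)).trans ?_
      nlinarith
  | node i hf hg ihf ihg =>
    rename_i D f g
    intro S z hS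
    by_cases hi : i ∈ S
    · have h2 : (2 : ℝ) ^ D * β ≤ 2 ^ (D + 1) * β := by
        rw [pow_succ]
        have : (0 : ℝ) ≤ 2 ^ D * β := by positivity
        nlinarith
      by_cases hz : z i = true
      · have e : (fun x : Fin n → Bool => cy S z x * ind (if x i = true then f x else g x)) =
            fun x => cy S z x * ind (f x) := by
          funext x
          unfold cy
          by_cases hx : ∀ j ∈ S, x j = z j
          · rw [hx i hi, hz, if_pos rfl]
          · rw [if_neg hx, zero_mul, zero_mul]
        rw [e]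
        exact (ihf S z (by omega)).trans h2
      · have e : (fun x : Fin n → Bool => cy S z x * ind (if x i = true then f x else g x)) =
            fun x => cy S z x * ind (g x) := by
          funext x
          unfold cy
          by_cases hx : ∀ j ∈ S, x j = z j
          · rw [hx i hi, if_neg hz]
          · rw [if_neg hx, zero_mul, zero_mul]
        rw [e]
        exact (ihg S z (by omega)).trans h2
    · have e : (fun x : Fin n → Bool => cy S z x * ind (if x i = true then f x else g x)) =
          (fun x => cy (insert i S) (Function.update z i true) x * ind (f x)) +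
          fun x => cy (insert i S) (Function.update z i false) x * ind (g x) := by
        funext x
        rw [Pi.add_apply, cy_insert hi, cy_insert hi]
        cases hx : x i <;> simp
      have hc : (insert i S).card = S.card + 1 := Finset.card_insert_of_notMem hi
      have h3 := ihf (insert i S) (Function.update z i true) (by omega)
      have h4 := ihg (insert i S) (Function.update z i false) (by omega)
      rw [e, map_add]
      refine (abs_add_le _ _).trans ?_
      rw [pow_succ]
      linarith

/-- The functional is close to the uniform distribution on all decision trees, so it is close on all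
functions which are close to decision trees. -/
theorem apx_bound {Λ : ((Fin n → Bool) → ℝ) →ₗ[ℝ] ℝ}
    (hΛ : ∀ f g : (Fin n → Bool) → ℝ, (∀ x, f x ≤ g x) → Λ f ≤ Λ g) {D : ℕ} {β δ : ℝ}
    (h : ∀ f : (Fin n → Bool) → Bool, DT D f →
      |Λ (fun x => ind (f x)) - avg (fun x => ind (f x))| ≤ β)
    {T : (Fin n → Bool) → Bool} (hT : TApx D δ ⟨∅, fun _ => false⟩ T) :
    |Λ (fun x => ind (T x)) - avg (fun x => ind (T x))| ≤ 2 * δ + 2 * β := by
  obtain ⟨T', B, h1, h2, h3, h4⟩ := hT
  have h4' : avg (fun x => ind (B x)) ≤ δ := by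
    refine le_trans (le_of_eq ?_) h4
    unfold Cb.mu pr
    congr 1
    funext x
    unfold ind
    by_cases hB : B x = true
    · rw [if_pos hB]
      exact (if_pos hB).symm
    · rw [if_neg hB]
      exact (if_neg hB).symm
  have h5 : ∀ x, |ind (T x) - ind (T' x)| ≤ ind (B x) := by
    intro x
    cases hB : B x
    · rw [h3 x (fun i hi => absurd hi (Finset.notMem_empty i)) hB]; simp [ind]
    · cases T x <;> cases T' x <;> simp [ind]
  have a1 := abs_le.1 (h T' h1)
  have a2 := abs_le.1 (h B h2)
  have e1 : ∀ f g : (Fin n → Bool) → ℝ, Λ (fun x => f x + g x) = Λ f + Λ g := fun f g =>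
    map_add Λ f g
  have b1 : Λ (fun x => ind (T x)) ≤ Λ (fun x => ind (T' x)) + Λ (fun x => ind (B x)) := by
    rw [← e1]
    exact hΛ _ _ fun x => by linarith [(abs_le.1 (h5 x)).2]
  have b2 : Λ (fun x => ind (T' x)) ≤ Λ (fun x => ind (T x)) + Λ (fun x => ind (B x)) := by
    rw [← e1]
    exact hΛ _ _ fun x => by linarith [(abs_le.1 (h5 x)).1]
  have b3 : avg (fun x => ind (T x)) ≤ avg (fun x => ind (T' x)) + avg (fun x => ind (B x)) := by
    rw [← avg_add]
    exact avg_mono fun x => by linarith [(abs_le.1 (h5 x)).2]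
  have b4 : avg (fun x => ind (T' x)) ≤ avg (fun x => ind (T x)) + avg (fun x => ind (B x)) := by
    rw [← avg_add]
    exact avg_mono fun x => by linarith [(abs_le.1 (h5 x)).1]
  rw [abs_le]
  constructor <;> linarith [a1.1, a1.2, a2.1, a2.2]

end Pool.Agent.MP_ca1109_lc.Mon
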