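import Pool.Agent.MP_ca1109_lc.Mon.G10
import Pool.Agent.MP_ca1109_lc.Agp.G3

/-!
# Aperiodic monoids: errors which are polynomially small, and `k`-wise independent bits
-/

namespace Pool.Agent.MP_ca1109_lc.Mon

open Pool.Agent.H66 Pool.Agent.MP_ca1109_lc.Mpg Pool.Agent.MP_ca1109_lc.Hyb
  Pool.Agent.MP_ca1109_lc.Agp Finset

variable {n : ℕ}

/-! ## Small bias -/

theorem sg_mul_self (b : Bool) : sg b * sg b = 1 := by
  cases b <;> simp [sg]

theorem sg_ch (i : Fin n) (T : Finset (Fin n)) : ∃ T', ∀ x, sg (x i) * ch T x = ch T' x := by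
  classical
  by_cases hi : i ∈ T
  · refine ⟨T.erase i, fun x => ?_⟩
    unfold ch
    rw [← Finset.mul_prod_erase T (fun i => sg (x i)) hi, ← mul_assoc, sg_mul_self, one_mul]
  · refine ⟨insert i T, fun x => ?_⟩
    unfold ch
    rw [Finset.prod_insert hi]

theorem cy_bound {Δ : ((Fin n → Bool) → ℝ) →ₗ[ℝ] ℝ} {β : ℝ} (h : ∀ T, |Δ (ch T)| ≤ β)
    (z : Fin n → Bool) (S : Finset (Fin n)) : ∀ T, |Δ (fun x => cy S z x * ch T x)| ≤ β := by
  classical
  induction S using Finset.induction_on with
  | empty =>
    intro T
    have e : (fun x : Fin n → Bool => cy ∅ z x * ch T x) = ch T := by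
      funext x
      unfold cy
      rw [if_pos (fun i hi => absurd hi (Finset.notMem_empty i)), one_mul]
    rw [e]
    exact h T
  | insert i S hi ih =>
    intro T
    obtain ⟨T', hT'⟩ := sg_ch i T
    have e : (fun x : Fin n → Bool => cy (insert i S) z x * ch T x) =
        (1 / 2 : ℝ) • (fun x => cy S z x * ch T x) +
          (sg (z i) / 2) • fun x => cy S z x * ch T' x := by
      funext x
      have h1 := cy_insert hi z (z i) x
      rw [Function.update_eq_self] at h1
      rw [h1, Pi.add_apply, Pi.smul_apply, Pi.smul_apply, smul_eq_mul, smul_eq_mul, ← hT']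
      cases hx : x i <;> cases hz : z i <;> simp [sg] <;> ring
    rw [e, map_add, map_smul, map_smul, smul_eq_mul, smul_eq_mul]
    have h2 : |sg (z i)| = 1 := by
      cases z i <;> simp [sg]
    refine (abs_add_le _ _).trans ?_
    have h5 : |sg (z i) / 2| = 1 / 2 := by
      rw [abs_div, h2, abs_of_pos (by norm_num : (0 : ℝ) < 2)]
    rw [abs_mul, abs_mul, h5, abs_of_pos (by norm_num : (0 : ℝ) < 1 / 2)]
    have h3 := ih T
    have h4 := ih T'
    linarith

/-- The average as a linear map. -/
noncomputable def avgL (n : ℕ) : ((Fin n → Bool) → ℝ) →ₗ[ℝ] ℝ where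
  toFun := avg
  map_add' f g := avg_add f g
  map_smul' c f := avg_mul_left c f

/-- The average over the output of a generator. -/
noncomputable def nrL (M : ℕ) (X : ℕ → Fin n → Bool) : ((Fin n → Bool) → ℝ) →ₗ[ℝ] ℝ where
  toFun f := nr M fun p => f (X p)
  map_add' f g := nr_add M _ _
  map_smul' c f := nr_mul_left M c _

/-- The mean for the weights `μ`. -/
noncomputable def muL (μ : (Fin n → Bool) → ℝ) : ((Fin n → Bool) → ℝ) →ₗ[ℝ] ℝ where
  toFun f := ∑ x, μ x * f x
  map_add' f g := by
    rw [← Finset.sum_add_distrib]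
    exact Finset.sum_congr rfl fun x _ => by rw [Pi.add_apply, mul_add]
  map_smul' c f := by
    show _ = c * _
    rw [Finset.mul_sum]
    exact Finset.sum_congr rfl fun x _ => by
      rw [Pi.smul_apply, smul_eq_mul]; ring

theorem avg_ch {S : Finset (Fin n)} (hS : S ≠ ∅) : avg (ch S) = 0 := by
  have h := ch_orth S ∅
  rw [if_neg hS] at h
  rw [← h]
  congr 1
  funext x
  simp [ch]

/-- Decision trees are fooled by small bias. -/
theorem dt_bias {M : ℕ} (hM : 0 < M) {X : ℕ → Fin n → Bool} {β : ℝ} (hβ : 0 ≤ β)
    (h : ∀ S : Finset (Fin n), S ≠ ∅ → ‖na M (fun p => Agp.sgn S (X p))‖ ≤ β) {D : ℕ}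
    {f : (Fin n → Bool) → Bool} (hf : DT D f) :
    |nrL M X (fun x => ind (f x)) - avg (fun x => ind (f x))| ≤ 2 ^ D * β := by
  have h1 : ∀ T, |(nrL M X - avgL n) (ch T)| ≤ β := by
    intro T
    rw [LinearMap.sub_apply]
    show |nr M (fun p => ch T (X p)) - avg (ch T)| ≤ β
    by_cases hT : T = ∅
    · subst hT
      have e1 : nr M (fun p => ch ∅ (X p)) = 1 := by
        rw [← nr_const hM 1]
        exact nr_congr fun p _ => by simp [ch]
      have e2 : avg (ch (∅ : Finset (Fin n))) = 1 := by
        rw [← avg_const (A := Fin n → Bool) 1]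
        congr 1
      rw [e1, e2, sub_self, abs_zero]
      exact hβ
    · rw [avg_ch hT, sub_zero]
      exact e4_bias X T (h T hT)
  have h2 : ∀ (S : Finset (Fin n)) z, |(nrL M X - avgL n) (cy S z)| ≤ β := by
    intro S z
    have h3 := cy_bound h1 z S ∅
    have e : (fun x : Fin n → Bool => cy S z x * ch ∅ x) = cy S z := by
      funext x
      simp [ch]
    rwa [e] at h3
  have h3 := hf.bound (K := D) hβ (fun S z _ => h2 S z) ∅ (fun _ => false) (by simp)
  have e : (fun x : Fin n → Bool => cy ∅ (fun _ => false) x * ind (f x)) = fun x => ind (f x) := by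
    funext x
    unfold cy
    rw [if_pos (fun i hi => absurd hi (Finset.notMem_empty i)), one_mul]
  rw [e, LinearMap.sub_apply] at h3
  exact h3

/-! ## `k`-wise independence -/

/-- `μ` is a probability distribution on the strings of `n` bits for which any `k` bits are
independent and uniformly distributed. -/
def KWise (k n : ℕ) (μ : (Fin n → Bool) → ℝ) : Prop :=
  (∀ x, 0 ≤ μ x) ∧ ∀ (S : Finset (Fin n)) (z : Fin n → Bool), S.card ≤ k →
    ∑ x, (if ∀ i ∈ S, x i = z i then μ x else 0) = (1 / 2) ^ S.card

theorem muL_cy (μ : (Fin n → Bool) → ℝ) (S : Finset (Fin n)) (z : Fin n → Bool) :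
    muL μ (cy S z) = ∑ x, (if ∀ i ∈ S, x i = z i then μ x else 0) := by
  show ∑ x, μ x * cy S z x = _
  refine Finset.sum_congr rfl fun x _ => ?_
  unfold cy
  by_cases h : ∀ i ∈ S, x i = z i
  · rw [if_pos h, if_pos h, mul_one]
  · rw [if_neg h, if_neg h, mul_zero]

theorem cy_update {S : Finset (Fin n)} {i : Fin n} (hi : i ∉ S) (z x : Fin n → Bool) (b : Bool) :
    cy S z (Function.update x i b) = cy S z x := by
  unfold cy
  congr 1
  refine propext (forall_congr' fun j => forall_congr' fun hj => ?_)
  rw [Function.update_of_ne fun h : j = i => hi (by rw [← h]; exact hj)]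

theorem avg_cy (z : Fin n → Bool) (S : Finset (Fin n)) : avg (cy S z) = (1 / 2) ^ S.card := by
  classical
  induction S using Finset.induction_on with
  | empty =>
    rw [Finset.card_empty, pow_zero, ← avg_const (A := Fin n → Bool) 1]
    congr 1
    funext x
    unfold cy
    rw [if_pos (fun i hi => absurd hi (Finset.notMem_empty i))]
  | insert i S hi ih =>
    rw [avg_bit i, Finset.card_insert_of_notMem hi, pow_succ, ← ih]
    have h1 : ∀ b, (fun x : Fin n → Bool => cy (insert i S) z (Function.update x i b)) =
        fun x => (if b = z i then 1 else 0) * cy S z x := by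
      intro b
      funext x
      have h2 := cy_insert hi z (z i) (Function.update x i b)
      rw [Function.update_eq_self, cy_update hi, Function.update_self] at h2
      rw [h2, mul_comm]
    rw [h1, h1, avg_mul_left, avg_mul_left]
    cases z i <;> simp <;> ring

/-- Decision trees of depth `k` are fooled by `k`-wise independent bits. -/
theorem dt_kwise {k : ℕ} {μ : (Fin n → Bool) → ℝ} (hμ : KWise k n μ) {D : ℕ} (hD : D ≤ k)
    {f : (Fin n → Bool) → Bool} (hf : DT D f) :
    |muL μ (fun x => ind (f x)) - avg (fun x => ind (f x))| ≤ 0 := by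
  have h2 : ∀ (S : Finset (Fin n)) z, S.card ≤ k → |(muL μ - avgL n) (cy S z)| ≤ 0 := by
    intro S z hS
    rw [LinearMap.sub_apply, muL_cy, hμ.2 S z hS]
    show |_ - avg (cy S z)| ≤ 0
    rw [avg_cy, sub_self, abs_zero]
  have h3 := hf.bound (K := k) le_rfl h2 ∅ (fun _ => false) (by simpa using hD)
  have e : (fun x : Fin n → Bool => cy ∅ (fun _ => false) x * ind (f x)) = fun x => ind (f x) := by
    funext x
    unfold cy
    rw [if_pos (fun i hi => absurd hi (Finset.notMem_empty i)), one_mul]
  rw [e, LinearMap.sub_apply, mul_zero] at h3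
  exact h3

theorem ch_cases (S : Finset (Fin n)) (x : Fin n → Bool) : ch S x = 1 ∨ ch S x = -1 := by
  classical
  induction S using Finset.induction_on with
  | empty => exact Or.inl (by simp [ch])
  | insert i S hi ih =>
    have h : ch (insert i S) x = sg (x i) * ch S x := by
      unfold ch
      rw [Finset.prod_insert hi]
    rw [h]
    rcases ih with h1 | h1 <;> rw [h1] <;> cases x i <;> simp [sg]

/-- The strings with an even number of zeros. -/
theorem kwise_parity (n : ℕ) : KWise n (n + 1) fun x => (1 / 2) ^ (n + 1) * (1 + ch univ x) := by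
  classical
  refine ⟨fun x => ?_, fun S z hS => ?_⟩
  · show 0 ≤ (1 / 2 : ℝ) ^ (n + 1) * (1 + ch univ x)
    rcases ch_cases univ x with h | h <;> rw [h] <;> norm_num
  · obtain ⟨i, hi⟩ : ∃ i, i ∉ S := by
      by_contra hcon
      push Not at hcon
      have h1 : S = univ := Finset.eq_univ_iff_forall.2 hcon
      rw [h1, Finset.card_univ, Fintype.card_fin] at hS
      omega
    refine (muL_cy (fun x => (1 / 2 : ℝ) ^ (n + 1) * (1 + ch univ x)) S z).symm.trans ?_
    have h2 : muL (fun x => (1 / 2 : ℝ) ^ (n + 1) * (1 + ch univ x)) (cy S z) =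
        avg (cy S z) + avg (fun x => cy S z x * ch univ x) := by
      rw [← avg_add]
      show ∑ x, (1 / 2 : ℝ) ^ (n + 1) * (1 + ch univ x) * cy S z x = _
      unfold avg
      rw [Fintype.card_fun, Fintype.card_bool, Fintype.card_fin, Finset.sum_div]
      refine Finset.sum_congr rfl fun x _ => ?_
      push_cast
      rw [one_div, inv_pow, div_eq_mul_inv]
      ring
    rw [h2, avg_cy]
    have h3 : avg (fun x => cy S z x * ch univ x) = 0 := by
      rw [avg_bit i, ← avg_add]
      have h4 : ∀ x : Fin (n + 1) → Bool,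
          cy S z (Function.update x i true) * ch univ (Function.update x i true) +
          cy S z (Function.update x i false) * ch univ (Function.update x i false) = 0 := by
        intro x
        rw [cy_update hi, cy_update hi]
        have h5 : ∀ b, ch univ (Function.update x i b) = sg b * ch (univ.erase i) x := by
          intro b
          unfold ch
          rw [← Finset.mul_prod_erase univ _ (Finset.mem_univ i), Function.update_self]
          congr 1
          refine Finset.prod_congr rfl fun j hj => ?_
          rw [Function.update_of_ne (Finset.ne_of_mem_erase hj)]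
        rw [h5, h5]
        simp [sg]
      simp only [h4]
      rw [avg_const, zero_div]
    rw [h3, add_zero]

end Pool.Agent.MP_ca1109_lc.Mon
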