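import Pool.Agent.MP_ca1109_lc.Mon.G11

/-!
# Aperiodic monoids: equivalent conditions
-/

namespace Pool.Agent.MP_ca1109_lc.Mon

open Pool.Agent.H66 Pool.Agent.MP_ca1109_lc.Mpg Pool.Agent.MP_ca1109_lc.Hyb
  Pool.Agent.MP_ca1109_lc.Agp Finset

/-- There is a generator with logarithmic seeds, computable in polynomial time, which fools all
tests in `𝒯 n` with error at most `ε n` for all large `n`. -/
def LogGenFn (𝒯 : ∀ n : ℕ, ((Fin n → Bool) → Bool) → Prop) (ε : ℕ → ℝ) : Prop :=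
  ∃ (D : ℕ → ℕ) (G : ℕ → List Bool → List Bool),
    PolyTime D ∧ PolyTime (fun p : ℕ × List Bool => G p.1 p.2) ∧
    (∀ n s, s.length = D n → (G n s).length = n) ∧
    ∃ c : ℝ, ∀ᶠ n : ℕ in Filter.atTop, (D n : ℝ) ≤ c * Real.logb 2 n ∧ D n < n ∧
      ∀ T, 𝒯 n T →
        |prob (fun s : Fin (D n) → Bool => T (bits n (G n (List.ofFn s)))) - prob T| ≤ ε n

theorem LogGenFn.const {𝒯 : ∀ n : ℕ, ((Fin n → Bool) → Bool) → Prop} {ε : ℕ → ℝ}
    (h : LogGenFn 𝒯 ε) {δ : ℝ} (hδ : ∀ᶠ n in Filter.atTop, ε n ≤ δ) : LogGen 𝒯 δ := by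
  obtain ⟨D, G, hD, hG, hl, c, hc⟩ := h
  refine ⟨D, G, hD, hG, hl, c, ?_⟩
  filter_upwards [hc, hδ] with n hn hn'
  exact ⟨hn.1, hn.2.1, fun T hT => (hn.2.2 T hT).trans hn'⟩

theorem logGenFn_of {E : ℕ → ℕ} {G : ℕ → ℕ → ℕ → Bool} (h : NG E G)
    {𝒯 : ∀ n : ℕ, ((Fin n → Bool) → Bool) → Prop} {ε : ℕ → ℝ}
    (H : ∀ n, 1 ≤ n → ∀ T, 𝒯 n T →
      |nr (2 ^ E n) (fun p => ind (T (out G n p))) - prob T| ≤ ε n) :
    LogGenFn 𝒯 ε := by
  obtain ⟨c, hc⟩ := growth h.bound
  refine ⟨E, fun n s => (List.range n).map fun i => G n (cval (2 ^ E n) s) i, h.poly_E, ?_,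
    fun n s _ => ?_, c, ?_⟩
  · refine PolyTime.map (l := fun p : ℕ × List Bool => List.range p.1)
      (f := fun p i => G p.1 (cval (2 ^ E p.1) p.2) i) (PolyTime.range PolyTime.fst) ?_
    have hc : PolyTime fun p : ℕ × List Bool => cval (2 ^ E p.1) p.2 :=
      polyTime_cval (h.poly_M.comp PolyTime.fst) PolyTime.snd
    exact polyTime_out h (PolyTime.fst.comp PolyTime.fst) (hc.comp PolyTime.fst) PolyTime.snd
  · rw [List.length_map, List.length_range]
  · filter_upwards [hc, Filter.eventually_ge_atTop 1] with n hn hn1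
    refine ⟨hn.1, hn.2, fun T hT => ?_⟩
    have key : prob (fun s : Fin (E n) → Bool =>
        T (bits n ((List.range n).map fun i => G n (cval (2 ^ E n) (List.ofFn s)) i))) =
        nr (2 ^ E n) (fun p => ind (T (out G n p))) := by
      rw [prob_eq_avg]
      unfold avg nr
      rw [Fintype.card_fun, Fintype.card_bool, Fintype.card_fin, ← g3_sum_seeds]
      congr 1
      refine Finset.sum_congr rfl fun s _ => ?_
      suffices hb : bits n ((List.range n).map fun i => G n (cval (2 ^ E n) (List.ofFn s)) i) =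
          out G n (bval (List.ofFn s)) by
        beta_reduce
        rw [hb]
      funext i
      have hs : (List.ofFn s).length = E n := List.length_ofFn
      have hcv : cval (2 ^ E n) (List.ofFn s) = bval (List.ofFn s) := by
        refine cval_eq _ _ ?_
        rw [hs]
        omega
      unfold bits out
      rw [hcv, List.getD_eq_getElem?_getD, List.getElem?_map, List.getElem?_range i.2]
      rfl
    rw [key]
    exact H n hn1 T hT

/-- The class of all functions which become constant in every subcube if at most `c` more bits are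
fixed. -/
def HC (c n : ℕ) (T : (Fin n → Bool) → Bool) : Prop :=
  ∀ C : Cb n, ∃ C', C.Le c C' ∧ ∀ x y, C'.In x → C'.In y → T x = T y

theorem hc_kwise (c : ℕ) : ∃ K : ℕ, ∀ (t n : ℕ) (T : (Fin n → Bool) → Bool), HC c n T →
    ∀ μ, KWise (K * (t + 1)) n μ →
      |∑ x, (if T x = true then μ x else 0) - prob T| ≤ (1 / 2) ^ t := by
  have h1 : (1 - (1 / 2 : ℝ) ^ c) < 1 := by
    have : (0 : ℝ) < (1 / 2) ^ c := by positivity
    linarith
  have h0 : (0 : ℝ) ≤ 1 - (1 / 2) ^ c := by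
    have : (1 / 2 : ℝ) ^ c ≤ 1 := pow_le_one₀ (by norm_num) (by norm_num)
    linarith
  obtain ⟨v, hv⟩ := exists_pow_lt_of_lt_one (show (0 : ℝ) < 1 / 2 by norm_num) h1
  refine ⟨c * v, fun t n T hT μ hμ => ?_⟩
  have h2 := tree_apx_of c T hT (v * (t + 1)) ⟨∅, fun _ => false⟩
  have h3 := apx_bound (Λ := muL μ) (fun f g hfg => Finset.sum_le_sum fun x _ =>
    mul_le_mul_of_nonneg_left (hfg x) (hμ.1 x)) (D := c * (v * (t + 1))) (β := 0)
    (fun f hf => dt_kwise hμ (by rw [mul_assoc]) hf) h2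
  have e1 : muL μ (fun x => ind (T x)) = ∑ x, (if T x = true then μ x else 0) := by
    show ∑ x, μ x * ind (T x) = _
    refine Finset.sum_congr rfl fun x _ => ?_
    unfold ind
    cases T x <;> simp
  rw [e1, ← prob_eq_avg] at h3
  refine h3.trans ?_
  have h4 : (1 - (1 / 2 : ℝ) ^ c) ^ (v * (t + 1)) ≤ (1 / 2) ^ (t + 1) := by
    rw [pow_mul]
    exact pow_le_pow_left₀ (pow_nonneg h0 v) hv.le _
  rw [pow_succ] at h4
  linarith

theorem hc_gen (c a : ℕ) : LogGenFn (HC c) fun n => 1 / (n : ℝ) ^ a := by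
  have h1 : (1 - (1 / 2 : ℝ) ^ c) < 1 := by
    have : (0 : ℝ) < (1 / 2) ^ c := by positivity
    linarith
  have h0 : (0 : ℝ) ≤ 1 - (1 / 2) ^ c := by
    have : (1 / 2 : ℝ) ^ c ≤ 1 := pow_le_one₀ (by norm_num) (by norm_num)
    linarith
  obtain ⟨v, hv⟩ := exists_pow_lt_of_lt_one (show (0 : ℝ) < 1 / 2 by norm_num) h1
  obtain ⟨E, G, hG, H⟩ := small_bias_poly (c * v * a + a)
    (γ := (1 / 2) ^ (c * v * 3 + c * v * a + 3)) (by positivity)
  refine logGenFn_of hG fun n hn T hT => ?_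
  set L := Nat.clog 2 n with hL
  have hn1 : (1 : ℝ) ≤ n := by exact_mod_cast hn
  have hL1 : (n : ℝ) ≤ 2 ^ L := by exact_mod_cast Nat.le_pow_clog one_lt_two n
  have hL2 : (2 : ℝ) ^ L ≤ 2 * n := by
    rcases Nat.lt_or_ge 1 n with h | h
    · have h2 := Nat.pow_pred_clog_lt_self one_lt_two h
      have h3 : 0 < L := Nat.clog_pos one_lt_two (by omega)
      obtain ⟨L', hL'⟩ : ∃ L', L = L' + 1 := ⟨L - 1, by omega⟩
      rw [← hL, hL', Nat.pred_succ] at h2
      rw [hL', pow_succ]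
      have h4 : (2 : ℝ) ^ L' < n := by exact_mod_cast h2
      linarith
    · have h2 : n = 1 := by omega
      have h3 : L = 0 := by rw [hL, h2]; exact Nat.clog_one_right 2
      rw [h3, h2]
      norm_num
  have h2 := tree_apx_of c T hT (v * (a * L + 3)) ⟨∅, fun _ => false⟩
  set β : ℝ := (1 / 2) ^ (c * v * 3 + c * v * a + 3) / ((n : ℝ) + 1) ^ (c * v * a + a) with hβ
  have hβ0 : 0 ≤ β := by positivity
  have h3 := apx_bound (Λ := nrL (2 ^ E n) (out G n)) (fun f g hfg => nr_mono fun p _ => hfg _)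
    (D := c * (v * (a * L + 3))) (β := 2 ^ (c * (v * (a * L + 3))) * β)
    (fun f hf => dt_bias (by positivity) hβ0 (fun S hS => H n S hS) hf) h2
  have e1 : nrL (2 ^ E n) (out G n) (fun x => ind (T x)) =
      nr (2 ^ E n) (fun p => ind (T (out G n p))) := rfl
  rw [e1, ← prob_eq_avg] at h3
  refine h3.trans ?_
  have hna : (0 : ℝ) < (n : ℝ) ^ a := by positivity
  -- the first error
  have h4 : (1 - (1 / 2 : ℝ) ^ c) ^ (v * (a * L + 3)) ≤ 1 / 8 * (1 / (n : ℝ) ^ a) := by
    have h5 : (1 - (1 / 2 : ℝ) ^ c) ^ (v * (a * L + 3)) ≤ (1 / 2) ^ (a * L + 3) := by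
      rw [pow_mul]
      exact pow_le_pow_left₀ (pow_nonneg h0 v) hv.le _
    have h6 : (1 / 2 : ℝ) ^ (a * L + 3) = 1 / 8 * (1 / (2 ^ L) ^ a) := by
      rw [pow_add, mul_comm a L, pow_mul, one_div_pow, one_div_pow]
      norm_num
      ring
    rw [h6] at h5
    refine h5.trans (mul_le_mul_of_nonneg_left ?_ (by norm_num))
    exact one_div_le_one_div_of_le hna (pow_le_pow_left₀ (by positivity) hL1 a)
  -- the second error
  have h5 : 2 ^ (c * (v * (a * L + 3))) * β ≤ 1 / 8 * (1 / (n : ℝ) ^ a) := by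
    have h6 : (2 : ℝ) ^ (c * (v * (a * L + 3))) = 2 ^ (c * v * 3) * (2 ^ L) ^ (c * v * a) := by
      rw [← pow_mul, ← pow_add]
      congr 1
      ring
    have h7 : ((2 : ℝ) ^ L) ^ (c * v * a) ≤ 2 ^ (c * v * a) * (n : ℝ) ^ (c * v * a) := by
      rw [← mul_pow]
      exact pow_le_pow_left₀ (by positivity) hL2 _
    have h8 : (n : ℝ) ^ (c * v * a + a) ≤ ((n : ℝ) + 1) ^ (c * v * a + a) :=
      pow_le_pow_left₀ (by positivity) (by linarith) _
    rw [h6, hβ, mul_div_assoc', div_le_iff₀ (by positivity)]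
    calc 2 ^ (c * v * 3) * (2 ^ L) ^ (c * v * a) * (1 / 2) ^ (c * v * 3 + c * v * a + 3)
        ≤ 2 ^ (c * v * 3) * (2 ^ (c * v * a) * (n : ℝ) ^ (c * v * a)) *
          (1 / 2) ^ (c * v * 3 + c * v * a + 3) := by gcongr
      _ = 1 / 8 * (n : ℝ) ^ (c * v * a) := by
          have h9 : (2 : ℝ) ^ (c * v * 3) * 2 ^ (c * v * a) *
              (1 / 2) ^ (c * v * 3 + c * v * a + 3) = 1 / 8 := by
            rw [pow_add (1 / 2 : ℝ), pow_add (1 / 2 : ℝ), one_div_pow, one_div_pow]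
            have h10 : (2 : ℝ) ^ (c * v * 3) ≠ 0 := by positivity
            have h11 : (2 : ℝ) ^ (c * v * a) ≠ 0 := by positivity
            field_simp
            norm_num
          rw [← h9]
          ring
      _ = 1 / 8 * (1 / (n : ℝ) ^ a) * (n : ℝ) ^ (c * v * a + a) := by
          rw [pow_add]
          field_simp
      _ ≤ _ := by gcongr
  have h6 : (0 : ℝ) ≤ 1 / (n : ℝ) ^ a := by positivity
  linarith

/-- **Aperiodic monoids.** -/
theorem aper_tfae {M : Type} [Monoid M] [Finite M] (ha : Aper M) :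
    [∃ n T, ¬ MonTest M n T,
     ∃ c : ℕ, ∀ n T, MonTest M n T → ∃ (S : Finset (Fin n)) (z : Fin n → Bool), S.card ≤ c ∧
        ∀ x y, (∀ i ∈ S, x i = z i) → (∀ i ∈ S, y i = z i) → T x = T y,
     ∃ K : ℕ, ∀ t n T, MonTest M n T → ∀ μ, KWise (K * (t + 1)) n μ →
        |∑ x, (if T x = true then μ x else 0) - prob T| ≤ (1 / 2) ^ t,
     ∀ a : ℕ, LogGenFn (MonTest M) fun n => 1 / (n : ℝ) ^ a].TFAE := by
  have hHC : (∃ n T, ¬ MonTest M n T) → ∃ c, ∀ n T, MonTest M n T → HC c n T := by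
    intro h
    obtain ⟨c, hc⟩ := const_cube h ha
    refine ⟨c, fun n T hT C => ?_⟩
    obtain ⟨l, A, hA⟩ := hT
    obtain ⟨C', h1, h2⟩ := hc n l C
    exact ⟨C', h1, fun x y hx hy => by rw [hA, hA, h2 x y hx hy]⟩
  tfae_have 1 ↔ 2 := aper_iff ha
  tfae_have 1 → 3 := by
    intro h
    obtain ⟨c, hc⟩ := hHC h
    obtain ⟨K, hK⟩ := hc_kwise c
    exact ⟨K, fun t n T hT μ hμ => hK t n T (hc n T hT) μ hμ⟩
  tfae_have 1 → 4 := by
    intro h a
    obtain ⟨c, hc⟩ := hHC h
    obtain ⟨D, G, hD, hG, hl, c', hc'⟩ := hc_gen c a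
    refine ⟨D, G, hD, hG, hl, c', ?_⟩
    filter_upwards [hc'] with n hn
    exact ⟨hn.1, hn.2.1, fun T hT => hn.2.2 T (hc n T hT)⟩
  tfae_have 4 → 1 := by
    intro h
    by_contra hcon
    push Not at hcon
    refine not_logGen hcon (show (1 / 2 : ℝ) < 1 by norm_num) ((h 1).const ?_)
    filter_upwards [Filter.eventually_ge_atTop 2] with n hn
    have : (2 : ℝ) ≤ n := by exact_mod_cast hn
    rw [pow_one]
    exact one_div_le_one_div_of_le (by norm_num) this
  tfae_have 3 → 1 := by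
    classical
    rintro ⟨K, hK⟩
    by_contra hcon
    push Not at hcon
    have h1 := hK 2 (K * 3 + 1) (fun x => decide (ch univ x = 1)) (hcon _ _)
      (fun x => (1 / 2) ^ (K * 3 + 1) * (1 + ch univ x)) (kwise_parity (K * 3))
    have h2 : prob (fun x : Fin (K * 3 + 1) → Bool => decide (ch univ x = 1)) = 1 / 2 := by
      rw [prob_eq_avg]
      have e : (fun x : Fin (K * 3 + 1) → Bool => ind (decide (ch univ x = 1))) =
          fun x => (1 / 2 : ℝ) * (1 + ch univ x) := by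
        funext x
        rcases ch_cases univ x with h | h <;> rw [h] <;> norm_num [ind]
      rw [e, avg_mul_left, avg_add, avg_const, avg_ch (Finset.univ_nonempty.ne_empty)]
      norm_num
    have h3 : ∑ x : Fin (K * 3 + 1) → Bool, (if decide (ch univ x = 1) = true then
        (1 / 2 : ℝ) ^ (K * 3 + 1) * (1 + ch univ x) else 0) = 1 := by
      have e : ∀ x : Fin (K * 3 + 1) → Bool, (if decide (ch univ x = 1) = true then
          (1 / 2 : ℝ) ^ (K * 3 + 1) * (1 + ch univ x) else 0) =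
          (1 / 2 : ℝ) ^ (K * 3 + 1) * (2 * ind (decide (ch univ x = 1))) := by
        intro x
        rcases ch_cases univ x with h | h <;> rw [h] <;> norm_num [ind]
      rw [Finset.sum_congr rfl fun x _ => e x, ← Finset.mul_sum, ← Finset.mul_sum]
      rw [prob_eq_avg] at h2
      unfold avg at h2
      rw [Fintype.card_fun, Fintype.card_bool, Fintype.card_fin,
        div_eq_iff (by positivity)] at h2
      rw [h2]
      push_cast
      rw [one_div_pow]
      field_simp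
    have h4 := abs_le.1 h1
    rw [h2] at h4
    have h5 := h4.2
    rw [h3] at h5
    norm_num at h5
  tfae_finish

end Pool.Agent.MP_ca1109_lc.Mon
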