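import Pool.Agent.MP_ca1109_lc.Mon.G12

/-!
# The dichotomy for block-aperiodic monoids
-/

namespace Pool.Agent.MP_ca1109_lc.Mon

open Pool.Agent.MP_ca1109_lc Pool.Agent.MP_ca1109_lc.Mpg

theorem final_dichotomy (M : Type) [Monoid M] [Finite M] (hM : Aper M ∨ BlockAp M ∨ NoBrandt M) :
    ((∃ n T, ¬ MonTest M n T) → ∀ ε > 0, LogGen (MonTest M) ε ∧
      GenExists (fun n C => MonTest M n C.eval) ε) ∧
    ((∀ n T, MonTest M n T) → (∀ ε < 1, ¬ LogGen (MonTest M) ε) ∧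
      ∀ ε δ : ℝ, 0 < ε → ε < 1 → 0 < δ → δ < 1 →
        (GenExists (fun n C => MonTest M n C.eval) ε ↔ GenExists (fun _ _ => True) δ)) ∧
    (NoBrandt M → ((∀ n T, MonTest M n T) ↔ ¬ (DO M ∧ NilSub M))) ∧
    (Aper M →
      [∃ n T, ¬ MonTest M n T,
       ∀ a : ℕ, LogGenFn (MonTest M) fun n => 1 / (n : ℝ) ^ a,
       ∃ K : ℕ, ∀ t n T, MonTest M n T → ∀ μ, KWise (K * (t + 1)) n μ →
          |∑ x, (if T x = true then μ x else 0) - prob T| ≤ (1 / 2) ^ t,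
       ∃ c : ℕ, ∀ n T, MonTest M n T → ∃ (S : Finset (Fin n)) (z : Fin n → Bool), S.card ≤ c ∧
          ∀ x y, (∀ i ∈ S, x i = z i) → (∀ i ∈ S, y i = z i) → T x = T y].TFAE) := by
  have h : BlockAp M ∨ NoBrandt M := by
    rcases hM with h | h | h
    · exact Or.inl h.blockAp
    · exact Or.inl h
    · exact Or.inr h
  have h1 := block_dichotomy M h
  refine ⟨h1.1, h1.2.1, h1.2.2, fun ha => ?_⟩
  have h2 := aper_tfae ha
  tfae_have 1 ↔ 2 := h2.out 0 3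
  tfae_have 1 ↔ 3 := h2.out 0 2
  tfae_have 1 ↔ 4 := h2.out 0 1
  tfae_finish

end Pool.Agent.MP_ca1109_lc.Mon
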