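import Pool.Agent.MP_ca1109_lc.Mon.G1
import Mathlib.Combinatorics.HalesJewett

/-!
# Monoids whose programs do not compute all functions
-/

namespace Pool.Agent.MP_ca1109_lc.Mon

open Pool.Agent.MP_ca1109_lc.Mpg Pool.Agent.MP_ca1109_lc.Hyb Finset

/-! ## The finite unions theorem -/

/-- `b t = none`: the coordinate `t` is fixed to `true`. -/
def exx {D k : ℕ} (b : Fin D → Option (Fin k)) (ω : Fin k → Bool) : Fin D → Bool :=
  fun t => (b t).elim true ω

theorem folk1 (κ : Type*) [Finite κ] : ∀ k : ℕ, ∃ D : ℕ, ∀ χ : (Fin D → Bool) → κ,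
    ∃ b : Fin D → Option (Fin k), (∀ s, ∃ t, b t = some s) ∧ ∃ c : Fin k → κ,
      ∀ (ω : Fin k → Bool) (s : Fin k), ω s = false → (∀ s' > s, ω s' = true) →
        χ (exx b ω) = c s := by
  intro k
  induction k with
  | zero => exact ⟨0, fun χ => ⟨fun t => t.elim0, fun s => s.elim0, fun s => s.elim0,
      fun ω s => s.elim0⟩⟩
  | succ k ih =>
    obtain ⟨D, hD⟩ := ih
    obtain ⟨N, hN⟩ := Combinatorics.Subspace.exists_mono_in_high_dimension_fin Bool κ
      (Option (Fin D))
    refine ⟨N, fun χ => ?_⟩
    obtain ⟨l, c₀, hl⟩ := hN χ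
    let g : (Fin D → Bool) → Fin N → Bool := fun v i => match l.idxFun i with
      | Sum.inl _ => true
      | Sum.inr none => true
      | Sum.inr (some j) => v j
    obtain ⟨b', hb', c', hc'⟩ := hD fun v => χ (g v)
    let b : Fin N → Option (Fin (k + 1)) := fun i => match l.idxFun i with
      | Sum.inl true => none
      | Sum.inl false => some (Fin.last k)
      | Sum.inr none => some (Fin.last k)
      | Sum.inr (some j) => (b' j).map Fin.castSucc
    refine ⟨b, fun s => ?_, fun s => Fin.lastCases c₀ c' s, fun ω s hs hs' => ?_⟩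
    · refine Fin.lastCases ?_ (fun s => ?_) s
      · obtain ⟨i, hi⟩ := l.proper none
        exact ⟨i, by simp only [b, hi]⟩
      · obtain ⟨j, hj⟩ := hb' s
        obtain ⟨i, hi⟩ := l.proper (some j)
        exact ⟨i, by simp only [b, hi, hj]; rfl⟩
    · revert hs hs'
      refine Fin.lastCases ?_ (fun s => ?_) s
      · intro hs _
        show χ (exx b ω) = Fin.lastCases (motive := fun _ => κ) c₀ c' (Fin.last k)
        rw [Fin.lastCases_last]
        rw [← hl fun e => match e with
          | none => false
          | some j => exx b' (fun s => ω s.castSucc) j]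
        congr 1
        funext i
        show (b i).elim true ω = _
        rw [Combinatorics.Subspace.coe_apply]
        rcases hi : l.idxFun i with a | e
        · cases a
          · simp only [b, hi]; exact hs
          · simp only [b, hi]; rfl
        · rcases e with _ | j
          · simp only [b, hi]; exact hs
          · simp only [b, hi]
            show (Option.map Fin.castSucc (b' j)).elim true ω = (b' j).elim true _
            cases b' j <;> rfl
      · intro hs hs'
        show χ (exx b ω) = Fin.lastCases (motive := fun _ => κ) c₀ c' s.castSucc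
        rw [Fin.lastCases_castSucc]
        rw [← hc' (fun s => ω s.castSucc) s hs fun s' h => hs' _ (Fin.castSucc_lt_castSucc_iff.2 h)]
        have hlast : ω (Fin.last k) = true := hs' _ (Fin.castSucc_lt_last s)
        show χ _ = χ _
        congr 1
        funext i
        show (b i).elim true ω = g _ i
        rcases hi : l.idxFun i with a | e
        · cases a
          · simp only [b, g, hi]; exact hlast
          · simp only [b, g, hi]; rfl
        · rcases e with _ | j
          · simp only [b, g, hi]; exact hlast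
          · simp only [b, g, hi]
            show (Option.map Fin.castSucc (b' j)).elim true ω = (b' j).elim true _
            cases b' j <;> rfl

/-- **The finite unions theorem.** -/
theorem folkman (κ : Type*) [Finite κ] (k : ℕ) : ∃ D : ℕ, ∀ χ : (Fin D → Bool) → κ,
    ∃ b : Fin D → Option (Fin k), (∀ s, ∃ t, b t = some s) ∧ ∃ c : κ,
      ∀ ω : Fin k → Bool, (ω ≠ fun _ => true) → χ (exx b ω) = c := by
  classical
  have : Fintype κ := Fintype.ofFinite κ
  obtain ⟨D, hD⟩ := folk1 κ (Fintype.card κ * k + 1)
  refine ⟨D, fun χ => ?_⟩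
  obtain ⟨b₁, hb₁, c₁, hc₁⟩ := hD χ
  obtain ⟨y, hy⟩ := Fintype.exists_lt_card_fiber_of_mul_lt_card (f := c₁) (n := k) (by
    rw [Fintype.card_fin]; omega)
  set S := univ.filter fun s => c₁ s = y with hS
  let e := S.orderEmbOfCardLe (k := k) hy.le
  have he : ∀ j, c₁ (e j) = y := fun j => by
    have h1 : e j ∈ S := S.orderEmbOfCardLe_mem (k := k) hy.le j
    exact (Finset.mem_filter.1 h1).2
  have hei : Function.Injective e := e.injective
  refine ⟨fun t => (b₁ t).bind (Function.partialInv e), fun s => ?_, y, fun ω hω => ?_⟩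
  · obtain ⟨t, ht⟩ := hb₁ (e s)
    refine ⟨t, ?_⟩
    show (b₁ t).bind (Function.partialInv e) = some s
    rw [ht]
    exact Function.partialInv_left hei s
  · let ω₁ : Fin (Fintype.card κ * k + 1) → Bool := fun s => (Function.partialInv e s).elim true ω
    have h1 : exx (fun t => (b₁ t).bind (Function.partialInv e)) ω = exx b₁ ω₁ := by
      funext t
      show ((b₁ t).bind (Function.partialInv e)).elim true ω = (b₁ t).elim true ω₁
      cases b₁ t <;> rfl
    have h2 : (univ.filter fun j => ω j = false).Nonempty := by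
      by_contra hcon
      rw [Finset.not_nonempty_iff_eq_empty, Finset.filter_eq_empty_iff] at hcon
      exact hω (funext fun j => by simpa using hcon (Finset.mem_univ j))
    have h3 := Finset.max'_mem _ h2
    set j := (univ.filter fun j => ω j = false).max' h2 with hj
    rw [Finset.mem_filter] at h3
    rw [h1, hc₁ ω₁ (e j) ?_ ?_, he]
    · show (Function.partialInv e (e j)).elim true ω = false
      rw [Function.partialInv_left hei]
      exact h3.2
    · intro s' hs'
      show (Function.partialInv e s').elim true ω = true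
      rcases hp : Function.partialInv e s' with _ | j'
      · rfl
      · have h4 : e j' = s' := (hei.isPartialInv j' s').1 hp
        show ω j' = true
        by_contra hcon
        have h5 : j' ≤ j := Finset.le_max' _ _ (by simpa using hcon)
        have h6 : e j' ≤ e j := e.le_iff_le.2 h5
        rw [h4] at h6
        exact absurd hs' (not_lt.2 h6)

/-! ## Substitutions -/

section

variable {M : Type} [Monoid M] {n k : ℕ}

/-- Substitutions of literals in programs. -/
theorem pull_prog {σ : (Fin k → Bool) → Fin n → Bool}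
    (h : ∀ i, ∃ (j : Fin k) (f : Bool → Bool), ∀ ω, σ ω i = f (ω j))
    (l : List (Fin n × M × M)) : ∃ l' : List (Fin k × M × M), ∀ ω,
      monVal l' ω = monVal l (σ ω) := by
  choose j f hf using h
  induction l with
  | nil => exact ⟨[], fun _ => rfl⟩
  | cons t l ih =>
    obtain ⟨l', hl'⟩ := ih
    refine ⟨(j t.1, if f t.1 false then t.2.2 else t.2.1, if f t.1 true then t.2.2 else t.2.1) :: l',
      fun ω => ?_⟩
    rw [monVal_cons, monVal_cons, hl']
    congr 1
    show (if ω (j t.1) then (if f t.1 true then t.2.2 else t.2.1) else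
      (if f t.1 false then t.2.2 else t.2.1)) = _
    rw [hf]
    cases ω (j t.1) <;> rfl

theorem exists_pow (l : List (Fin n × M × M)) (j : ℕ) : ∃ l' : List (Fin n × M × M),
    ∀ x, monVal l' x = monVal l x ^ j := by
  induction j with
  | zero => exact ⟨[], fun x => by rw [pow_zero]; rfl⟩
  | succ j ih =>
    obtain ⟨l', hl'⟩ := ih
    exact ⟨l' ++ l, fun x => by rw [monVal_append, hl', pow_succ]⟩

variable (M) in
/-- Programs over `M` do not compute all functions. -/
def NonUniv : Prop := ∃ (n : ℕ) (T : (Fin n → Bool) → Bool), ¬ MonTest M n T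

/-- `u * m` generates the same right ideal as `u`. -/
def Al (u m : M) : Prop := ∃ z, u * m * z = u

theorem Al.left {u m m' : M} (h : Al u (m * m')) : Al u m := by
  obtain ⟨z, hz⟩ := h
  exact ⟨m' * z, by rw [← mul_assoc, mul_assoc u m m', hz]⟩

/-- Universality from programs which isolate a vertex. -/
theorem univ_of_iso (h : ∀ k, 0 < k → ∃ (e g : M) (l : List (Fin k × M × M)), e * e = e ∧
    e * g = g ∧ g * e = g ∧ g ≠ e ∧ ∀ ω, monVal l ω = if ω = (fun _ => true) then g else e) :
    ¬ NonUniv M := by
  rintro ⟨n, T, hT⟩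
  apply hT
  rcases Nat.eq_zero_or_pos n with h0 | h0
  · subst h0
    exact ⟨[], fun _ => T default, fun x => by rw [Subsingleton.elim x default]⟩
  · obtain ⟨e, g, l, hee, heg, hge, hne, hl⟩ := h n h0
    refine monTest_of_points hee heg hge hne (fun _ α => ?_) T
    obtain ⟨l', hl'⟩ := pull_prog (σ := fun x i => if α i then x i else !(x i))
      (fun i => ⟨i, fun c => if α i then c else !c, fun ω => rfl⟩) l
    refine ⟨l', fun x => ?_⟩
    rw [hl', hl]
    congr 1
    rw [eq_iff_iff, funext_iff, funext_iff]
    refine forall_congr' fun i => ?_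
    cases α i <;> cases x i <;> simp

/-- The programs over a monoid which is not universal do not fall at exactly one vertex. -/
theorem noOne_fall [Finite M] (hM : NonUniv M) : ∃ D, 0 < D ∧ ∀ (n : ℕ)
    (l : List (Fin n × M × M)) (u : M), NoOne D fun x => ¬ Al u (monVal l x) := by
  classical
  by_contra hcon
  push Not at hcon
  refine univ_of_iso (fun k hk => ?_) hM
  obtain ⟨D, hD⟩ := folkman M k
  have hD0 : 0 < D := by
    obtain ⟨b, hb, -⟩ := hD fun _ => 1
    obtain ⟨t, -⟩ := hb ⟨0, hk⟩
    exact t.pos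
  obtain ⟨n, l, u, hno⟩ := hcon D hD0
  unfold NoOne at hno
  push Not at hno
  obtain ⟨c, x, y, ω₀, h1, h2⟩ := hno
  obtain ⟨φ, hφ⟩ := pull_prog (σ := fun ω : Fin D → Bool =>
    vx c (fun t => if ω₀ t then ω t else !(ω t)) x y) (fun i => ⟨c i, fun a =>
      if (if ω₀ (c i) then a else !a) then y i else x i, fun ω => rfl⟩) l
  obtain ⟨b, hb, m, hm⟩ := hD (monVal φ)
  obtain ⟨ψ, hψ⟩ := pull_prog (σ := exx b) (fun i => by
    rcases hbi : b i with _ | s
    · exact ⟨⟨0, hk⟩, fun _ => true, fun ω => by show (b i).elim true ω = true; rw [hbi]; rfl⟩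
    · exact ⟨s, fun a => a, fun ω => by show (b i).elim true ω = ω s; rw [hbi]; rfl⟩) φ
  have hψm : ∀ ω : Fin k → Bool, (ω ≠ fun _ => true) → monVal ψ ω = m := fun ω hω => by
    rw [hψ, hm ω hω]
  have hfl : ∀ ω : Fin D → Bool, (ω ≠ fun _ => true) → Al u (monVal φ ω) := by
    intro ω hω
    rw [hφ]
    refine h2 _ fun h3 => hω (funext fun t => ?_)
    have h4 := congrFun h3 t
    revert h4
    cases ω₀ t <;> cases ω t <;> simp
  have hnf : ¬ Al u (monVal φ fun _ => true) := by
    rw [hφ]
    have h3 : (fun t => if ω₀ t then (fun _ : Fin D => true) t else !((fun _ : Fin D => true) t)) =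
        ω₀ := by
      funext t
      cases ω₀ t <;> simp
    rw [h3]
    exact h1
  have hAm : Al u m := by
    have h3 : (fun _ : Fin k => false) ≠ fun _ => true := fun h => by
      have := congrFun h ⟨0, hk⟩
      simp at this
    rw [← hm _ h3]
    refine hfl _ fun h4 => ?_
    obtain ⟨t, ht⟩ := hb ⟨0, hk⟩
    have h5 := congrFun h4 t
    simp [exx, ht] at h5
  set m' := monVal ψ fun _ => true with hm'
  have hAm' : ¬ Al u m' := by
    rw [hm', hψ]
    have h3 : exx b (fun _ => true) = fun _ => true := by
      funext t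
      show (b t).elim true (fun _ => true) = true
      cases b t <;> rfl
    rw [h3]
    exact hnf
  obtain ⟨z, hz⟩ := hAm
  obtain ⟨k₁, hk₁, hi₁⟩ := exists_idem (m * z)
  -- the power `k₁` of `m z` and of `m' z`
  set e := (m * z) ^ k₁ with he
  have hee : e * e = e := hi₁
  have hue : u * e = u := by
    rw [he]
    exact pow_fix (by rw [← mul_assoc, hz]) k₁
  set w := (m' * z) ^ k₁ with hw
  obtain ⟨k₁, rfl⟩ : ∃ j, k₁ = j + 1 := ⟨k₁ - 1, by omega⟩
  obtain ⟨χ, hχ⟩ := exists_pow (ψ ++ [cst ⟨0, hk⟩ z]) (k₁ + 1)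
  have hχ' : ∀ ω, monVal (cst ⟨0, hk⟩ e :: (χ ++ [cst ⟨0, hk⟩ e])) ω =
      e * (monVal ψ ω * z) ^ (k₁ + 1) * e := by
    intro ω
    rw [monVal_cst, monVal_append, hχ, monVal_append, monVal_cst, monVal_cst]
    have h3 : monVal ([] : List (Fin k × M × M)) ω = 1 := rfl
    rw [h3, mul_one, mul_one, mul_assoc]
  refine ⟨e, e * w * e, cst ⟨0, hk⟩ e :: (χ ++ [cst ⟨0, hk⟩ e]), hee, ?_, ?_, ?_, fun ω => ?_⟩
  · rw [← mul_assoc, ← mul_assoc, hee]
  · rw [mul_assoc, hee]
  · intro h3
    apply hAm'
    have h4 : u = u * w * e := by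
      calc u = u * e := hue.symm
        _ = u * (e * w * e) := by rw [h3]
        _ = u * e * w * e := by simp only [mul_assoc]
        _ = u * w * e := by rw [hue]
    refine ⟨z * (m' * z) ^ k₁ * e, ?_⟩
    calc u * m' * (z * (m' * z) ^ k₁ * e) = u * (m' * z * (m' * z) ^ k₁) * e := by
          simp only [mul_assoc]
      _ = u * w * e := by rw [← pow_succ', hw]
      _ = u := h4.symm
  · rw [hχ']
    by_cases hω : ω = fun _ => true
    · rw [if_pos hω, hω]
    · rw [if_neg hω, hψm ω hω]
      show e * e * e = e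
      rw [hee, hee]

/-- The programs over a monoid which is not universal do not leave an idempotent at exactly one
vertex. -/
theorem noOne_group (hM : NonUniv M) : ∃ D, 0 < D ∧ ∀ (n : ℕ)
    (l : List (Fin n × M × M)) (e : M), e * e = e → NoOne D fun x => e * monVal l x * e ≠ e := by
  classical
  by_contra hcon
  push Not at hcon
  refine univ_of_iso (fun D hD0 => ?_) hM
  obtain ⟨n, l, e, hee, hno⟩ := hcon D hD0
  unfold NoOne at hno
  push Not at hno
  obtain ⟨c, x, y, ω₀, h1, h2⟩ := hno
  obtain ⟨φ, hφ⟩ := pull_prog (σ := fun ω : Fin D → Bool =>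
    vx c (fun t => if ω₀ t then ω t else !(ω t)) x y) (fun i => ⟨c i, fun a =>
      if (if ω₀ (c i) then a else !a) then y i else x i, fun ω => rfl⟩) l
  have h0 : ∀ ω, monVal (cst ⟨0, hD0⟩ e :: (φ ++ [cst ⟨0, hD0⟩ e])) ω =
      e * monVal l (vx c (fun t => if ω₀ t then ω t else !(ω t)) x y) * e := by
    intro ω
    rw [monVal_cst, monVal_append, monVal_cst, hφ]
    have h3 : monVal ([] : List (Fin D × M × M)) ω = 1 := rfl
    rw [h3, mul_one, mul_assoc]
  have h3 : (fun t => if ω₀ t then (fun _ : Fin D => true) t else !((fun _ : Fin D => true) t)) =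
      ω₀ := by
    funext t
    cases ω₀ t <;> simp
  refine ⟨e, e * monVal l (vx c ω₀ x y) * e, cst ⟨0, hD0⟩ e :: (φ ++ [cst ⟨0, hD0⟩ e]), hee, ?_, ?_,
    h1, fun ω => ?_⟩
  · rw [← mul_assoc, ← mul_assoc, hee]
  · rw [mul_assoc, hee]
  · rw [h0]
    by_cases hω : ω = fun _ => true
    · rw [if_pos hω, hω, h3]
    · rw [if_neg hω]
      refine h2 _ fun h4 => hω (funext fun t => ?_)
      have h5 := congrFun h4 t
      revert h5
      cases ω₀ t <;> cases ω t <;> simp

end

end Pool.Agent.MP_ca1109_lc.Mon
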