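import Pool.Agent.MP_ca1109_lc.Mon.G2

/-!
# Programs over aperiodic monoids become constant if boundedly many bits are fixed
-/

namespace Pool.Agent.MP_ca1109_lc.Mon

open Pool.Agent.MP_ca1109_lc.Mpg Pool.Agent.MP_ca1109_lc.Hyb Finset MulOpposite

theorem suffix_split {α : Type*} {Q : List α → Prop} (h0 : Q []) {l : List α} (h : ¬ Q l) :
    ∃ l₂ t l₁, l = l₂ ++ t :: l₁ ∧ Q l₁ ∧ ¬ Q (t :: l₁) := by
  induction l with
  | nil => exact absurd h0 h
  | cons t l ih =>
    by_cases h1 : Q l
    · exact ⟨[], t, l, rfl, h1, h⟩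
    · obtain ⟨l₂, t', l₁, h2, h3, h4⟩ := ih h1
      exact ⟨t :: l₂, t', l₁, by rw [h2]; rfl, h3, h4⟩

theorem prefix_split {α : Type*} {l : List α} : ∀ {Q : List α → Prop}, Q [] → ¬ Q l →
    ∃ l₁ t l₂, l = l₁ ++ t :: l₂ ∧ Q l₁ ∧ ¬ Q (l₁ ++ [t]) := by
  induction l with
  | nil => exact fun h0 h => absurd h0 h
  | cons t l ih =>
    intro Q h0 h
    by_cases h1 : Q [t]
    · obtain ⟨l₁, t', l₂, h2, h3, h4⟩ := ih (Q := fun s => Q (t :: s)) h1 h
      exact ⟨t :: l₁, t', l₂, by rw [h2]; rfl, h3, h4⟩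
    · exact ⟨[], t, l, rfl, h0, h1⟩

theorem Cb.exists_fix {n : ℕ} (C : Cb n) (i : Fin n) :
    ∃ C' : Cb n, C.Le 1 C' ∧ ∀ x y, C'.In x → C'.In y → x i = y i := by
  by_cases hi : i ∈ C.J
  · exact ⟨C, Cb.Le.refl _ _, fun x y hx hy => (hx i hi).trans (hy i hi).symm⟩
  · exact ⟨C.fix i true, Cb.fix_le hi _, fun x y hx hy =>
      ((Cb.in_fix hi).1 hx).2.trans ((Cb.in_fix hi).1 hy).2.symm⟩

section op

variable {M : Type} [Monoid M] {n : ℕ}

instance finite_op [Finite M] : Finite Mᵐᵒᵖ := Finite.of_equiv M opEquiv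

def opL (l : List (Fin n × M × M)) : List (Fin n × Mᵐᵒᵖ × Mᵐᵒᵖ) :=
  (l.map fun t => (t.1, op t.2.1, op t.2.2)).reverse

def unL (l : List (Fin n × Mᵐᵒᵖ × Mᵐᵒᵖ)) : List (Fin n × M × M) :=
  (l.map fun t => (t.1, unop t.2.1, unop t.2.2)).reverse

theorem monVal_opL (l : List (Fin n × M × M)) (x : Fin n → Bool) :
    monVal (opL l) x = op (monVal l x) := by
  induction l with
  | nil => rfl
  | cons t l ih =>
    have : opL (t :: l) = opL l ++ [(t.1, op t.2.1, op t.2.2)] := by
      unfold opL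
      rw [List.map_cons, List.reverse_cons]
    rw [this, monVal_append, ih, monVal_cons, monVal_cons, op_mul]
    congr 1
    show (if x t.1 then op t.2.2 else op t.2.1) * 1 = _
    rw [mul_one]
    split_ifs <;> rfl

theorem monVal_unL (l : List (Fin n × Mᵐᵒᵖ × Mᵐᵒᵖ)) (x : Fin n → Bool) :
    monVal (unL l) x = unop (monVal l x) := by
  induction l with
  | nil => rfl
  | cons t l ih =>
    have : unL (t :: l) = unL l ++ [(t.1, unop t.2.1, unop t.2.2)] := by
      unfold unL
      rw [List.map_cons, List.reverse_cons]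
    rw [this, monVal_append, ih, monVal_cons, monVal_cons, unop_mul]
    congr 1
    show (if x t.1 then unop t.2.2 else unop t.2.1) * 1 = _
    rw [mul_one]
    split_ifs <;> rfl

theorem NonUniv.op (h : NonUniv M) : NonUniv Mᵐᵒᵖ := by
  obtain ⟨n, T, hT⟩ := h
  refine ⟨n, T, fun ⟨l, A, hl⟩ => hT ⟨unL l, fun m => A (MulOpposite.op m), fun x => ?_⟩⟩
  rw [hl, monVal_unL]
  exact congrArg A (op_unop _).symm

/-- `m * v` generates the same left ideal as `v`. -/
def Al' (v m : M) : Prop := ∃ z, z * (m * v) = v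

theorem al_op {v m : M} : Al (op v) (op m) ↔ Al' v m := by
  constructor
  · rintro ⟨z, hz⟩
    refine ⟨unop z, ?_⟩
    have := congrArg unop hz
    simpa using this
  · rintro ⟨z, hz⟩
    refine ⟨op z, ?_⟩
    rw [← op_mul, ← op_mul, hz]

theorem noOne_fall' [Finite M] (hM : NonUniv M) : ∃ D, 0 < D ∧ ∀ (n : ℕ)
    (l : List (Fin n × M × M)) (v : M), NoOne D fun x => ¬ Al' v (monVal l x) := by
  obtain ⟨D, hD, h⟩ := noOne_fall hM.op
  refine ⟨D, hD, fun n l v => ?_⟩
  have h1 := h n (opL l) (op v)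
  simp only [monVal_opL, al_op] at h1
  exact h1

/-- the size of the left ideal generated by `v` -/
noncomputable def rk' (v : M) : ℕ := rk (op v)

theorem rk'_lt [Finite M] {v m : M} (h : ¬ Al' v m) : rk' (m * v) < rk' v := by
  unfold rk'
  rw [op_mul]
  refine rk_lt fun ⟨z, hz⟩ => h (al_op.1 ⟨z, hz.symm⟩)

theorem rk_lt' [Finite M] {u m : M} (h : ¬ Al u m) : rk (u * m) < rk u :=
  rk_lt fun ⟨z, hz⟩ => h ⟨z, hz.symm⟩

end op

section aper

variable {M : Type} [Monoid M]

variable (M) in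
/-- There are no nontrivial groups in `M`. -/
def Aper : Prop := ∀ m : M, ∃ k, m ^ (k + 1) = m ^ k

theorem Aper.op (h : Aper M) : Aper Mᵐᵒᵖ := by
  intro m
  obtain ⟨k, hk⟩ := h (unop m)
  refine ⟨k, unop_injective ?_⟩
  rw [unop_pow, unop_pow, hk]

/-- In an aperiodic monoid the elements `u * m * v` which generate the same right ideal as `u` are
equal if `v` is in the ideal generated by `u`. -/
theorem hclass [Finite M] (ha : Aper M) {u v m m' : M} (huv : ∃ a b, v = a * u * b)
    (h : Al u (m * v)) (h' : Al u (m' * v)) : u * m * v = u * m' * v := by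
  obtain ⟨a, b, hab⟩ := huv
  obtain ⟨z, hz⟩ := h
  obtain ⟨z', hz'⟩ := h'
  obtain ⟨z₁, hz₁⟩ := stab_left (x := v) (y := u * m) (a := a) (b := z * b) (by
    calc a * (u * m * v) * (z * b) = a * (u * (m * v) * z) * b := by simp only [mul_assoc]
      _ = v := by rw [hz, ← hab])
  set H := u * m * v with hH
  set H' := u * m' * v with hH'
  have h1 : H' = (u * m' * z₁) * H := by
    calc H' = u * m' * (z₁ * (u * m * v)) := by rw [← hz₁]
      _ = _ := by rw [hH]; simp only [mul_assoc]
  have h2 : H = H' * (z' * (m * v)) := by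
    calc H = (u * (m' * v) * z') * m * v := by rw [hz']
      _ = H' * (z' * (m * v)) := by rw [hH']; simp only [mul_assoc]
  set c := u * m' * z₁ with hc
  set b₁ := z' * (m * v) with hb₁
  have h3 : ∀ j, c ^ j * H * b₁ ^ j = H := by
    intro j
    induction j with
    | zero => simp
    | succ j ih =>
      calc c ^ (j + 1) * H * b₁ ^ (j + 1) = c ^ j * (c * H * b₁) * b₁ ^ j := by
            rw [pow_succ c, pow_succ' b₁]; simp only [mul_assoc]
        _ = H := by rw [← h1, ← h2, ih]
  obtain ⟨k, hk⟩ := ha c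
  rw [h1]
  calc H = c ^ k * H * b₁ ^ k := (h3 k).symm
    _ = c ^ (k + 1) * H * b₁ ^ k := by rw [hk]
    _ = c * (c ^ k * H * b₁ ^ k) := by rw [pow_succ']; simp only [mul_assoc]
    _ = c * H := by rw [h3]

variable (M) in
/-- Programs which never fall from `u` become constant if boundedly many bits are fixed. -/
def NF (u : M) : Prop := ∃ c : ℕ, ∀ (n : ℕ) (l : List (Fin n × M × M)) (C : Cb n),
  (∀ x, C.In x → Al u (monVal l x)) →
    ∃ C', C.Le c C' ∧ ∀ x y, C'.In x → C'.In y → u * monVal l x = u * monVal l y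

variable (M) in
def NF' (v : M) : Prop := ∃ c : ℕ, ∀ (n : ℕ) (l : List (Fin n × M × M)) (C : Cb n),
  (∀ x, C.In x → Al' v (monVal l x)) →
    ∃ C', C.Le c C' ∧ ∀ x y, C'.In x → C'.In y → monVal l x * v = monVal l y * v

theorem nf'_of_op {v : M} (h : NF Mᵐᵒᵖ (op v)) : NF' M v := by
  obtain ⟨c, hc⟩ := h
  refine ⟨c, fun n l C hl => ?_⟩
  obtain ⟨C', h1, h2⟩ := hc n (opL l) C fun x hx => by
    rw [monVal_opL, al_op]
    exact hl x hx
  refine ⟨C', h1, fun x y hx hy => ?_⟩
  have h3 := h2 x y hx hy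
  rw [monVal_opL, monVal_opL, ← op_mul, ← op_mul] at h3
  exact op_injective h3

theorem nf'_op_of {v : M} (h : NF M v) : NF' Mᵐᵒᵖ (op v) := by
  obtain ⟨c, hc⟩ := h
  refine ⟨c, fun n l C hl => ?_⟩
  obtain ⟨C', h1, h2⟩ := hc n (unL l) C fun x hx => by
    rw [monVal_unL]
    obtain ⟨z, hz⟩ := hl x hx
    refine ⟨unop z, ?_⟩
    have := congrArg unop hz
    simpa using this
  refine ⟨C', h1, fun x y hx hy => ?_⟩
  have h3 := h2 x y hx hy
  rw [monVal_unL, monVal_unL] at h3
  apply unop_injective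
  simpa using h3

theorem nf_step [Finite M] (hM : NonUniv M) (ha : Aper M) (u : M)
    (ih : ∀ v : M, (∃ a b, u = a * v * b) → (¬ ∃ a b, v = a * u * b) → NF' M v) : NF M u := by
  classical
  obtain ⟨D, hD, hno⟩ := noOne_fall' hM
  have key : ∀ r (v : M), rk' v = r → ∃ c : ℕ, ∀ (n : ℕ) (l : List (Fin n × M × M)) (C : Cb n),
      (∀ x, C.In x → Al u (monVal l x * v)) →
        ∃ C', C.Le c C' ∧ ∀ x y, C'.In x → C'.In y → u * monVal l x * v = u * monVal l y * v := by
    intro r
    induction r using Nat.strong_induction_on with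
    | _ r ihr =>
      intro v hv
      by_cases hvu : ∃ a b, v = a * u * b
      · exact ⟨0, fun n l C hl => ⟨C, Cb.Le.refl _ _, fun x y hx hy =>
          hclass ha hvu (hl x hx) (hl y hy)⟩⟩
      by_cases huv : ∃ a b, u = a * v * b
      swap
      · refine ⟨0, fun n l C hl => absurd ?_ huv⟩
        obtain ⟨z, hz⟩ := hl C.z C.in_z
        refine ⟨u * monVal l C.z, z, ?_⟩
        calc u = u * (monVal l C.z * v) * z := hz.symm
          _ = _ := by simp only [mul_assoc]
      obtain ⟨c₁, hc₁⟩ := ih v huv hvu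
      obtain ⟨K, hK⟩ := Cb.force D (c₁ + 1) hD
      have h1 : ∀ v' : M, ∃ c : ℕ, rk' v' < r → ∀ (n : ℕ) (l : List (Fin n × M × M)) (C : Cb n),
          (∀ x, C.In x → Al u (monVal l x * v')) → ∃ C', C.Le c C' ∧
            ∀ x y, C'.In x → C'.In y → u * monVal l x * v' = u * monVal l y * v' := by
        intro v'
        by_cases h : rk' v' < r
        · obtain ⟨c, hc⟩ := ihr _ h v' rfl
          exact ⟨c, fun _ => hc⟩
        · exact ⟨0, fun h' => absurd h' h⟩
      choose cc hcc using h1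
      have : Fintype M := Fintype.ofFinite M
      refine ⟨max c₁ (K + ∑ v', cc v'), fun n l C hl => ?_⟩
      by_cases hA : ∀ x, C.In x → Al' v (monVal l x)
      · obtain ⟨C', h2, h3⟩ := hc₁ n l C hA
        refine ⟨C', h2.mono (le_max_left _ _), fun x y hx hy => ?_⟩
        rw [mul_assoc, mul_assoc, h3 x y hx hy]
      · obtain ⟨l₂, t, l₁, h2, h3, h4⟩ := suffix_split
          (Q := fun l : List (Fin n × M × M) => ∀ x, C.In x → Al' v (monVal l x))
          (fun x _ => ⟨1, by show 1 * (1 * v) = v; simp⟩) hA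
        push Not at h4
        obtain ⟨C₁, h5, h6, h7⟩ := hK n (fun x => ¬ Al' v (monVal (t :: l₁) x)) (hno n _ v)
          (fun C₁ => ∀ x y, C₁.In x → C₁.In y → monVal l₁ x * v = monVal l₁ y * v ∧ x t.1 = y t.1)
          C (fun k C₁ hk => by
            obtain ⟨C₂, h8, h9⟩ := hc₁ n l₁ C₁ fun x hx => h3 x (hk.mem hx)
            obtain ⟨C₃, h10, h11⟩ := C₂.exists_fix t.1
            exact ⟨C₃, h8.trans h10, fun x y hx hy =>
              ⟨h9 x y (h10.mem hx) (h10.mem hy), h11 x y hx hy⟩⟩)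
          (fun k C₁ _ hP => by
            have h8 : ∀ x, C₁.In x → (Al' v (monVal (t :: l₁) x) ↔
                Al' v (monVal (t :: l₁) C₁.z)) := by
              intro x hx
              obtain ⟨h9, h10⟩ := hP x C₁.z hx C₁.in_z
              have h11 : monVal (t :: l₁) x * v = monVal (t :: l₁) C₁.z * v := by
                rw [monVal_cons, monVal_cons, mul_assoc, mul_assoc, h9, h10]
              unfold Al'
              rw [h11]
            by_cases h9 : Al' v (monVal (t :: l₁) C₁.z)
            · exact Or.inr fun x hx h => h ((h8 x hx).2 h9)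
            · exact Or.inl fun x hx h => h9 ((h8 x hx).1 h)) h4
        have h8 : ∀ x, C₁.In x → monVal (t :: l₁) x * v = monVal (t :: l₁) C₁.z * v := by
          intro x hx
          obtain ⟨h9, h10⟩ := h6 x C₁.z hx C₁.in_z
          rw [monVal_cons, monVal_cons, mul_assoc, mul_assoc, h9, h10]
        set v' := monVal (t :: l₁) C₁.z * v with hv'
        have h9 : rk' v' < r := by
          rw [← hv]
          exact rk'_lt (h7 _ C₁.in_z)
        have h10 : ∀ x, C₁.In x → monVal l x * v = monVal l₂ x * v' := by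
          intro x hx
          rw [h2, monVal_append, mul_assoc, h8 x hx]
        obtain ⟨C₂, h11, h12⟩ := hcc v' h9 n l₂ C₁ fun x hx => by
          rw [← h10 x hx]
          exact hl x (h5.mem hx)
        refine ⟨C₂, (h5.trans h11).mono ((Nat.add_le_add_left (Finset.single_le_sum
          (fun _ _ => Nat.zero_le _) (Finset.mem_univ v')) K).trans (le_max_right _ _)),
          fun x y hx hy => ?_⟩
        rw [mul_assoc, mul_assoc u (monVal l y) v, h10 x (h11.mem hx), h10 y (h11.mem hy),
          ← mul_assoc u _ v', ← mul_assoc u _ v', h12 x y hx hy]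
  obtain ⟨c, hc⟩ := key _ 1 rfl
  refine ⟨c, fun n l C hl => ?_⟩
  obtain ⟨C', h1, h2⟩ := hc n l C fun x hx => by
    rw [mul_one]
    exact hl x hx
  refine ⟨C', h1, fun x y hx hy => ?_⟩
  have h3 := h2 x y hx hy
  rwa [mul_one, mul_one] at h3

/-- the size of the two-sided ideal generated by `u` -/
noncomputable def jr (u : M) : ℕ := Nat.card {x : M // ∃ a b, x = a * u * b}

theorem jr_lt [Finite M] {u v : M} (h : ∃ a b, u = a * v * b) (h' : ¬ ∃ a b, v = a * u * b) :
    jr u < jr v := by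
  unfold jr
  obtain ⟨a, b, hab⟩ := h
  let φ : {x : M // ∃ a b, x = a * u * b} → {x : M // ∃ a b, x = a * v * b} := fun q =>
    ⟨q.1, by
      obtain ⟨c, d, hcd⟩ := q.2
      exact ⟨c * a, b * d, by rw [hcd, hab]; simp only [mul_assoc]⟩⟩
  have hφ : Function.Injective φ := by
    intro a b hab
    exact Subtype.ext (congrArg (fun q : {x : M // ∃ a b, x = a * v * b} => q.1) hab)
  refine lt_of_le_of_ne (Nat.card_le_card_of_injective φ hφ) fun hcon => ?_
  have h1 : Function.Surjective φ :=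
    ((Nat.bijective_iff_injective_and_card φ).2 ⟨hφ, hcon⟩).2
  obtain ⟨q, hq⟩ := h1 ⟨v, 1, 1, by simp⟩
  have h2 : q.1 = v := congrArg (fun q : {x : M // ∃ a b, x = a * v * b} => q.1) hq
  obtain ⟨c, d, hcd⟩ := q.2
  exact h' ⟨c, d, by rw [← h2, hcd]⟩

theorem jr_le [Finite M] (u : M) : jr u ≤ Nat.card M :=
  Nat.card_le_card_of_injective _ Subtype.val_injective

theorem nf_all [Finite M] (hM : NonUniv M) (ha : Aper M) : ∀ u : M, NF M u ∧ NF' M u := by
  have key : ∀ r (u : M), Nat.card M - jr u = r → NF M u ∧ NF' M u := by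
    intro r
    induction r using Nat.strong_induction_on with
    | _ r ihr =>
      intro u hu
      have h1 : ∀ v : M, (∃ a b, u = a * v * b) → (¬ ∃ a b, v = a * u * b) → NF M v ∧ NF' M v := by
        intro v h2 h3
        refine ihr _ ?_ v rfl
        have h4 := jr_lt h2 h3
        have h5 := jr_le v
        omega
      refine ⟨nf_step hM ha u fun v h2 h3 => (h1 v h2 h3).2, nf'_of_op ?_⟩
      refine nf_step hM.op ha.op (op u) fun v h2 h3 => ?_
      rw [← op_unop v]
      refine nf'_op_of (h1 (unop v) ?_ ?_).1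
      · obtain ⟨a, b, hab⟩ := h2
        refine ⟨unop b, unop a, ?_⟩
        have := congrArg unop hab
        simpa [mul_assoc] using this
      · rintro ⟨a, b, hab⟩
        refine h3 ⟨op b, op a, unop_injective ?_⟩
        simpa [mul_assoc] using hab
  exact fun u => key _ u rfl

/-- **Programs over a finite aperiodic monoid which is not universal become constant in every
subcube if boundedly many bits are fixed.** -/
theorem const_cube [Finite M] (hM : NonUniv M) (ha : Aper M) : ∃ c : ℕ, ∀ (n : ℕ)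
    (l : List (Fin n × M × M)) (C : Cb n), ∃ C', C.Le c C' ∧
      ∀ x y, C'.In x → C'.In y → monVal l x = monVal l y := by
  classical
  obtain ⟨D, hD, hno⟩ := noOne_fall hM
  have key : ∀ r (u : M), rk u = r → ∃ c : ℕ, ∀ (n : ℕ) (l : List (Fin n × M × M)) (C : Cb n),
      ∃ C', C.Le c C' ∧ ∀ x y, C'.In x → C'.In y → u * monVal l x = u * monVal l y := by
    intro r
    induction r using Nat.strong_induction_on with
    | _ r ihr =>
      intro u hu
      obtain ⟨c₁, hc₁⟩ := (nf_all hM ha u).1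
      obtain ⟨K, hK⟩ := Cb.force D (c₁ + 1) hD
      have h1 : ∀ u' : M, ∃ c : ℕ, rk u' < r → ∀ (n : ℕ) (l : List (Fin n × M × M)) (C : Cb n),
          ∃ C', C.Le c C' ∧ ∀ x y, C'.In x → C'.In y → u' * monVal l x = u' * monVal l y := by
        intro u'
        by_cases h : rk u' < r
        · obtain ⟨c, hc⟩ := ihr _ h u' rfl
          exact ⟨c, fun _ => hc⟩
        · exact ⟨0, fun h' => absurd h' h⟩
      choose cc hcc using h1
      have : Fintype M := Fintype.ofFinite M
      refine ⟨max c₁ (K + ∑ u', cc u'), fun n l C => ?_⟩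
      by_cases hA : ∀ x, C.In x → Al u (monVal l x)
      · obtain ⟨C', h2, h3⟩ := hc₁ n l C hA
        exact ⟨C', h2.mono (le_max_left _ _), h3⟩
      · obtain ⟨l₁, t, l₂, h2, h3, h4⟩ := prefix_split
          (Q := fun l : List (Fin n × M × M) => ∀ x, C.In x → Al u (monVal l x))
          (fun x _ => ⟨1, by show u * 1 * 1 = u; simp⟩) hA
        push Not at h4
        have e1 : ∀ x, monVal (l₁ ++ [t]) x = monVal l₁ x * (if x t.1 then t.2.2 else t.2.1) := by
          intro x
          rw [monVal_append, monVal_cons]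
          show _ * (_ * 1) = _
          rw [mul_one]
        obtain ⟨C₁, h5, h6, h7⟩ := hK n (fun x => ¬ Al u (monVal (l₁ ++ [t]) x)) (hno n _ u)
          (fun C₁ => ∀ x y, C₁.In x → C₁.In y → u * monVal l₁ x = u * monVal l₁ y ∧ x t.1 = y t.1)
          C (fun k C₁ hk => by
            obtain ⟨C₂, h8, h9⟩ := hc₁ n l₁ C₁ fun x hx => h3 x (hk.mem hx)
            obtain ⟨C₃, h10, h11⟩ := C₂.exists_fix t.1
            exact ⟨C₃, h8.trans h10, fun x y hx hy =>
              ⟨h9 x y (h10.mem hx) (h10.mem hy), h11 x y hx hy⟩⟩)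
          (fun k C₁ _ hP => by
            have h8 : ∀ x, C₁.In x → (Al u (monVal (l₁ ++ [t]) x) ↔
                Al u (monVal (l₁ ++ [t]) C₁.z)) := by
              intro x hx
              obtain ⟨h9, h10⟩ := hP x C₁.z hx C₁.in_z
              have h11 : u * monVal (l₁ ++ [t]) x = u * monVal (l₁ ++ [t]) C₁.z := by
                rw [e1, e1, ← mul_assoc, ← mul_assoc, h9, h10]
              unfold Al
              rw [h11]
            by_cases h9 : Al u (monVal (l₁ ++ [t]) C₁.z)
            · exact Or.inr fun x hx h => h ((h8 x hx).2 h9)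
            · exact Or.inl fun x hx h => h9 ((h8 x hx).1 h)) h4
        have h8 : ∀ x, C₁.In x → u * monVal (l₁ ++ [t]) x = u * monVal (l₁ ++ [t]) C₁.z := by
          intro x hx
          obtain ⟨h9, h10⟩ := h6 x C₁.z hx C₁.in_z
          rw [e1, e1, ← mul_assoc, ← mul_assoc, h9, h10]
        set u' := u * monVal (l₁ ++ [t]) C₁.z with hu'
        have h9 : rk u' < r := by
          rw [← hu]
          exact rk_lt' (h7 _ C₁.in_z)
        have h10 : ∀ x, C₁.In x → u * monVal l x = u' * monVal l₂ x := by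
          intro x hx
          rw [h2, show l₁ ++ t :: l₂ = (l₁ ++ [t]) ++ l₂ by simp, monVal_append, ← mul_assoc,
            h8 x hx]
        obtain ⟨C₂, h11, h12⟩ := hcc u' h9 n l₂ C₁
        refine ⟨C₂, (h5.trans h11).mono ((Nat.add_le_add_left (Finset.single_le_sum
          (fun _ _ => Nat.zero_le _) (Finset.mem_univ u')) K).trans (le_max_right _ _)),
          fun x y hx hy => ?_⟩
        rw [h10 x (h11.mem hx), h10 y (h11.mem hy), h12 x y hx hy]
  obtain ⟨c, hc⟩ := key _ 1 rfl
  refine ⟨c, fun n l C => ?_⟩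
  obtain ⟨C', h1, h2⟩ := hc n l C
  refine ⟨C', h1, fun x y hx hy => ?_⟩
  have h3 := h2 x y hx hy
  rwa [one_mul, one_mul] at h3

end aper

end Pool.Agent.MP_ca1109_lc.Mon
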