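import Pool.Agent.MP_ca1109_lc.Mon.G3

/-!
# The group part of programs over monoids which are not universal
-/

namespace Pool.Agent.MP_ca1109_lc.Mon

open Pool.Agent.MP_ca1109_lc.Mpg Pool.Agent.MP_ca1109_lc.Hyb Pool.Agent.MP_ca1109_lc.Agp Finset

variable {n : ℕ}

/-- `f` is determined on the cube `C` by the answers to `c` questions of degree at most `c`. -/
def Dt {α : Type*} (c : ℕ) (C : Cb n) (f : (Fin n → Bool) → α) : Prop :=
  ∃ L : List ((Fin n → Bool) → Prop), L.length ≤ c ∧ (∀ A ∈ L, MCond c A) ∧
    ∀ x y, C.In x → C.In y → (∀ A ∈ L, (A x ↔ A y)) → f x = f y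

section dt

variable {α β : Type*} {c : ℕ} {C : Cb n} {f : (Fin n → Bool) → α}

theorem Dt.mono {c' : ℕ} (hc : c ≤ c') (h : Dt c C f) : Dt c' C f := by
  obtain ⟨L, h1, h2, h3⟩ := h
  exact ⟨L, h1.trans hc, fun A hA => (h2 A hA).mono hc, h3⟩

theorem Dt.sub {k : ℕ} {C' : Cb n} (hC : C.Le k C') (h : Dt c C f) : Dt c C' f := by
  obtain ⟨L, h1, h2, h3⟩ := h
  exact ⟨L, h1, h2, fun x y hx hy => h3 x y (hC.mem hx) (hC.mem hy)⟩

theorem Dt.const (h : ∀ x y, C.In x → C.In y → f x = f y) : Dt c C f :=
  ⟨[], Nat.zero_le _, by simp, fun x y hx hy _ => h x y hx hy⟩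

theorem Dt.fn {J : Type*} [Fintype J] {γ : J → Type*} {g : ∀ j, (Fin n → Bool) → γ j}
    (hg : ∀ j, Dt c C (g j)) (hf : ∀ x y, C.In x → C.In y → (∀ j, g j x = g j y) → f x = f y)
    {c' : ℕ} (h1 : Fintype.card J * c ≤ c') (h2 : c ≤ c') : Dt c' C f := by
  classical
  choose L hL hM hD using hg
  refine ⟨(univ : Finset J).toList.flatMap L, ?_, fun A hA => ?_, fun x y hx hy hxy =>
    hf x y hx hy fun j => hD j x y hx hy fun A hA => hxy A ?_⟩
  · rw [List.length_flatMap]
    refine (List.sum_le_card_nsmul _ c ?_).trans ?_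
    · intro a ha
      obtain ⟨i, -, rfl⟩ := List.mem_map.1 ha
      exact hL i
    · simpa using h1
  · obtain ⟨i, -, hi⟩ := List.mem_flatMap.1 hA
    exact (hM i A hi).mono h2
  · exact List.mem_flatMap.2 ⟨j, by simp, hA⟩

theorem Dt.of {g : (Fin n → Bool) → β} (hg : Dt c C g)
    (hf : ∀ x y, C.In x → C.In y → g x = g y → f x = f y) : Dt c C f := by
  obtain ⟨L, h1, h2, h3⟩ := hg
  exact ⟨L, h1, h2, fun x y hx hy h => hf x y hx hy (h3 x y hx hy h)⟩

theorem Dt.two {c' : ℕ} {g : (Fin n → Bool) → β} {γ : Type*} {h : (Fin n → Bool) → γ}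
    (hg : Dt c C g) (hh : Dt c' C h)
    (hf : ∀ x y, C.In x → C.In y → g x = g y → h x = h y → f x = f y) : Dt (c + c') C f := by
  obtain ⟨L, h1, h2, h3⟩ := hg
  obtain ⟨L', h1', h2', h3'⟩ := hh
  refine ⟨L ++ L', by rw [List.length_append]; omega, fun A hA => ?_, fun x y hx hy h =>
    hf x y hx hy (h3 x y hx hy fun A hA => h A (List.mem_append_left _ hA))
      (h3' x y hx hy fun A hA => h A (List.mem_append_right _ hA))⟩
  rcases List.mem_append.1 hA with hA | hA
  · exact (h2 A hA).mono (by omega)
  · exact (h2' A hA).mono (by omega)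

end dt

/-- Substitution of functions of few bits. -/
theorem lowDeg_subst {N d D : ℕ} {Γ : Type*} [AddCommGroup Γ] {P : (Fin N → Bool) → Γ}
    (hP : P ∈ lowDeg (Fin N) Bool Γ d) {S : Fin N → Finset (Fin n)} (hS : ∀ t, (S t).card ≤ D)
    {y : (Fin n → Bool) → Fin N → Bool}
    (hy : ∀ t, DependsOn (fun x => y x t) (S t : Set (Fin n))) :
    (fun x => P (y x)) ∈ lowDeg (Fin n) Bool Γ (d * D) := by
  classical
  refine lowDeg_induction (p := fun P => (fun x => P (y x)) ∈ lowDeg (Fin n) Bool Γ (d * D)) hP
    ?_ ?_ ?_ ?_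
  · intro g T hT hg
    refine junta_mem (T.biUnion S) ((Finset.card_biUnion_le_card_mul T S D fun t _ => hS t).trans
      (Nat.mul_le_mul_right D hT)) fun x x' hx => hg fun t ht => hy t fun i hi => hx i ?_
    exact Finset.mem_biUnion.2 ⟨t, ht, hi⟩
  · exact lowDeg_const 0
  · intro f g hf hg
    exact AddSubgroup.add_mem _ hf hg
  · intro f hf
    exact AddSubgroup.neg_mem _ hf

/-- the value of a program whose instructions are conjunctions -/
def wordVal {U : Type*} [Group U] (w : List (Finset (Fin n) × U)) (x : Fin n → Bool) : U :=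
  (w.map fun t => if ∀ i ∈ t.1, x i = true then t.2 else 1).prod

theorem word_det (U : Type) [Group U] [Finite U] (hU : Group.IsNilpotent U) (D : ℕ) : ∃ c : ℕ,
    ∀ (n : ℕ) (w : List (Finset (Fin n) × U)), (∀ t ∈ w, t.1.card ≤ D) → ∀ C : Cb n,
      Dt c C (wordVal w) := by
  classical
  have : Fintype U := Fintype.ofFinite U
  obtain ⟨m, d, k', -, H⟩ := prog_sys U hU 1
  refine ⟨max (d * D) (Fintype.card (U × Fin k')), fun n w hw C => ?_⟩
  set N := w.length with hN
  let y : (Fin n → Bool) → Fin N → Bool := fun x t => decide (∀ i ∈ (w.get t).1, x i = true)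
  let l : List (Fin N × U × U) := (List.finRange N).map fun t => (t, 1, (w.get t).2)
  have hval : ∀ x, progVal l (y x) = wordVal w x := by
    intro x
    unfold progVal wordVal
    rw [List.map_map]
    conv_rhs => rw [← List.map_get_finRange w, List.map_map]
    congr 1
    refine List.map_congr_left fun t _ => ?_
    show (if decide (∀ i ∈ (w.get t).1, x i = true) = true then (w.get t).2 else 1) =
      if ∀ i ∈ (w.get t).1, x i = true then (w.get t).2 else 1
    simp only [decide_eq_true_eq]
  have h1 : ∀ a : U, GroupTest d k' N (fun z => decide (progVal l z = a)) := by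
    intro a
    refine (H N _ ?_).group
    exact ⟨0, fun _ => l, fun _ j => j.elim0, fun _ j => j.elim0, fun _ _ => true,
      fun g _ => decide (g 0 = a), fun x i => ⟨fun _ j => j.elim0, fun _ => rfl⟩, fun x => rfl⟩
  choose Γ inst P F hP hF using h1
  refine ⟨(univ : Finset (U × Fin k')).toList.map fun q x => P q.1 q.2 (y x) = 0, ?_,
    fun A hA => ?_, fun x x' _ _ hxx => ?_⟩
  · rw [List.length_map, Finset.length_toList, Finset.card_univ]
    exact le_max_right _ _
  · obtain ⟨q, -, rfl⟩ := List.mem_map.1 hA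
    refine MCond.mono (le_max_left _ _) (Or.inl ⟨Γ q.1 q.2, inst q.1 q.2, fun x => P q.1 q.2 (y x),
      lowDeg_subst (hP q.1 q.2) (S := fun t => (w.get t).1) (fun t => hw _ (List.get_mem w t))
        fun t x x' hx => ?_, fun _ => Iff.rfl⟩)
    show decide (∀ i ∈ (w.get t).1, x i = true) = decide (∀ i ∈ (w.get t).1, x' i = true)
    refine decide_eq_decide.2 (forall_congr' fun i => forall_congr' fun hi => ?_)
    rw [hx i hi]
  · rw [← hval, ← hval]
    have h2 := hF (progVal l (y x')) (y x)
    have h3 := hF (progVal l (y x')) (y x')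
    have h4 : (fun i => P (progVal l (y x')) i (y x) = 0) =
        fun i => P (progVal l (y x')) i (y x') = 0 := by
      funext i
      exact propext (hxx _ (List.mem_map.2 ⟨(progVal l (y x'), i), by simp, rfl⟩))
    rw [h4, ← h3] at h2
    simpa using h2

theorem wordVal_append {U : Type*} [Group U] (w w' : List (Finset (Fin n) × U))
    (x : Fin n → Bool) : wordVal (w ++ w') x = wordVal w x * wordVal w' x := by
  unfold wordVal
  rw [List.map_append, List.prod_append]

section unit

variable {M : Type} [Monoid M] {U : Type} [Group U] (φ : U →ₙ* M)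

/-- `g` is computed by a program. -/
def Rz (g : (Fin n → Bool) → U) : Prop :=
  ∃ l : List (Fin n × M × M), ∀ x, φ (g x) = φ 1 * monVal l x * φ 1

variable {φ}

theorem Rz.mul (h0 : 0 < n) {g g' : (Fin n → Bool) → U} (hg : Rz φ g) (hg' : Rz φ g') :
    Rz φ (fun x => g x * g' x) := by
  obtain ⟨l, hl⟩ := hg
  obtain ⟨l', hl'⟩ := hg'
  refine ⟨l ++ cst ⟨0, h0⟩ (φ 1) :: l', fun x => ?_⟩
  rw [map_mul, hl, hl', monVal_append, monVal_cst]
  calc φ 1 * monVal l x * φ 1 * (φ 1 * monVal l' x * φ 1) =
      φ 1 * monVal l x * (φ 1 * φ 1) * monVal l' x * φ 1 := by simp only [mul_assoc]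
    _ = _ := by rw [← map_mul, one_mul]; simp only [mul_assoc]

theorem Rz.one : Rz φ (fun _ : Fin n → Bool => 1) :=
  ⟨[], fun x => by
    show φ 1 = φ 1 * 1 * φ 1
    rw [mul_one, ← map_mul, one_mul]⟩

theorem Rz.inv [Finite U] (h0 : 0 < n) {g : (Fin n → Bool) → U} (hg : Rz φ g) :
    Rz φ (fun x => (g x)⁻¹) := by
  have h1 : ∀ j : ℕ, Rz φ (fun x => g x ^ j) := by
    intro j
    induction j with
    | zero => simpa using Rz.one
    | succ j ih =>
      have := ih.mul h0 hg
      simpa only [← pow_succ] using this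
  have h2 : (fun x => (g x)⁻¹) = fun x => g x ^ (Nat.card U - 1) := by
    funext x
    have h3 : g x ^ (Nat.card U - 1) * g x = 1 := by
      rw [← pow_succ, Nat.sub_add_cancel Nat.card_pos, pow_card_eq_one']
    exact (eq_inv_of_mul_eq_one_left h3).symm
  rw [h2]
  exact h1 _

theorem Rz.sub {g : (Fin n → Bool) → U} (hg : Rz φ g) (i : Fin n) :
    Rz φ (fun x => g (Function.update x i false)) := by
  obtain ⟨l, hl⟩ := hg
  obtain ⟨l', hl'⟩ := pull_prog (σ := fun x : Fin n → Bool => Function.update x i false) (fun j => by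
    by_cases h : j = i
    · exact ⟨j, fun _ => false, fun x => by rw [h, Function.update_self]⟩
    · exact ⟨j, fun c => c, fun x => by rw [Function.update_of_ne h]⟩) l
  exact ⟨l', fun x => by rw [hl, hl']⟩

/-- Programs do not isolate vertices. -/
theorem Rz.iso {D : ℕ} (hD : 0 < D) (hφ : Function.Injective φ)
    (hno : ∀ (l : List (Fin n × M × M)), NoOne D fun x => φ 1 * monVal l x * φ 1 ≠ φ 1)
    {g : (Fin n → Bool) → U} (hg : Rz φ g) {S : Finset (Fin n)} (hS : S.card = D)
    (h1 : ∀ x, (¬ ∀ i ∈ S, x i = true) → g x = 1) (x : Fin n → Bool) : g x = 1 := by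
  classical
  obtain ⟨l, hl⟩ := hg
  by_contra hx
  have hxS : ∀ i ∈ S, x i = true := by
    by_contra h
    exact hx (h1 x h)
  let e := Finset.equivFinOfCardEq hS
  let b : Fin n → Fin D := fun i => if h : i ∈ S then e ⟨i, h⟩ else ⟨0, hD⟩
  let x' : Fin n → Bool := fun i => if i ∈ S then false else x i
  have h0 : vx b (fun _ => true) x' x = x := by
    funext i
    rfl
  obtain ⟨ω, hω, h2⟩ := hno l b x' x (fun _ => true) (by
    rw [h0]
    show φ 1 * monVal l x * φ 1 ≠ φ 1
    rw [← hl]
    exact fun h => hx (hφ h))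
  obtain ⟨t, ht⟩ : ∃ t, ω t = false := by
    by_contra h3
    push Not at h3
    exact hω (funext fun t => by simpa using h3 t)
  rw [← hl] at h2
  refine h2 (congrArg φ (h1 _ fun h3 => ?_))
  have h4 := h3 (e.symm t).1 (e.symm t).2
  have h6 : b (e.symm t).1 = t := by
    show (if h : (e.symm t).1 ∈ S then e ⟨(e.symm t).1, h⟩ else ⟨0, hD⟩) = t
    rw [dif_pos (e.symm t).2]
    exact e.apply_symm_apply t
  have h5 : vx b ω x' x (e.symm t).1 = false := by
    show (if ω (b (e.symm t).1) then x (e.symm t).1 else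
      (if (e.symm t).1 ∈ S then false else x (e.symm t).1)) = false
    rw [h6, ht, if_pos (e.symm t).2]
    rfl
  rw [h5] at h4
  exact absurd h4 (by simp)

/-- Programs with values in a group are products of conjunctions of few bits. -/
theorem Rz.expand [Finite U] {D : ℕ} (hD : 0 < D) (h0 : 0 < n) (hφ : Function.Injective φ)
    (hno : ∀ (l : List (Fin n × M × M)), NoOne D fun x => φ 1 * monVal l x * φ 1 ≠ φ 1) :
    ∀ (L : List (Fin n)), L.Nodup → ∀ (S : Finset (Fin n)), (∀ i ∈ L, i ∉ S) → S.card < D →
      ∀ g : (Fin n → Bool) → U, Rz φ g →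
        (∀ x y : Fin n → Bool, (∀ i, i ∈ S ∨ i ∈ L → x i = y i) → g x = g y) →
        (∀ x, (¬ ∀ i ∈ S, x i = true) → g x = 1) →
        ∃ w : List (Finset (Fin n) × U), (∀ t ∈ w, t.1.card ≤ D) ∧ ∀ x, g x = wordVal w x := by
  classical
  intro L
  induction L with
  | nil =>
    intro _ S _ hS g _ h1 h2
    refine ⟨[(S, g fun _ => true)], fun t ht => by rw [List.mem_singleton.1 ht]; exact hS.le,
      fun x => ?_⟩
    unfold wordVal
    rw [List.map_singleton, List.prod_singleton]
    by_cases hx : ∀ i ∈ S, x i = true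
    · rw [if_pos hx]
      refine h1 _ _ fun i hi => ?_
      rcases hi with hi | hi
      · exact hx i hi
      · exact absurd hi List.not_mem_nil
    · rw [if_neg hx]
      exact h2 x hx
  | cons i L ih =>
    intro hnd S hLS hS g hg h1 h2
    have hiS : i ∉ S := hLS i List.mem_cons_self
    have hiL : i ∉ L := (List.nodup_cons.1 hnd).1
    have hcard : (insert i S).card = S.card + 1 := Finset.card_insert_of_notMem hiS
    -- the part without `x i`
    obtain ⟨w₂, hw₂, hg₂⟩ := ih (List.nodup_cons.1 hnd).2 S
      (fun j hj => hLS j (List.mem_cons_of_mem _ hj)) hS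
      (fun x => g (Function.update x i false)) (hg.sub i) (fun x y hxy => h1 _ _ fun j hj => by
        by_cases hji : j = i
        · rw [hji, Function.update_self, Function.update_self]
        · rw [Function.update_of_ne hji, Function.update_of_ne hji]
          refine hxy j (hj.imp_right fun h => ?_)
          exact (List.mem_cons.1 h).resolve_left hji) (fun x hx => h2 _ fun h => hx fun j hj => by
        have h3 := h j hj
        rwa [Function.update_of_ne (fun h4 : j = i => hiS (h4 ▸ hj))] at h3)
    -- the derivative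
    set g₁ : (Fin n → Bool) → U := fun x => g x * (g (Function.update x i false))⁻¹ with hg₁
    have hR : Rz φ g₁ := hg.mul h0 ((hg.sub i).inv h0)
    have h3 : ∀ x, (¬ ∀ j ∈ insert i S, x j = true) → g₁ x = 1 := by
      intro x hx
      by_cases hi : x i = true
      · have h4 : ¬ ∀ j ∈ S, x j = true := fun h => hx fun j hj => by
          rcases Finset.mem_insert.1 hj with rfl | hj
          · exact hi
          · exact h j hj
        have h5 : g (Function.update x i false) = 1 := h2 _ fun h => h4 fun j hj => by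
          have h6 := h j hj
          rwa [Function.update_of_ne (fun h4 : j = i => hiS (h4 ▸ hj))] at h6
        show g x * (g (Function.update x i false))⁻¹ = 1
        rw [h2 x h4, h5, inv_one, mul_one]
      · have h4 : Function.update x i false = x := by
          rw [Bool.not_eq_true] at hi
          rw [← hi, Function.update_eq_self]
        show g x * (g (Function.update x i false))⁻¹ = 1
        rw [h4, mul_inv_cancel]
    have h4 : ∃ w : List (Finset (Fin n) × U), (∀ t ∈ w, t.1.card ≤ D) ∧
        ∀ x, g₁ x = wordVal w x := by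
      by_cases hSD : S.card + 1 < D
      · refine ih (List.nodup_cons.1 hnd).2 (insert i S) (fun j hj => ?_) (by omega) g₁ hR
          (fun x y hxy => ?_) h3
        · rw [Finset.mem_insert]
          rintro (rfl | h)
          · exact hiL hj
          · exact hLS j (List.mem_cons_of_mem _ hj) h
        · show g x * (g (Function.update x i false))⁻¹ = g y * (g (Function.update y i false))⁻¹
          have h5 : ∀ j, j ∈ S ∨ j ∈ i :: L → x j = y j := fun j hj => hxy j (by
            rcases hj with hj | hj
            · exact Or.inl (Finset.mem_insert_of_mem hj)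
            · rcases List.mem_cons.1 hj with rfl | hj
              · exact Or.inl (Finset.mem_insert_self _ _)
              · exact Or.inr hj)
          rw [h1 x y h5, h1 (Function.update x i false) (Function.update y i false)]
          intro j hj
          by_cases hji : j = i
          · rw [hji, Function.update_self, Function.update_self]
          · rw [Function.update_of_ne hji, Function.update_of_ne hji]
            exact h5 j hj
      · refine ⟨[], by simp, fun x => ?_⟩
        rw [Rz.iso hD hφ hno hR (S := insert i S) (by omega) h3 x]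
        rfl
    obtain ⟨w₁, hw₁, hg₁'⟩ := h4
    refine ⟨w₁ ++ w₂, fun t ht => ?_, fun x => ?_⟩
    · rcases List.mem_append.1 ht with h | h
      · exact hw₁ t h
      · exact hw₂ t h
    · rw [wordVal_append, ← hg₁' x, ← hg₂ x]
      show g x = g x * (g (Function.update x i false))⁻¹ * g (Function.update x i false)
      rw [inv_mul_cancel_right]

end unit

end Pool.Agent.MP_ca1109_lc.Mon
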