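import Pool.Agent.MP_ca1109_lc.Mon.G4

/-!
# Programs which do not leave an `H`-class
-/

namespace Pool.Agent.MP_ca1109_lc.Mon

open Pool.Agent.MP_ca1109_lc.Mpg Pool.Agent.MP_ca1109_lc.Hyb Pool.Agent.MP_ca1109_lc.Agp Finset

variable {M : Type} [Monoid M]

theorem NonUniv.nilSub (hM : NonUniv M) : NilSub M := by
  intro G _ _ φ hφ
  by_contra hG
  obtain ⟨n, T, hT⟩ := hM
  exact hT (univ_group hG φ hφ n T)

theorem Dt.zero {n : ℕ} (hn : n = 0) {α : Type*} {c : ℕ} {C : Cb n} {f : (Fin n → Bool) → α} :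
    Dt c C f := by
  subst hn
  exact Dt.const fun x y _ _ => by rw [Subsingleton.elim x y]

/-- The group part of a program. -/
theorem group_det_e [Finite M] (hM : NonUniv M) {e : M} (he : IsIdempotentElem e) : ∃ c : ℕ,
    ∀ (n : ℕ) (l : List (Fin n × M × M)) (C : Cb n),
      (∀ x, C.In x → ∃ h, e * monVal l x * e * h = e) → Dt c C fun x => e * monVal l x * e := by
  classical
  have hee : e * e = e := he
  obtain ⟨D, hD, hno⟩ := noOne_group hM
  let _ := corMonoid he
  have : Finite (Cor e) := Subtype.finite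
  let φ : (Cor e)ˣ →ₙ* M := ⟨fun u => u.1.1, fun u v => rfl⟩
  have hφ : Function.Injective φ := fun u v huv => Units.ext (Subtype.ext huv)
  have hφ1 : φ 1 = e := rfl
  have hnil : Group.IsNilpotent (Cor e)ˣ := hM.nilSub _ φ hφ
  obtain ⟨c, hc⟩ := word_det (Cor e)ˣ hnil D
  refine ⟨c, fun n l C hl => ?_⟩
  rcases Nat.eq_zero_or_pos n with h0 | h0
  · exact Dt.zero h0
  obtain ⟨l', hl'⟩ := pull_prog (σ := C.ov) (fun i => by
    by_cases hi : i ∈ C.J
    · exact ⟨i, fun _ => C.z i, fun x => if_pos hi⟩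
    · exact ⟨i, fun a => a, fun x => if_neg hi⟩) l
  have hunit : ∀ x, ∃ u : (Cor e)ˣ, u.1.1 = e * monVal l' x * e := by
    intro x
    obtain ⟨h, hh⟩ := hl (C.ov x) (C.in_ov x)
    let A : Cor e := ⟨e * monVal l' x * e, by simp only [← mul_assoc, hee],
      by rw [mul_assoc, hee]⟩
    let B : Cor e := ⟨e * h * e, by simp only [← mul_assoc, hee], by rw [mul_assoc, hee]⟩
    have h1 : IsUnit A := by
      refine unit_of_right (b := B) (Subtype.ext ?_)
      show e * monVal l' x * e * (e * h * e) = e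
      calc e * monVal l' x * e * (e * h * e) = e * monVal l' x * (e * e) * h * e := by
            simp only [mul_assoc]
        _ = e * monVal l (C.ov x) * e * h * e := by rw [hee, hl']
        _ = e := by rw [hh, hee]
    obtain ⟨u, hu⟩ := h1
    exact ⟨u, by rw [hu]⟩
  choose g hg using hunit
  have hR : Rz φ g := ⟨l', fun x => hg x⟩
  obtain ⟨w, hw, hgw⟩ := Rz.expand hD h0 hφ (fun l => by
    rw [hφ1]
    exact hno n l e hee) (List.finRange n) (List.nodup_finRange n) ∅ (by simp) (by simpa using hD)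
    g hR (fun x y hxy => by
      have : x = y := funext fun i => hxy i (Or.inr (List.mem_finRange i))
      rw [this]) (fun x hx => absurd (fun i hi => absurd hi (Finset.notMem_empty i)) hx)
  refine (hc n w hw C).of fun x y hx hy hxy => ?_
  have h1 : ∀ x, C.In x → e * monVal l x * e = (g x).1.1 := by
    intro x hx
    rw [hg, hl', Cb.ov_of_in hx]
  rw [h1 x hx, h1 y hy, hgw, hgw, hxy]

theorem group_det [Finite M] (hM : NonUniv M) : ∃ c : ℕ,
    ∀ (e : M), e * e = e → ∀ (n : ℕ) (l : List (Fin n × M × M)) (C : Cb n),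
      (∀ x, C.In x → ∃ h, e * monVal l x * e * h = e) → Dt c C fun x => e * monVal l x * e := by
  classical
  have : Fintype M := Fintype.ofFinite M
  have h1 : ∀ e : M, ∃ c : ℕ, e * e = e → ∀ (n : ℕ) (l : List (Fin n × M × M)) (C : Cb n),
      (∀ x, C.In x → ∃ h, e * monVal l x * e * h = e) → Dt c C fun x => e * monVal l x * e := by
    intro e
    by_cases he : e * e = e
    · obtain ⟨c, hc⟩ := group_det_e hM (e := e) he
      exact ⟨c, fun _ => hc⟩
    · exact ⟨0, fun h => absurd h he⟩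
  choose cc hcc using h1
  exact ⟨∑ e, cc e, fun e he n l C h => (hcc e he n l C h).mono
    (Finset.single_le_sum (fun _ _ => Nat.zero_le _) (Finset.mem_univ e))⟩

/-- The elements which map the `H`-class of `u` to itself. -/
def Hs (u m : M) : Prop := Al u m ∧ ∃ c, u * m = c * u

theorem Hs.one (u : M) : Hs u 1 := ⟨⟨1, by simp⟩, 1, by simp⟩

theorem Hs.mul {u m m' : M} (h : Hs u m) (h' : Hs u m') : Hs u (m * m') := by
  obtain ⟨⟨z, hz⟩, c, hc⟩ := h
  obtain ⟨⟨z', hz'⟩, c', hc'⟩ := h'
  refine ⟨⟨z' * z, ?_⟩, c * c', ?_⟩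
  · calc u * (m * m') * (z' * z) = (u * m) * m' * z' * z := by simp only [mul_assoc]
      _ = c * (u * m' * z') * z := by rw [hc]; simp only [mul_assoc]
      _ = u := by rw [hz', ← hc, hz]
  · calc u * (m * m') = (u * m) * m' := (mul_assoc _ _ _).symm
      _ = c * (u * m') := by rw [hc, mul_assoc]
      _ = c * c' * u := by rw [hc', mul_assoc]

theorem Hs.pow {u m : M} (h : Hs u m) (j : ℕ) : Hs u (m ^ j) := by
  induction j with
  | zero => simpa using Hs.one u
  | succ j ih => rw [pow_succ]; exact ih.mul h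

/-- The Schützenberger group is realised by a subgroup. -/
theorem min_idem [Finite M] (u : M) : ∃ e : M, e * e = e ∧ u * e = u ∧
    ∀ m, Hs u m → u * m * e = u * m ∧ ∃ h, e * m * e * h = e := by
  classical
  have : Fintype M := Fintype.ofFinite M
  obtain ⟨e, he, hmin⟩ := Finset.exists_min_image
    (univ.filter fun e : M => e * e = e ∧ Hs u e) rk ⟨1, by simp [Hs.one]⟩
  rw [Finset.mem_filter] at he
  obtain ⟨-, hee, hHe⟩ := he
  have hue : u * e = u := by
    obtain ⟨⟨z, hz⟩, c, hc⟩ := hHe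
    have h1 : c * u = u * e := hc.symm
    have h2 : c * (u * e) = u * e := by
      rw [← mul_assoc, h1, mul_assoc, hee]
    calc u * e = c * u := hc
      _ = c * (u * e * z) := by rw [hz]
      _ = c * (u * e) * z := by rw [← mul_assoc]
      _ = u := by rw [h2, hz]
  refine ⟨e, hee, hue, fun m hm => ?_⟩
  refine ⟨?_, ?_⟩
  · obtain ⟨-, c, hc⟩ := hm
    rw [hc, mul_assoc, hue]
  · obtain ⟨k, hk, hi⟩ := exists_idem (e * m * e)
    obtain ⟨k, rfl⟩ : ∃ j, k = j + 1 := ⟨k - 1, by omega⟩
    have h1 : Hs u ((e * m * e) ^ (k + 1)) := ((hHe.mul hm).mul hHe).pow _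
    have h2 := hmin ((e * m * e) ^ (k + 1)) (by
      rw [Finset.mem_filter]
      exact ⟨Finset.mem_univ _, hi, h1⟩)
    have h3 : (e * m * e) ^ (k + 1) = e * (m * e * (e * m * e) ^ k) := by
      rw [pow_succ']; simp only [mul_assoc]
    have h4 : Al e (m * e * (e * m * e) ^ k) := by
      by_contra hcon
      have := rk_lt' hcon
      rw [← h3] at this
      omega
    obtain ⟨z, hz⟩ := h4
    rw [← h3] at hz
    have hi' : (e * m * e) ^ (k + 1) * (e * m * e) ^ (k + 1) = (e * m * e) ^ (k + 1) := hi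
    have h5 : (e * m * e) ^ (k + 1) * e = (e * m * e) ^ (k + 1) := by
      rw [pow_succ, mul_assoc, mul_assoc (e * m) e e, hee]
    have h6 : (e * m * e) ^ (k + 1) * e = e := by
      calc (e * m * e) ^ (k + 1) * e = (e * m * e) ^ (k + 1) * ((e * m * e) ^ (k + 1) * z) := by
            rw [hz]
        _ = (e * m * e) ^ (k + 1) * z := by rw [← mul_assoc, hi']
        _ = e := hz
    refine ⟨(e * m * e) ^ k, ?_⟩
    rw [← pow_succ', ← h5, h6]

/-- Programs which do not leave an `H`-class. -/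
theorem gdet [Finite M] (hM : NonUniv M) : ∃ c : ℕ, ∀ (u v : M), (∃ a b, v = a * u * b) →
    ∀ (n : ℕ) (l : List (Fin n × M × M)) (C : Cb n), (∀ x, C.In x → Al u (monVal l x * v)) →
      Dt c C fun x => u * monVal l x * v := by
  obtain ⟨c, hc⟩ := group_det hM
  refine ⟨c, fun u v hv n l C hl => ?_⟩
  rcases Nat.eq_zero_or_pos n with h0 | h0
  · exact Dt.zero h0
  obtain ⟨a, b, hab⟩ := hv
  obtain ⟨z, hz⟩ := hl C.z C.in_z
  set m₀ := monVal l C.z with hm₀
  obtain ⟨z₁, hz₁⟩ := stab_left (x := v) (y := u * m₀) (a := a) (b := z * b) (by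
    calc a * (u * m₀ * v) * (z * b) = a * (u * (m₀ * v) * z) * b := by simp only [mul_assoc]
      _ = v := by rw [hz, ← hab])
  obtain ⟨e, hee, hue, he⟩ := min_idem u
  have hval : ∀ x, monVal (l ++ [cst ⟨0, h0⟩ (v * z)]) x = monVal l x * (v * z) := by
    intro x
    rw [monVal_append, monVal_cst]
    show _ * (_ * 1) = _
    rw [mul_one]
  have hH : ∀ x, C.In x → u * monVal l x * v = (u * monVal l x * z₁) * (u * m₀ * v) := by
    intro x _
    calc u * monVal l x * v = u * monVal l x * (z₁ * (u * m₀ * v)) := by rw [← hz₁]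
      _ = _ := by simp only [mul_assoc]
  have hz' : u * m₀ * v * z = u := by
    rw [← hz]
    conv_rhs => rw [← mul_assoc u m₀ v]
    rw [hz]
  have h3 : ∀ x, C.In x → u * (monVal l x * (v * z)) * (m₀ * v) = u * monVal l x * v := by
    intro x hx
    calc u * (monVal l x * (v * z)) * (m₀ * v) = (u * monVal l x * v) * z * (m₀ * v) := by
          simp only [mul_assoc]
      _ = (u * monVal l x * z₁) * ((u * m₀ * v * z) * m₀ * v) := by
          rw [hH x hx]; simp only [mul_assoc]
      _ = (u * monVal l x * z₁) * (u * m₀ * v) := by rw [hz']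
      _ = _ := (hH x hx).symm
  have hHs : ∀ x, C.In x → Hs u (monVal (l ++ [cst ⟨0, h0⟩ (v * z)]) x) := by
    intro x hx
    rw [hval]
    obtain ⟨zx, hzx⟩ := hl x hx
    refine ⟨⟨m₀ * v * zx, ?_⟩, u * monVal l x * z₁, ?_⟩
    · calc u * (monVal l x * (v * z)) * (m₀ * v * zx) =
          (u * (monVal l x * (v * z)) * (m₀ * v)) * zx := by simp only [mul_assoc]
        _ = u * (monVal l x * v) * zx := by rw [h3 x hx]; simp only [mul_assoc]
        _ = u := hzx
    · calc u * (monVal l x * (v * z)) = (u * monVal l x * v) * z := by simp only [mul_assoc]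
        _ = (u * monVal l x * z₁) * (u * m₀ * v * z) := by
          rw [hH x hx]; simp only [mul_assoc]
        _ = _ := by rw [hz']
  refine (hc e hee n (l ++ [cst ⟨0, h0⟩ (v * z)]) C fun x hx => (he _ (hHs x hx)).2).of
    fun x y hx hy hxy => ?_
  have h5 : ∀ x, C.In x → u * monVal l x * v =
      u * (e * monVal (l ++ [cst ⟨0, h0⟩ (v * z)]) x * e) * (m₀ * v) := by
    intro x hx
    have h6 := (he _ (hHs x hx)).1
    calc u * monVal l x * v = u * (monVal l x * (v * z)) * (m₀ * v) := (h3 x hx).symm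
      _ = (u * monVal (l ++ [cst ⟨0, h0⟩ (v * z)]) x * e) * (m₀ * v) := by rw [h6, hval]
      _ = ((u * e) * monVal (l ++ [cst ⟨0, h0⟩ (v * z)]) x * e) * (m₀ * v) := by rw [hue]
      _ = _ := by simp only [mul_assoc]
  rw [h5 x hx, h5 y hy, hxy]

end Pool.Agent.MP_ca1109_lc.Mon
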