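import Pool.Agent.MP_ca1109_lc.Mon.G5

/-!
# Block-aperiodic monoids
-/

namespace Pool.Agent.MP_ca1109_lc.Mon

open Pool.Agent.MP_ca1109_lc.Mpg Pool.Agent.MP_ca1109_lc.Hyb Pool.Agent.MP_ca1109_lc.Agp Finset
  MulOpposite

variable {M : Type} [Monoid M]

variable (M) in
/-- If `g` is in the maximal subgroup with the unit `f` and `e ≤ f` is an idempotent then `e * g * e`
generates the same ideal as `e`. -/
def BlockAp : Prop :=
  ∀ e f g h : M, e * e = e → f * f = f → e * f = e → f * e = e → g * f = g → f * g = g →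
    g * h = f → h * g = f → JEq (e * g * e) e

theorem BlockAp.al [Finite M] (hB : BlockAp M) {f g h u a b : M} (hf : f * f = f) (hgf : g * f = g)
    (hfg : f * g = g) (hgh : g * h = f) (hhg : h * g = f) (hA : Al u (a * f * b)) :
    Al u (a * g * b) := by
  obtain ⟨c, hc⟩ := hA
  set y := f * (b * c * a) * f with hy
  have h1 : u * a * f = u * a * f * y := by
    calc u * a * f = (u * (a * f * b) * c) * a * f := by rw [hc]
      _ = u * a * (f * f) * (b * c * a) * f := by rw [hf]; simp only [mul_assoc]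
      _ = _ := by rw [hy]; simp only [mul_assoc]
  obtain ⟨k, hk, hi⟩ := exists_idem y
  obtain ⟨k, rfl⟩ : ∃ j, k = j + 1 := ⟨k - 1, by omega⟩
  set e := y ^ (k + 1) with he
  have hee : e * e = e := hi
  have hyf : y * f = y := by rw [hy, mul_assoc, hf]
  have hfy : f * y = y := by rw [hy, ← mul_assoc, ← mul_assoc, hf]
  have hef : e * f = e := by rw [he, pow_succ, mul_assoc, hyf]
  have hfe : f * e = e := by rw [he, pow_succ', ← mul_assoc, hfy]
  have hue : u * a * f * e = u * a * f := pow_fix h1 (k + 1)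
  obtain ⟨⟨p, q, hpq⟩, -⟩ := (hB e f g h hee hf hef hfe hgf hfg hgh hhg)
  obtain ⟨z, hz⟩ := stab_right (x := e) (y := g * e) (a := p) (b := q) (by
    calc p * (e * (g * e)) * q = p * (e * g * e) * q := by simp only [mul_assoc]
      _ = e := hpq)
  have h2 : u * a * f = u * a * g * e * z := by
    calc u * a * f = u * a * f * e := hue.symm
      _ = u * a * f * (e * (g * e) * z) := by rw [← hz]
      _ = (u * a * f * e) * g * e * z := by simp only [mul_assoc]
      _ = u * a * (f * g) * e * z := by rw [hue]; simp only [mul_assoc]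
      _ = _ := by rw [hfg]
  have h3 : e = f * b * (c * a * f * y ^ k) := by
    rw [he, pow_succ', hy]
    simp only [mul_assoc]
  refine ⟨(c * a * f * y ^ k) * z * b * c, ?_⟩
  calc u * (a * g * b) * ((c * a * f * y ^ k) * z * b * c) =
      u * a * (g * f) * b * ((c * a * f * y ^ k) * z * b * c) := by rw [hgf]; simp only [mul_assoc]
    _ = u * a * g * (f * b * (c * a * f * y ^ k)) * z * b * c := by simp only [mul_assoc]
    _ = u * a * g * e * z * b * c := by rw [← h3]
    _ = u * (a * f * b) * c := by rw [← h2]; simp only [mul_assoc]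
    _ = u := hc

theorem BlockAp.al_iff [Finite M] (hB : BlockAp M) {f g h u a b : M} (hf : f * f = f)
    (hgf : g * f = g) (hfg : f * g = g) (hgh : g * h = f) (hhg : h * g = f) (hhf : h * f = h)
    (hfh : f * h = h) : Al u (a * f * b) ↔ Al u (a * g * b) := by
  refine ⟨hB.al hf hgf hfg hgh hhg, fun hA => ?_⟩
  have h1 := hB.al (a := a * g) (b := b) hf hhf hfh hhg hgh (u := u) (by
    rw [mul_assoc a g f, hgf]
    exact hA)
  rwa [mul_assoc a g h, hgh] at h1

/-- The syntactic congruence of `{m | u * m` generates the same right ideal as `u}`. -/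
def syn (u : M) : Con M where
  r m m' := ∀ a b, Al u (a * m * b) ↔ Al u (a * m' * b)
  iseqv := ⟨fun _ _ _ => Iff.rfl, fun h a b => (h a b).symm, fun h h' a b => (h a b).trans (h' a b)⟩
  mul' := by
    intro w x y z h h' a b
    have h1 := h a (y * b)
    have h2 := h' (a * x) b
    have e1 : a * (w * y) * b = a * w * (y * b) := by simp only [mul_assoc]
    have e2 : a * x * (y * b) = a * x * y * b := by simp only [mul_assoc]
    have e3 : a * (x * z) * b = a * x * z * b := by simp only [mul_assoc]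
    rw [e1, e3, h1, e2, h2]

theorem syn_iff {u m m' : M} : syn u m m' ↔ ∀ a b, Al u (a * m * b) ↔ Al u (a * m' * b) := Iff.rfl

instance finite_syn [Finite M] (u : M) : Finite (syn u).Quotient :=
  Finite.of_surjective _ (Con.mk'_surjective (c := syn u))

theorem syn_aper [Finite M] (hB : BlockAp M) (u : M) : Aper (syn u).Quotient := by
  intro q
  obtain ⟨m, rfl⟩ := Con.mk'_surjective q
  obtain ⟨k, hk, hi⟩ := exists_idem m
  refine ⟨k, ?_⟩
  rw [← map_pow, ← map_pow]
  refine ((Con.eq (syn u)).2 ?_).symm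
  have hf : m ^ k * m ^ k = m ^ k := hi
  have e1 : m ^ (k + 1) * m ^ k = m ^ (k + 1) := by
    rw [pow_succ', mul_assoc, hf]
  have e2 : m ^ k * m ^ (k + 1) = m ^ (k + 1) := by
    rw [pow_succ, ← mul_assoc, hf]
  have e3 : m ^ (2 * k - 1) * m ^ k = m ^ (2 * k - 1) := by
    obtain ⟨k, rfl⟩ : ∃ j, k = j + 1 := ⟨k - 1, by omega⟩
    have : 2 * (k + 1) - 1 = k + (k + 1) := by omega
    rw [this, pow_add, mul_assoc, hf]
  have e4 : m ^ k * m ^ (2 * k - 1) = m ^ (2 * k - 1) := by
    rw [← pow_add, add_comm, pow_add, e3]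
  have e5 : m ^ (k + 1) * m ^ (2 * k - 1) = m ^ k := by
    rw [← pow_add, show k + 1 + (2 * k - 1) = k + k + k by omega, pow_add, pow_add, hf, hf]
  have e6 : m ^ (2 * k - 1) * m ^ (k + 1) = m ^ k := by
    rw [← pow_add, add_comm, pow_add, e5]
  intro a b
  exact hB.al_iff hf e1 e2 e5 e6 e3 e4

theorem monVal_map {M' : Type} [Monoid M'] (π : M →* M') {n : ℕ} (l : List (Fin n × M × M))
    (x : Fin n → Bool) :
    monVal (l.map fun t => (t.1, π t.2.1, π t.2.2)) x = π (monVal l x) := by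
  induction l with
  | nil => exact (map_one π).symm
  | cons t l ih =>
    rw [List.map_cons, monVal_cons, monVal_cons, ih, map_mul]
    congr 1
    show (if x t.1 then π t.2.2 else π t.2.1) = _
    split_ifs <;> rfl

theorem NonUniv.syn (hM : NonUniv M) (u : M) : NonUniv (syn u).Quotient := by
  obtain ⟨n, T, hT⟩ := hM
  refine ⟨n, T, fun ⟨l, A, hl⟩ => hT ?_⟩
  have hs := Con.mk'_surjective (c := Mon.syn u)
  choose s hs using hs
  refine ⟨l.map fun t => (t.1, s t.2.1, s t.2.2), fun m => A ((Mon.syn u).mk' m), fun x => ?_⟩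
  rw [hl]
  show _ = A ((Mon.syn u).mk' _)
  rw [← monVal_map]
  congr 2
  rw [List.map_map]
  conv_lhs => rw [← List.map_id l]
  refine List.map_congr_left fun t _ => ?_
  show t = (t.1, (Mon.syn u).mk' (s t.2.1), (Mon.syn u).mk' (s t.2.2))
  rw [hs, hs]

theorem al_const [Finite M] (hM : NonUniv M) (hB : BlockAp M) : ∃ c : ℕ, ∀ (u : M) (n : ℕ)
    (l : List (Fin n × M × M)) (C : Cb n), ∃ C', C.Le c C' ∧
      ∀ x y, C'.In x → C'.In y → ∀ a b, (Al u (a * monVal l x * b) ↔ Al u (a * monVal l y * b)) := by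
  classical
  have : Fintype M := Fintype.ofFinite M
  have h1 : ∀ u : M, ∃ c : ℕ, ∀ (n : ℕ) (l : List (Fin n × M × M)) (C : Cb n), ∃ C', C.Le c C' ∧
      ∀ x y, C'.In x → C'.In y →
        ∀ a b, (Al u (a * monVal l x * b) ↔ Al u (a * monVal l y * b)) := by
    intro u
    obtain ⟨c, hc⟩ := const_cube (hM.syn u) (syn_aper hB u)
    refine ⟨c, fun n l C => ?_⟩
    obtain ⟨C', h1, h2⟩ := hc n (l.map fun t => (t.1, (syn u).mk' t.2.1, (syn u).mk' t.2.2)) C
    refine ⟨C', h1, fun x y hx hy => ?_⟩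
    have h3 := h2 x y hx hy
    rw [monVal_map, monVal_map] at h3
    exact (Con.eq (syn u)).1 h3
  choose cc hcc using h1
  refine ⟨∑ u, cc u, fun u n l C => ?_⟩
  obtain ⟨C', h1, h2⟩ := hcc u n l C
  exact ⟨C', h1.mono (Finset.single_le_sum (fun _ _ => Nat.zero_le _) (Finset.mem_univ u)), h2⟩

theorem BlockAp.op (hB : BlockAp M) : BlockAp Mᵐᵒᵖ := by
  intro e f g h h1 h2 h3 h4 h5 h6 h7 h8
  have h9 := hB (unop e) (unop f) (unop g) (unop h) (by rw [← unop_mul, h1])
    (by rw [← unop_mul, h2]) (by rw [← unop_mul, h4]) (by rw [← unop_mul, h3])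
    (by rw [← unop_mul, h6]) (by rw [← unop_mul, h5]) (by rw [← unop_mul, h8])
    (by rw [← unop_mul, h7])
  obtain ⟨⟨a, b, hab⟩, c, d, hcd⟩ := h9
  refine ⟨⟨MulOpposite.op b, MulOpposite.op a, unop_injective ?_⟩,
    MulOpposite.op d, MulOpposite.op c, unop_injective ?_⟩
  · simpa [mul_assoc] using hab
  · simpa [mul_assoc] using hcd

theorem al_const' [Finite M] (hM : NonUniv M) (hB : BlockAp M) : ∃ c : ℕ, ∀ (v : M) (n : ℕ)
    (l : List (Fin n × M × M)) (C : Cb n), ∃ C', C.Le c C' ∧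
      ∀ x y, C'.In x → C'.In y →
        ∀ a b, (Al' v (a * monVal l x * b) ↔ Al' v (a * monVal l y * b)) := by
  obtain ⟨c, hc⟩ := al_const hM.op hB.op
  refine ⟨c, fun v n l C => ?_⟩
  obtain ⟨C', h1, h2⟩ := hc (MulOpposite.op v) n (opL l) C
  refine ⟨C', h1, fun x y hx hy a b => ?_⟩
  have h3 := h2 x y hx hy (MulOpposite.op b) (MulOpposite.op a)
  rw [monVal_opL, monVal_opL, ← op_mul, ← op_mul, ← op_mul, ← op_mul, al_op, al_op] at h3
  rwa [← mul_assoc, ← mul_assoc] at h3

end Pool.Agent.MP_ca1109_lc.Mon
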