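import Pool.Agent.MP_ca1109_lc.Mon.G6

/-!
# Programs over block-aperiodic monoids which are not universal
-/

namespace Pool.Agent.MP_ca1109_lc.Mon

open Pool.Agent.MP_ca1109_lc.Mpg Pool.Agent.MP_ca1109_lc.Hyb Pool.Agent.MP_ca1109_lc.Agp Finset
  MulOpposite

theorem multi {n : ℕ} {J : Type*} [Fintype J] (P : J → Cb n → Prop)
    (hmono : ∀ j k (C C' : Cb n), C.Le k C' → P j C → P j C') (cc : J → ℕ) (C : Cb n)
    (h : ∀ j k (C₁ : Cb n), C.Le k C₁ → ∃ C₂, C₁.Le (cc j) C₂ ∧ P j C₂) :
    ∃ C', C.Le (∑ j, cc j) C' ∧ ∀ j, P j C' := by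
  classical
  have h1 : ∀ S : Finset J, ∃ C', C.Le (∑ j ∈ S, cc j) C' ∧ ∀ j ∈ S, P j C' := by
    intro S
    induction S using Finset.induction_on with
    | empty => exact ⟨C, Cb.Le.refl _ _, by simp⟩
    | insert j S hj ih =>
      obtain ⟨C', h2, h3⟩ := ih
      obtain ⟨C₂, h4, h5⟩ := h j _ C' h2
      refine ⟨C₂, (h2.trans h4).mono ?_, fun i hi => ?_⟩
      · rw [Finset.sum_insert hj, add_comm]
      · rcases Finset.mem_insert.1 hi with rfl | hi
        · exact h5
        · exact hmono i _ C' C₂ h4 (h3 i hi)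
  obtain ⟨C', h2, h3⟩ := h1 univ
  exact ⟨C', h2, fun j => h3 j (Finset.mem_univ j)⟩

variable {M : Type} [Monoid M]

variable (M) in
/-- Programs which never fall from `u` are determined by boundedly many questions if boundedly many
bits are fixed. -/
def NFD (u : M) : Prop := ∃ c : ℕ, ∀ (n : ℕ) (l : List (Fin n × M × M)) (C : Cb n),
  (∀ x, C.In x → Al u (monVal l x)) → ∃ C', C.Le c C' ∧ Dt c C' fun x => u * monVal l x

variable (M) in
def NFD' (v : M) : Prop := ∃ c : ℕ, ∀ (n : ℕ) (l : List (Fin n × M × M)) (C : Cb n),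
  (∀ x, C.In x → Al' v (monVal l x)) → ∃ C', C.Le c C' ∧ Dt c C' fun x => monVal l x * v

theorem nfd'_of_op {v : M} (h : NFD Mᵐᵒᵖ (op v)) : NFD' M v := by
  obtain ⟨c, hc⟩ := h
  refine ⟨c, fun n l C hl => ?_⟩
  obtain ⟨C', h1, h2⟩ := hc n (opL l) C fun x hx => by
    rw [monVal_opL, al_op]
    exact hl x hx
  refine ⟨C', h1, h2.of fun x y _ _ h3 => ?_⟩
  rw [monVal_opL, monVal_opL, ← op_mul, ← op_mul] at h3
  exact op_injective h3

theorem nfd'_op_of {v : M} (h : NFD M v) : NFD' Mᵐᵒᵖ (op v) := by
  obtain ⟨c, hc⟩ := h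
  refine ⟨c, fun n l C hl => ?_⟩
  obtain ⟨C', h1, h2⟩ := hc n (unL l) C fun x hx => by
    rw [monVal_unL]
    obtain ⟨z, hz⟩ := hl x hx
    refine ⟨unop z, ?_⟩
    have := congrArg unop hz
    simpa using this
  refine ⟨C', h1, h2.of fun x y _ _ h3 => ?_⟩
  rw [monVal_unL, monVal_unL] at h3
  apply unop_injective
  simpa using h3

open Classical in
/-- the value, if it generates the same right ideal as `u` -/
noncomputable def hv (u v : M) (m : M) : Option M :=
  if Al u (m * v) then some (u * m * v) else none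

theorem hv_congr {u v v' m m' m₀ m₀' : M} (h : m * v = m₀ * v') (h' : m' * v = m₀' * v') :
    (hv u v m = hv u v m') ↔ (hv u v' m₀ = hv u v' m₀') := by
  unfold hv
  rw [mul_assoc u m v, mul_assoc u m' v, mul_assoc u m₀ v', mul_assoc u m₀' v', h, h']

theorem nfd_step [Finite M] (hM : NonUniv M) (hB : BlockAp M) (u : M)
    (ih : ∀ v : M, (∃ a b, u = a * v * b) → (¬ ∃ a b, v = a * u * b) → NFD' M v) : NFD M u := by
  classical
  have : Fintype M := Fintype.ofFinite M
  obtain ⟨D, hD, hno⟩ := noOne_fall' hM
  obtain ⟨cA, hA⟩ := al_const hM hB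
  obtain ⟨cB, hB'⟩ := al_const' hM hB
  obtain ⟨cG, hG⟩ := gdet hM
  obtain ⟨K, hK⟩ := Cb.force D (cB + 1) hD
  have key : ∀ r (v : M), rk' v = r → ∃ c : ℕ, ∀ (n : ℕ) (l : List (Fin n × M × M)) (C : Cb n),
      (∀ x, C.In x → Al u (monVal l x)) →
        ∃ C', C.Le c C' ∧ Dt c C' fun x => hv u v (monVal l x) := by
    intro r
    induction r using Nat.strong_induction_on with
    | _ r ihr =>
      intro v hv'
      by_cases hvu : ∃ a b, v = a * u * b
      · -- the ideal of `v` is that of `u`
        refine ⟨cA + cG, fun n l C hl => ?_⟩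
        obtain ⟨C₁, h1, h2⟩ := hA u n l C
        refine ⟨C₁, h1.mono (Nat.le_add_right _ _), ?_⟩
        by_cases h3 : Al u (monVal l C₁.z * v)
        · have h4 : ∀ x, C₁.In x → Al u (monVal l x * v) := by
            intro x hx
            have h5 := (h2 x C₁.z hx C₁.in_z 1 v)
            rw [one_mul, one_mul] at h5
            exact h5.2 h3
          refine ((hG u v hvu n l C₁ h4).of fun x y hx hy hxy => ?_).mono (Nat.le_add_left _ _)
          show hv u v (monVal l x) = hv u v (monVal l y)
          unfold hv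
          rw [if_pos (h4 x hx), if_pos (h4 y hy), hxy]
        · have h4 : ∀ x, C₁.In x → ¬ Al u (monVal l x * v) := by
            intro x hx
            have h5 := (h2 x C₁.z hx C₁.in_z 1 v)
            rw [one_mul, one_mul] at h5
            exact fun h => h3 (h5.1 h)
          refine Dt.const fun x y hx hy => ?_
          unfold hv
          rw [if_neg (h4 x hx), if_neg (h4 y hy)]
      by_cases huv : ∃ a b, u = a * v * b
      swap
      · refine ⟨0, fun n l C hl => ⟨C, Cb.Le.refl _ _, Dt.const fun x y hx hy => ?_⟩⟩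
        have h4 : ∀ m, ¬ Al u (m * v) := by
          rintro m ⟨z, hz⟩
          refine huv ⟨u * m, z, ?_⟩
          calc u = u * (m * v) * z := hz.symm
            _ = _ := by simp only [mul_assoc]
        unfold hv
        rw [if_neg (h4 _), if_neg (h4 _)]
      obtain ⟨c₁, hc₁⟩ := ih v huv hvu
      have h1 : ∀ v' : M, ∃ c : ℕ, rk' v' < r → ∀ (n : ℕ) (l : List (Fin n × M × M)) (C : Cb n),
          (∀ x, C.In x → Al u (monVal l x)) →
            ∃ C', C.Le c C' ∧ Dt c C' fun x => hv u v' (monVal l x) := by
        intro v'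
        by_cases h : rk' v' < r
        · obtain ⟨c, hc⟩ := ihr _ h v' rfl
          exact ⟨c, fun _ => hc⟩
        · exact ⟨0, fun h' => absurd h' h⟩
      choose cc hcc using h1
      set Cc := ∑ v', cc v' with hCc
      refine ⟨K + c₁ + Cc + (Fintype.card M * Cc + Cc), fun n l C hl => ?_⟩
      by_cases hA' : ∀ x, C.In x → Al' v (monVal l x)
      · obtain ⟨C', h2, h3⟩ := hc₁ n l C hA'
        refine ⟨C', h2.mono (by omega), (h3.of fun x y _ _ hxy => ?_).mono (by omega)⟩
        show hv u v (monVal l x) = hv u v (monVal l y)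
        unfold hv
        rw [mul_assoc u, mul_assoc u, hxy]
      · obtain ⟨l₂, t, l₁, h2, h3, h4⟩ := suffix_split
          (Q := fun l : List (Fin n × M × M) => ∀ x, C.In x → Al' v (monVal l x))
          (fun x _ => ⟨1, by show 1 * (1 * v) = v; simp⟩) hA'
        push Not at h4
        obtain ⟨C₁, h5, h6, h7⟩ := hK n (fun x => ¬ Al' v (monVal (t :: l₁) x)) (hno n _ v)
          (fun C₁ => ∀ x y, C₁.In x → C₁.In y → (∀ a b, (Al' v (a * monVal l₁ x * b) ↔
            Al' v (a * monVal l₁ y * b))) ∧ x t.1 = y t.1)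
          C (fun k C₁ hk => by
            obtain ⟨C₂, h8, h9⟩ := hB' v n l₁ C₁
            obtain ⟨C₃, h10, h11⟩ := C₂.exists_fix t.1
            exact ⟨C₃, h8.trans h10, fun x y hx hy =>
              ⟨h9 x y (h10.mem hx) (h10.mem hy), h11 x y hx hy⟩⟩)
          (fun k C₁ _ hP => by
            have h8 : ∀ x, C₁.In x → (Al' v (monVal (t :: l₁) x) ↔
                Al' v (monVal (t :: l₁) C₁.z)) := by
              intro x hx
              obtain ⟨h9, h10⟩ := hP x C₁.z hx C₁.in_z
              have h11 := h9 (if C₁.z t.1 then t.2.2 else t.2.1) 1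
              rw [monVal_cons, monVal_cons, h10]
              rwa [mul_one, mul_one] at h11
            by_cases h9 : Al' v (monVal (t :: l₁) C₁.z)
            · exact Or.inr fun x hx h => h ((h8 x hx).2 h9)
            · exact Or.inl fun x hx h => h9 ((h8 x hx).1 h)) h4
        -- the value after the fall
        obtain ⟨C₂, h8, h9⟩ := hc₁ n l₁ C₁ fun x hx => h3 x (h5.mem hx)
        have h10 : Dt c₁ C₂ fun x => monVal (t :: l₁) x * v := h9.of fun x y hx hy hxy => by
          show monVal (t :: l₁) x * v = monVal (t :: l₁) y * v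
          have h11 := (h6 x y (h8.mem hx) (h8.mem hy)).2
          rw [monVal_cons, monVal_cons, mul_assoc, mul_assoc, hxy, h11]
        obtain ⟨C₃, h12, h13⟩ := multi (fun v' C' => rk' v' < r →
            Dt (cc v') C' fun x => hv u v' (monVal l₂ x))
          (fun v' k C' C'' h h' hr => (h' hr).sub h) cc C₂ (fun v' k C' hk => by
            by_cases hr : rk' v' < r
            · obtain ⟨C'', h14, h15⟩ := hcc v' hr n l₂ C' fun x hx => by
                have h16 := hl x (h5.mem (h8.mem (hk.mem hx)))
                rw [h2, monVal_append] at h16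
                exact h16.left
              exact ⟨C'', h14, fun _ => h15⟩
            · exact ⟨C', Cb.Le.refl _ _, fun h => absurd h hr⟩)
        have h14 : Dt (Fintype.card M * Cc + Cc) C₃
            fun x (v' : M) => if rk' v' < r then hv u v' (monVal l₂ x) else none := by
          refine Dt.fn (J := M) (g := fun v' x => if rk' v' < r then hv u v' (monVal l₂ x) else none)
            (c := Cc) (fun v' => ?_) (fun x y _ _ h => funext h) (by omega) (by omega)
          by_cases hr : rk' v' < r
          · simp only [hr, if_true]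
            exact (h13 v' hr).mono (Finset.single_le_sum (fun _ _ => Nat.zero_le _)
              (Finset.mem_univ v'))
          · simp only [hr, if_false]
            exact Dt.const fun _ _ _ _ => rfl
        refine ⟨C₃, ((h5.trans h8).trans h12).mono (by omega),
          ((h10.sub h12).two h14 fun x y hx hy h15 h16 => ?_).mono (by omega)⟩
        set v' := monVal (t :: l₁) y * v with hv''
        have hr : rk' v' < r := by
          rw [← hv']
          exact rk'_lt (h7 y (h8.mem (h12.mem hy)))
        have h17 := congrFun h16 v'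
        simp only [hr, if_true] at h17
        refine (hv_congr ?_ ?_).2 h17
        · rw [h2, monVal_append, mul_assoc, h15]
        · rw [h2, monVal_append, mul_assoc]
  obtain ⟨c, hc⟩ := key _ 1 rfl
  refine ⟨c, fun n l C hl => ?_⟩
  obtain ⟨C', h1, h2⟩ := hc n l C hl
  refine ⟨C', h1, h2.of fun x y hx hy hxy => ?_⟩
  have h3 : ∀ x, C'.In x → hv u 1 (monVal l x) = some (u * monVal l x) := by
    intro x hx
    unfold hv
    rw [mul_one, mul_one, if_pos (hl x (h1.mem hx))]
  rw [h3 x hx, h3 y hy] at hxy
  exact Option.some.inj hxy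

theorem nfd_all [Finite M] (hM : NonUniv M) (hB : BlockAp M) : ∀ u : M, NFD M u ∧ NFD' M u := by
  have key : ∀ r (u : M), Nat.card M - jr u = r → NFD M u ∧ NFD' M u := by
    intro r
    induction r using Nat.strong_induction_on with
    | _ r ihr =>
      intro u hu
      have h1 : ∀ v : M, (∃ a b, u = a * v * b) → (¬ ∃ a b, v = a * u * b) →
          NFD M v ∧ NFD' M v := by
        intro v h2 h3
        refine ihr _ ?_ v rfl
        have h4 := jr_lt h2 h3
        have h5 := jr_le v
        omega
      refine ⟨nfd_step hM hB u fun v h2 h3 => (h1 v h2 h3).2, nfd'_of_op ?_⟩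
      refine nfd_step hM.op hB.op (op u) fun v h2 h3 => ?_
      rw [← op_unop v]
      refine nfd'_op_of (h1 (unop v) ?_ ?_).1
      · obtain ⟨a, b, hab⟩ := h2
        refine ⟨unop b, unop a, ?_⟩
        have := congrArg unop hab
        simpa [mul_assoc] using this
      · rintro ⟨a, b, hab⟩
        refine h3 ⟨op b, op a, unop_injective ?_⟩
        simpa [mul_assoc] using hab
  exact fun u => key _ u rfl

/-- **Programs over a finite block-aperiodic monoid which is not universal are determined by
boundedly many questions in every subcube if boundedly many bits are fixed.** -/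
theorem det_cube [Finite M] (hM : NonUniv M) (hB : BlockAp M) : ∃ c : ℕ, ∀ (n : ℕ)
    (l : List (Fin n × M × M)) (C : Cb n), ∃ C', C.Le c C' ∧ Dt c C' (monVal l) := by
  classical
  have : Fintype M := Fintype.ofFinite M
  obtain ⟨D, hD, hno⟩ := noOne_fall hM
  obtain ⟨cA, hA⟩ := al_const hM hB
  obtain ⟨K, hK⟩ := Cb.force D (cA + 1) hD
  have key : ∀ r (u : M), rk u = r → ∃ c : ℕ, ∀ (n : ℕ) (l : List (Fin n × M × M)) (C : Cb n),
      ∃ C', C.Le c C' ∧ Dt c C' fun x => u * monVal l x := by
    intro r
    induction r using Nat.strong_induction_on with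
    | _ r ihr =>
      intro u hu
      obtain ⟨c₁, hc₁⟩ := (nfd_all hM hB u).1
      have h1 : ∀ u' : M, ∃ c : ℕ, rk u' < r → ∀ (n : ℕ) (l : List (Fin n × M × M)) (C : Cb n),
          ∃ C', C.Le c C' ∧ Dt c C' fun x => u' * monVal l x := by
        intro u'
        by_cases h : rk u' < r
        · obtain ⟨c, hc⟩ := ihr _ h u' rfl
          exact ⟨c, fun _ => hc⟩
        · exact ⟨0, fun h' => absurd h' h⟩
      choose cc hcc using h1
      set Cc := ∑ v', cc v' with hCc
      refine ⟨K + c₁ + Cc + (Fintype.card M * Cc + Cc), fun n l C => ?_⟩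
      by_cases hA' : ∀ x, C.In x → Al u (monVal l x)
      · obtain ⟨C', h2, h3⟩ := hc₁ n l C hA'
        exact ⟨C', h2.mono (by omega), h3.mono (by omega)⟩
      · obtain ⟨l₁, t, l₂, h2, h3, h4⟩ := prefix_split
          (Q := fun l : List (Fin n × M × M) => ∀ x, C.In x → Al u (monVal l x))
          (fun x _ => ⟨1, by show u * 1 * 1 = u; simp⟩) hA'
        push Not at h4
        have e1 : ∀ x, monVal (l₁ ++ [t]) x = monVal l₁ x * (if x t.1 then t.2.2 else t.2.1) := by
          intro x
          rw [monVal_append, monVal_cons]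
          show _ * (_ * 1) = _
          rw [mul_one]
        obtain ⟨C₁, h5, h6, h7⟩ := hK n (fun x => ¬ Al u (monVal (l₁ ++ [t]) x)) (hno n _ u)
          (fun C₁ => ∀ x y, C₁.In x → C₁.In y → (∀ a b, (Al u (a * monVal l₁ x * b) ↔
            Al u (a * monVal l₁ y * b))) ∧ x t.1 = y t.1)
          C (fun k C₁ hk => by
            obtain ⟨C₂, h8, h9⟩ := hA u n l₁ C₁
            obtain ⟨C₃, h10, h11⟩ := C₂.exists_fix t.1
            exact ⟨C₃, h8.trans h10, fun x y hx hy =>
              ⟨h9 x y (h10.mem hx) (h10.mem hy), h11 x y hx hy⟩⟩)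
          (fun k C₁ _ hP => by
            have h8 : ∀ x, C₁.In x → (Al u (monVal (l₁ ++ [t]) x) ↔
                Al u (monVal (l₁ ++ [t]) C₁.z)) := by
              intro x hx
              obtain ⟨h9, h10⟩ := hP x C₁.z hx C₁.in_z
              have h11 := h9 1 (if C₁.z t.1 then t.2.2 else t.2.1)
              rw [e1, e1, h10]
              rwa [one_mul, one_mul] at h11
            by_cases h9 : Al u (monVal (l₁ ++ [t]) C₁.z)
            · exact Or.inr fun x hx h => h ((h8 x hx).2 h9)
            · exact Or.inl fun x hx h => h9 ((h8 x hx).1 h)) h4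
        obtain ⟨C₂, h8, h9⟩ := hc₁ n l₁ C₁ fun x hx => h3 x (h5.mem hx)
        have h10 : Dt c₁ C₂ fun x => u * monVal (l₁ ++ [t]) x := h9.of fun x y hx hy hxy => by
          show u * monVal (l₁ ++ [t]) x = u * monVal (l₁ ++ [t]) y
          have h11 := (h6 x y (h8.mem hx) (h8.mem hy)).2
          rw [e1, e1, ← mul_assoc, ← mul_assoc, hxy, h11]
        obtain ⟨C₃, h12, h13⟩ := multi (fun u' C' => rk u' < r →
            Dt (cc u') C' fun x => u' * monVal l₂ x)
          (fun u' k C' C'' h h' hr => (h' hr).sub h) cc C₂ (fun u' k C' hk => by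
            by_cases hr : rk u' < r
            · obtain ⟨C'', h14, h15⟩ := hcc u' hr n l₂ C'
              exact ⟨C'', h14, fun _ => h15⟩
            · exact ⟨C', Cb.Le.refl _ _, fun h => absurd h hr⟩)
        have h14 : Dt (Fintype.card M * Cc + Cc) C₃
            fun x (u' : M) => if rk u' < r then some (u' * monVal l₂ x) else none := by
          refine Dt.fn (J := M) (g := fun u' x => if rk u' < r then some (u' * monVal l₂ x) else none)
            (c := Cc) (fun u' => ?_) (fun x y _ _ h => funext h) (by omega) (by omega)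
          by_cases hr : rk u' < r
          · simp only [hr, if_true]
            exact ((h13 u' hr).of fun x y _ _ h => by
              show some (u' * monVal l₂ x) = some (u' * monVal l₂ y)
              rw [h]).mono (Finset.single_le_sum (fun _ _ => Nat.zero_le _) (Finset.mem_univ u'))
          · simp only [hr, if_false]
            exact Dt.const fun _ _ _ _ => rfl
        refine ⟨C₃, ((h5.trans h8).trans h12).mono (by omega),
          ((h10.sub h12).two h14 fun x y hx hy h15 h16 => ?_).mono (by omega)⟩
        set u' := u * monVal (l₁ ++ [t]) y with hu''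
        have hr : rk u' < r := by
          rw [← hu]
          exact rk_lt' (h7 y (h8.mem (h12.mem hy)))
        have h17 := congrFun h16 u'
        simp only [hr, if_true] at h17
        have h18 : ∀ z, u * monVal l z = (u * monVal (l₁ ++ [t]) z) * monVal l₂ z := by
          intro z
          rw [h2, show l₁ ++ t :: l₂ = (l₁ ++ [t]) ++ l₂ by simp, monVal_append, ← mul_assoc]
        show u * monVal l x = u * monVal l y
        rw [h18, h18, h15, ← hu'']
        exact Option.some.inj h17
  obtain ⟨c, hc⟩ := key _ 1 rfl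
  refine ⟨c, fun n l C => ?_⟩
  obtain ⟨C', h1, h2⟩ := hc n l C
  refine ⟨C', h1, h2.of fun x y _ _ h3 => ?_⟩
  rwa [one_mul, one_mul] at h3

end Pool.Agent.MP_ca1109_lc.Mon
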