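import Pool.Agent.MP_ca1109_lc.Mon.G7

/-!
# Generators for programs over block-aperiodic monoids which are not universal
-/

namespace Pool.Agent.MP_ca1109_lc.Mon

open Pool.Agent.H66 Pool.Agent.MP_ca1109_lc.Mpg Pool.Agent.MP_ca1109_lc.Hyb
  Pool.Agent.MP_ca1109_lc.Agp Finset

variable {n : ℕ}

theorem LT.two {K K₁ K₂ : ℕ} (i : Fin n) (hK : K₁ + K₂ + 1 ≤ K) {f g h : (Fin n → Bool) → Bool}
    (hf : LT K₁ K₁ f) (hg : LT K₂ K₂ g)
    (hh : ∀ x y, x i = y i → f x = f y → g x = g y → h x = h y) : LT K K h := by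
  obtain ⟨L, h1, h2, h3⟩ := hf
  obtain ⟨L', h1', h2', h3'⟩ := hg
  refine ⟨(fun x => x i = true) :: (L ++ L'), ?_, fun A hA => ?_, fun x y hxy => hh x y ?_ ?_ ?_⟩
  · rw [List.length_cons, List.length_append]; omega
  · rcases List.mem_cons.1 hA with rfl | hA
    · exact Or.inl (Cond.bit (by omega) i)
    · rcases List.mem_append.1 hA with hA | hA
      · exact (h2 A hA).mono (by omega)
      · exact (h2' A hA).mono (by omega)
  · have := hxy (fun x => x i = true) List.mem_cons_self
    cases hx : x i <;> cases hy : y i <;> simp_all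
  · exact h3 x y fun A hA => hxy A (List.mem_cons_of_mem _ (List.mem_append_left _ hA))
  · exact h3' x y fun A hA => hxy A (List.mem_cons_of_mem _ (List.mem_append_right _ hA))

/-- `T` is close to a function of `K` conditions on the cube. -/
def CApx (K : ℕ) (δ : ℝ) (C : Cb n) (T : (Fin n → Bool) → Bool) : Prop :=
  ∃ T' B : (Fin n → Bool) → Bool, LT K K T' ∧ LT K K B ∧
    (∀ x, C.In x → B x = false → T x = T' x) ∧ C.mu (fun x => B x = true) ≤ δ

theorem CApx.mono {K K' : ℕ} {δ δ' : ℝ} {C : Cb n} {T : (Fin n → Bool) → Bool} (h : CApx K δ C T)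
    (hK : K ≤ K') (hδ : δ ≤ δ') : CApx K' δ' C T := by
  obtain ⟨T', B, h1, h2, h3, h4⟩ := h
  exact ⟨T', B, h1.mono hK hK, h2.mono hK hK, h3, h4.trans hδ⟩

theorem CApx.split {K₁ K₂ : ℕ} {δ₁ δ₂ : ℝ} {C : Cb n} {T : (Fin n → Bool) → Bool} {i : Fin n}
    (hi : i ∉ C.J) (b : Bool) (h1 : CApx K₁ δ₁ (C.fix i b) T) (h2 : CApx K₂ δ₂ (C.fix i (!b)) T) :
    CApx (K₁ + K₂ + 1) ((δ₁ + δ₂) / 2) C T := by
  obtain ⟨T₁, B₁, h3, h4, h5, h6⟩ := h1
  obtain ⟨T₂, B₂, h7, h8, h9, h10⟩ := h2
  refine ⟨fun x => if x i = b then T₁ x else T₂ x, fun x => if x i = b then B₁ x else B₂ x,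
    LT.two i le_rfl h3 h7 fun x y e1 e2 e3 => by simp only [e1, e2, e3],
    LT.two i le_rfl h4 h8 fun x y e1 e2 e3 => by simp only [e1, e2, e3], fun x hx hB => ?_, ?_⟩
  · by_cases hxi : x i = b
    · simp only [hxi, if_true] at hB ⊢
      exact h5 x ((Cb.in_fix hi).2 ⟨hx, hxi⟩) hB
    · simp only [hxi, if_false] at hB ⊢
      refine h9 x ((Cb.in_fix hi).2 ⟨hx, ?_⟩) hB
      revert hxi
      cases x i <;> cases b <;> simp
  · rw [Cb.mu_split hi _ b]
    have e1 : (C.fix i b).mu (fun x => (if x i = b then B₁ x else B₂ x) = true) =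
        (C.fix i b).mu (fun x => B₁ x = true) := by
      unfold Cb.mu
      congr 1
      funext x
      have h11 : (C.fix i b).ov x i = b := ((Cb.in_fix hi).1 ((C.fix i b).in_ov x)).2
      simp only [h11, if_true]
    have e2 : (C.fix i (!b)).mu (fun x => (if x i = b then B₁ x else B₂ x) = true) =
        (C.fix i (!b)).mu (fun x => B₂ x = true) := by
      unfold Cb.mu
      congr 1
      funext x
      have h11 : (C.fix i (!b)).ov x i = !b := ((Cb.in_fix hi).1 ((C.fix i (!b)).in_ov x)).2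
      have h12 : ¬ ((C.fix i (!b)).ov x i = b) := by
        rw [h11]
        cases b <;> simp
      simp only [h12, if_false]
    rw [e1, e2]
    linarith

/-- If in every subcube boundedly many bits can be fixed such that `T` is determined by boundedly
many questions then `T` is close to a function of boundedly many conditions. -/
theorem cube_apx (c : ℕ) : ∀ k : ℕ, ∃ K : ℕ, ∀ (n : ℕ) (T : (Fin n → Bool) → Bool),
    (∀ C : Cb n, ∃ C', C.Le c C' ∧ Dt c C' T) → ∀ C : Cb n,
      CApx K ((1 - (1 / 2) ^ c) ^ k) C T := by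
  classical
  intro k
  induction k with
  | zero =>
    refine ⟨0, fun n T _ C => ⟨fun _ => true, fun _ => true, LT.const true, LT.const true,
      fun x _ h => absurd h (by simp), ?_⟩⟩
    rw [pow_zero]
    exact Cb.mu_le_one _ _
  | succ k ih =>
    obtain ⟨K, hK⟩ := ih
    have hθ0 : (0 : ℝ) ≤ 1 - (1 / 2) ^ c := by
      have : (1 / 2 : ℝ) ^ c ≤ 1 := pow_le_one₀ (by norm_num) (by norm_num)
      linarith
    refine ⟨c + c * (K + 1), fun n T hT C => ?_⟩
    obtain ⟨C', hC', hDt⟩ := hT C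
    have key : ∀ r (C : Cb n), C.J ⊆ C'.J → C.In C'.z → (C'.J \ C.J).card = r →
        CApx (c + r * (K + 1)) ((1 - (1 / 2) ^ r) * (1 - (1 / 2) ^ c) ^ k) C T := by
      intro r
      induction r with
      | zero =>
        intro C h1 h2 h3
        have h4 : C'.J = C.J := by
          refine Finset.Subset.antisymm ?_ h1
          rw [Finset.card_eq_zero] at h3
          exact Finset.sdiff_eq_empty_iff_subset.1 h3
        have h5 : ∀ x, C.In x → C'.In x := fun x hx i hi => by
          rw [h4] at hi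
          rw [hx i hi, h2 i hi]
        obtain ⟨L, hL1, hL2, hL3⟩ := hDt
        refine ⟨fun x => decide (∃ y, C'.In y ∧ T y = true ∧ ∀ A ∈ L, (A y ↔ A x)), fun _ => false,
          ⟨L, by omega, fun A hA => (hL2 A hA).mono (by omega), fun x y hxy => ?_⟩,
          LT.const false, fun x hx _ => ?_, ?_⟩
        · refine decide_eq_decide.2 (exists_congr fun z => and_congr_right fun _ =>
            and_congr_right fun _ => forall_congr' fun A => forall_congr' fun hA => ?_)
          rw [hxy A hA]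
        · rw [Bool.eq_iff_iff]
          show T x = true ↔ decide _ = true
          rw [decide_eq_true_iff]
          constructor
          · exact fun h => ⟨x, h5 x hx, h, fun _ _ => Iff.rfl⟩
          · rintro ⟨y, hy, h6, h7⟩
            rw [← hL3 y x hy (h5 x hx) h7, h6]
        · rw [Cb.mu_eq_zero]
          · simp
          · simp
      | succ r ihr =>
        intro C h1 h2 h3
        obtain ⟨i, hi⟩ : (C'.J \ C.J).Nonempty := by
          rw [← Finset.card_pos, h3]; exact Nat.succ_pos r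
        have hi1 : i ∈ C'.J := (Finset.mem_sdiff.1 hi).1
        have hi2 : i ∉ C.J := (Finset.mem_sdiff.1 hi).2
        have h5 : (C'.J \ (C.fix i (C'.z i)).J).card = r := by
          show (C'.J \ insert i C.J).card = r
          rw [Finset.sdiff_insert, Finset.card_erase_of_mem hi, h3]
          rfl
        have h6 := ihr (C.fix i (C'.z i)) (Finset.insert_subset hi1 h1)
          ((Cb.in_fix hi2).2 ⟨h2, rfl⟩) h5
        refine (h6.split hi2 _ (hK n T hT (C.fix i (!(C'.z i))))).mono ?_ (le_of_eq ?_)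
        · rw [Nat.succ_mul]; omega
        · rw [pow_succ (1 / 2 : ℝ) r]; ring
    have hr : (C'.J \ C.J).card ≤ c := by
      have h8 := Finset.card_sdiff_add_card_eq_card hC'.1
      have h9 := hC'.2.2
      omega
    refine (key _ C hC'.1 hC'.2.1 rfl).mono (by gcongr) ?_
    rw [pow_succ, mul_comm]
    refine mul_le_mul_of_nonneg_left ?_ (pow_nonneg hθ0 k)
    have : (1 / 2 : ℝ) ^ c ≤ (1 / 2) ^ (C'.J \ C.J).card :=
      pow_le_pow_of_le_one (by norm_num) (by norm_num) hr
    linarith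

/-- Generators for programs over block-aperiodic monoids which are not universal. -/
theorem logGen_block {M : Type} [Monoid M] [Finite M] (hM : NonUniv M) (hB : BlockAp M) {ε : ℝ}
    (hε : 0 < ε) : LogGen (MonTest M) ε := by
  obtain ⟨c, hc⟩ := det_cube hM hB
  have h1 : (1 - (1 / 2 : ℝ) ^ c) < 1 := by
    have : (0 : ℝ) < (1 / 2) ^ c := by positivity
    linarith
  obtain ⟨k, hk⟩ := exists_pow_lt_of_lt_one (show 0 < ε / 4 by positivity) h1
  obtain ⟨K, hK⟩ := cube_apx c k
  refine LogGen.of_apx hε ⟨K, K, fun n T hT => ?_⟩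
  obtain ⟨l, A, hA⟩ := hT
  obtain ⟨T', B, h2, h3, h4, h5⟩ := hK n T (fun C => by
    obtain ⟨C', h2, h3⟩ := hc n l C
    exact ⟨C', h2, h3.of fun x y _ _ h => by rw [hA, hA, h]⟩) ⟨∅, fun _ => false⟩
  refine ⟨T', B, h2, h3, fun x => h4 x (fun i hi => absurd hi (Finset.notMem_empty i)), ?_⟩
  have h6 : Cb.mu (⟨∅, fun _ => false⟩ : Cb n) (fun x => B x = true) = pr fun x => B x = true := by
    unfold Cb.mu
    congr 1
  rw [← h6]
  exact h5.trans hk.le

/-- Monoids in DO are block-aperiodic. -/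
theorem DO.blockAp {M : Type} [Monoid M] [Finite M] (hM : DO M) : BlockAp M := by
  intro e f g h hee hff hef hfe hgf hfg hgh hhg
  have h1 : e = e * g * (h * e) := by
    calc e = e * f * e := by rw [hef, hee]
      _ = e * (g * h) * e := by rw [hgh]
      _ = _ := by simp only [mul_assoc]
  obtain ⟨w, hw⟩ := DO.mul hM (g := e) (a := g) (b := e) (x := e) (y := h * e) (x' := 1) (y' := 1)
    hee h1 (by rw [one_mul, mul_one])
  refine ⟨⟨1, w, ?_⟩, ⟨1, g * e, ?_⟩⟩
  · rw [one_mul, mul_assoc e g e, ← hw]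
  · rw [one_mul, mul_assoc e g e]

theorem Aper.blockAp {M : Type} [Monoid M] (hM : Aper M) : BlockAp M := by
  intro e f g h hee hff hef hfe hgf hfg hgh hhg
  have h1 : g = f := by
    obtain ⟨k, hk⟩ := hM g
    have h2 : ∀ j, g ^ (j + 1) * h ^ j = g := by
      intro j
      induction j with
      | zero => simp
      | succ j ih =>
        calc g ^ (j + 1 + 1) * h ^ (j + 1) = g ^ (j + 1) * (g * h) * h ^ j := by
              rw [pow_succ g (j + 1), pow_succ' h j]; simp only [mul_assoc]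
          _ = g ^ j * (g * f) * h ^ j := by rw [hgh, pow_succ g j]; simp only [mul_assoc]
          _ = g ^ (j + 1) * h ^ j := by rw [hgf, ← pow_succ]
          _ = g := ih
    have h3 : ∀ j, g ^ (j + 1) * h ^ (j + 1) = f := by
      intro j
      rw [pow_succ h j, ← mul_assoc, h2 j, hgh]
    calc g = g ^ (k + 1 + 1) * h ^ (k + 1) := (h2 (k + 1)).symm
      _ = g * (g ^ (k + 1) * h ^ (k + 1)) := by rw [pow_succ' g (k + 1), mul_assoc]
      _ = g * (g ^ k * h ^ (k + 1)) := by rw [hk]
      _ = g ^ (k + 1) * h ^ (k + 1) := by rw [pow_succ' g k, mul_assoc]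
      _ = f := h3 k
  rw [h1, hef, hee]
  exact ⟨⟨1, 1, by simp⟩, 1, 1, by simp⟩

/-- **The dichotomy.** -/
theorem block_dichotomy (M : Type) [Monoid M] [Finite M] (hB : BlockAp M ∨ NoBrandt M) :
    ((∃ n T, ¬ MonTest M n T) → ∀ ε > 0, LogGen (MonTest M) ε ∧
      GenExists (fun n C => MonTest M n C.eval) ε) ∧
    ((∀ n T, MonTest M n T) → (∀ ε < 1, ¬ LogGen (MonTest M) ε) ∧
      ∀ ε δ : ℝ, 0 < ε → ε < 1 → 0 < δ → δ < 1 →
        (GenExists (fun n C => MonTest M n C.eval) ε ↔ GenExists (fun _ _ => True) δ)) ∧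
    (NoBrandt M → ((∀ n T, MonTest M n T) ↔ ¬ (DO M ∧ NilSub M))) := by
  have h0 : NoBrandt M → NonUniv M → DO M ∧ NilSub M := by
    intro h1 h2
    by_contra h3
    obtain ⟨n, T, hT⟩ := h2
    exact hT (univ_of h1 h3 n T)
  refine ⟨fun h ε hε => ?_, fun h1 => ?_, fun hN => ⟨fun h h' => ?_, univ_of hN⟩⟩
  · have h1 : LogGen (MonTest M) ε := by
      rcases hB with hB | hB
      · exact logGen_block h hB hε
      · exact logGen_monoid (h0 hB h).1 (h0 hB h).2 hε
    exact ⟨h1, h1.toCircuits⟩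
  · refine ⟨fun ε hε => not_logGen h1 hε, fun ε δ hε hε' hδ hδ' => ?_⟩
    have h2 := threshold.1
    have h3 : GenExists (fun n C => MonTest M n C.eval) ε ↔ GenExists (fun _ _ => True) ε :=
      ⟨fun h => h.weaken (fun n C _ => h1 n C.eval) le_rfl,
        fun h => h.weaken (fun _ _ _ => trivial) le_rfl⟩
    rw [h3, ← h2 ε ε hε hε' hε hε', h2 ε δ hε hε' hδ hδ']
  · exact not_logGen h (by norm_num : (1 / 2 : ℝ) < 1)
      (logGen_monoid h'.1 h'.2 (by norm_num : (0 : ℝ) < 1 / 2))

end Pool.Agent.MP_ca1109_lc.Mon
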