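import Pool.Agent.MP_ca1109_lc.Mon.G8
import Pool.Agent.MP_ca1109_lc.Mon.D1

/-!
# Nested decision lists over functions of thresholds and programs
-/

namespace Pool.Agent.MP_ca1109_lc.Mon

open Pool.Agent.H66 Pool.Agent.MP_ca1109_lc.Mpg Pool.Agent.MP_ca1109_lc.Hyb
  Pool.Agent.MP_ca1109_lc.Agp Finset

/-- All tests in `𝒯` are close to functions of boundedly many conditions. -/
def UApx (𝒯 : ∀ n : ℕ, ((Fin n → Bool) → Bool) → Prop) : Prop :=
  ∀ δ : ℝ, 0 < δ → ∃ d K : ℕ, ∀ n T, 𝒯 n T → Apx d K δ T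

theorem UApx.logGen {𝒯 : ∀ n : ℕ, ((Fin n → Bool) → Bool) → Prop} (h : UApx 𝒯) {ε : ℝ}
    (hε : 0 < ε) : LogGen 𝒯 ε :=
  LogGen.of_apx hε (h _ (by positivity))

theorem UApx.tree {𝒯 : ∀ n : ℕ, ((Fin n → Bool) → Bool) → Prop} (h : UApx 𝒯) (d k r : ℕ) :
    UApx fun n => Tree (𝒯 n) d k r := by
  induction r with
  | zero =>
    intro δ hδ
    obtain ⟨d', K, hK⟩ := h δ hδ
    refine ⟨d', K, fun n T hT => ?_⟩
    cases hT with
    | base h' => exact hK n T h'
  | succ r ih =>
    intro δ hδ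
    obtain ⟨η, hη, hlight⟩ := light_small (d + k) (half_pos hδ)
    obtain ⟨m, hm⟩ := exists_nat_ge (1 / η)
    have h1 : 0 < δ / (4 * (m + 1)) := by positivity
    have h2 : 0 < δ / (k + 1) := by positivity
    obtain ⟨K₁, hK₁⟩ := inner (k + 1) h1
    obtain ⟨d₂, K₂, hK₂⟩ := ih _ h1
    obtain ⟨d₃, K₃, hK₃⟩ := ih _ h2
    refine ⟨d + 1 + d₂ + d₃, max ((m + 1) * 5 * (K₂ + K₁ + k + 1)) (k * K₃), fun n T hT => ?_⟩
    cases hT with
    | comb T hT F =>
      refine (Apx.comb (fun i => hK₃ n _ (hT i)) F).mono (by omega) (le_max_right _ _) ?_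
      rw [mul_div_assoc', div_le_iff₀ (by positivity)]
      nlinarith
    | list E hE T hT T' hT' U hU hU' =>
      refine (Apx.list (d := d + 1 + d₂ + d₃) (k := k) (by omega) hη h1.le h1.le hm (fun i => ?_)
        (hlight n _ E fun i => ?_) (fun E' hE' => hK₁ n _ E' hE')
        (fun i => (hK₂ n _ (hT i)).mono (by omega) le_rfl le_rfl)
        ((hK₂ n _ hT').mono (by omega) le_rfl le_rfl) hU hU').mono le_rfl (le_max_left _ _) ?_
      · rcases hE i with ⟨Γ, inst, P, hP, h⟩ | h
        · exact Or.inl ⟨Γ, inst, P, lowDeg_mono (by omega) hP, h⟩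
        · exact Or.inr h
      · rcases hE i with h | h
        · exact h.noOne (by omega)
        · exact h.noOne (by omega)
      · have h7 : ((m : ℝ) + 1) * (δ / (4 * (m + 1))) = δ / 4 := by
          field_simp
        rw [h7]
        linarith

theorem UApx.withThr {𝒯 : ∀ n : ℕ, ((Fin n → Bool) → Bool) → Prop} (h : UApx 𝒯) (d k : ℕ) :
    UApx (WithThr 𝒯 d k) := by
  classical
  intro δ hδ
  obtain ⟨d', K, hK⟩ := h (δ / (2 * k + 1)) (by positivity)
  refine ⟨d + d', (k + k) * (K + 1), fun n T hT => ?_⟩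
  obtain ⟨p, U, F, hp, hU, hT⟩ := hT
  let S : Fin (k + k) → (Fin n → Bool) → Bool :=
    Fin.addCases (fun i x => decide (0 < p i x)) U
  have hS : ∀ i, Apx (d + d') (K + 1) (δ / (2 * k + 1)) (S i) := by
    intro i
    refine Fin.addCases (fun i => ?_) (fun i => ?_) i
    · have e : S (Fin.castAdd k i) = fun x => decide (0 < p i x) := Fin.addCases_left _
      rw [e]
      refine Apx.of (by positivity) ((LT.cond (d := d) (A := fun x => 0 < p i x)
        (Or.inr ⟨p i, hp i, fun _ => Iff.rfl⟩) fun x => ?_).mono (by omega) (by omega))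
      exact decide_eq_true_iff
    · have e : S (Fin.natAdd k i) = U i := Fin.addCases_right _
      rw [e]
      exact (hK n _ (hU i)).mono (by omega) (by omega) le_rfl
  have h1 := Apx.comb hS (fun b => decide (F (fun i => b (Fin.castAdd k i) = true)
    (fun i => b (Fin.natAdd k i))))
  have h2 : T = fun x => decide (F (fun i => S (Fin.castAdd k i) x = true)
      (fun i => S (Fin.natAdd k i) x)) := by
    funext x
    rw [Bool.eq_iff_iff, hT, decide_eq_true_iff]
    have e1 : (fun i => S (Fin.castAdd k i) x = true) = fun i => 0 < p i x := by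
      funext i
      have e : S (Fin.castAdd k i) = fun x => decide (0 < p i x) := Fin.addCases_left _
      rw [e]
      exact propext decide_eq_true_iff
    have e2 : (fun i => S (Fin.natAdd k i) x) = fun i => U i x := by
      funext i
      have e : S (Fin.natAdd k i) = U i := Fin.addCases_right _
      rw [e]
    rw [e1, e2]
  rw [h2]
  refine h1.mono le_rfl le_rfl ?_
  push_cast
  rw [mul_div_assoc', div_le_iff₀ (by positivity)]
  nlinarith

/-- Programs over block-aperiodic monoids which are not universal. -/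
theorem uapx_block {M : Type} [Monoid M] [Finite M] (hM : NonUniv M) (hB : BlockAp M) :
    UApx (MonTest M) := by
  intro δ hδ
  obtain ⟨c, hc⟩ := det_cube hM hB
  have h1 : (1 - (1 / 2 : ℝ) ^ c) < 1 := by
    have : (0 : ℝ) < (1 / 2) ^ c := by positivity
    linarith
  obtain ⟨k, hk⟩ := exists_pow_lt_of_lt_one hδ h1
  obtain ⟨K, hK⟩ := cube_apx c k
  refine ⟨K, K, fun n T hT => ?_⟩
  obtain ⟨l, A, hA⟩ := hT
  obtain ⟨T', B, h2, h3, h4, h5⟩ := hK n T (fun C => by
    obtain ⟨C', h2, h3⟩ := hc n l C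
    exact ⟨C', h2, h3.of fun x y _ _ h => by rw [hA, hA, h]⟩) ⟨∅, fun _ => false⟩
  refine ⟨T', B, h2, h3, fun x => h4 x (fun i hi => absurd hi (Finset.notMem_empty i)), ?_⟩
  have h6 : Cb.mu (⟨∅, fun _ => false⟩ : Cb n) (fun x => B x = true) = pr fun x => B x = true := by
    unfold Cb.mu
    congr 1
  rw [← h6]
  exact h5.trans hk.le

/-- Programs over monoids in DO with nilpotent subgroups. -/
theorem uapx_do {M : Type} [Monoid M] [Finite M] (hM : DO M) (hN : NilSub M) :
    UApx (MonTest M) := by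
  intro δ hδ
  obtain ⟨d, k, r, h⟩ := mon_tree hM hN
  obtain ⟨K, hK⟩ := tree_apx d k k r hδ
  refine ⟨d + 1, K, fun n T hT => hK n T ?_⟩
  have h1 := Tree.bind (𝒯' := MixedTest d k n) (r' := 0) le_rfl le_rfl
    (fun c => (Tree.base (mixed_of_group (groupTest_const c))).mono le_rfl)
    (fun T hT => Tree.base (mixed_of_group hT)) (h n T hT)
  rwa [zero_add] at h1

/-- If all functions are computed then there is a program which depends on more than `c` bits. -/
theorem parity_flip (c : ℕ) : ∃ T : (Fin (c + 1) → Bool) → Bool, ∀ (S : Finset (Fin (c + 1)))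
    (z : Fin (c + 1) → Bool), S.card ≤ c → ∃ x y, (∀ i ∈ S, x i = z i) ∧ (∀ i ∈ S, y i = z i) ∧
      T x ≠ T y := by
  classical
  refine ⟨fun x => decide ((∑ i, if x i = true then (1 : ZMod 2) else 0) = 0), fun S z hS => ?_⟩
  obtain ⟨i, hi⟩ : ∃ i, i ∉ S := by
    by_contra hcon
    push Not at hcon
    have h1 : S = univ := Finset.eq_univ_iff_forall.2 hcon
    rw [h1, Finset.card_univ, Fintype.card_fin] at hS
    omega
  refine ⟨Function.update z i true, Function.update z i false, fun j hj => ?_, fun j hj => ?_, ?_⟩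
  · exact Function.update_of_ne (fun h => hi (by rw [← h]; exact hj)) _ _
  · exact Function.update_of_ne (fun h => hi (by rw [← h]; exact hj)) _ _
  · have h1 : ∀ b, (∑ j, if Function.update z i b j = true then (1 : ZMod 2) else 0) =
        (if b = true then 1 else 0) + ∑ j ∈ univ.erase i, if z j = true then (1 : ZMod 2) else 0 := by
      intro b
      rw [← Finset.add_sum_erase _ _ (Finset.mem_univ i), Function.update_self]
      congr 1
      refine Finset.sum_congr rfl fun j hj => ?_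
      rw [Function.update_of_ne (Finset.ne_of_mem_erase hj)]
    show decide _ ≠ decide _
    rw [h1, h1]
    generalize (∑ j ∈ univ.erase i, if z j = true then (1 : ZMod 2) else 0) = s
    revert s
    decide

/-- Aperiodic monoids: the programs compute all functions or they become constant if boundedly many
bits are fixed. -/
theorem aper_iff {M : Type} [Monoid M] [Finite M] (ha : Aper M) :
    (∃ n T, ¬ MonTest M n T) ↔ ∃ c : ℕ, ∀ n T, MonTest M n T →
      ∃ (S : Finset (Fin n)) (z : Fin n → Bool), S.card ≤ c ∧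
        ∀ x y, (∀ i ∈ S, x i = z i) → (∀ i ∈ S, y i = z i) → T x = T y := by
  constructor
  · intro h
    obtain ⟨c, hc⟩ := const_cube h ha
    refine ⟨c, fun n T hT => ?_⟩
    obtain ⟨l, A, hA⟩ := hT
    obtain ⟨C', h1, h2⟩ := hc n l ⟨∅, fun _ => false⟩
    refine ⟨C'.J, C'.z, ?_, fun x y hx hy => ?_⟩
    · have h3 := h1.2.2
      rw [Finset.card_empty, zero_add] at h3
      exact h3
    · rw [hA, hA, h2 x y hx hy]
  · rintro ⟨c, hc⟩
    by_contra hcon
    push Not at hcon
    obtain ⟨T, hT⟩ := parity_flip c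
    obtain ⟨S, z, h1, h2⟩ := hc _ T (hcon _ T)
    obtain ⟨x, y, hx, hy, hxy⟩ := hT S z h1
    exact hxy (h2 x y hx hy)

/-- **The dichotomy.** -/
theorem full_dichotomy (M : Type) [Monoid M] [Finite M] (hB : Aper M ∨ BlockAp M ∨ NoBrandt M) :
    ((∃ n T, ¬ MonTest M n T) → ∀ (d k : ℕ) (ε : ℝ), 0 < ε →
      LogGen (WithThr (MonTest M) d k) ε ∧
        GenExists (fun n C => WithThr (MonTest M) d k n C.eval) ε) ∧
    ((∀ n T, MonTest M n T) → (∀ ε < 1, ¬ LogGen (MonTest M) ε) ∧
      ∀ ε δ : ℝ, 0 < ε → ε < 1 → 0 < δ → δ < 1 →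
        (GenExists (fun n C => MonTest M n C.eval) ε ↔ GenExists (fun _ _ => True) δ)) ∧
    (NoBrandt M → ((∀ n T, MonTest M n T) ↔ ¬ (DO M ∧ NilSub M))) ∧
    (Aper M → ((∃ n T, ¬ MonTest M n T) ↔ ∃ c : ℕ, ∀ n T, MonTest M n T →
      ∃ (S : Finset (Fin n)) (z : Fin n → Bool), S.card ≤ c ∧
        ∀ x y, (∀ i ∈ S, x i = z i) → (∀ i ∈ S, y i = z i) → T x = T y)) := by
  have h0 : NoBrandt M → NonUniv M → DO M ∧ NilSub M := by
    intro h1 h2
    by_contra h3
    obtain ⟨n, T, hT⟩ := h2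
    exact hT (univ_of h1 h3 n T)
  have hB' : BlockAp M ∨ NoBrandt M := by
    rcases hB with h | h | h
    · exact Or.inl h.blockAp
    · exact Or.inl h
    · exact Or.inr h
  have h2 := block_dichotomy M hB'
  refine ⟨fun h d k ε hε => ?_, h2.2.1, h2.2.2, aper_iff⟩
  have h1 : UApx (MonTest M) := by
    rcases hB' with hB | hB
    · exact uapx_block h hB
    · exact uapx_do (h0 hB h).1 (h0 hB h).2
  have h3 := (h1.withThr d k).logGen hε
  exact ⟨h3, h3.toCircuits⟩

end Pool.Agent.MP_ca1109_lc.Mon
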